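import Mathlib

set_option autoImplicit false

/-!
# Andrews-Curtis classes of finite multisets of elements of a group (MP_fabc18_al)

Moves without stabilization: an element is inverted, multiplied by another one, or conjugated by
an arbitrary element of the group. `ACq P` is the type of classes.
-/

namespace Pool.Agent.H46.NE

variable {P : Type*} [Group P]

/-- one Andrews-Curtis move (without stabilization) on a finite multiset -/
inductive ACs : Multiset P → Multiset P → Prop
  | inv (a : P) (C : Multiset P) : ACs (a ::ₘ C) (a⁻¹ ::ₘ C)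
  | mul (a b : P) (C : Multiset P) : ACs (a ::ₘ b ::ₘ C) ((a * b) ::ₘ b ::ₘ C)
  | conj (a g : P) (C : Multiset P) : ACs (a ::ₘ C) ((g * a * g⁻¹) ::ₘ C)

variable (P) in
/-- Andrews-Curtis classes of finite multisets -/
def ACq : Type _ := Quot (ACs (P := P))

lemma ACs.cons {C C' : Multiset P} (q : P) (h : ACs C C') : ACs (q ::ₘ C) (q ::ₘ C') := by
  cases h with
  | inv a C => rw [Multiset.cons_swap q a, Multiset.cons_swap q a⁻¹]; exact ACs.inv _ _
  | mul a b C =>
    rw [Multiset.cons_swap q a, Multiset.cons_swap q b, Multiset.cons_swap q (a * b),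
      Multiset.cons_swap q b]
    exact ACs.mul _ _ _
  | conj a g C =>
    rw [Multiset.cons_swap q a, Multiset.cons_swap q (g * a * g⁻¹)]; exact ACs.conj _ _ _

/-- the class of a multiset -/
def ACq.mk (C : Multiset P) : ACq P := Quot.mk _ C

/-- one more element -/
def ACq.cons (q : P) : ACq P → ACq P :=
  Quot.map (q ::ₘ ·) (fun _ _ h => ACs.cons q h)

@[simp] lemma ACq.cons_mk (q : P) (C : Multiset P) : ACq.cons q (ACq.mk C) = ACq.mk (q ::ₘ C) :=
  rfl

lemma ACq.sound {C C' : Multiset P} (h : ACs C C') : ACq.mk C = ACq.mk C' := Quot.sound h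

lemma ACq.exact {C C' : Multiset P} (h : ACq.mk C = ACq.mk C') : Relation.EqvGen ACs C C' :=
  Quot.eqvGen_exact h

lemma ACq.ind {p : ACq P → Prop} (h : ∀ C, p (ACq.mk C)) (l : ACq P) : p l :=
  Quot.ind h l

lemma normalClosure_le_aux {S T : Set P} (h : ∀ x ∈ S, x ∈ Subgroup.normalClosure T) :
    Subgroup.normalClosure S ≤ Subgroup.normalClosure T :=
  Subgroup.normalClosure_le_normal h

lemma ACs.nc_eq {C C' : Multiset P} (h : ACs C C') :
    Subgroup.normalClosure {x | x ∈ C} = Subgroup.normalClosure {x | x ∈ C'} := by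
  have hs : ∀ {T : Set P} {x : P}, x ∈ T → x ∈ Subgroup.normalClosure T :=
    fun hx => Subgroup.subset_normalClosure hx
  cases h with
  | inv a C =>
    apply le_antisymm
    · apply normalClosure_le_aux
      intro x hx
      simp only [Multiset.mem_cons, Set.mem_setOf_eq] at hx
      rcases hx with rfl | hx
      · have := inv_mem (hs (T := {y | y ∈ x⁻¹ ::ₘ C}) (x := x⁻¹) (by simp))
        simpa using this
      · exact hs (by simp [hx])
    · apply normalClosure_le_aux
      intro x hx
      simp only [Multiset.mem_cons, Set.mem_setOf_eq] at hx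
      rcases hx with rfl | hx
      · exact inv_mem (hs (by simp))
      · exact hs (by simp [hx])
  | mul a b C =>
    apply le_antisymm
    · apply normalClosure_le_aux
      intro x hx
      simp only [Multiset.mem_cons, Set.mem_setOf_eq] at hx
      rcases hx with rfl | rfl | hx
      · have h1 := hs (T := {y | y ∈ (x * b) ::ₘ b ::ₘ C}) (x := x * b) (by simp)
        have h2 := hs (T := {y | y ∈ (x * b) ::ₘ b ::ₘ C}) (x := b) (by simp)
        have := mul_mem h1 (inv_mem h2)
        simpa using this
      · exact hs (by simp)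
      · exact hs (by simp [hx])
    · apply normalClosure_le_aux
      intro x hx
      simp only [Multiset.mem_cons, Set.mem_setOf_eq] at hx
      rcases hx with rfl | rfl | hx
      · exact mul_mem (hs (by simp)) (hs (by simp))
      · exact hs (by simp)
      · exact hs (by simp [hx])
  | conj a g C =>
    apply le_antisymm
    · apply normalClosure_le_aux
      intro x hx
      simp only [Multiset.mem_cons, Set.mem_setOf_eq] at hx
      rcases hx with rfl | hx
      · have h1 := hs (T := {y | y ∈ (g * x * g⁻¹) ::ₘ C}) (x := g * x * g⁻¹) (by simp)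
        have := Subgroup.normalClosure_normal.conj_mem _ h1 g⁻¹
        simpa [mul_assoc] using this
      · exact hs (by simp [hx])
    · apply normalClosure_le_aux
      intro x hx
      simp only [Multiset.mem_cons, Set.mem_setOf_eq] at hx
      rcases hx with rfl | hx
      · exact Subgroup.normalClosure_normal.conj_mem _ (hs (by simp)) g
      · exact hs (by simp [hx])

/-- the normal closure of a class -/
def ACq.nc : ACq P → Subgroup P :=
  Quot.lift (fun C => Subgroup.normalClosure {x | x ∈ C}) (fun _ _ h => ACs.nc_eq h)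

@[simp] lemma ACq.nc_mk (C : Multiset P) :
    (ACq.mk C).nc = Subgroup.normalClosure {x | x ∈ C} := rfl

instance ACq.nc_normal (l : ACq P) : l.nc.Normal := by
  induction l using ACq.ind with
  | h C => rw [ACq.nc_mk]; infer_instance

lemma ACq.mem_nc_cons (q : P) (l : ACq P) : q ∈ (l.cons q).nc := by
  induction l using ACq.ind with
  | h C => exact Subgroup.subset_normalClosure (by simp)

lemma ACq.nc_le_cons (q : P) (l : ACq P) : l.nc ≤ (l.cons q).nc := by
  induction l using ACq.ind with
  | h C => exact Subgroup.normalClosure_mono (fun x hx => by simp at hx ⊢; exact Or.inr hx)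

lemma ACq.nc_cons_le {q : P} {l : ACq P} {N : Subgroup P} [N.Normal] (hq : q ∈ N)
    (hl : l.nc ≤ N) : (l.cons q).nc ≤ N := by
  induction l using ACq.ind with
  | h C =>
    apply Subgroup.normalClosure_le_normal
    intro x hx
    simp only [Multiset.mem_cons, Set.mem_setOf_eq] at hx
    rcases hx with rfl | hx
    · exact hq
    · exact hl (Subgroup.subset_normalClosure hx)

@[simp] lemma ACq.nc_zero : (ACq.mk (0 : Multiset P)).nc = ⊥ := by
  rw [ACq.nc_mk]
  simp

lemma ACq.cons_comm (p q : P) (l : ACq P) : (l.cons q).cons p = (l.cons p).cons q := by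
  induction l using ACq.ind with
  | h C => simp only [ACq.cons_mk]; rw [Multiset.cons_swap]

lemma ACq.cons_inv (q : P) (l : ACq P) : l.cons q⁻¹ = l.cons q := by
  induction l using ACq.ind with
  | h C => exact (ACq.sound (ACs.inv q C)).symm

lemma ACq.cons_conj (g q : P) (l : ACq P) : l.cons (g * q * g⁻¹) = l.cons q := by
  induction l using ACq.ind with
  | h C => exact (ACq.sound (ACs.conj q g C)).symm

lemma ACq.mk_mul_mem {C : Multiset P} {k : P} (hk : k ∈ C) (q : P) :
    ACq.mk ((q * k) ::ₘ C) = ACq.mk (q ::ₘ C) := by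
  obtain ⟨C', rfl⟩ := Multiset.exists_cons_of_mem hk
  exact (ACq.sound (ACs.mul q k C')).symm

lemma ACq.mk_mul_conj_mem {C : Multiset P} {k : P} (hk : k ∈ C) (g q : P) :
    ACq.mk ((q * (g * k * g⁻¹)) ::ₘ C) = ACq.mk (q ::ₘ C) := by
  obtain ⟨C', rfl⟩ := Multiset.exists_cons_of_mem hk
  have h1 : ∀ r : P, ACq.mk (r ::ₘ k ::ₘ C') = ACq.mk (r ::ₘ (g * k * g⁻¹) ::ₘ C') := by
    intro r
    rw [Multiset.cons_swap r k, Multiset.cons_swap r (g * k * g⁻¹)]
    exact ACq.sound (ACs.conj _ _ _)
  rw [h1, h1]
  exact ACq.mk_mul_mem (by simp) q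

/-- an element may be multiplied by an element of the normal closure of the others -/
lemma ACq.cons_mul {k : P} {l : ACq P} (hk : k ∈ l.nc) (q : P) : l.cons (q * k) = l.cons q := by
  induction l using ACq.ind with
  | h C =>
    rw [ACq.nc_mk, Subgroup.normalClosure] at hk
    induction hk using Subgroup.closure_induction generalizing q with
    | mem x hx =>
      obtain ⟨y, hy, hxy⟩ := Group.mem_conjugatesOfSet_iff.1 hx
      obtain ⟨c, rfl⟩ := isConj_iff.1 hxy
      exact ACq.mk_mul_conj_mem hy c q
    | one => rw [mul_one]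
    | mul x y _ _ hx hy => rw [← mul_assoc, hy, hx]
    | inv x _ hx =>
      have := hx (q * x⁻¹)
      rw [inv_mul_cancel_right] at this
      exact this.symm

lemma ACq.cons_mul_left {k : P} {l : ACq P} (hk : k ∈ l.nc) (q : P) :
    l.cons (k * q) = l.cons q := by
  have h1 : k * q = q * (q⁻¹ * k * q⁻¹⁻¹) := by group
  rw [h1]
  exact ACq.cons_mul (ACq.nc_normal l |>.conj_mem k hk q⁻¹) q

end Pool.Agent.H46.NE
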