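import Pool.Agent.H46.NE.Thm

set_option autoImplicit false

/-!
# The Akbulut-Kirby pairs (MP_fabc18_al)
-/

namespace Pool.Agent.H46.NE

open Pool.Agent.H81.Nls (Move Nielsen)
open FreeGroup (of)

lemma ak_trivial {G : Type*} [Group G] {x y : G} {r : ℕ} (h1 : x ^ r = y ^ (r + 1))
    (h2 : x * y * x = y * x * y) : x = 1 ∧ y = 1 := by
  have h3 : (x * y) * x * (x * y)⁻¹ = y := by
    rw [h2]; group
  have h4 : (x * y) * x ^ r * (x * y)⁻¹ = y ^ r := by
    rw [← conj_pow, h3]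
  have h5 : (x * y) * x ^ r * (x * y)⁻¹ = y ^ (r + 1) := by
    rw [h1]
    have h6 : x * y * y ^ (r + 1) * (x * y)⁻¹ = x * y ^ (r + 1) * x⁻¹ := by
      rw [mul_inv_rev]
      have : x * y * y ^ (r + 1) * (y⁻¹ * x⁻¹) = x * (y * y ^ (r + 1) * y⁻¹) * x⁻¹ := by group
      rw [this, ← pow_succ', pow_succ, mul_inv_cancel_right]
    rw [h6, ← h1]
    rw [← pow_succ', pow_succ, mul_inv_cancel_right]
  have h7 : y = 1 := by
    have h8 : y ^ r = y ^ r * y := (h4.symm.trans h5).trans (pow_succ y r)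
    have h9 : y ^ r * 1 = y ^ r * y := by rw [mul_one]; exact h8
    exact (mul_left_cancel h9).symm
  subst h7
  refine ⟨?_, rfl⟩
  have h8 : x * x = x * 1 := by simpa using h2
  exact mul_left_cancel h8

/-- the Akbulut-Kirby pair `y_1^r = y_2^(r+1)`, `y_1 y_2 y_1 = y_2 y_1 y_2` -/
def ak (r : ℕ) : Fin 2 → FreeGroup (Fin 2) :=
  ![of 0 ^ r * (of 1 ^ (r + 1))⁻¹, of 0 * of 1 * of 0 * (of 1 * of 0 * of 1)⁻¹]

theorem ak_normal (r : ℕ) : Subgroup.normalClosure (Set.range (ak r)) = ⊤ := by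
  set N := Subgroup.normalClosure (Set.range (ak r)) with hN
  have e1 : (QuotientGroup.mk (of 0) : FreeGroup (Fin 2) ⧸ N) ^ r =
      (QuotientGroup.mk (of 1) : FreeGroup (Fin 2) ⧸ N) ^ (r + 1) := by
    have h1 : (QuotientGroup.mk (ak r 0) : FreeGroup (Fin 2) ⧸ N) = 1 :=
      (QuotientGroup.eq_one_iff _).2 (Subgroup.subset_normalClosure ⟨0, rfl⟩)
    have h2 : ak r 0 = of 0 ^ r * (of 1 ^ (r + 1))⁻¹ := rfl
    rw [h2, QuotientGroup.mk_mul, QuotientGroup.mk_inv, mul_inv_eq_one] at h1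
    exact h1
  have e2 : (QuotientGroup.mk (of 0) : FreeGroup (Fin 2) ⧸ N) * QuotientGroup.mk (of 1) *
      QuotientGroup.mk (of 0) = QuotientGroup.mk (of 1) * QuotientGroup.mk (of 0) *
      QuotientGroup.mk (of 1) := by
    have h1 : (QuotientGroup.mk (ak r 1) : FreeGroup (Fin 2) ⧸ N) = 1 :=
      (QuotientGroup.eq_one_iff _).2 (Subgroup.subset_normalClosure ⟨1, rfl⟩)
    have h2 : ak r 1 = of 0 * of 1 * of 0 * (of 1 * of 0 * of 1)⁻¹ := rfl
    rw [h2, QuotientGroup.mk_mul, QuotientGroup.mk_inv, mul_inv_eq_one] at h1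
    exact h1
  obtain ⟨hx, hy⟩ := ak_trivial e1 e2
  rw [eq_top_iff, ← closure_of, Subgroup.closure_le]
  rintro _ ⟨i, rfl⟩
  fin_cases i
  · exact (QuotientGroup.eq_one_iff _).1 hx
  · exact (QuotientGroup.eq_one_iff _).1 hy

/-- the quadruple of `F_2 × F_2` of the pair `ak r` generates, and it is standard if and only if
the pair is Andrews-Curtis trivial without stabilization -/
theorem ak_thm (r : ℕ) : Subgroup.closure (Set.range (T of (ak r))) = ⊤ ∧
    (Nielsen (std 2) (T of (ak r)) ↔ AC of (ak r)) :=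
  ⟨(gen_iff _).2 (ak_normal r), std_iff_ac of (ak r) (closure_of 2)⟩

end Pool.Agent.H46.NE
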