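import Pool.Agent.H46.NE.Chain

set_option autoImplicit false

/-!
# Generating tuples modulo the commutators of the second factor (MP_fabc18_al)
-/

namespace Pool.Agent.H46.NE

open Pool.Agent.H81.Nls (Move Nielsen)
open FreeGroup (of)

lemma free_one (x : FreeGroup (Fin 1)) : ∃ z : ℤ, of (0 : Fin 1) ^ z = x := by
  have h1 : x ∈ Subgroup.closure (Set.range (of : Fin 1 → FreeGroup (Fin 1))) := by
    rw [closure_of]; trivial
  have h2 : Subgroup.closure (Set.range (of : Fin 1 → FreeGroup (Fin 1))) ≤
      Subgroup.zpowers (of (0 : Fin 1)) := by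
    rw [Subgroup.closure_le]
    rintro _ ⟨i, rfl⟩
    rw [Subsingleton.elim i 0]
    exact Subgroup.mem_zpowers _
  exact h2 h1

lemma free_one_comm (x y : FreeGroup (Fin 1)) : x * y = y * x := by
  obtain ⟨s, rfl⟩ := free_one x
  obtain ⟨t, rfl⟩ := free_one y
  rw [← zpow_add, ← zpow_add, add_comm]

/-- free abelian groups -/
abbrev Ab (k : ℕ) : Type := Fin k → FreeGroup (Fin 1)

lemma ab_comm {k : ℕ} (x y : Ab k) : x * y = y * x := by
  funext i
  exact free_one_comm _ _

lemma ab_closure {k : ℕ} {s : Set (Ab k)} (h : Subgroup.normalClosure s = ⊤) :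
    Subgroup.closure s = ⊤ := by
  have h1 : (Subgroup.closure s).Normal := by
    refine ⟨fun x hx g => ?_⟩
    rw [ab_comm g x, mul_inv_cancel_right]
    exact hx
  rw [eq_top_iff, ← h]
  exact Subgroup.normalClosure_le_normal Subgroup.subset_closure

/-- the standard basis -/
def stdAb (k : ℕ) : Fin k → Ab k := fun i => Pi.mulSingle i (of 0)

/-- the first coordinate and the others -/
def splitAb (k : ℕ) : Ab (k + 1) →* FreeGroup (Fin 1) × Ab k where
  toFun f := (f 0, fun j => f j.succ)
  map_one' := rfl
  map_mul' _ _ := rfl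

/-- the inverse -/
def joinAb (k : ℕ) : FreeGroup (Fin 1) × Ab k →* Ab (k + 1) where
  toFun p := Fin.cons p.1 p.2
  map_one' := by
    funext i
    refine Fin.cases rfl (fun _ => rfl) i
  map_mul' x y := by
    funext i
    refine Fin.cases rfl (fun _ => rfl) i

lemma join_split {k : ℕ} (f : Ab (k + 1)) : joinAb k (splitAb k f) = f := by
  funext i
  refine Fin.cases rfl (fun _ => rfl) i

lemma split_surj (k : ℕ) : Function.Surjective (splitAb k) := by
  intro p
  exact ⟨joinAb k p, rfl⟩

/-- the indices -/
def idxAb (k : ℕ) : Fin 1 ⊕ Fin k ≃ Fin (k + 1) :=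
  finSumFinEquiv.trans (finCongr (Nat.add_comm 1 k))

lemma idxAb_inl (k : ℕ) : idxAb k (Sum.inl 0) = 0 := by
  apply Fin.ext
  simp [idxAb]

lemma idxAb_inr {k : ℕ} (j : Fin k) : idxAb k (Sum.inr j) = j.succ := by
  apply Fin.ext
  simp [idxAb, Nat.add_comm]

/-- bases of free abelian groups are Nielsen equivalent -/
theorem nl_ab (k : ℕ) : ∀ b : Fin k → Ab k, Subgroup.closure (Set.range b) = ⊤ →
    Nielsen b (stdAb k) := by
  induction k with
  | zero =>
    intro b _
    have : b = stdAb 0 := by
      funext i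
      exact i.elim0
    rw [this]
    exact Relation.ReflTransGen.refl
  | succ k ih =>
    intro b hb
    set g : Fin 1 ⊕ Fin k → FreeGroup (Fin 1) × Ab k := fun x => splitAb k (b (idxAb k x)) with hg
    have hgg : Subgroup.closure (Set.range g) = ⊤ := by
      refine gen_map (splitAb k) (split_surj k) ?_
      rw [← hb]
      congr 1
      exact (idxAb k).surjective.range_comp b
    obtain ⟨a, b', h1⟩ := exists_T g (fst_gen hgg)
    have h2 : Subgroup.closure (Set.range b') = ⊤ := ab_closure (normal_of_gen' (nl_gen h1 hgg))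
    have h3 : Nielsen g (T (fun _ => 1) (stdAb k)) :=
      nl_trans h1 (nl_trans (nl_full h2 a (fun _ => 1)) (nl_inr _ (ih b' h2)))
    have h4 := nl_reindex (idxAb k).symm (nl_map (joinAb k) h3)
    have h5 : (fun x => joinAb k (g ((idxAb k).symm x))) = b := by
      funext x
      rw [hg]
      simp only [Equiv.apply_symm_apply, join_split]
    have h6 : (fun x => joinAb k (T (fun _ => 1) (stdAb k) ((idxAb k).symm x))) =
        stdAb (k + 1) := by
      funext x
      obtain ⟨y, rfl⟩ := (idxAb k).surjective x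
      rw [Equiv.symm_apply_apply]
      rcases y with i | j
      · rw [Subsingleton.elim i 0, idxAb_inl]
        funext l
        refine Fin.cases ?_ (fun l => ?_) l
        · simp [stdAb, joinAb, T]
        · simp [stdAb, joinAb, T]
      · rw [idxAb_inr]
        funext l
        refine Fin.cases ?_ (fun l => ?_) l
        · simp [stdAb, joinAb, T, Pi.mulSingle_apply, Fin.succ_ne_zero j |>.symm]
        · simp [stdAb, joinAb, T, Pi.mulSingle_apply]
    rw [h5, h6] at h4
    exact h4

/-- the free group and the free abelian group -/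
def toAb (k : ℕ) : FreeGroup (Fin k) →* Ab k := FreeGroup.lift (stdAb k)

lemma toAb_surj (k : ℕ) : Function.Surjective (toAb k) := by
  rw [← MonoidHom.range_eq_top, eq_top_iff]
  intro x _
  refine Subgroup.pi_mem_of_mulSingle_mem x ?_
  intro i
  obtain ⟨z, hz⟩ := free_one (x i)
  refine ⟨of i ^ z, ?_⟩
  rw [map_zpow, ← hz]
  have h1 : toAb k (of i) = Pi.mulSingle i (of 0) := by simp [toAb, stdAb]
  rw [h1]
  exact ((MonoidHom.mulSingle (fun _ : Fin k => FreeGroup (Fin 1)) i).map_zpow (of 0) z).symm

/-- back to the abelianization -/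
noncomputable def ofAb (k : ℕ) : Ab k →* Abelianization (FreeGroup (Fin k)) :=
  ∏ i : Fin k, (FreeGroup.lift (fun _ : Fin 1 => Abelianization.of (of i))).comp
    (Pi.evalMonoidHom (fun _ : Fin k => FreeGroup (Fin 1)) i)

lemma ofAb_toAb {k : ℕ} (x : FreeGroup (Fin k)) : ofAb k (toAb k x) = Abelianization.of x := by
  have h1 : (ofAb k).comp (toAb k) = Abelianization.of := by
    refine FreeGroup.ext_hom _ _ ?_
    intro j
    have h2 : toAb k (of j) = Pi.mulSingle j (of 0) := by simp [toAb, stdAb]
    rw [MonoidHom.comp_apply, h2, ofAb, MonoidHom.finset_prod_apply]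
    rw [Finset.prod_eq_single j]
    · simp
    · intro i _ hij
      simp [Pi.mulSingle_eq_of_ne hij]
    · intro h
      exact absurd (Finset.mem_univ j) h
  exact DFunLike.congr_fun h1 x

/-- normal generators, modulo commutators -/
theorem nl_ab_basis {k : ℕ} {b : Fin k → FreeGroup (Fin k)}
    (hb : Subgroup.normalClosure (Set.range b) = ⊤) :
    ∃ b' : Fin k → FreeGroup (Fin k), Nielsen b b' ∧
      ∀ j, (of j)⁻¹ * b' j ∈ commutator (FreeGroup (Fin k)) := by
  have h1 : Subgroup.closure (Set.range (fun j => toAb k (b j))) = ⊤ := by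
    refine ab_closure ?_
    have h2 : (Subgroup.normalClosure (Set.range b)).map (toAb k) =
        Subgroup.normalClosure (toAb k '' Set.range b) :=
      Subgroup.map_normalClosure _ _ (toAb_surj k)
    rw [hb, Subgroup.map_top_of_surjective _ (toAb_surj k), ← Set.range_comp] at h2
    exact h2.symm
  obtain ⟨b', h3, h4⟩ := nl_lift (toAb k) (nl_ab k _ h1)
  refine ⟨b', h3, fun j => ?_⟩
  have h5 : toAb k (b' j) = toAb k (of j) := by
    rw [congrFun h4 j]
    simp [toAb]
  have h6 : Abelianization.of (of j) = Abelianization.of (b' j) := by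
    rw [← ofAb_toAb, ← ofAb_toAb, h5]
  exact QuotientGroup.eq.1 h6

section quotient

variable {P : Type*} [Group P] {n k : ℕ}

/-- **Part B**, for quotients of the second factor. -/
theorem nielsen_quotient (i0 : Fin n) (hP : Chain P ⊥) {π : FreeGroup (Fin k) →* P}
    (hπ : Function.Surjective π) {g : Fin n ⊕ Fin k → FreeGroup (Fin n) × FreeGroup (Fin k)}
    (hg : Subgroup.closure (Set.range g) = ⊤) :
    Nielsen (fun x => MonoidHom.prodMap (MonoidHom.id (FreeGroup (Fin n))) π (g x))
      (T (fun _ => 1) (fun j => π (of j))) := by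
  set pr : FreeGroup (Fin n) × FreeGroup (Fin k) →* FreeGroup (Fin n) × P :=
    MonoidHom.prodMap (MonoidHom.id (FreeGroup (Fin n))) π with hpp
  have hps : Function.Surjective pr := Function.Surjective.prodMap Function.surjective_id hπ
  obtain ⟨a, b, h1⟩ := exists_T g (fst_gen hg)
  obtain ⟨b', h2, h3⟩ := nl_ab_basis (normal_of_gen' (nl_gen h1 hg))
  have h4 : Nielsen g (T a b') := nl_trans h1 (nl_inr a h2)
  have h5 : (fun x => pr (T a b' x)) = T (fun i => π (a i)) (fun j => π (b' j)) := by
    funext x
    rcases x with i | j <;> rfl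
  have h6 := nl_map pr h4
  rw [h5] at h6
  refine nl_trans h6 ?_
  have hgT : Subgroup.closure (Set.range (T (fun i => π (a i)) (fun j => π (b' j)))) = ⊤ :=
    nl_gen h6 (gen_map pr hps hg)
  have hy : Subgroup.closure (Set.range (fun j => π (of j))) = ⊤ := gen_map π hπ (closure_of k)
  rw [nielsen_iff_ab i0 hP hy hgT, qt_T, qt_T]
  have h7 : (fun j => (QuotientGroup.mk (π (b' j)) : P ⧸ commutator P)) =
      fun j => (QuotientGroup.mk (π (of j)) : P ⧸ commutator P) := by
    funext j
    refine (QuotientGroup.eq.2 ?_).symm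
    have h8 : (commutator (FreeGroup (Fin k))).map π ≤ commutator P := by
      rw [commutator_def, Subgroup.map_commutator, commutator_def]
      exact Subgroup.commutator_mono le_top le_top
    have h9 := h8 (Subgroup.mem_map_of_mem π (h3 j))
    rwa [map_mul, map_inv] at h9
  rw [h7]
  exact nl_full (gen_map (QuotientGroup.mk' (commutator P)) (QuotientGroup.mk'_surjective _) hy)
    _ _

/-- **Part B.** -/
theorem nielsen_hom (i0 : Fin n) {Γ : Type*} [Group Γ]
    (f : FreeGroup (Fin n) × FreeGroup (Fin k) →* Γ)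
    (hP : Chain (f.comp (MonoidHom.inr (FreeGroup (Fin n)) (FreeGroup (Fin k)))).range ⊥)
    {g : Fin n ⊕ Fin k → FreeGroup (Fin n) × FreeGroup (Fin k)}
    (hg : Subgroup.closure (Set.range g) = ⊤) :
    Nielsen (fun x => f (g x)) (fun x => f (T (fun _ => 1) of x)) := by
  set π := (f.comp (MonoidHom.inr (FreeGroup (Fin n)) (FreeGroup (Fin k)))).rangeRestrict with hπ
  have hπs : Function.Surjective π := MonoidHom.rangeRestrict_surjective _
  let h : FreeGroup (Fin n) × (f.comp (MonoidHom.inr (FreeGroup (Fin n))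
      (FreeGroup (Fin k)))).range →* Γ :=
    (f.comp (MonoidHom.inl (FreeGroup (Fin n)) (FreeGroup (Fin k)))).noncommCoprod
      (Subgroup.subtype _) (by
        rintro u ⟨_, v, rfl⟩
        change f (u, 1) * f (1, v) = f (1, v) * f (u, 1)
        rw [← map_mul, ← map_mul]
        simp)
  have hf : ∀ x : FreeGroup (Fin n) × FreeGroup (Fin k),
      h (MonoidHom.prodMap (MonoidHom.id (FreeGroup (Fin n))) π x) = f x := by
    rintro ⟨u, v⟩
    change f (u, 1) * f (1, v) = f (u, v)
    rw [← map_mul]
    simp
  have h1 := nl_map h (nielsen_quotient i0 hP hπs hg)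
  have h2 : (fun x => h (T (fun _ => 1) (fun j => π (of j)) x)) =
      fun x => f (T (fun _ => 1) of x) := by
    funext x
    rw [← hf]
    rcases x with i | j
    · change h (of i, 1) = h (of i, π 1)
      rw [map_one]
    · rfl
  simp only [hf, h2] at h1
  exact h1

end quotient

end Pool.Agent.H46.NE
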