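import Pool.Agent.H46.NE.Fold

set_option autoImplicit false

/-!
# Lists of constraints, isolated vertices (MP_fabc18_al)
-/

namespace Pool.Agent.H46.NE

variable {V P : Type*} [Group P]

/-- nothing is known -/
def KS0 (V P : Type*) [Group P] : KS V P := ⟨fun a g b => a = b ∧ g = 1, ACq.mk 0⟩

lemma KS0_valid : (KS0 V P).Valid := by
  refine ⟨fun a => ⟨rfl, rfl⟩, ?_, ?_, ?_⟩
  · rintro a g b ⟨rfl, rfl⟩
    exact ⟨rfl, inv_one⟩
  · rintro a g b h c ⟨rfl, rfl⟩ ⟨rfl, rfl⟩
    exact ⟨rfl, mul_one _⟩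
  · intro a g
    simp only [KS0, ACq.nc_zero, Subgroup.mem_bot, true_and]

/-- add a list of constraints -/
noncomputable def KS.adds (x : KS V P) : List (V × P × V) → KS V P
  | [] => x
  | c :: l => (x.add c.1 c.2.1 c.2.2).adds l

@[simp] lemma KS.adds_nil (x : KS V P) : x.adds [] = x := rfl

lemma KS.adds_cons (x : KS V P) (c : V × P × V) (l : List (V × P × V)) :
    x.adds (c :: l) = (x.add c.1 c.2.1 c.2.2).adds l := rfl

lemma KS.adds_append (x : KS V P) (l m : List (V × P × V)) :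
    x.adds (l ++ m) = (x.adds l).adds m := by
  induction l generalizing x with
  | nil => rfl
  | cons c l ih => rw [List.cons_append, KS.adds_cons, KS.adds_cons, ih]

lemma KS.valid_adds {x : KS V P} (hx : x.Valid) (l : List (V × P × V)) : (x.adds l).Valid := by
  induction l generalizing x with
  | nil => exact hx
  | cons c l ih => rw [KS.adds_cons]; exact ih (KS.valid_add hx _ _ _)

lemma KS.mono_adds (x : KS V P) (l : List (V × P × V)) {a : V} {g : P} {b : V}
    (h : x.R a g b) : (x.adds l).R a g b := by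
  induction l generalizing x with
  | nil => exact h
  | cons c l ih => rw [KS.adds_cons]; exact ih _ (KS.mono _ _ _ _ h)

lemma KS.mem_adds (x : KS V P) {l : List (V × P × V)} {c : V × P × V} (h : c ∈ l) :
    (x.adds l).R c.1 c.2.1 c.2.2 := by
  induction l generalizing x with
  | nil => simp at h
  | cons d l ih =>
    rw [KS.adds_cons]
    rcases List.mem_cons.1 h with rfl | h
    · exact KS.mono_adds _ _ (KS.mem _ _ _ _)
    · exact ih _ h

theorem KS.adds_perm {x : KS V P} (hx : x.Valid) {l m : List (V × P × V)} (h : l.Perm m) :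
    x.adds l = x.adds m := by
  induction h generalizing x with
  | nil => rfl
  | cons c _ ih => rw [KS.adds_cons, KS.adds_cons, ih (KS.valid_add hx _ _ _)]
  | swap c d l => simp only [KS.adds_cons]; rw [KS.add_comm' hx]
  | trans _ _ ih1 ih2 => rw [ih1 hx, ih2 hx]

/-- a constraint can be moved over a list of constraints -/
lemma KS.adds_add {x : KS V P} (hx : x.Valid) (l : List (V × P × V)) (a : V) (g : P) (b : V) :
    (x.adds l).add a g b = (x.add a g b).adds l := by
  have h1 : (x.adds l).add a g b = x.adds (l ++ [(a, g, b)]) := by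
    rw [KS.adds_append]; rfl
  have h2 : (x.add a g b).adds l = x.adds ((a, g, b) :: l) := rfl
  rw [h1, h2]
  exact KS.adds_perm hx (List.perm_append_singleton _ _)

/-- `z` is an isolated vertex -/
def Iso (R : V → P → V → Prop) (z : V) : Prop := ∀ a g b, R a g b → (a = z ↔ b = z)

lemma Iso.add {x : KS V P} {z : V} (h : Iso x.R z) {v : V} (g : P) {w : V} (hvw : v = z ↔ w = z) :
    Iso (x.add v g w).R z := by
  intro a k b H
  refine Gen.le (S := fun a _ b => (a = z ↔ b = z)) (fun {a h' b} hh => h a h' b hh) hvw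
    (fun a => Iff.rfl) (fun h => h.symm) (fun h1 h2 => h1.trans h2) (fun _ _ _ => Iff.rfl) H

lemma Iso.adds {x : KS V P} {z : V} (h : Iso x.R z) {l : List (V × P × V)}
    (hl : ∀ c ∈ l, c.1 ≠ z ∧ c.2.2 ≠ z) : Iso (x.adds l).R z := by
  induction l generalizing x with
  | nil => exact h
  | cons c l ih =>
    rw [KS.adds_cons]
    refine ih (h.add _ ?_) (fun d hd => hl d (List.mem_cons_of_mem _ hd))
    have := hl c List.mem_cons_self
    exact ⟨fun h => absurd h this.1, fun h => absurd h this.2⟩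

lemma Iso.KS0 (z : V) : Iso (KS0 V P).R z := by
  rintro a g b ⟨rfl, _⟩
  exact Iff.rfl

/-- `x` and `y` agree on the vertices in `W` and have the same relators -/
structure Agree (W : Set V) (x y : KS V P) : Prop where
  R : ∀ a ∈ W, ∀ b ∈ W, ∀ g, x.R a g b ↔ y.R a g b
  lam : x.lam = y.lam

lemma Agree.refl (W : Set V) (x : KS V P) : Agree W x x := ⟨fun _ _ _ _ _ => Iff.rfl, rfl⟩

lemma Agree.trans {W : Set V} {x y z : KS V P} (h1 : Agree W x y) (h2 : Agree W y z) :
    Agree W x z :=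
  ⟨fun a ha b hb g => (h1.R a ha b hb g).trans (h2.R a ha b hb g), h1.lam.trans h2.lam⟩

/-- the same constraint between vertices of `W` added to both -/
theorem Agree.add {W : Set V} {x y : KS V P} (hx : x.Valid) (hy : y.Valid) (h : Agree W x y)
    {v : V} (hv : v ∈ W) (g : P) {w : V} (hw : w ∈ W) : Agree W (x.add v g w) (y.add v g w) := by
  by_cases hc : ∃ g0, x.R v g0 w
  · obtain ⟨g0, h0⟩ := hc
    have h1 := (h.R v hv w hw g0).1 h0
    refine ⟨?_, by rw [KS.lam_add_of_conn hx h0, KS.lam_add_of_conn hy h1, h.lam]⟩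
    intro a ha b hb k
    rw [KS.R_add_of_conn hx h0, KS.R_add_of_conn hy h1, h.lam]
    constructor
    · rintro ⟨k0, h2, h3⟩
      exact ⟨k0, (h.R a ha b hb k0).1 h2, h3⟩
    · rintro ⟨k0, h2, h3⟩
      exact ⟨k0, (h.R a ha b hb k0).2 h2, h3⟩
  · have hc' : ¬ ∃ g0, y.R v g0 w := by
      rintro ⟨g0, h0⟩
      exact hc ⟨g0, (h.R v hv w hw g0).2 h0⟩
    refine ⟨?_, by rw [KS.lam_add_of_not hc, KS.lam_add_of_not hc', h.lam]⟩
    intro a ha b hb k
    rw [KS.R_add_of_not hx hc, KS.R_add_of_not hy hc', h.R a ha b hb]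
    constructor
    · rintro (h1 | ⟨s, t, h1, h2, rfl⟩ | ⟨s, t, h1, h2, rfl⟩)
      · exact Or.inl h1
      · exact Or.inr (Or.inl ⟨s, t, (h.R a ha v hv s).1 h1, (h.R w hw b hb t).1 h2, rfl⟩)
      · exact Or.inr (Or.inr ⟨s, t, (h.R a ha w hw s).1 h1, (h.R v hv b hb t).1 h2, rfl⟩)
    · rintro (h1 | ⟨s, t, h1, h2, rfl⟩ | ⟨s, t, h1, h2, rfl⟩)
      · exact Or.inl h1
      · exact Or.inr (Or.inl ⟨s, t, (h.R a ha v hv s).2 h1, (h.R w hw b hb t).2 h2, rfl⟩)
      · exact Or.inr (Or.inr ⟨s, t, (h.R a ha w hw s).2 h1, (h.R v hv b hb t).2 h2, rfl⟩)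

/-- an isolated vertex outside of `W` is tied to something -/
theorem Agree.tie {W : Set V} {x : KS V P} (hx : x.Valid) {z : V} (hz : Iso x.R z) (hzW : z ∉ W)
    (g : P) {b : V} (hb : b ≠ z) : Agree W x (x.add z g b) := by
  have hc : ¬ ∃ g0, x.R z g0 b := by
    rintro ⟨g0, h0⟩
    exact hb ((hz _ _ _ h0).1 rfl)
  refine ⟨?_, by rw [KS.lam_add_of_not hc]⟩
  intro a ha c hc' k
  rw [KS.R_add_of_not hx hc]
  constructor
  · exact Or.inl
  · rintro (h1 | ⟨s, t, h1, h2, rfl⟩ | ⟨s, t, h1, h2, rfl⟩)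
    · exact h1
    · have := (hz _ _ _ h1).2 rfl
      exact absurd (this ▸ ha) hzW
    · have := (hz _ _ _ h2).1 rfl
      exact absurd (this ▸ hc') hzW

/-- `z` is not connected to the vertices in `W` -/
def Apart (W : Set V) (x : KS V P) (z : V) : Prop := ∀ a ∈ W, ∀ g, ¬ x.R a g z

lemma Apart.add {W : Set V} {x : KS V P} (hx : x.Valid) {z : V} (h : Apart W x z) {v : V}
    (hv : v ∈ W) (g : P) {w : V} (hw : w ∈ W) : Apart W (x.add v g w) z := by
  intro a ha k H
  by_cases hc : ∃ g0, x.R v g0 w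
  · obtain ⟨g0, h0⟩ := hc
    rw [KS.R_add_of_conn hx h0] at H
    obtain ⟨k0, h1, _⟩ := H
    exact h a ha k0 h1
  · rw [KS.R_add_of_not hx hc] at H
    rcases H with h1 | ⟨s, t, h1, h2, rfl⟩ | ⟨s, t, h1, h2, rfl⟩
    · exact h a ha _ h1
    · exact h w hw _ h2
    · exact h v hv _ h2

end Pool.Agent.H46.NE
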