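import Pool.Agent.H46.NE.Beta

set_option autoImplicit false

/-!
# Insertion of a cancelling pair of letters (MP_fabc18_al)
-/

namespace Pool.Agent.H46.NE

variable {ε L P : Type*} [Group P]

lemma KS.add_one_symm {V : Type*} {x : KS V P} (hx : x.Valid) (a b : V) :
    x.add b 1 a = x.add a 1 b := by
  have := KS.add_inv hx a 1 b
  rwa [inv_one] at this

theorem GoodW.ins {W : List (List (L × Bool) × P)} {A M : List (L × Bool)} {x : L} {b : Bool}
    {g : P} {l : ACq P} (h : GoodW ((A ++ M, g) :: W) l) :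
    GoodW ((A ++ (x, b) :: (x, !b) :: M, g) :: W) l := by
  intro ε lab B' hnd hB'
  rcases B' with _ | ⟨⟨r, k⟩, B0⟩
  · simp at hB'
  simp only [List.map_cons, wd, List.cons.injEq, Prod.mk.injEq] at hB'
  obtain ⟨⟨hr, hk⟩, hB0⟩ := hB'
  subst hk
  obtain ⟨p0, r', rfl, hp0, hr'⟩ := List.map_eq_append_iff.1 hr
  rcases r' with _ | ⟨⟨f, b1⟩, _ | ⟨⟨f', b2⟩, m⟩⟩
  · simp at hr'
  · simp at hr'
  simp only [List.map_cons, List.cons.injEq, Prod.mk.injEq] at hr'
  obtain ⟨⟨hlf, hb1⟩, ⟨hlf', hb2⟩, hm⟩ := hr'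
  subst hb1
  subst hb2
  set B : List (Blk ε P) := (p0 ++ m, k) :: B0 with hB
  set B' : List (Blk ε P) := (p0 ++ (f, b1) :: (f', !b1) :: m, k) :: B0 with hB'
  have hnames' : nms B' = p0.map Prod.fst ++ (f :: f' :: m.map Prod.fst) ++ nms B0 := by
    simp [hB', nms_cons]
  have hnames : nms B = p0.map Prod.fst ++ m.map Prod.fst ++ nms B0 := by
    simp [hB, nms_cons]
  have hperm : (nms B').Perm (f :: f' :: nms B) := by
    rw [hnames', hnames, List.append_assoc, List.append_assoc]
    have h1 : (p0.map Prod.fst ++ (f :: f' :: m.map Prod.fst ++ nms B0)).Perm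
        (f :: (p0.map Prod.fst ++ (f' :: m.map Prod.fst ++ nms B0))) := List.perm_middle
    have h2 : (p0.map Prod.fst ++ (f' :: m.map Prod.fst ++ nms B0)).Perm
        (f' :: (p0.map Prod.fst ++ (m.map Prod.fst ++ nms B0))) := List.perm_middle
    exact h1.trans (h2.cons f)
  have hnd' : (f :: f' :: nms B).Nodup := hperm.nodup_iff.1 hnd
  rw [List.nodup_cons, List.nodup_cons, List.mem_cons, not_or] at hnd'
  obtain ⟨⟨hff', hfB⟩, hf'B, hndB⟩ := hnd'
  have hU : Us B ⊆ Us B' := fun e he => hperm.mem_iff.2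
    (List.mem_cons_of_mem _ (List.mem_cons_of_mem _ he))
  have hfU : f ∈ Us B' := hperm.mem_iff.2 List.mem_cons_self
  have hfU' : f' ∈ Us B' := hperm.mem_iff.2 (List.mem_cons_of_mem _ List.mem_cons_self)
  have hg := h ε lab B hndB (by
    simp only [hB, List.map_cons, wd, List.map_append, hp0, hm, hB0])
  -- the common knowledge
  set v := endv (none : Vx ε) p0 with hv
  have hvU : v ∈ VU (Us B) := by
    rcases endv_cases (none : Vx ε) p0 with h1 | ⟨y, hy, h1⟩
    · rw [hv, h1]; exact none_mem_VU _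
    · rw [hv, h1]
      refine some_mem_VU ?_ _
      change y.1 ∈ nms B
      rw [hnames]
      exact List.mem_append_left _ (List.mem_append_left _ (List.mem_map_of_mem hy))
  set C := seg (P := P) (none : Vx ε) p0 ++ csts B0 with hC
  set K := (KS0 (Vx ε) P).adds C with hK
  have hKv : K.Valid := KS.valid_adds KS0_valid _
  have hini : ini B = ⟨⊥, K.adds (chn v m k none)⟩ := by
    have h1 : (csts B).Perm (C ++ chn v m k none) := by
      have h2 : csts B = (seg none p0 ++ chn v m k none) ++ csts B0 := by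
        simp only [hB, csts_cons, cst, chn_append none p0, hv]
      rw [h2, hC, List.append_assoc, List.append_assoc]
      exact (List.perm_append_comm).append_left _
    unfold ini
    rw [KS.adds_perm KS0_valid h1, KS.adds_append]
  have hini' : ini B' = ⟨⊥, K.adds (chn v ((f, b1) :: (f', !b1) :: m) k none)⟩ := by
    have h1 : (csts B').Perm (C ++ chn v ((f, b1) :: (f', !b1) :: m) k none) := by
      have h2 : csts B' = (seg none p0 ++ chn v ((f, b1) :: (f', !b1) :: m) k none) ++
          csts B0 := by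
        simp only [hB', csts_cons, cst, chn_append none p0, hv]
      rw [h2, hC, List.append_assoc, List.append_assoc]
      exact (List.perm_append_comm).append_left _
    unfold ini
    rw [KS.adds_perm KS0_valid h1, KS.adds_append]
  obtain ⟨c, w, rest, hch⟩ := chn_head m k (none : Vx ε)
  -- one fold
  set f0 : Vx ε := some (f, !b1) with hf0
  set f1 : Vx ε := some (f, b1) with hf1
  set f0' : Vx ε := some (f', !b1) with hf0'
  set f1' : Vx ε := some (f', b1) with hf1'
  have hK' : K.adds (chn v ((f, b1) :: (f', !b1) :: m) k none) =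
      (((K.add v 1 f0).add f1 1 f1').add f0' c w).adds rest := by
    simp only [chn, KS.adds_cons, Bool.not_not, hch]
    rfl
  -- the extended state: base state with three ties
  set S0 := (K.add v c w).adds rest with hS0
  have hS0v : S0.Valid := KS.valid_adds (KS.valid_add hKv _ _ _) _
  set S1 := S0.add f0 1 v with hS1
  have hS1v : S1.Valid := KS.valid_add hS0v _ _ _
  set S2 := S1.add f0' 1 f0 with hS2
  have hS2v : S2.Valid := KS.valid_add hS1v _ _ _
  set S3 := S2.add f1 1 f1' with hS3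
  have hS3v : S3.Valid := KS.valid_add hS2v _ _ _
  have hKeq : ((((K.add v 1 f0).add f1 1 f1').add f0' c w).adds rest).add f0 1 f0' = S3 := by
    -- move everything to the front
    have e1 : S3 = ((((K.add f0 1 v).add f0' 1 f0).add v c w).add f1 1 f1').adds rest := by
      rw [hS3, hS2, hS1, hS0]
      rw [KS.adds_add (KS.valid_add hKv _ _ _),
        KS.adds_add (KS.valid_add (KS.valid_add hKv _ _ _) _ _ _),
        KS.adds_add (KS.valid_add (KS.valid_add (KS.valid_add hKv _ _ _) _ _ _) _ _ _)]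
      congr 2
      rw [KS.add_comm' hKv v c w f0 1 v, KS.add_comm' (KS.valid_add hKv _ _ _) v c w f0' 1 f0]
    have v1 : (K.add v 1 f0).Valid := KS.valid_add hKv _ _ _
    have v2 : ((K.add v 1 f0).add f1 1 f1').Valid := KS.valid_add v1 _ _ _
    have e2 : ((((K.add v 1 f0).add f1 1 f1').add f0' c w).adds rest).add f0 1 f0' =
        ((((K.add v 1 f0).add f0 1 f0').add f0' c w).add f1 1 f1').adds rest := by
      rw [KS.adds_add (KS.valid_add v2 _ _ _)]
      congr 1
      rw [KS.add_comm' v2 f0' c w f0 1 f0', KS.add_comm' v1 f1 1 f1' f0 1 f0',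
        KS.add_comm' (KS.valid_add v1 _ _ _) f1 1 f1' f0' c w]
    rw [e1, e2]
    congr 2
    have e3 : (K.add v 1 f0).add f0 1 f0' = (K.add f0 1 v).add f0' 1 f0 := by
      rw [KS.add_one_symm hKv f0 v, KS.add_one_symm (KS.valid_add hKv _ _ _) f0' f0]
    rw [e3]
    have v3 : ((K.add f0 1 v).add f0' 1 f0).Valid :=
      KS.valid_add (KS.valid_add hKv _ _ _) _ _ _
    have h1 : ((K.add f0 1 v).add f0' 1 f0).R f0' (1 * 1) v :=
      v3.mul (KS.mem _ _ _ _) (KS.mono _ _ _ _ (KS.mem _ _ _ _))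
    have h2 := KS.add_absorb v3 h1 (v3.one w) c
    have h3 : (1 : P) * 1 * c * 1 = c := by group
    rw [h3] at h2
    exact h2
  have hX' : (ini B').Valid lab := ini_valid lab B'
  rw [hini'] at hX' ⊢
  rw [hK'] at hX' ⊢
  have hst : Stp lab (Us B') ⟨⊥, (((K.add v 1 f0).add f1 1 f1').add f0' c w).adds rest⟩
      ⟨joinS ⊥ f f', S3⟩ := by
    refine ⟨hX', f, hfU, f', hfU', by rw [hlf, hlf'], fun hh => hff' (bot_iff.1 hh), b1, 1, ?_, ?_⟩
    · exact KS.mono_adds _ _ (KS.mono _ _ _ _ (KS.mem _ _ _ _))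
    · rw [← hKeq]
  -- isolated vertices
  have hne : ∀ (e : ε) (t : Bool) (e' : ε) (t' : Bool), e ≠ e' →
      (some (e, t) : Vx ε) ≠ some (e', t') := by
    intro e t e' t' hee hh
    simp only [Option.some.injEq, Prod.mk.injEq] at hh
    exact hee hh.1
  have hnb : ∀ (e : ε), (some (e, !b1) : Vx ε) ≠ some (e, b1) := by
    intro e hh
    simp only [Option.some.injEq, Prod.mk.injEq, true_and] at hh
    cases b1 <;> simp at hh
  have hS0' : S0 = (KS0 (Vx ε) P).adds (C ++ chn v m k none) := by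
    rw [KS.adds_append, hch v, KS.adds_cons]
  have hIso0 : ∀ e, e ∉ nms B → ∀ t, Iso S0.R (some (e, t)) := by
    intro e he t
    rw [hS0']
    refine Iso.adds (Iso.KS0 _) ?_
    have he' : e ∉ p0.map Prod.fst ∧ e ∉ m.map Prod.fst ∧ e ∉ nms B0 := by
      rw [hnames, List.mem_append, List.mem_append, not_or, not_or] at he
      exact ⟨he.1.1, he.1.2, he.2⟩
    intro c hc
    rw [hC] at hc
    rcases List.mem_append.1 hc with hc | hc
    · rcases List.mem_append.1 hc with hc | hc
      · exact chn_ne he'.1 (by simp) (by simp) c (seg_sub_chn none p0 (1 : P) none c hc)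
      · exact csts_ne he'.2.2 t c hc
    · refine chn_ne he'.2.1 ?_ (by simp) c hc
      rcases endv_cases (none : Vx ε) p0 with h1 | ⟨y, hy, h1⟩
      · rw [hv, h1]; simp
      · rw [hv, h1]
        exact hne _ _ _ _ (fun hh => he'.1 (hh ▸ List.mem_map_of_mem hy))
  have hvne : ∀ e, e ∉ nms B → ∀ t, v ≠ some (e, t) := by
    intro e he t hh
    rw [hh, some_mem_VU_iff] at hvU
    exact he hvU
  have hWf : ∀ e, e ∉ nms B → ∀ t, (some (e, t) : Vx ε) ∉ VU (Us B) := by
    intro e he t hh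
    rw [some_mem_VU_iff] at hh
    exact he hh
  have a1 : Agree (VU (Us B)) S0 S1 :=
    Agree.tie hS0v (hIso0 f hfB _) (hWf f hfB _) 1 (hvne f hfB _)
  have i1 : ∀ t, Iso S1.R (some (f', t)) := fun t => (hIso0 f' hf'B t).add 1
    ⟨fun hh => absurd hh (hne _ _ _ _ hff'), fun hh => absurd hh (hvne f' hf'B t)⟩
  have a2 : Agree (VU (Us B)) S1 S2 :=
    Agree.tie hS1v (i1 _) (hWf f' hf'B _) 1 (hne _ _ _ _ hff')
  have i1f : Iso S1.R f1 := (hIso0 f hfB b1).add 1
    ⟨fun hh => absurd hh (hnb f), fun hh => absurd hh (hvne f hfB b1)⟩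
  have i2f : Iso S2.R f1 := i1f.add 1
    ⟨fun hh => absurd hh (hne _ _ _ _ (Ne.symm hff')), fun hh => absurd hh (hnb f)⟩
  have i2f' : Iso S2.R f1' := (i1 b1).add 1
    ⟨fun hh => absurd hh (hnb f'), fun hh => absurd hh (hne _ _ _ _ hff')⟩
  have a3 : Agree (VU (Us B)) S2 S3 :=
    Agree.tie hS2v i2f (hWf f hfB _) 1 (hne _ _ _ _ (Ne.symm hff'))
  have hap : Apart (VU (Us B)) S3 f1 := by
    intro a ha s H
    have hc : ¬ ∃ g0, S2.R f1 g0 f1' := by
      rintro ⟨g0, h0⟩
      exact hne _ _ _ _ (Ne.symm hff') ((i2f _ _ _ h0).1 rfl)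
    rw [hS3, KS.R_add_of_not hS2v hc] at H
    have haf : a ≠ f1 := fun hh => hWf f hfB b1 (by rw [hh] at ha; exact ha)
    have haf' : a ≠ f1' := fun hh => hWf f' hf'B b1 (by rw [hh] at ha; exact ha)
    rcases H with h1 | ⟨s', t', h1, h2, rfl⟩ | ⟨s', t', h1, h2, rfl⟩
    · exact haf ((i2f _ _ _ h1).2 rfl)
    · exact haf ((i2f _ _ _ h1).2 rfl)
    · exact haf' ((i2f' _ _ _ h1).2 rfl)
  have hext : Ext (Us B) {some (f, b1)} (ini B) (⟨joinS ⊥ f f', S3⟩ : St ε P) := by
    rw [hini]
    refine ⟨?_, ?_, ?_⟩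
    · have h1 : K.adds (chn v m k none) = S0 := by rw [hch v, KS.adds_cons]
      change Agree (VU (Us B)) (K.adds (chn v m k none)) S3
      rw [h1]
      exact (a1.trans a2).trans a3
    · intro e he e' he'
      change (⊥ : Setoid ε) e e' ↔ joinS ⊥ f f' e e'
      rw [joinS_iff]
      constructor
      · exact Or.inl
      · rintro (h1 | ⟨h1, _⟩ | ⟨h1, _⟩)
        · exact h1
        · exact absurd he (by rw [bot_iff.1 h1]; exact hfB)
        · exact absurd he (by rw [bot_iff.1 h1]; exact hf'B)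
    · intro z hz
      rw [Set.mem_singleton_iff] at hz
      rw [hz]
      exact hap
  obtain ⟨Y, h1, h2, h3⟩ := Good.extend_dangling hU hst.valid f b1 hfU hext (by
    intro e' he'
    have he2 : e' ∈ f :: f' :: nms B := hperm.mem_iff.1 he'
    rw [List.mem_cons, List.mem_cons] at he2
    rcases he2 with rfl | rfl | he2
    · exact Or.inr (Setoid.refl' _ _)
    · exact Or.inr (Setoid.symm' _ (joinS_self _ _ _))
    · exact Or.inl ⟨e', he2, Setoid.refl' _ _⟩) ⟨v, hvU, 1⁻¹, by
      refine hS3v.inv ?_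
      exact KS.mono _ _ _ _ (KS.mono _ _ _ _ (KS.mem _ _ _ _))⟩ hg
  exact ⟨Y, Relation.ReflTransGen.head hst h1, h2, h3⟩

end Pool.Agent.H46.NE
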