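import Pool.Agent.H46.NE.Word

set_option autoImplicit false

/-!
# Inversion of an entry (MP_fabc18_al): gauge transformations
-/

namespace Pool.Agent.H46.NE

variable {ε L P : Type*} [Group P]

section gauge

variable {V : Type*}

/-- gauge transformation of the knowledge -/
def KS.gauge (x : KS V P) (γ : V → P) : KS V P :=
  ⟨fun a g b => x.R a ((γ a)⁻¹ * g * γ b) b, x.lam⟩

/-- gauge transformation of a constraint -/
def gc (γ : V → P) (c : V × P × V) : V × P × V := (c.1, γ c.1 * c.2.1 * (γ c.2.2)⁻¹, c.2.2)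

/-- inverse of a constraint -/
def ci (c : V × P × V) : V × P × V := (c.2.2, c.2.1⁻¹, c.1)

lemma KS.gauge_R {x : KS V P} {γ : V → P} {a : V} {g : P} {b : V} :
    (x.gauge γ).R a (γ a * g * (γ b)⁻¹) b ↔ x.R a g b := by
  have h1 : (γ a)⁻¹ * (γ a * g * (γ b)⁻¹) * γ b = g := by group
  change x.R a ((γ a)⁻¹ * (γ a * g * (γ b)⁻¹) * γ b) b ↔ _
  rw [h1]

lemma KS.gauge_valid {x : KS V P} (hx : x.Valid) (γ : V → P) : (x.gauge γ).Valid := by
  refine ⟨?_, ?_, ?_, ?_⟩
  · intro a
    change x.R a ((γ a)⁻¹ * 1 * γ a) a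
    have h1 : (γ a)⁻¹ * 1 * γ a = 1 := by group
    rw [h1]
    exact hx.one a
  · intro a g b h
    change x.R b ((γ b)⁻¹ * g⁻¹ * γ a) a
    have h1 : (γ b)⁻¹ * g⁻¹ * γ a = ((γ a)⁻¹ * g * γ b)⁻¹ := by group
    rw [h1]
    exact hx.inv h
  · intro a g b h c h1 h2
    change x.R a ((γ a)⁻¹ * (g * h) * γ c) c
    have h3 : (γ a)⁻¹ * (g * h) * γ c = ((γ a)⁻¹ * g * γ b) * ((γ b)⁻¹ * h * γ c) := by group
    rw [h3]
    exact hx.mul h1 h2
  · intro a g
    change x.R a ((γ a)⁻¹ * g * γ a) a ↔ g ∈ x.lam.nc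
    rw [hx.loop]
    constructor
    · intro h
      have := (ACq.nc_normal x.lam).conj_mem _ h (γ a)
      have h1 : γ a * ((γ a)⁻¹ * g * γ a) * (γ a)⁻¹ = g := by group
      rwa [h1] at this
    · intro h
      have := (ACq.nc_normal x.lam).conj_mem _ h (γ a)⁻¹
      rwa [inv_inv] at this

theorem KS.gauge_add {x : KS V P} (hx : x.Valid) (γ : V → P) (v : V) (g : P) (w : V) :
    (x.add v g w).gauge γ = (x.gauge γ).add v (γ v * g * (γ w)⁻¹) w := by
  apply KS.ext
  · funext a h b
    apply propext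
    constructor
    · intro H
      have H' : (x.add v g w).R a ((γ a)⁻¹ * h * γ b) b := H
      have key : ∀ {a k b}, Gen x.R v g w a k b →
          Gen (x.gauge γ).R v (γ v * g * (γ w)⁻¹) w a (γ a * k * (γ b)⁻¹) b := by
        intro a k b hh
        refine Gen.le (S := fun a k b =>
          Gen (x.gauge γ).R v (γ v * g * (γ w)⁻¹) w a (γ a * k * (γ b)⁻¹) b)
          ?_ Gen.new ?_ ?_ ?_ ?_ hh
        · intro a k b h1
          exact Gen.base (KS.gauge_R.2 h1)
        · intro a
          have h1 : γ a * 1 * (γ a)⁻¹ = 1 := by group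
          rw [h1]
          exact Gen.one a
        · intro a k b h1
          have h2 : γ b * k⁻¹ * (γ a)⁻¹ = (γ a * k * (γ b)⁻¹)⁻¹ := by group
          rw [h2]
          exact Gen.inv h1
        · intro a k b k' c h1 h2
          have h3 : γ a * (k * k') * (γ c)⁻¹ = (γ a * k * (γ b)⁻¹) * (γ b * k' * (γ c)⁻¹) := by
            group
          rw [h3]
          exact Gen.mul h1 h2
        · intro a k b k' h1
          have h3 : γ b * (k' * k * k'⁻¹) * (γ b)⁻¹ =
              (γ b * k' * (γ a)⁻¹) * (γ a * k * (γ a)⁻¹) * (γ b * k' * (γ a)⁻¹)⁻¹ := by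
            group
          rw [h3]
          exact Gen.conj b _ h1
      have := key H'
      have h1 : γ a * ((γ a)⁻¹ * h * γ b) * (γ b)⁻¹ = h := by group
      rw [h1] at this
      exact this
    · intro H
      change Gen x.R v g w a ((γ a)⁻¹ * h * γ b) b
      refine Gen.le (S := fun a k b => Gen x.R v g w a ((γ a)⁻¹ * k * γ b) b)
        ?_ ?_ ?_ ?_ ?_ ?_ H
      · intro a k b h1
        exact Gen.base h1
      · have h1 : (γ v)⁻¹ * (γ v * g * (γ w)⁻¹) * γ w = g := by group
        rw [h1]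
        exact Gen.new
      · intro a
        have h1 : (γ a)⁻¹ * 1 * γ a = 1 := by group
        rw [h1]
        exact Gen.one a
      · intro a k b h1
        have h2 : (γ b)⁻¹ * k⁻¹ * γ a = ((γ a)⁻¹ * k * γ b)⁻¹ := by group
        rw [h2]
        exact Gen.inv h1
      · intro a k b k' c h1 h2
        have h3 : (γ a)⁻¹ * (k * k') * γ c = ((γ a)⁻¹ * k * γ b) * ((γ b)⁻¹ * k' * γ c) := by
          group
        rw [h3]
        exact Gen.mul h1 h2
      · intro a k b k' h1
        have h3 : (γ b)⁻¹ * (k' * k * k'⁻¹) * γ b =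
            ((γ b)⁻¹ * k' * γ a) * ((γ a)⁻¹ * k * γ a) * ((γ b)⁻¹ * k' * γ a)⁻¹ := by
          group
        rw [h3]
        exact Gen.conj b _ h1
  · change (x.add v g w).lam = _
    by_cases hc : ∃ g0, x.R v g0 w
    · obtain ⟨g0, h0⟩ := hc
      rw [KS.lam_add_of_conn hx h0,
        KS.lam_add_of_conn (KS.gauge_valid hx γ) (KS.gauge_R.2 h0)]
      change _ = x.lam.cons _
      rw [← ACq.cons_conj (γ v)]
      congr 1
      group
    · have hc' : ¬ ∃ g0, (x.gauge γ).R v g0 w := by
        rintro ⟨g0, h0⟩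
        exact hc ⟨_, h0⟩
      rw [KS.lam_add_of_not hc, KS.lam_add_of_not hc']
      rfl

lemma KS.gauge_adds {x : KS V P} (hx : x.Valid) (γ : V → P) (l : List (V × P × V)) :
    (x.adds l).gauge γ = (x.gauge γ).adds (l.map (gc γ)) := by
  induction l generalizing x with
  | nil => rfl
  | cons c l ih =>
    rw [List.map_cons, KS.adds_cons, KS.adds_cons, ih (KS.valid_add hx _ _ _),
      KS.gauge_add hx]
    rfl

lemma KS.gauge_zero (γ : V → P) : (KS0 V P).gauge γ = KS0 V P := by
  apply KS.ext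
  · funext a g b
    apply propext
    change (a = b ∧ (γ a)⁻¹ * g * γ b = 1) ↔ (a = b ∧ g = 1)
    constructor
    · rintro ⟨rfl, h⟩
      refine ⟨rfl, ?_⟩
      have h1 : g = γ a * ((γ a)⁻¹ * g * γ a) * (γ a)⁻¹ := by group
      rw [h1, h]
      group
    · rintro ⟨rfl, rfl⟩
      exact ⟨rfl, by group⟩
  · rfl

lemma KS.adds_ci {x : KS V P} (hx : x.Valid) (l : List (V × P × V)) :
    x.adds (l.map ci) = x.adds l := by
  induction l generalizing x with
  | nil => rfl
  | cons c l ih =>
    rw [List.map_cons, KS.adds_cons, KS.adds_cons]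
    have h1 : x.add (ci c).1 (ci c).2.1 (ci c).2.2 = x.add c.1 c.2.1 c.2.2 :=
      KS.add_inv hx _ _ _
    rw [h1, ih (KS.valid_add hx _ _ _)]

end gauge

/-- gauge transformation of a state -/
def St.gauge (X : St ε P) (γ : Vx ε → P) : St ε P := ⟨X.J, X.K.gauge γ⟩

/-- the gauge takes the same value at both ends of an edge -/
def Gau (γ : Vx ε → P) : Prop := ∀ e s t, γ (some (e, s)) = γ (some (e, t))

lemma St.gauge_valid {lab : ε → L} {X : St ε P} (hX : X.Valid lab) {γ : Vx ε → P}
    (hγ : Gau γ) : (X.gauge γ).Valid lab := by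
  refine ⟨KS.gauge_valid hX.K γ, hX.lab, ?_⟩
  intro e f h
  obtain ⟨a, ha⟩ := hX.J e f h
  refine ⟨γ (some (e, true)) * a * (γ (some (f, true)))⁻¹, fun s => ?_⟩
  rw [hγ e true s, hγ f true s]
  exact KS.gauge_R.2 (ha s)

lemma Stp.gauge {lab : ε → L} {U : Set ε} {X Y : St ε P} {γ : Vx ε → P} (hγ : Gau γ)
    (h : Stp lab U X Y) : Stp lab U (X.gauge γ) (Y.gauge γ) := by
  obtain ⟨hX, e, he, f, hf, hl, hJ, s, c, hc, rfl⟩ := h
  refine ⟨St.gauge_valid hX hγ, e, he, f, hf, hl, hJ, s, _, KS.gauge_R.2 hc, ?_⟩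
  change (⟨_, _⟩ : St ε P) = _
  rw [KS.gauge_add hX.K, hγ e s (!s), hγ f s (!s)]
  rfl

lemma Fnl.gauge {lab : ε → L} {U : Set ε} {Y : St ε P} {γ : Vx ε → P} (hγ : Gau γ)
    (h : Fnl lab U Y) : Fnl lab U (Y.gauge γ) := by
  refine ⟨St.gauge_valid h.valid hγ, h.full, h.join, ?_⟩
  intro e he s
  obtain ⟨g, hg⟩ := h.conn e he s
  exact ⟨_, KS.gauge_R.2 hg⟩

lemma Good.gauge {lab : ε → L} {U : Set ε} {X : St ε P} {l : ACq P} {γ : Vx ε → P}
    (hγ : Gau γ) (h : Good lab U X l) : Good lab U (X.gauge γ) l := by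
  obtain ⟨Y, h1, h2, h3⟩ := h
  refine ⟨Y.gauge γ, ?_, h2.gauge hγ, h3⟩
  clear h2 h3
  induction h1 with
  | refl => exact Relation.ReflTransGen.refl
  | tail _ h5 ih => exact ih.tail (h5.gauge hγ)

/-- the reversed path -/
def rv (p : List (ε × Bool)) : List (ε × Bool) := (p.map (fun x => (x.1, !x.2))).reverse

lemma rv_rv (p : List (ε × Bool)) : rv (rv p) = p := by
  unfold rv
  rw [List.map_reverse, List.reverse_reverse, List.map_map]
  have : ((fun x : ε × Bool => (x.1, !x.2)) ∘ fun x => (x.1, !x.2)) = id := by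
    funext x
    simp
  rw [this, List.map_id]

lemma rv_cons (x : ε × Bool) (p : List (ε × Bool)) : rv (x :: p) = rv p ++ [(x.1, !x.2)] := by
  simp [rv]

/-- the constraints of a path, the first one carries `g` -/
def chf : Vx ε → List (ε × Bool) → P → Vx ε → List (Vx ε × P × Vx ε)
  | v, [], g, w => [(v, g, w)]
  | v, x :: p, g, w => (v, g, some (x.1, !x.2)) :: chn (some (x.1, x.2)) p 1 w

lemma chn_snoc (v : Vx ε) (p : List (ε × Bool)) (x : ε × Bool) (g : P) (w : Vx ε) :
    chn v (p ++ [x]) g w = chn v p 1 (some (x.1, !x.2)) ++ [(some (x.1, x.2), g, w)] := by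
  induction p generalizing v with
  | nil => rfl
  | cons y p ih => simp only [List.cons_append, chn, ih]

lemma chf_snoc (v : Vx ε) (p : List (ε × Bool)) (x : ε × Bool) (g : P) (w : Vx ε) :
    chf v (p ++ [x]) g w = chf v p g (some (x.1, !x.2)) ++ [(some (x.1, x.2), 1, w)] := by
  cases p with
  | nil => rfl
  | cons y p => simp only [List.cons_append, chf, chn_snoc]

lemma chn_rev (v : Vx ε) (p : List (ε × Bool)) (g : P) (w : Vx ε) :
    ((chn v p g w).map ci).reverse = chf w (rv p) g⁻¹ v := by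
  induction p generalizing v with
  | nil => rfl
  | cons x p ih =>
    rw [chn, List.map_cons, List.reverse_cons, ih, rv_cons, chf_snoc]
    simp [ci]

lemma gc_chn {γ : Vx ε → P} {c : P} {v : Vx ε} {p : List (ε × Bool)} {w : Vx ε}
    (hv : γ v = c) (hw : γ w = 1) (hp : ∀ x ∈ p, ∀ s, γ (some (x.1, s)) = c) :
    (chn v p 1 w).map (gc γ) = chn v p c w := by
  induction p generalizing v with
  | nil => simp [chn, gc, hv, hw]
  | cons x p ih =>
    rw [chn, chn, List.map_cons]
    rw [ih (v := some (x.1, x.2)) (hp x List.mem_cons_self _)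
      (fun y hy => hp y (List.mem_cons_of_mem _ hy))]
    congr 1
    simp [gc, hv, hp x List.mem_cons_self]

lemma gc_chf {γ : Vx ε → P} {c : P} {v : Vx ε} {p : List (ε × Bool)} {w : Vx ε}
    (hv : γ v = 1) (hw : γ w = 1) (hp : ∀ x ∈ p, ∀ s, γ (some (x.1, s)) = c) :
    (chf v p c w).map (gc γ) = chn v p c w := by
  cases p with
  | nil => simp [chf, chn, gc, hv, hw]
  | cons x p =>
    rw [chf, chn, List.map_cons]
    rw [gc_chn (c := c) (v := some (x.1, x.2)) (hp x List.mem_cons_self _) hw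
      (fun y hy => hp y (List.mem_cons_of_mem _ hy))]
    congr 1
    simp [gc, hv, hp x List.mem_cons_self]

lemma gc_ci {V : Type*} (γ : V → P) (c : V × P × V) : gc γ (ci c) = ci (gc γ c) := by
  simp only [gc, ci, Prod.mk.injEq, true_and, and_true]
  group

theorem GoodW.inv {W : List (List (L × Bool) × P)} {w : List (L × Bool)} {g : P} {l : ACq P}
    (h : GoodW ((w, g) :: W) l) :
    GoodW (((w.map (fun x => (x.1, !x.2))).reverse, g⁻¹) :: W) l := by
  intro ε lab B' hnd hB'
  rcases B' with _ | ⟨⟨q, k⟩, B0⟩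
  · simp at hB'
  simp only [List.map_cons, wd, List.cons.injEq, Prod.mk.injEq] at hB'
  obtain ⟨⟨hq, hk⟩, hB0⟩ := hB'
  subst hk
  set B : List (Blk ε P) := (rv q, g) :: B0 with hB
  have hrvnames : ((rv q).map Prod.fst).Perm (q.map Prod.fst) := by
    unfold rv
    rw [List.map_reverse, List.map_map]
    exact List.reverse_perm _
  have hperm : (nms B).Perm (nms ((q, g⁻¹) :: B0)) := by
    rw [hB, nms_cons, nms_cons]
    exact hrvnames.append_right _
  have hndB : (nms B).Nodup := hperm.nodup_iff.2 hnd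
  have hU : Us B = Us ((q, g⁻¹) :: B0) := by
    ext e
    exact hperm.mem_iff
  have hg := h ε lab B hndB (by
    simp only [hB, List.map_cons, wd, hB0]
    congr 2
    unfold rv
    rw [List.map_reverse, List.map_map]
    have h1 : ((fun x : ε × Bool => (lab x.1, x.2)) ∘ fun x => (x.1, !x.2)) =
        (fun x : L × Bool => (x.1, !x.2)) ∘ (fun x : ε × Bool => (lab x.1, x.2)) := by
      funext x
      rfl
    rw [h1, ← List.map_map, hq, List.map_reverse, List.reverse_reverse, List.map_map]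
    have h2 : ((fun x : L × Bool => (x.1, !x.2)) ∘ fun x => (x.1, !x.2)) = id := by
      funext x
      simp
    rw [h2, List.map_id])
  -- the gauge
  classical
  let γ : Vx ε → P := fun v => match v with
    | none => 1
    | some (e, _) => if e ∈ q.map Prod.fst then g⁻¹ else 1
  have hγ : Gau γ := fun e s t => rfl
  have h1 := hg.gauge hγ
  rw [hU] at h1
  have h2 : (ini B).gauge γ = ini ((q, g⁻¹) :: B0) := by
    unfold ini St.gauge
    congr 1
    change ((KS0 (Vx ε) P).adds (csts B)).gauge γ = (KS0 (Vx ε) P).adds (csts ((q, g⁻¹) :: B0))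
    rw [KS.gauge_adds KS0_valid, KS.gauge_zero, hB, csts_cons, csts_cons, List.map_append,
      KS.adds_append, KS.adds_append]
    have h3 : (csts B0).map (gc γ) = csts B0 := by
      conv_rhs => rw [← List.map_id (csts B0)]
      apply List.map_congr_left
      intro c hc
      have hnd' : (q.map Prod.fst ++ nms B0).Nodup := hnd
      rw [List.nodup_append] at hnd'
      have key : ∀ u : Vx ε, (∀ e t, u = some (e, t) → e ∉ q.map Prod.fst) → γ u = 1 := by
        rintro (_ | ⟨e, t⟩) hu
        · rfl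
        · exact if_neg (hu e t rfl)
      have k1 : γ c.1 = 1 := by
        refine key _ (fun e t hct heq => ?_)
        have he : e ∉ nms B0 := fun hh => hnd'.2.2 e heq e hh rfl
        exact (csts_ne he t c hc).1 hct
      have k2 : γ c.2.2 = 1 := by
        refine key _ (fun e t hct heq => ?_)
        have he : e ∉ nms B0 := fun hh => hnd'.2.2 e heq e hh rfl
        exact (csts_ne he t c hc).2 hct
      simp only [gc, k1, k2, id]
      simp
    rw [h3]
    congr 1
    -- the path
    have h4 : cst ((q, g⁻¹) : Blk ε P) = (((cst ((rv q, g) : Blk ε P)).map (gc γ)).map ci).reverse := by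
      have h5 : cst ((q, g⁻¹) : Blk ε P) = (chf none q g⁻¹ none).map (gc γ) := by
        rw [gc_chf (γ := γ) (c := g⁻¹) rfl rfl]
        · rfl
        · intro x hx s
          exact if_pos (List.mem_map_of_mem hx)
      have h6 : chf none q g⁻¹ none = ((chn none (rv q) g none).map ci).reverse := by
        rw [chn_rev, rv_rv]
      rw [h5, h6, List.map_reverse, List.map_map, List.map_map]
      congr 2
      funext c
      exact gc_ci γ c
    rw [h4, KS.adds_perm KS0_valid (List.reverse_perm _), KS.adds_ci KS0_valid]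
  rw [← h2]
  exact h1

end Pool.Agent.H46.NE
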