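import Pool.Agent.H46.NE.Alpha
import Pool.Agent.H46.NE.Gamma

set_option autoImplicit false

/-!
# Namings, insertions and the normal form (MP_fabc18_al)
-/

namespace Pool.Agent.H46.NE

variable {L P : Type*} [Group P]

/-- rename the letters of a block -/
def mpB {ε ε' : Type} (f : ε → ε') (b : Blk ε P) : Blk ε' P :=
  (b.1.map (fun x => (f x.1, x.2)), b.2)

lemma nms_mpB {ε ε' : Type} (f : ε → ε') (B : List (Blk ε P)) :
    nms (B.map (mpB f)) = (nms B).map f := by
  induction B with
  | nil => rfl
  | cons b B ih =>
    rw [List.map_cons, nms_cons, nms_cons, List.map_append, ih]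
    congr 1
    simp [mpB]

/-- every list of words has a naming -/
theorem exists_naming (W : List (List (L × Bool) × P)) :
    ∃ (ε : Type) (lab : ε → L) (B : List (Blk ε P)), (nms B).Nodup ∧ B.map (wd lab) = W := by
  induction W with
  | nil => exact ⟨Empty, Empty.elim, [], List.nodup_nil, rfl⟩
  | cons x W ih =>
    obtain ⟨w, g⟩ := x
    obtain ⟨ε, lab, B, h1, h2⟩ := ih
    refine ⟨ε ⊕ Fin w.length, Sum.elim lab (fun i => (w.get i).1),
      ((List.finRange w.length).map (fun i => (Sum.inr i, (w.get i).2)), g) ::
        B.map (mpB Sum.inl), ?_, ?_⟩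
    · rw [nms_cons, nms_mpB, List.nodup_append]
      refine ⟨?_, h1.map Sum.inl_injective, ?_⟩
      · rw [List.map_map]
        exact (List.nodup_finRange _).map (fun a b h => by simpa using h)
      · intro a ha b hb
        simp only [List.map_map, List.mem_map, Function.comp] at ha
        obtain ⟨i, _, rfl⟩ := ha
        obtain ⟨e, _, rfl⟩ := List.mem_map.1 hb
        simp
    · rw [List.map_cons]
      congr 1
      · simp only [wd, List.map_map]
        congr 1
        have h3 : ((fun x : (ε ⊕ Fin w.length) × Bool =>
            ((Sum.elim lab (fun i => (w.get i).1)) x.1, x.2)) ∘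
            fun i : Fin w.length => (Sum.inr i, (w.get i).2)) = w.get := by
          funext i
          rfl
        rw [h3]
        exact List.map_get_finRange w
      · rw [List.map_map, ← h2]
        apply List.map_congr_left
        intro b _
        simp only [Function.comp, wd, mpB, List.map_map]
        rfl

theorem GoodW.unique {W : List (List (L × Bool) × P)} {l l' : ACq P} (h : GoodW W l)
    (h' : GoodW W l') : l = l' := by
  obtain ⟨ε, lab, B, h1, h2⟩ := exists_naming W
  exact (h ε lab B h1 h2).unique (h' ε lab B h1 h2)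

theorem GoodW.red {W : List (List (L × Bool) × P)} {w c : List (L × Bool)} {g : P} {l : ACq P}
    (hr : FreeGroup.Red w c) (h : GoodW ((c, g) :: W) l) : GoodW ((w, g) :: W) l := by
  induction hr using Relation.ReflTransGen.head_induction_on with
  | refl => exact h
  | head hs _ ih =>
    cases hs
    exact GoodW.ins ih

theorem GoodW.red_all {W W' : List (List (L × Bool) × P)} {l : ACq P}
    (hr : List.Forall₂ (fun x y => FreeGroup.Red x.1 y.1 ∧ x.2 = y.2) W W') :
    ∀ S, GoodW (W' ++ S) l → GoodW (W ++ S) l := by
  induction hr with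
  | nil => intro S h; exact h
  | @cons x y W W' hxy _ ih =>
    intro S h
    obtain ⟨w, g⟩ := x
    obtain ⟨c, g'⟩ := y
    obtain ⟨h1, h2⟩ := hxy
    simp only at h1 h2
    subst h2
    have h3 : GoodW ((w, g) :: (W' ++ S)) l := GoodW.red h1 h
    have h4 : GoodW (W' ++ ((w, g) :: S)) l := h3.perm List.perm_middle.symm
    exact (ih _ h4).perm List.perm_middle

/-- the words of the normal form -/
def TW {n k : ℕ} (a : Fin n → P) (b : Fin k → P) : List (List (Fin n × Bool) × P) :=
  (List.finRange n).map (fun i => ([(i, true)], a i)) ++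
    (List.finRange k).map (fun j => ([], b j))

lemma nms_lab {ε : Type} (lab : ε → L) (B : List (Blk ε P)) :
    (nms B).map lab = (B.map (wd lab)).flatMap (fun w => w.1.map Prod.fst) := by
  induction B with
  | nil => rfl
  | cons b B ih =>
    rw [nms_cons, List.map_append, ih, List.map_cons, List.flatMap_cons]
    congr 1
    simp [wd]

lemma lam_letters {ε : Type} {n : ℕ} {lab : ε → Fin n} {a : Fin n → P} (l : List (Fin n)) :
    ∀ (B : List (Blk ε P)) (K : KS (Vx ε) P), K.Valid →
      B.map (wd lab) = l.map (fun i => ([(i, true)], a i)) → (nms B).Nodup →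
      (∀ e ∈ nms B, ∀ t, Iso K.R (some (e, t))) → (K.adds (csts B)).lam = K.lam := by
  induction l with
  | nil =>
    intro B K _ hB _ _
    have : B = [] := by simpa using hB
    subst this
    rfl
  | cons i l ih =>
    intro B K hK hB hnd hiso
    cases B with
    | nil => simp at hB
    | cons b B =>
      obtain ⟨p, g⟩ := b
      simp only [List.map_cons, wd, List.cons.injEq, Prod.mk.injEq] at hB
      obtain ⟨⟨hp, hg⟩, hB⟩ := hB
      subst hg
      rcases p with _ | ⟨⟨e, s⟩, _ | ⟨y, p⟩⟩
      · simp at hp
      · simp only [List.map_cons, List.map_nil, List.cons.injEq, Prod.mk.injEq, and_true] at hp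
        obtain ⟨hl, hs⟩ := hp
        subst hs
        rw [csts_cons, KS.adds_append]
        have hc : cst (([(e, true)], a i) : Blk ε P) =
            [(none, 1, some (e, false)), (some (e, true), a i, none)] := rfl
        rw [hc, KS.adds_cons, KS.adds_cons, KS.adds_nil]
        simp only
        have hee : ∀ t, Iso K.R (some (e, t)) := hiso e (by simp [nms_cons])
        have c1 : ¬ ∃ g0, K.R none g0 (some (e, false)) := by
          rintro ⟨g0, h0⟩
          have := (hee false _ _ _ h0).2 rfl
          simp at this
        set K1 := K.add none 1 (some (e, false)) with hK1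
        have hK1v : K1.Valid := KS.valid_add hK _ _ _
        have i1 : Iso K1.R (some (e, true)) := (hee true).add 1 (by simp)
        have c2 : ¬ ∃ g0, K1.R (some (e, true)) g0 none := by
          rintro ⟨g0, h0⟩
          have := (i1 _ _ _ h0).1 rfl
          simp at this
        have hnd' : (e :: nms B).Nodup := hnd
        rw [List.nodup_cons] at hnd'
        rw [ih B _ (KS.valid_add hK1v _ _ _) hB hnd'.2, KS.lam_add_of_not c2,
          KS.lam_add_of_not c1]
        intro f hf t
        have hfe : f ≠ e := fun hh => hnd'.1 (hh ▸ hf)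
        have h1 := hiso f (by rw [nms_cons]; exact List.mem_append_right _ hf) t
        have hne : ∀ s', (some (e, s') : Vx ε) ≠ some (f, t) := by
          intro s' hh
          simp only [Option.some.injEq, Prod.mk.injEq] at hh
          exact hfe hh.1.symm
        refine (h1.add 1 ?_).add (a i) ?_
        · exact ⟨fun hh => by simp at hh, fun hh => absurd hh (hne _)⟩
        · exact ⟨fun hh => absurd hh (hne _), fun hh => by simp at hh⟩
      · simp at hp

lemma lam_trivial {ε : Type} {n k : ℕ} {lab : ε → Fin n} {b : Fin k → P} (l : List (Fin k)) :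
    ∀ (B : List (Blk ε P)) (K : KS (Vx ε) P) (C : Multiset P), K.Valid → K.lam = ACq.mk C →
      B.map (wd lab) = l.map (fun j => ([], b j)) →
      (K.adds (csts B)).lam = ACq.mk ((l.map b : Multiset P) + C) := by
  induction l with
  | nil =>
    intro B K C _ hC hB
    have : B = [] := by simpa using hB
    subst this
    simpa [csts] using hC
  | cons i l ih =>
    intro B K C hK hC hB
    cases B with
    | nil => simp at hB
    | cons bl B =>
      obtain ⟨p, g⟩ := bl
      simp only [List.map_cons, wd, List.cons.injEq, Prod.mk.injEq] at hB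
      obtain ⟨⟨hp, hg⟩, hB⟩ := hB
      subst hg
      have : p = [] := by simpa using hp
      subst this
      rw [csts_cons, KS.adds_append]
      have hc : cst (([], b i) : Blk ε P) = [(none, b i, none)] := rfl
      rw [hc, KS.adds_cons, KS.adds_nil]
      have h1 := KS.lam_add_of_conn hK (hK.one none) (b i)
      rw [ih B _ (b i ::ₘ C) (KS.valid_add hK _ _ _) (by
        change (K.add none (b i) none).lam = _
        rw [h1, hC]; simp) hB]
      congr 1
      simp only [List.map_cons, ← Multiset.cons_coe, Multiset.cons_add, Multiset.add_cons]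

/-- the class of the normal form is the class of `b` -/
theorem goodW_T {n k : ℕ} (a : Fin n → P) (b : Fin k → P) :
    GoodW (TW a b) (ACq.mk ((List.finRange k).map b : Multiset P)) := by
  intro ε lab B hnd hB
  have hB0 := hB
  obtain ⟨B1, B2, rfl, h1, h2⟩ := List.map_eq_append_iff.1 hB
  have hlab : (nms (B1 ++ B2)).map lab = List.finRange n := by
    rw [nms_lab, hB0, TW, List.flatMap_append]
    have e1 : ((List.finRange n).map (fun i => (([(i, true)] : List (Fin n × Bool)), a i))).flatMap
        (fun w => w.1.map Prod.fst) = List.finRange n := by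
      rw [List.flatMap_map]
      simp
    have e2 : ((List.finRange k).map (fun j => (([] : List (Fin n × Bool)), b j))).flatMap
        (fun w => w.1.map Prod.fst) = [] := by
      rw [List.flatMap_map]
      simp
    rw [e1, e2, List.append_nil]
  have hnm : nms B2 = [] := by
    have e1 : (nms B2).map lab = [] := by
      rw [nms_lab, h2, List.flatMap_map]
      simp
    simpa using e1
  have hblock : ∀ bl ∈ B1, ∃ e, bl = ([(e, true)], a (lab e)) := by
    intro bl hbl
    have hm : wd lab bl ∈ B1.map (wd lab) := List.mem_map_of_mem hbl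
    rw [h1] at hm
    obtain ⟨i, _, hi⟩ := List.mem_map.1 hm
    obtain ⟨p, g⟩ := bl
    simp only [wd, Prod.mk.injEq] at hi
    rcases p with _ | ⟨⟨e, s⟩, _ | ⟨y, p⟩⟩
    · simp at hi
    · simp only [List.map_cons, List.map_nil, List.cons.injEq, Prod.mk.injEq, and_true] at hi
      obtain ⟨⟨h3, h4⟩, h5⟩ := hi
      subst h4
      subst h3
      exact ⟨e, by rw [h5]⟩
    · simp at hi
  refine ⟨ini (B1 ++ B2), Relation.ReflTransGen.refl, ⟨ini_valid lab _, ?_, ?_, ?_⟩, ?_⟩
  · intro x
    have hx : x ∈ (nms (B1 ++ B2)).map lab := by rw [hlab]; exact List.mem_finRange x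
    obtain ⟨e, he, hex⟩ := List.mem_map.1 hx
    exact ⟨e, he, hex⟩
  · intro e he f hf hl
    refine bot_iff.2 (List.inj_on_of_nodup_map ?_ he hf hl)
    rw [hlab]
    exact List.nodup_finRange n
  · intro e he s
    have he' : e ∈ nms (B1 ++ B2) := he
    rw [nms_append, hnm, List.append_nil] at he'
    obtain ⟨bl, hbl, heb⟩ := List.mem_flatMap.1 he'
    obtain ⟨e', rfl⟩ := hblock bl hbl
    simp only [List.map_cons, List.map_nil, List.mem_singleton] at heb
    subst heb
    have hK := KS.valid_adds (KS0_valid (V := Vx ε) (P := P)) (csts (B1 ++ B2))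
    have m1 : (none, (1 : P), some (e, false)) ∈ csts (B1 ++ B2) := by
      rw [csts_append]
      exact List.mem_append_left _ (List.mem_flatMap.2 ⟨_, hbl, by simp [cst, chn]⟩)
    have m2 : (some (e, true), a (lab e), none) ∈ csts (B1 ++ B2) := by
      rw [csts_append]
      exact List.mem_append_left _ (List.mem_flatMap.2 ⟨_, hbl, by simp [cst, chn]⟩)
    cases s with
    | false => exact ⟨1, KS.mem_adds _ m1⟩
    | true => exact ⟨_, hK.inv (KS.mem_adds _ m2)⟩
  · change ((KS0 (Vx ε) P).adds (csts (B1 ++ B2))).lam = _
    rw [csts_append, KS.adds_append]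
    have hnd1 : (nms B1).Nodup := by
      rw [nms_append, List.nodup_append] at hnd
      exact hnd.1
    have e1 := lam_letters (a := a) (List.finRange n) B1 (KS0 (Vx ε) P) KS0_valid h1 hnd1
      (fun e _ t => Iso.KS0 _)
    have e2 := lam_trivial (b := b) (List.finRange k) B2 _ 0
      (KS.valid_adds KS0_valid (csts B1)) e1 h2
    rw [e2, add_zero]

end Pool.Agent.H46.NE
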