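import Pool.Agent.H46.NE.Word

set_option autoImplicit false

/-!
# Multiplication of an entry by another entry (MP_fabc18_al)

The second part of the new path is folded onto the path of the other entry, from its end.
-/

namespace Pool.Agent.H46.NE

variable {ε L P : Type*} [Group P]

lemma steps_valid {lab : ε → L} {U : Set ε} {X Y : St ε P} (hX : X.Valid lab)
    (h : Relation.ReflTransGen (Stp lab U) X Y) : Y.Valid lab := by
  induction h with
  | refl => exact hX
  | tail _ h2 _ => exact h2.valid

/-- join the edges of two paths pairwise -/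
def joinL (J : Setoid ε) : List (ε × Bool) → List (ε × Bool) → Setoid ε
  | x :: p, y :: q => joinS (joinL J p q) x.1 y.1
  | _, _ => J

/-- the ties between the vertices of two paths -/
def ties (u : P) : List (ε × Bool) → List (ε × Bool) → List (Vx ε × P × Vx ε)
  | x :: p, y :: q =>
    (some (x.1, !x.2), u, some (y.1, !x.2)) :: (some (x.1, x.2), u, some (y.1, x.2)) :: ties u p q
  | _, _ => []

lemma le_joinL (J : Setoid ε) (p q : List (ε × Bool)) : J ≤ joinL J p q := by
  induction p generalizing q with
  | nil => simp only [joinL, le_refl]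
  | cons x p ih =>
    cases q with
    | nil => simp only [joinL, le_refl]
    | cons y q =>
      simp only [joinL]
      exact le_trans (ih q) (le_joinS _ _ _)

/-- a name which does not occur stays isolated -/
lemma joinL_iso {J : Setoid ε} {z : ε} (hz : ∀ y, J z y → z = y) {p q : List (ε × Bool)}
    (hp : z ∉ p.map Prod.fst) (hq : z ∉ q.map Prod.fst) : ∀ y, joinL J p q z y → z = y := by
  induction p generalizing q with
  | nil => exact hz
  | cons x p ih =>
    cases q with
    | nil => exact hz
    | cons y' q =>
      simp only [List.map_cons, List.mem_cons, not_or] at hp hq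
      have h1 := ih (q := q) hp.2 hq.2
      intro y hy
      have hy : joinS (joinL J p q) x.1 y'.1 z y := hy
      rcases hy with hy | ⟨hy, _⟩ | ⟨hy, _⟩
      · exact h1 y hy
      · exact absurd (h1 _ hy) hp.1
      · exact absurd (h1 _ hy) hq.1

/-- nothing changes outside of the first path -/
lemma joinL_iff {J : Setoid ε} {p q : List (ε × Bool)} (hnd : (p.map Prod.fst).Nodup)
    (hiso : ∀ z ∈ p.map Prod.fst, ∀ y, J z y → z = y)
    (hpq : ∀ z ∈ p.map Prod.fst, z ∉ q.map Prod.fst) {a b : ε} (ha : a ∉ p.map Prod.fst)
    (hb : b ∉ p.map Prod.fst) : joinL J p q a b ↔ J a b := by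
  induction p generalizing q with
  | nil => exact Iff.rfl
  | cons x p ih =>
    cases q with
    | nil => exact Iff.rfl
    | cons y q =>
      simp only [List.map_cons, List.nodup_cons] at hnd
      simp only [List.map_cons, List.mem_cons, not_or] at ha hb
      have hpq' : ∀ z ∈ p.map Prod.fst, z ∉ q.map Prod.fst := by
        intro z hz hzq
        exact hpq z (by simp only [List.map_cons, List.mem_cons]; exact Or.inr hz)
          (by simp only [List.map_cons, List.mem_cons]; exact Or.inr hzq)
      have hx := hpq x.1 (by simp)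
      simp only [List.map_cons, List.mem_cons, not_or] at hx
      have hxi : ∀ y', joinL J p q x.1 y' → x.1 = y' :=
        joinL_iso (hiso x.1 (by simp)) hnd.1 hx.2
      have h1 := ih (q := q) hnd.2 (fun z hz => hiso z (by
        simp only [List.map_cons, List.mem_cons]; exact Or.inr hz)) hpq' ha.2 hb.2
      change joinS (joinL J p q) x.1 y.1 a b ↔ J a b
      constructor
      · rintro (h | ⟨h2, h3⟩ | ⟨h2, h3⟩)
        · exact h1.1 h
        · exact absurd (hxi _ ((joinL J p q).symm' h2)).symm ha.1
        · exact absurd (hxi _ h3).symm hb.1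
      · intro h
        exact Or.inl (h1.2 h)

lemma joinL_pair {J : Setoid ε} {p q : List (ε × Bool)} (h : p.length = q.length) :
    ∀ z ∈ p.map Prod.fst, ∃ y ∈ q.map Prod.fst, joinL J p q z y := by
  induction p generalizing q with
  | nil => intro z hz; simp at hz
  | cons x p ih =>
    cases q with
    | nil => simp at h
    | cons y q =>
      intro z hz
      simp only [List.map_cons, List.mem_cons] at hz
      rcases hz with rfl | hz
      · exact ⟨y.1, by simp, joinS_self _ _ _⟩
      · obtain ⟨w, hw, h1⟩ := ih (by simpa using h) z hz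
        exact ⟨w, by simp only [List.map_cons, List.mem_cons]; exact Or.inr hw, Or.inl h1⟩

/-- fold a path onto a laid path, from its end -/
theorem fold_path {lab : ε → L} {U : Set ε} (u k : P) (p q : List (ε × Bool))
    (hpq : p.map (fun x => (lab x.1, x.2)) = q.map (fun x => (lab x.1, x.2)))
    (hnd : (p.map Prod.fst).Nodup)
    (hdis : ∀ z ∈ p.map Prod.fst, z ∉ q.map Prod.fst)
    (hpU : ∀ z ∈ p.map Prod.fst, z ∈ U) (hqU : ∀ z ∈ q.map Prod.fst, z ∈ U)
    (J : Setoid ε) (hiso : ∀ z ∈ p.map Prod.fst, ∀ y, J z y → z = y)
    (K : KS (Vx ε) P) (hK : K.Valid) (v w : Vx ε)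
    (hlaid : ∀ c ∈ chn w q k none, K.R c.1 c.2.1 c.2.2)
    (hX : (⟨J, K.adds (chn v p (u * k) none)⟩ : St ε P).Valid lab) :
    Relation.ReflTransGen (Stp lab U) ⟨J, K.adds (chn v p (u * k) none)⟩
      ⟨joinL J p q, (K.add v u w).adds (ties u p q)⟩ := by
  induction p generalizing q K v w with
  | nil =>
    cases q with
    | cons y q => simp at hpq
    | nil =>
      simp only [joinL, ties, KS.adds_nil, chn, KS.adds_cons]
      have h1 : K.R w k none := hlaid (w, k, none) (by simp [chn])
      have h2 := KS.add_absorb hK (hK.one v) h1 u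
      rw [one_mul] at h2
      rw [h2]
  | cons x p ih =>
    cases q with
    | nil => simp at hpq
    | cons y q =>
      simp only [List.map_cons, List.cons.injEq, Prod.mk.injEq] at hpq
      obtain ⟨⟨hl, hs⟩, hpq⟩ := hpq
      simp only [List.map_cons, List.nodup_cons] at hnd
      have hdis' : ∀ z ∈ p.map Prod.fst, z ∉ q.map Prod.fst := by
        intro z hz hzq
        exact hdis z (by simp only [List.map_cons, List.mem_cons]; exact Or.inr hz)
          (by simp only [List.map_cons, List.mem_cons]; exact Or.inr hzq)
      have hx := hdis x.1 (by simp)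
      simp only [List.map_cons, List.mem_cons, not_or] at hx
      set K1 := K.add v 1 (some (x.1, !x.2)) with hK1
      have hK1v : K1.Valid := KS.valid_add hK _ _ _
      have hlaid1 : ∀ c ∈ chn (some (y.1, y.2)) q k none, K1.R c.1 c.2.1 c.2.2 := by
        intro c hc
        exact KS.mono _ _ _ _ (hlaid c (by simp only [chn, List.mem_cons]; exact Or.inr hc))
      have hX' : (⟨J, K1.adds (chn (some (x.1, x.2)) p (u * k) none)⟩ : St ε P).Valid lab := hX
      have h1 := ih q hpq hnd.2 hdis'
        (fun z hz => hpU z (by simp only [List.map_cons, List.mem_cons]; exact Or.inr hz))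
        (fun z hz => hqU z (by simp only [List.map_cons, List.mem_cons]; exact Or.inr hz))
        (fun z hz => hiso z (by simp only [List.map_cons, List.mem_cons]; exact Or.inr hz))
        K1 hK1v (some (x.1, x.2)) (some (y.1, y.2)) hlaid1 hX'
      have hxi : ∀ y', joinL J p q x.1 y' → x.1 = y' :=
        joinL_iso (hiso x.1 (by simp)) hnd.1 hx.2
      have hv1 := steps_valid hX' h1
      have h2 : ((K1.add (some (x.1, x.2)) u (some (y.1, y.2))).adds (ties u p q)).R
          (some (x.1, x.2)) u (some (y.1, x.2)) := by
        rw [hs]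
        exact KS.mono_adds _ _ (KS.mem _ _ _ _)
      have h3 : Stp lab U
          ⟨joinL J p q, (K1.add (some (x.1, x.2)) u (some (y.1, y.2))).adds (ties u p q)⟩
          ⟨joinL J (x :: p) (y :: q), (K.add v u w).adds (ties u (x :: p) (y :: q))⟩ := by
        refine ⟨hv1, x.1, hpU _ (by simp), y.1, hqU _ (by simp), hl,
          fun hh => hx.1 (hxi _ hh), x.2, u, h2, ?_⟩
        -- the knowledge
        have h4 : (K.add v u w).adds (ties u (x :: p) (y :: q)) =
            ((K1.add (some (x.1, x.2)) u (some (y.1, y.2))).adds (ties u p q)).add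
              (some (x.1, !x.2)) u (some (y.1, !x.2)) := by
          rw [KS.adds_add (KS.valid_add hK1v _ _ _), KS.add_comm' hK1v]
          simp only [ties, KS.adds_cons]
          rw [hs]
          congr 1
          rw [← hs]
          congr 1
          -- `(K.add v u w).add x u y = (K.add v 1 x).add x u y`
          rw [hK1, KS.add_comm' hK, KS.add_comm' hK v 1]
          set K2 := K.add (some (x.1, !x.2)) u (some (y.1, !x.2)) with hK2
          have hK2v : K2.Valid := KS.valid_add hK _ _ _
          have h5 : K2.R (some (x.1, !x.2)) u (some (y.1, !x.2)) := KS.mem _ _ _ _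
          have h6 : K2.R w 1 (some (y.1, !x.2)) := by
            rw [hs]
            exact KS.mono _ _ _ _ (hlaid (w, 1, some (y.1, !y.2)) (by simp [chn]))
          have h7 := hK2v.mul h5 (hK2v.inv h6)
          have h8 := KS.add_absorb hK2v (hK2v.one v) h7 1
          have h9 : (1 : P) * 1 * (u * 1⁻¹) = u := by group
          rw [h9] at h8
          exact h8
        rw [h4]
        rfl
      exact h1.tail h3

/-- ties of isolated vertices are redundant -/
lemma Agree.ties {W : Set (Vx ε)} (u : P) {p q : List (ε × Bool)}
    (hnd : (p.map Prod.fst).Nodup) (hdis : ∀ z ∈ p.map Prod.fst, z ∉ q.map Prod.fst)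
    {K : KS (Vx ε) P} (hK : K.Valid)
    (hiso : ∀ z ∈ p.map Prod.fst, ∀ t, Iso K.R (some (z, t)) ∧ (some (z, t) : Vx ε) ∉ W) :
    Agree W K (K.adds (ties u p q)) := by
  induction p generalizing q K with
  | nil => simp only [NE.ties, KS.adds_nil]; exact Agree.refl _ _
  | cons x p ih =>
    cases q with
    | nil => simp only [NE.ties, KS.adds_nil]; exact Agree.refl _ _
    | cons y q =>
      simp only [List.map_cons, List.nodup_cons] at hnd
      have hdis' : ∀ z ∈ p.map Prod.fst, z ∉ q.map Prod.fst := by
        intro z hz hzq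
        exact hdis z (by simp only [List.map_cons, List.mem_cons]; exact Or.inr hz)
          (by simp only [List.map_cons, List.mem_cons]; exact Or.inr hzq)
      have hx := hdis x.1 (by simp)
      simp only [List.map_cons, List.mem_cons, not_or] at hx
      have h1 := hiso x.1 (by simp) (!x.2)
      have h2 := hiso x.1 (by simp) x.2
      have hyx : ∀ s t, (some (y.1, s) : Vx ε) ≠ some (x.1, t) := by
        intro s t hh
        simp only [Option.some.injEq, Prod.mk.injEq] at hh
        exact hx.1 hh.1.symm
      simp only [NE.ties, KS.adds_cons]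
      set K1 := K.add (some (x.1, !x.2)) u (some (y.1, !x.2)) with hK1
      have hK1v : K1.Valid := KS.valid_add hK _ _ _
      have a1 : Agree W K K1 := Agree.tie hK h1.1 h1.2 u (hyx _ _)
      have h3 : Iso K1.R (some (x.1, x.2)) := by
        refine h2.1.add u ⟨fun hh => ?_, fun hh => absurd hh (hyx _ _)⟩
        simp only [Option.some.injEq, Prod.mk.injEq, true_and] at hh
        cases hx2 : x.2 <;> rw [hx2] at hh <;> simp at hh
      set K2 := K1.add (some (x.1, x.2)) u (some (y.1, x.2)) with hK2
      have hK2v : K2.Valid := KS.valid_add hK1v _ _ _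
      have a2 : Agree W K1 K2 := Agree.tie hK1v h3 h2.2 u (hyx _ _)
      have a3 : Agree W K2 (K2.adds (NE.ties u p q)) := by
        refine ih hnd.2 hdis' hK2v ?_
        intro z hz t
        have h4 := hiso z (by simp only [List.map_cons, List.mem_cons]; exact Or.inr hz) t
        have hzx : z ≠ x.1 := fun hh => hnd.1 (hh ▸ hz)
        have hzy : z ≠ y.1 := by
          intro hh
          exact hdis z (by simp only [List.map_cons, List.mem_cons]; exact Or.inr hz)
            (by simp [hh])
        have hne : ∀ s, (some (x.1, s) : Vx ε) ≠ some (z, t) := by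
          intro s hh
          simp only [Option.some.injEq, Prod.mk.injEq] at hh
          exact hzx hh.1.symm
        have hne' : ∀ s, (some (y.1, s) : Vx ε) ≠ some (z, t) := by
          intro s hh
          simp only [Option.some.injEq, Prod.mk.injEq] at hh
          exact hzy hh.1.symm
        refine ⟨(h4.1.add u ?_).add u ?_, h4.2⟩
        · exact ⟨fun hh => absurd hh (hne _), fun hh => absurd hh (hne' _)⟩
        · exact ⟨fun hh => absurd hh (hne _), fun hh => absurd hh (hne' _)⟩
      exact (a1.trans a2).trans a3

theorem GoodW.mul {W : List (List (L × Bool) × P)} {w w' : List (L × Bool)} {g g' : P}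
    {l : ACq P} (h : GoodW ((w, g) :: (w', g') :: W) l) :
    GoodW ((w ++ w', g * g') :: (w', g') :: W) l := by
  intro ε lab B' hnd hB'
  -- decompose the naming
  rcases B' with _ | ⟨⟨r, k⟩, _ | ⟨⟨q, k'⟩, B0⟩⟩
  · simp at hB'
  · simp at hB'
  simp only [List.map_cons, wd, List.cons.injEq, Prod.mk.injEq] at hB'
  obtain ⟨⟨hr, hk⟩, ⟨hq, hk'⟩, hB0⟩ := hB'
  subst hk'
  subst hk
  obtain ⟨p0, p, rfl, hp0, hp⟩ := List.map_eq_append_iff.1 hr
  set B : List (Blk ε P) := (p0, g) :: (q, k') :: B0 with hB
  set B' : List (Blk ε P) := (p0 ++ p, g * k') :: (q, k') :: B0 with hB'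
  -- names
  have hnames' : nms B' = p0.map Prod.fst ++ p.map Prod.fst ++ (q.map Prod.fst ++ nms B0) := by
    simp [hB', nms_cons]
  have hnames : nms B = p0.map Prod.fst ++ (q.map Prod.fst ++ nms B0) := by
    simp [hB, nms_cons]
  rw [hnames'] at hnd
  rw [List.nodup_append, List.nodup_append] at hnd
  obtain ⟨⟨hn1, hn2, hd1⟩, hn3, hd2⟩ := hnd
  have hndB : (nms B).Nodup := by
    rw [hnames, List.nodup_append]
    exact ⟨hn1, hn3, fun a ha b hb => hd2 a (List.mem_append_left _ ha) b hb⟩
  have hpB : ∀ z ∈ p.map Prod.fst, z ∉ nms B := by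
    intro z hz
    rw [hnames, List.mem_append, not_or]
    exact ⟨fun hh => hd1 z hh z hz rfl, fun hh => hd2 z (List.mem_append_right _ hz) z hh rfl⟩
  have hU : Us B ⊆ Us B' := by
    intro e he
    change e ∈ nms B' 
    change e ∈ nms B at he
    rw [hnames'] 
    rw [hnames] at he
    rcases List.mem_append.1 he with he | he
    · exact List.mem_append_left _ (List.mem_append_left _ he)
    · exact List.mem_append_right _ he
  have hg := h ε lab B hndB (by
    simp only [hB, List.map_cons, wd, hp0, hq, hB0])
  -- the common knowledge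
  set v := endv (none : Vx ε) p0 with hv
  set C := seg (P := P) (none : Vx ε) p0 ++ (chn none q k' none ++ csts B0) with hC
  set K := (KS0 (Vx ε) P).adds C with hK
  have hKv : K.Valid := KS.valid_adds KS0_valid _
  have hini : ini B = ⟨⊥, K.add v g none⟩ := by
    have h1 : (csts B).Perm (C ++ [(v, g, none)]) := by
      have h2 : csts B = (seg none p0 ++ [(v, g, none)]) ++ (chn none q k' none ++ csts B0) := by
        simp only [hB, csts_cons, cst, chn_eq none p0, hv]
      rw [h2, hC, List.append_assoc, List.append_assoc]
      exact (List.perm_append_comm).append_left _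
    unfold ini
    rw [KS.adds_perm KS0_valid h1, KS.adds_append]
    rfl
  have hini' : ini B' = ⟨⊥, K.adds (chn v p (g * k') none)⟩ := by
    have h1 : (csts B').Perm (C ++ chn v p (g * k') none) := by
      have h2 : csts B' = (seg none p0 ++ chn v p (g * k') none) ++
          (chn none q k' none ++ csts B0) := by
        simp only [hB', csts_cons, cst, chn_append none p0, hv]
      rw [h2, hC, List.append_assoc, List.append_assoc]
      exact (List.perm_append_comm).append_left _
    unfold ini
    rw [KS.adds_perm KS0_valid h1, KS.adds_append]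
  -- fold
  have hpq : p.map (fun x => (lab x.1, x.2)) = q.map (fun x => (lab x.1, x.2)) := by
    rw [hp, hq]
  have hdis : ∀ z ∈ p.map Prod.fst, z ∉ q.map Prod.fst := by
    intro z hz hh
    exact hd2 z (List.mem_append_right _ hz) z (List.mem_append_left _ hh) rfl
  have hpU : ∀ z ∈ p.map Prod.fst, z ∈ Us B' := by
    intro z hz
    change z ∈ nms B'
    rw [hnames']
    exact List.mem_append_left _ (List.mem_append_right _ hz)
  have hqU : ∀ z ∈ q.map Prod.fst, z ∈ Us B := by
    intro z hz
    change z ∈ nms B
    rw [hnames]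
    exact List.mem_append_right _ (List.mem_append_left _ hz)
  have hX' : (ini B').Valid lab := ini_valid lab B'
  rw [hini'] at hX' ⊢
  have hsteps := fold_path (U := Us B') g k' p q hpq hn2 hdis hpU (fun z hz => hU (hqU z hz)) ⊥
    (fun z _ y hy => hy) K hKv v none (by
      intro c hc
      refine KS.mem_adds _ ?_
      rw [hC]
      exact List.mem_append_right _ (List.mem_append_left _ hc)) hX'
  have hv1 := steps_valid hX' hsteps
  set X1 : St ε P := ⟨joinL ⊥ p q, (K.add v g none).adds (ties g p q)⟩ with hX1
  -- the new state extends the old one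
  have hvne : ∀ z ∈ p.map Prod.fst, ∀ t, v ≠ some (z, t) := by
    intro z hz t
    rcases endv_cases (none : Vx ε) p0 with h1 | ⟨x, hx, h1⟩
    · rw [hv, h1]; simp
    · rw [hv, h1]
      intro hh
      simp only [Option.some.injEq, Prod.mk.injEq] at hh
      exact hd1 x.1 (List.mem_map_of_mem hx) z hz hh.1
  have hIso : ∀ z ∈ p.map Prod.fst, ∀ t, Iso (K.add v g none).R (some (z, t)) := by
    intro z hz t
    refine Iso.add (Iso.adds (Iso.KS0 _) ?_) g ⟨fun hh => absurd hh (hvne z hz t),
      fun hh => by simp at hh⟩
    intro c hc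
    rw [hC] at hc
    rcases List.mem_append.1 hc with hc | hc
    · have hc' := seg_sub_chn none p0 (1 : P) none c hc
      exact chn_ne (fun hh => hd1 z hh z hz rfl) (by simp) (by simp) c hc'
    rcases List.mem_append.1 hc with hc | hc
    · exact chn_ne (hdis z hz) (by simp) (by simp) c hc
    · exact csts_ne (fun hh => hd2 z (List.mem_append_right _ hz) z
        (List.mem_append_right _ hh) rfl) t c hc
  have hext : Ext (Us B) ∅ (ini B) X1 := by
    rw [hini]
    refine ⟨?_, ?_, ?_⟩
    · refine Agree.ties g hn2 hdis (KS.valid_add hKv _ _ _) ?_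
      intro z hz t
      refine ⟨hIso z hz t, ?_⟩
      rw [some_mem_VU_iff]
      exact hpB z hz
    · intro e he f hf
      rw [hX1]
      exact (joinL_iff (J := ⊥) (q := q) hn2 (fun z _ y hy => hy) hdis
        (fun hh => hpB e hh he) (fun hh => hpB f hh hf)).symm
    · intro z hz
      exact absurd hz (Set.notMem_empty z)
  obtain ⟨Y, h1, h2, h3⟩ := Good.extend hU hv1 hext (by
    intro e' he'
    change e' ∈ nms B' at he'
    rw [hnames'] at he'
    by_cases hep : e' ∈ p.map Prod.fst
    · obtain ⟨y, hy, hh⟩ := joinL_pair (J := ⊥) (by simpa using congrArg List.length hpq) e' hep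
      exact ⟨y, hqU y hy, hh⟩
    · refine ⟨e', ?_, X1.J.refl' e'⟩
      change e' ∈ nms B
      rw [hnames]
      rcases List.mem_append.1 he' with he' | he'
      · rcases List.mem_append.1 he' with he' | he'
        · exact List.mem_append_left _ he'
        · exact absurd he' hep
      · exact List.mem_append_right _ he') hg
  exact ⟨Y, hsteps.trans h1, h2, h3⟩

end Pool.Agent.H46.NE
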