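import Pool.Agent.H46.NE.Solv

set_option autoImplicit false

/-!
# Descending chains below the commutator subgroup (MP_fabc18_al)
-/

namespace Pool.Agent.H46.NE

open Pool.Agent.H81.Nls (Move Nielsen)
open FreeGroup (of)
open scoped commutatorElement

/-- `Below P V`: the normal subgroup `V` of `P` is reached from the commutator subgroup of `P` in
finitely many steps `V ⊇ W`, where `W` is a normal subgroup of `P` such that `V / W` is central in
`P / W` or `V / W` is finite and abelian. -/
inductive Below (P : Type*) [Group P] : Subgroup P → Prop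
  | start : Below P (commutator P)
  | step {V W : Subgroup P} (hV : Below P V) (hW : W.Normal) (hWV : W ≤ V)
      (h : ⁅V, (⊤ : Subgroup P)⁆ ≤ W ∨ (⁅V, V⁆ ≤ W ∧ W.relIndex V ≠ 0)) : Below P W

/-- the same with chief factors -/
inductive Chain (P : Type*) [Group P] : Subgroup P → Prop
  | start : Chain P (commutator P)
  | step {V W : Subgroup P} (hV : Chain P V) (hW : W.Normal) (hWV : W ≤ V)
      (h : ⁅V, (⊤ : Subgroup P)⁆ ≤ W ∨ (⁅V, V⁆ ≤ W ∧ W.relIndex V ≠ 0 ∧
        ∀ X : Subgroup P, X.Normal → W ≤ X → X ≤ V → X = W ∨ X = V)) : Chain P W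

variable {P : Type*} [Group P] {n k : ℕ}

lemma Chain.normal {V : Subgroup P} (h : Chain P V) : V.Normal := by
  cases h with
  | start => infer_instance
  | step _ hW _ _ => exact hW

lemma Chain.le {V : Subgroup P} (h : Chain P V) : V ≤ commutator P := by
  induction h with
  | start => exact le_refl _
  | step _ _ hWV _ ih => exact hWV.trans ih

/-- refinement of a finite abelian factor -/
lemma Chain.refine_factor {W : Subgroup P} (hW : W.Normal) : ∀ N : ℕ, ∀ V : Subgroup P,
    Chain P V → W ≤ V → ⁅V, V⁆ ≤ W → W.relIndex V ≠ 0 → W.relIndex V ≤ N → Chain P W := by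
  intro N
  induction N with
  | zero =>
    intro V _ _ _ h0 h1
    exact absurd (Nat.le_zero.1 h1) h0
  | succ N ih =>
    intro V hV hWV hc h0 h1
    by_cases hVW : V ≤ W
    · rw [le_antisymm hWV hVW]
      exact hV
    -- a normal subgroup of the smallest index
    have hex : ∃ d : ℕ, ∃ X : Subgroup P, X.Normal ∧ W ≤ X ∧ X ≤ V ∧ ¬ V ≤ X ∧
        X.relIndex V = d := ⟨_, W, hW, le_refl _, hWV, hVW, rfl⟩
    classical
    obtain ⟨X, hXn, hWX, hXV, hVX, hXd⟩ := Nat.find_spec hex
    have hmul := Subgroup.relIndex_mul_relIndex W X V hWX hXV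
    have hX0 : X.relIndex V ≠ 0 := by
      intro h
      rw [h, mul_zero] at hmul
      exact h0 hmul.symm
    have hX1 : X.relIndex V ≠ 1 := fun h => hVX (Subgroup.relIndex_eq_one.1 h)
    have hW0 : W.relIndex X ≠ 0 := by
      intro h
      rw [h, zero_mul] at hmul
      exact h0 hmul.symm
    refine ih X (Chain.step hV hXn hXV (Or.inr ⟨hc.trans hWX, hX0, ?_⟩)) hWX
      ((Subgroup.commutator_mono hXV hXV).trans hc) hW0 ?_
    · intro Y hY hXY hYV
      by_cases hVY : V ≤ Y
      · exact Or.inr (le_antisymm hYV hVY)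
      · left
        have h2 : Nat.find hex ≤ Y.relIndex V :=
          Nat.find_min' hex ⟨Y, hY, hWX.trans hXY, hYV, hVY, rfl⟩
        have h3 := Subgroup.relIndex_mul_relIndex X Y V hXY hYV
        rw [← hXd] at h2
        have hY0 : Y.relIndex V ≠ 0 := by
          intro h
          rw [h, mul_zero] at h3
          exact hX0 h3.symm
        have h4 : X.relIndex Y = 1 := by
          have h5 : X.relIndex Y ≠ 0 := by
            intro h
            rw [h, zero_mul] at h3
            exact hX0 h3.symm
          rw [← h3] at h2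
          have h6 : X.relIndex Y * Y.relIndex V ≤ 1 * Y.relIndex V := by rw [one_mul]; exact h2
          have h7 := Nat.le_of_mul_le_mul_right h6 (Nat.pos_of_ne_zero hY0)
          omega
        exact le_antisymm (Subgroup.relIndex_eq_one.1 h4) hXY
    · have h2 : 2 ≤ X.relIndex V := by omega
      have h3 : W.relIndex X * 2 ≤ W.relIndex V := by
        rw [← hmul]
        exact Nat.mul_le_mul_left _ h2
      omega

lemma Below.chain {V : Subgroup P} (h : Below P V) : Chain P V := by
  induction h with
  | start => exact Chain.start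
  | step _ hW hWV h ih =>
    rcases h with h | ⟨h, h0⟩
    · exact Chain.step ih hW hWV (Or.inl h)
    · exact Chain.refine_factor hW _ _ ih hWV h h0 (le_refl _)

/-- the class of the second coordinate modulo a normal subgroup -/
def qt (W : Subgroup P) [W.Normal] : FreeGroup (Fin n) × P →* FreeGroup (Fin n) × (P ⧸ W) :=
  MonoidHom.prodMap (MonoidHom.id _) (QuotientGroup.mk' W)

lemma qt_T (W : Subgroup P) [W.Normal] (a : Fin n → P) (b : Fin k → P) :
    (fun x => qt W (T a b x)) =
      T (fun i => (QuotientGroup.mk (a i) : P ⧸ W)) (fun j => (QuotientGroup.mk (b j) : P ⧸ W)) := by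
  funext x
  rcases x with i | j <;> rfl

/-- the images of generating tuples generate -/
lemma gen_map {ι G H : Type*} [Group G] [Group H] (f : G →* H) (hf : Function.Surjective f)
    {t : ι → G} (ht : Subgroup.closure (Set.range t) = ⊤) :
    Subgroup.closure (Set.range (fun x => f (t x))) = ⊤ := by
  have h1 : Subgroup.closure (Set.range (fun x => f (t x))) =
      (Subgroup.closure (Set.range t)).map f := by
    rw [MonoidHom.map_closure]
    congr 1
    rw [← Set.range_comp]
    rfl
  rw [h1, ht]
  exact Subgroup.map_top_of_surjective _ hf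

/-- a tuple whose image is a normal form -/
lemma eq_T_of_qt {W : Subgroup P} [W.Normal] {t : Fin n ⊕ Fin k → FreeGroup (Fin n) × P}
    {y : Fin k → P}
    (h : (fun x => qt W (t x)) = T (fun _ => 1) (fun j => (QuotientGroup.mk (y j) : P ⧸ W))) :
    ∃ (a : Fin n → P) (b : Fin k → P), t = T a b ∧ (∀ i, a i ∈ W) ∧ ∀ j, (y j)⁻¹ * b j ∈ W := by
  refine ⟨fun i => (t (Sum.inl i)).2, fun j => (t (Sum.inr j)).2, ?_, ?_, ?_⟩
  · funext x
    have h1 := congrArg Prod.fst (congrFun h x)
    rcases x with i | j
    · exact Prod.ext h1 rfl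
    · exact Prod.ext h1 rfl
  · intro i
    have h1 := congrArg Prod.snd (congrFun h (Sum.inl i))
    exact (QuotientGroup.eq_one_iff _).1 h1
  · intro j
    have h1 := congrArg Prod.snd (congrFun h (Sum.inr j))
    exact QuotientGroup.eq.1 h1.symm

/-- one step of the chain -/
lemma chain_step (i0 : Fin n) {V W : Subgroup P} (hVn : V.Normal) (hVP : V ≤ commutator P)
    (hW : W.Normal) (hWV : W ≤ V)
    (h : ⁅V, (⊤ : Subgroup P)⁆ ≤ W ∨ (⁅V, V⁆ ≤ W ∧ W.relIndex V ≠ 0 ∧
      ∀ X : Subgroup P, X.Normal → W ≤ X → X ≤ V → X = W ∨ X = V))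
    {y b : Fin k → P} (hy : Subgroup.closure (Set.range y) = ⊤) (hb : ∀ j, (y j)⁻¹ * b j ∈ V)
    {a : Fin n → P} (ha : ∀ i, a i ∈ V) (hg : Subgroup.closure (Set.range (T a b)) = ⊤) :
    ∃ (a' : Fin n → P) (b' : Fin k → P), Nielsen (T a b) (T a' b') ∧ (∀ i, a' i ∈ W) ∧
      ∀ j, (y j)⁻¹ * b' j ∈ W := by
  set π := QuotientGroup.mk' W with hπ
  have hπs : Function.Surjective π := QuotientGroup.mk'_surjective W
  have hV1 : (V.map π).Normal := hVn.map π hπs
  have hW1 : W.map π = ⊥ := by
    rw [Subgroup.map_eq_bot_iff, hπ, QuotientGroup.ker_mk']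
  have hV2 : V.map π ≤ commutator (P ⧸ W) := by
    have h1 : (commutator P).map π = commutator (P ⧸ W) := by
      rw [commutator_def, Subgroup.map_commutator, Subgroup.map_top_of_surjective _ hπs]
      rfl
    rw [← h1]
    exact Subgroup.map_mono hVP
  have hcm : ∀ {A B : Subgroup P}, ⁅A, B⁆ ≤ W → ⁅A.map π, B.map π⁆ = ⊥ := by
    intro A B hAB
    rw [← Subgroup.map_commutator, eq_bot_iff, ← hW1]
    exact Subgroup.map_mono hAB
  have hstep : Nielsen (T (fun i => (QuotientGroup.mk (a i) : P ⧸ W))
      (fun j => (QuotientGroup.mk (b j) : P ⧸ W)))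
      (T (fun _ => 1) (fun j => (QuotientGroup.mk (y j) : P ⧸ W))) := by
    refine step_lemma i0 (V := V.map π) hV2 ?_ (gen_map π hπs hy) ?_ ?_ ?_
    · rcases h with h | ⟨h, _, hX⟩
      · left
        have h1 := hcm h
        rw [Subgroup.map_top_of_surjective _ hπs,
          Subgroup.commutator_top_right_eq_bot_iff_le_center] at h1
        exact h1
      · right
        refine ⟨?_, ?_⟩
        · have h1 := hcm h
          intro x hx z hz
          have h2 := Subgroup.commutator_mem_commutator hx hz
          rw [h1, Subgroup.mem_bot] at h2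
          exact commutatorElement_eq_one_iff_mul_comm.1 h2
        · intro X hXn hXV
          have h3 : W ≤ X.comap π := by
            intro w hw
            have : π w = 1 := (QuotientGroup.eq_one_iff w).2 hw
            rw [Subgroup.mem_comap, this]
            exact one_mem _
          have h4 : X.comap π ≤ V := by
            intro x hx
            obtain ⟨v, hv, hvx⟩ := Subgroup.mem_map.1 (hXV (Subgroup.mem_comap.1 hx))
            have h5 : v⁻¹ * x ∈ W := QuotientGroup.eq.1 hvx
            have h6 : x = v * (v⁻¹ * x) := by group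
            rw [h6]
            exact mul_mem hv (hWV h5)
          rcases hX _ (hXn.comap π) h3 h4 with h7 | h7
          · left
            rw [← Subgroup.map_comap_eq_self_of_surjective hπs X, h7, hW1]
          · right
            rw [← Subgroup.map_comap_eq_self_of_surjective hπs X, h7]
    · intro j
      exact ⟨(y j)⁻¹ * b j, hb j, rfl⟩
    · intro i
      exact ⟨a i, ha i, rfl⟩
    · rw [← qt_T]
      exact gen_map _ (Function.Surjective.prodMap Function.surjective_id hπs) hg
  rw [← qt_T] at hstep
  obtain ⟨t', h1, h2⟩ := nl_lift (qt W) hstep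
  obtain ⟨a', b', rfl, h3, h4⟩ := eq_T_of_qt h2
  exact ⟨a', b', h1, h3, h4⟩

/-- the whole chain -/
lemma chain_all (i0 : Fin n) {y : Fin k → P} (hy : Subgroup.closure (Set.range y) = ⊤)
    {a : Fin n → P} {b : Fin k → P} (ha : ∀ i, a i ∈ commutator P)
    (hb : ∀ j, (y j)⁻¹ * b j ∈ commutator P)
    (hg : Subgroup.closure (Set.range (T a b)) = ⊤) {V : Subgroup P} (hV : Chain P V) :
    ∃ (a' : Fin n → P) (b' : Fin k → P), Nielsen (T a b) (T a' b') ∧ (∀ i, a' i ∈ V) ∧
      ∀ j, (y j)⁻¹ * b' j ∈ V := by
  induction hV with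
  | start => exact ⟨a, b, Relation.ReflTransGen.refl, ha, hb⟩
  | step hV hW hWV h ih =>
    obtain ⟨a1, b1, h1, h2, h3⟩ := ih
    obtain ⟨a2, b2, h4, h5, h6⟩ := chain_step i0 hV.normal hV.le hW hWV h hy h3 h2 (nl_gen h1 hg)
    exact ⟨a2, b2, nl_trans h1 h4, h5, h6⟩

/-- **Part A.** -/
theorem nielsen_iff_ab (i0 : Fin n) (hP : Chain P ⊥) {y : Fin k → P}
    (hy : Subgroup.closure (Set.range y) = ⊤) {t : Fin n ⊕ Fin k → FreeGroup (Fin n) × P}
    (ht : Subgroup.closure (Set.range t) = ⊤) :
    Nielsen t (T (fun _ => 1) y) ↔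
      Nielsen (fun x => qt (commutator P) (t x))
        (fun x => qt (commutator P) (T (fun _ => 1) y x)) := by
  refine ⟨fun h => nl_map _ h, fun h => ?_⟩
  obtain ⟨t', h1, h2⟩ := nl_lift (qt (commutator P)) h
  rw [qt_T] at h2
  obtain ⟨a, b, rfl, h3, h4⟩ := eq_T_of_qt (W := commutator P) (t := t') (y := y) h2
  obtain ⟨a', b', h5, h6, h7⟩ := chain_all i0 hy h3 h4 (nl_gen h1 ht) hP
  have h8 : a' = fun _ => 1 := by
    funext i
    exact Subgroup.mem_bot.1 (h6 i)
  have h9 : b' = y := by
    funext j
    have := Subgroup.mem_bot.1 (h7 j)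
    exact (inv_mul_eq_one.1 this).symm
  subst h8 h9
  exact nl_trans h1 h5

/-! ### examples of chains -/

/-- nilpotent groups -/
theorem below_of_nilpotent (hP : Group.IsNilpotent P) : Below P ⊥ := by
  obtain ⟨r, hr⟩ := Subgroup.nilpotent_iff_lowerCentralSeries.1 hP
  have h1 : ∀ i, Below P (Subgroup.lowerCentralSeries (⊤ : Subgroup P) (i + 1)) := by
    intro i
    induction i with
    | zero =>
      rw [zero_add, Subgroup.top_lowerCentralSeries_one]
      exact Below.start
    | succ i ih =>
      refine Below.step ih inferInstance (Subgroup.lowerCentralSeries_antitone _ (Nat.le_succ _))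
        (Or.inl ?_)
      exact le_of_eq (Subgroup.lowerCentralSeries_succ _ _).symm
  have h2 : Subgroup.lowerCentralSeries (⊤ : Subgroup P) (r + 1) = ⊥ := by
    rw [eq_bot_iff, ← hr]
    exact Subgroup.lowerCentralSeries_antitone _ (Nat.le_succ _)
  rw [← h2]
  exact h1 r

/-- solvable groups with a finite commutator subgroup -/
theorem below_of_solvable (hP : Group.IsSolvable P) (hf : Finite (commutator P)) :
    Below P ⊥ := by
  have key : ∀ i : ℕ, Below P (derivedSeries P (i + 1)) := by
    intro i
    induction i with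
    | zero =>
      have h1 : derivedSeries P (0 + 1) = commutator P := by
        rw [derivedSeries_succ, derivedSeries_zero]
        rfl
      rw [h1]
      exact Below.start
    | succ i ih =>
      have hle : derivedSeries P (i + 1 + 1) ≤ derivedSeries P (i + 1) := by
        rw [derivedSeries_succ]
        exact Subgroup.commutator_le_left _ _
      refine Below.step ih inferInstance hle (Or.inr ⟨le_refl _, ?_⟩)
      have h2 : ∀ j, derivedSeries P (j + 1) ≤ commutator P := by
        intro j
        rw [derivedSeries_succ]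
        exact Subgroup.commutator_mono le_top le_top
      have hfi : Finite (derivedSeries P (i + 1)) :=
        Finite.of_injective _ (Subgroup.inclusion_injective (h2 i))
      rw [Subgroup.relIndex]
      exact Subgroup.FiniteIndex.index_ne_zero
  obtain ⟨r, hr⟩ := (Group.isSolvable_def P).1 hP
  have h3 : derivedSeries P (r + 1) = ⊥ := by
    rw [derivedSeries_succ, hr]
    simp
  rw [← h3]
  exact key r

end Pool.Agent.H46.NE
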