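import Pool.Agent.H46.NE.Main

set_option autoImplicit false

/-!
# Andrews-Curtis moves realized by Nielsen moves (MP_fabc18_al)
-/

namespace Pool.Agent.H46.NE

open Pool.Agent.H81.Nls (Move Nielsen Rel Step rel_absorb rel_absorb_left rel_nielsen_move)

variable {P : Type*} [Group P]

section general

variable {ι G : Type*} [DecidableEq ι] [Group G]

lemma nl_trans {a b c : ι → G} (h1 : Nielsen a b) (h2 : Nielsen b c) : Nielsen a c :=
  Relation.ReflTransGen.trans h1 h2

lemma move_symm {a b : ι → G} (h : Move a b) : Nielsen b a := by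
  rcases h with ⟨σ, rfl⟩ | ⟨i, rfl⟩ | ⟨i, j, hij, rfl⟩
  · refine Relation.ReflTransGen.single (Or.inl ⟨σ⁻¹, ?_⟩)
    funext x
    simp
  · refine Relation.ReflTransGen.single (Or.inr (Or.inl ⟨i, ?_⟩))
    simp
  · have h1 : Step Set.univ Set.univ a (Function.update a i (a i * a j)) :=
      ⟨i, trivial, Or.inr ⟨j, trivial, hij.symm, Or.inl rfl⟩⟩
    exact rel_nielsen_move h1.symm.rel

lemma nl_symm {a b : ι → G} (h : Nielsen a b) : Nielsen b a := by
  induction h with
  | refl => exact Relation.ReflTransGen.refl
  | tail _ h2 ih => exact nl_trans (move_symm h2) ih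

/-- conjugation of an entry by an element of the subgroup generated by the other entries -/
lemma nl_conj {g : ι → G} {i : ι} {y : G} (hy : y ∈ Subgroup.closure (g '' {j | j ≠ i})) :
    Nielsen g (Function.update g i (y * g i * y⁻¹)) := by
  have hy' : y ∈ Subgroup.closure (g '' (Set.univ \ {i})) := by
    have : (Set.univ \ {i} : Set ι) = {j | j ≠ i} := by ext j; simp
    rw [this]
    exact hy
  have h1 : Rel Set.univ Set.univ g (Function.update g i (y * g i)) :=
    rel_absorb_left (Set.mem_univ i) hy'
  have h2 : y⁻¹ ∈ Subgroup.closure ((Function.update g i (y * g i)) '' (Set.univ \ {i})) := by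
    have e1 : (Function.update g i (y * g i)) '' (Set.univ \ {i}) = g '' (Set.univ \ {i}) := by
      apply Set.image_congr
      intro j hj
      rw [Function.update_of_ne]
      intro hh
      exact hj.2 (by simp [hh])
    rw [e1]
    exact inv_mem hy'
  have h3 := rel_absorb (A := Set.univ) (M := Set.univ) (Set.mem_univ i) h2
  rw [Function.update_self, Function.update_idem] at h3
  exact nl_trans (rel_nielsen_move h1) (rel_nielsen_move h3)

/-- right multiplication of an entry by an element of the subgroup generated by the others -/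
lemma nl_mul {g : ι → G} {i : ι} {y : G} (hy : y ∈ Subgroup.closure (g '' {j | j ≠ i})) :
    Nielsen g (Function.update g i (g i * y)) := by
  have hy' : y ∈ Subgroup.closure (g '' (Set.univ \ {i})) := by
    have : (Set.univ \ {i} : Set ι) = {j | j ≠ i} := by ext j; simp
    rw [this]
    exact hy
  exact rel_nielsen_move (rel_absorb (A := Set.univ) (M := Set.univ) (Set.mem_univ i) hy')

end general

variable {n k : ℕ}

lemma T_update_inr (a : Fin n → P) (b : Fin k → P) (j : Fin k) (z : P) :
    T a (Function.update b j z) = Function.update (T a b) (Sum.inr j) (1, z) := by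
  funext x
  rcases x with i | l
  · rw [Function.update_of_ne (by simp)]
    rfl
  · by_cases hl : l = j
    · subst hl
      rw [Function.update_self]
      simp [T]
    · rw [Function.update_of_ne (by simpa using hl)]
      simp [T, hl]

lemma T_update_inl (a : Fin n → P) (b : Fin k → P) (i : Fin n) (z : P) :
    T (Function.update a i z) b = Function.update (T a b) (Sum.inl i) (FreeGroup.of i, z) := by
  funext x
  rcases x with l | j
  · by_cases hl : l = i
    · subst hl
      rw [Function.update_self]
      simp [T]
    · rw [Function.update_of_ne (by simpa using hl)]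
      simp [T, hl]
  · rw [Function.update_of_ne (by simp)]
    rfl

/-- an Andrews-Curtis move is realized when the `a_i` generate `P` -/
theorem nielsen_of_acmove {a : Fin n → P} (ha : Subgroup.closure (Set.range a) = ⊤)
    {b b' : Fin k → P} (h : ACMove b b') : Nielsen (T a b) (T a b') := by
  rcases h with ⟨σ, rfl⟩ | ⟨j, rfl⟩ | ⟨i, j, hij, rfl⟩ | ⟨j, g, rfl⟩
  · refine Relation.ReflTransGen.single (Or.inl ⟨Equiv.sumCongr (Equiv.refl _) σ, ?_⟩)
    funext x
    rcases x with i | j <;> rfl
  · refine Relation.ReflTransGen.single (Or.inr (Or.inl ⟨Sum.inr j, ?_⟩))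
    rw [T_update_inr]
    congr 1
  · refine Relation.ReflTransGen.single (Or.inr (Or.inr ⟨Sum.inr i, Sum.inr j, by simpa using hij,
      ?_⟩))
    rw [T_update_inr]
    congr 1
  · rw [T_update_inr]
    -- an element `(w, g)` of the subgroup generated by the first entries
    have h1 : ∃ w : FreeGroup (Fin n), (w, g) ∈ Subgroup.closure
        (T a b '' {x | x ≠ Sum.inr j}) := by
      have hg : g ∈ Subgroup.closure (Set.range a) := by rw [ha]; trivial
      induction hg using Subgroup.closure_induction with
      | mem x hx =>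
        obtain ⟨i, rfl⟩ := hx
        exact ⟨FreeGroup.of i, Subgroup.subset_closure ⟨Sum.inl i, by simp, rfl⟩⟩
      | one => exact ⟨1, one_mem _⟩
      | mul x y _ _ hx hy =>
        obtain ⟨u, hu⟩ := hx
        obtain ⟨v, hv⟩ := hy
        exact ⟨u * v, mul_mem hu hv⟩
      | inv x _ hx =>
        obtain ⟨u, hu⟩ := hx
        exact ⟨u⁻¹, inv_mem hu⟩
    obtain ⟨w, hw⟩ := h1
    have h2 := nl_conj hw
    have h3 : (w, g) * T a b (Sum.inr j) * (w, g)⁻¹ = (1, g * b j * g⁻¹) := by
      simp [T]
    rw [h3] at h2
    exact h2

theorem nielsen_of_ac {a : Fin n → P} (ha : Subgroup.closure (Set.range a) = ⊤)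
    {b b' : Fin k → P} (h : AC b b') : Nielsen (T a b) (T a b') := by
  induction h with
  | refl => exact Relation.ReflTransGen.refl
  | tail _ h2 ih => exact nl_trans ih (nielsen_of_acmove ha h2)

/-- **Theorem 2.** -/
theorem nielsen_iff_ac {a : Fin n → P} (ha : Subgroup.closure (Set.range a) = ⊤)
    {b b' : Fin k → P} : Nielsen (T a b) (T a b') ↔ AC b b' :=
  ⟨ac_of_nielsen, nielsen_of_ac ha⟩

/-- the second coordinates of the first entries may be changed one after the other -/
lemma nielsen_change (b : Fin k → P) (S : Finset (Fin n)) (a a' : Fin n → P)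
    (h : ∀ i ∈ S, ∀ c : Fin n → P, (∀ j, j ∉ S → c j = a j) → c i = a i →
      ((1, (c i)⁻¹ * a' i) : FreeGroup (Fin n) × P) ∈
        Subgroup.closure (T c b '' {x | x ≠ Sum.inl i})) :
    Nielsen (T a b) (T (fun i => if i ∈ S then a' i else a i) b) := by
  have key : ∀ R : Finset (Fin n), R ⊆ S →
      Nielsen (T a b) (T (fun i => if i ∈ R then a' i else a i) b) := by
    intro R
    induction R using Finset.induction_on with
    | empty =>
      intro _
      simp only [Finset.notMem_empty, if_false]
      exact Relation.ReflTransGen.refl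
    | insert i R hi ih =>
      intro hR
      have hiS : i ∈ S := hR (Finset.mem_insert_self _ _)
      have hRS : R ⊆ S := fun x hx => hR (Finset.mem_insert_of_mem hx)
      refine nl_trans (ih hRS) ?_
      set c : Fin n → P := fun i => if i ∈ R then a' i else a i with hc
      have hci : c i = a i := by simp [hc, hi]
      have h1 := h i hiS c (by
        intro j hj
        have : j ∉ R := fun hh => hj (hRS hh)
        simp [hc, this]) hci
      have h2 := nl_mul h1
      have h3 : T c b (Sum.inl i) * (1, (c i)⁻¹ * a' i) = (FreeGroup.of i, a' i) := by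
        simp [T]
      rw [h3, ← T_update_inl] at h2
      have h4 : Function.update c i (a' i) =
          fun l => if l ∈ insert i R then a' l else a l := by
        funext l
        by_cases hl : l = i
        · subst hl
          simp
        · simp [hc, hl]
      rw [h4] at h2
      exact h2
  exact key S (Finset.Subset.refl S)

/-- existence of the normal form -/
theorem exists_T (g : Fin n ⊕ Fin k → FreeGroup (Fin n) × P)
    (hg : Subgroup.closure (Set.range (fun x => (g x).1)) = ⊤) :
    ∃ (a : Fin n → P) (b : Fin k → P), Nielsen g (T a b) := by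
  obtain ⟨w', e, h1, _, h3, h4, _⟩ := Pool.Agent.H81.Nls.rel_nielsen (A := Set.univ)
    (M := Set.univ) (Set.subset_univ _) (fun x => (g x).1) (fun i _ hi => absurd trivial hi)
    (by rw [Set.image_univ]; exact hg)
  obtain ⟨g', h5, h6⟩ := Rel.lift (MonoidHom.fst (FreeGroup (Fin n)) P) (g := g) h1
  have hinj : Function.Injective e := by
    intro x y hxy
    have := h3 x
    rw [hxy, h3 y] at this
    exact (FreeGroup.of_injective this).symm
  -- a permutation
  let e0 : {x // x ∈ Set.range (Sum.inl : Fin n → Fin n ⊕ Fin k)} ≃ {x // x ∈ Set.range e} :=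
    (Equiv.ofInjective _ Sum.inl_injective).symm.trans (Equiv.ofInjective e hinj)
  let σ : Equiv.Perm (Fin n ⊕ Fin k) := Equiv.extendSubtype e0
  have hσ : ∀ i, σ (Sum.inl i) = e i := by
    intro i
    have h7 := Equiv.extendSubtype_apply_of_mem e0 (Sum.inl i) ⟨i, rfl⟩
    rw [h7]
    simp only [e0, Equiv.trans_apply]
    have h8 : (Equiv.ofInjective (Sum.inl : Fin n → Fin n ⊕ Fin k) Sum.inl_injective).symm
        ⟨Sum.inl i, ⟨i, rfl⟩⟩ = i := by
      rw [Equiv.symm_apply_eq]
      rfl
    rw [h8]
    rfl
  have hσ' : ∀ j i, σ (Sum.inr j) ≠ e i := by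
    intro j i hh
    rw [← hσ i] at hh
    have := σ.injective hh
    simp at this
  refine ⟨fun i => (g' (e i)).2, fun j => (g' (σ (Sum.inr j))).2, ?_⟩
  refine nl_trans (rel_nielsen_move h5) (Relation.ReflTransGen.single (Or.inl ⟨σ, ?_⟩))
  funext x
  have hf : ∀ y, (g' y).1 = w' y := fun y => congrFun h6 y
  rcases x with i | j
  · change (FreeGroup.of i, (g' (e i)).2) = g' (σ (Sum.inl i))
    rw [hσ i]
    exact Prod.ext (by rw [hf, h3]) rfl
  · change ((1 : FreeGroup (Fin n)), (g' (σ (Sum.inr j))).2) = g' (σ (Sum.inr j))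
    exact Prod.ext (by rw [hf, h4 _ trivial (hσ' j)]) rfl

end Pool.Agent.H46.NE
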