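import Pool.Agent.H46.NE.Ji3

set_option autoImplicit false

/-!
# Finitely generated abelian factors (MP_fabc18_al)
-/

namespace Pool.Agent.H46.NE

open Pool.Agent.H81.Nls (Move Nielsen)
open FreeGroup (of)
open scoped commutatorElement

universe u

section abstractly

variable {A : Type u} [CommGroup A] [Group.FG A]

lemma fgab_finite (h : ∀ a : A, ∃ m : ℕ, 0 < m ∧ a ^ m = 1) : Finite A :=
  CommGroup.finite_of_fg_isMulTorsion A (fun a => isOfFinOrder_iff_pow_eq_one.2 (h a))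

lemma fgab_square (htf : ∀ (a : A) (m : ℕ), 0 < m → a ^ m = 1 → a = 1)
    (hsq : ∀ a : A, ∃ b : A, b ^ 2 = a) (a : A) : a = 1 := by
  have h1 : Module.Finite ℤ (Additive A) :=
    Module.Finite.iff_addGroup_fg.2 (GroupFG.iff_add_fg.1 inferInstance)
  obtain ⟨r, hr, hr'⟩ := Submodule.exists_sub_one_mem_and_smul_eq_zero_of_fg_of_le_smul
    (Ideal.span {(2 : ℤ)}) (⊤ : Submodule ℤ (Additive A)) h1.fg_top (by
      intro x _
      obtain ⟨b, hb⟩ := hsq (Additive.toMul x)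
      have h2 : x = (2 : ℤ) • (Additive.ofMul b) := by
        rw [← ofMul_zpow]
        have : b ^ (2 : ℤ) = Additive.toMul x := by
          rw [← hb]
          exact zpow_natCast b 2
        rw [this]
        rfl
      rw [h2]
      exact Submodule.smul_mem_smul (Ideal.mem_span_singleton_self 2) trivial)
  have hr0 : r ≠ 0 := by
    rintro rfl
    rw [Ideal.mem_span_singleton] at hr
    norm_num at hr
  have h3 : r • (Additive.ofMul a) = 0 := hr' _ trivial
  rw [← ofMul_zpow] at h3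
  have h4 : a ^ r = 1 := h3
  refine htf a r.natAbs (Int.natAbs_pos.2 hr0) ?_
  rcases Int.natAbs_eq r with h5 | h5
  · rw [h5, zpow_natCast] at h4
    exact h4
  · rw [h5, zpow_neg, zpow_natCast, inv_eq_one] at h4
    exact h4

lemma fgab_noeth (H : Subgroup A) : H.FG := by
  have h1 : Module.Finite ℤ (Additive A) :=
    Module.Finite.iff_addGroup_fg.2 (GroupFG.iff_add_fg.1 inferInstance)
  have h2 : IsNoetherian ℤ (Additive A) := inferInstance
  have h3 := IsNoetherian.noetherian (AddSubgroup.toIntSubmodule (Subgroup.toAddSubgroup H))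
  rw [Submodule.fg_iff_addSubgroup_fg, AddSubgroup.toIntSubmodule_toAddSubgroup] at h3
  exact (Subgroup.fg_iff_add_fg H).2 h3

end abstractly

variable {P : Type u} [Group P] {n k : ℕ}

/-- the commutative group `V / W` -/
@[reducible] def quotComm (V W : Subgroup P) [hn : (W.subgroupOf V).Normal] (h : ⁅V, V⁆ ≤ W) :
    CommGroup (V ⧸ W.subgroupOf V) :=
  { (inferInstance : Group (V ⧸ W.subgroupOf V)) with
    mul_comm := by
      intro a b
      obtain ⟨a, rfl⟩ := QuotientGroup.mk_surjective a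
      obtain ⟨b, rfl⟩ := QuotientGroup.mk_surjective b
      refine QuotientGroup.eq.2 ?_
      have h1 : (a * b)⁻¹ * (b * a) = ⁅b⁻¹, a⁻¹⁆ := by
        rw [commutatorElement_def]
        group
      rw [h1, Subgroup.mem_subgroupOf]
      exact h (Subgroup.commutator_mem_commutator (b⁻¹).2 (a⁻¹).2) }

lemma quot_fg {V W : Subgroup P} [hn : (W.subgroupOf V).Normal] (hWV : W ≤ V) {S : Set P}
    (hS : S.Finite) (hV : V = W ⊔ Subgroup.closure S) : Group.FG (V ⧸ W.subgroupOf V) := by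
  classical
  let f : P → V ⧸ W.subgroupOf V := fun s => if h : s ∈ V then QuotientGroup.mk ⟨s, h⟩ else 1
  rw [Group.fg_iff]
  refine ⟨f '' S, ?_, hS.image f⟩
  let K : Subgroup P :=
    ((Subgroup.closure (f '' S)).comap (QuotientGroup.mk' (W.subgroupOf V))).map V.subtype
  have hVK : V ≤ K := by
    rw [hV]
    refine sup_le ?_ ?_
    · intro x hx
      refine ⟨⟨x, hWV hx⟩, ?_, rfl⟩
      have h1 : (QuotientGroup.mk' (W.subgroupOf V)) ⟨x, hWV hx⟩ = 1 :=
        (QuotientGroup.eq_one_iff _).2 hx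
      change (QuotientGroup.mk' (W.subgroupOf V)) ⟨x, hWV hx⟩ ∈ Subgroup.closure (f '' S)
      rw [h1]
      exact one_mem _
    · rw [Subgroup.closure_le]
      intro s hs
      have hsV : s ∈ V := by
        rw [hV]
        exact Subgroup.mem_sup_right (Subgroup.subset_closure hs)
      refine ⟨⟨s, hsV⟩, ?_, rfl⟩
      change (QuotientGroup.mk' (W.subgroupOf V)) ⟨s, hsV⟩ ∈ Subgroup.closure (f '' S)
      refine Subgroup.subset_closure ⟨s, hs, ?_⟩
      simp only [f, dif_pos hsV]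
      rfl
  rw [eq_top_iff]
  intro q _
  obtain ⟨⟨x, hx⟩, rfl⟩ := QuotientGroup.mk_surjective q
  obtain ⟨y, hy, hyx⟩ := hVK hx
  have h1 : y = ⟨x, hx⟩ := Subtype.ext hyx
  rw [← h1]
  exact hy

/-- every subgroup between `W` and `V` is finitely generated modulo `W` -/
def Noeth (W V : Subgroup P) : Prop :=
  ∀ X : Subgroup P, W ≤ X → X ≤ V → ∃ S : Set P, S.Finite ∧ X = W ⊔ Subgroup.closure S

lemma noeth_of_fg {V W : Subgroup P} (hW : W.Normal) (hWV : W ≤ V) (hc : ⁅V, V⁆ ≤ W)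
    {S : Set P} (hS : S.Finite) (hV : V = W ⊔ Subgroup.closure S) : Noeth W V := by
  intro X hWX hXV
  let _ := quotComm V W hc
  have hfg : Group.FG (V ⧸ W.subgroupOf V) := quot_fg hWV hS hV
  obtain ⟨R, hR⟩ := fgab_noeth ((X.subgroupOf V).map (QuotientGroup.mk' (W.subgroupOf V)))
  have hlift : ∀ q ∈ R, ∃ x ∈ X, ∃ hx : x ∈ V, q = QuotientGroup.mk' (W.subgroupOf V) ⟨x, hx⟩ := by
    intro q hq
    have h1 : q ∈ (X.subgroupOf V).map (QuotientGroup.mk' (W.subgroupOf V)) := by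
      rw [← hR]
      exact Subgroup.subset_closure hq
    obtain ⟨⟨x, hxV⟩, hx, rfl⟩ := h1
    exact ⟨x, hx, hxV, rfl⟩
  choose! g hg1 hg2 hg3 using hlift
  refine ⟨g '' R, R.finite_toSet.image g, ?_⟩
  apply le_antisymm
  · intro x hx
    have h1 : (QuotientGroup.mk' (W.subgroupOf V)) ⟨x, hXV hx⟩ ∈
        Subgroup.closure (R : Set (V ⧸ W.subgroupOf V)) := by
      rw [hR]
      exact ⟨⟨x, hXV hx⟩, hx, rfl⟩
    -- the subgroup of the classes of elements of the right hand side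
    have h2 : Subgroup.closure (R : Set (V ⧸ W.subgroupOf V)) ≤
        ((W ⊔ Subgroup.closure (g '' R)).subgroupOf V).map
          (QuotientGroup.mk' (W.subgroupOf V)) := by
      rw [Subgroup.closure_le]
      intro q hq
      refine ⟨⟨g q, hg2 q hq⟩, ?_, (hg3 q hq).symm⟩
      exact Subgroup.mem_sup_right (Subgroup.subset_closure ⟨q, hq, rfl⟩)
    obtain ⟨⟨z, hzV⟩, hz, hzx⟩ := h2 h1
    have h3 : z⁻¹ * x ∈ W := (QuotientGroup.eq.1 hzx : _)
    have h4 : x = z * (z⁻¹ * x) := by group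
    rw [h4]
    exact mul_mem hz (Subgroup.mem_sup_left h3)
  · refine sup_le hWX ?_
    rw [Subgroup.closure_le]
    rintro _ ⟨q, hq, rfl⟩
    exact hg1 q hq

lemma Noeth.gen {W V X X1 : Subgroup P} (hN : Noeth W V) (hWX1 : W ≤ X1) (hX1X : X1 ≤ X)
    (hXV : X ≤ V) : ∃ S : Set P, S.Finite ∧ X = X1 ⊔ Subgroup.closure S := by
  obtain ⟨S, hS, hX⟩ := hN X (hWX1.trans hX1X) hXV
  refine ⟨S, hS, le_antisymm ?_ (sup_le hX1X ?_)⟩
  · rw [hX]
    exact sup_le_sup hWX1 (le_refl _)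
  · rw [hX]
    exact le_sup_right

lemma Noeth.finite {W V X X1 : Subgroup P} (hN : Noeth W V) (hX1n : X1.Normal)
    (hc : ⁅V, V⁆ ≤ W) (hWX1 : W ≤ X1) (hX1X : X1 ≤ X)
    (hXV : X ≤ V) (h : ∀ x ∈ X, ∃ m : ℕ, 0 < m ∧ x ^ m ∈ X1) : X1.relIndex X ≠ 0 := by
  obtain ⟨S, hS, hX⟩ := hN.gen hWX1 hX1X hXV
  let _ := quotComm X X1 ((Subgroup.commutator_mono hXV hXV).trans (hc.trans hWX1))
  have hfg : Group.FG (X ⧸ X1.subgroupOf X) := quot_fg hX1X hS hX
  have hfin : Finite (X ⧸ X1.subgroupOf X) := by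
    refine fgab_finite (fun a => ?_)
    obtain ⟨⟨x, hx⟩, rfl⟩ := QuotientGroup.mk_surjective a
    obtain ⟨m, hm, hm'⟩ := h x hx
    refine ⟨m, hm, ?_⟩
    exact (QuotientGroup.eq_one_iff ((⟨x, hx⟩ : X) ^ m)).2
      (show (⟨x, hx⟩ : X) ^ m ∈ X1.subgroupOf X from hm')
  rw [Subgroup.relIndex]
  exact Subgroup.index_ne_zero_of_finite

lemma Noeth.nonsq {W V X X1 : Subgroup P} (hN : Noeth W V) (hX1n : X1.Normal)
    (hc : ⁅V, V⁆ ≤ W) (hWX1 : W ≤ X1) (hX1X : X1 ≤ X)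
    (hXV : X ≤ V) (htf : ∀ x ∈ X, ∀ m : ℕ, 0 < m → x ^ m ∈ X1 → x ∈ X1) (hne : ¬ X ≤ X1) :
    ∃ u ∈ X, ∀ z ∈ X, u⁻¹ * z ^ 2 ∉ X1 := by
  by_contra hcon
  push Not at hcon
  apply hne
  obtain ⟨S, hS, hX⟩ := hN.gen hWX1 hX1X hXV
  let _ := quotComm X X1 ((Subgroup.commutator_mono hXV hXV).trans (hc.trans hWX1))
  have hfg : Group.FG (X ⧸ X1.subgroupOf X) := quot_fg hX1X hS hX
  intro x hx
  have h1 : (QuotientGroup.mk (⟨x, hx⟩ : X) : X ⧸ X1.subgroupOf X) = 1 := by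
    refine fgab_square ?_ ?_ _
    · intro a m hm ham
      obtain ⟨⟨x, hx⟩, rfl⟩ := QuotientGroup.mk_surjective a
      refine (QuotientGroup.eq_one_iff (⟨x, hx⟩ : X)).2 ?_
      have h2 : (QuotientGroup.mk ((⟨x, hx⟩ : X) ^ m) : X ⧸ X1.subgroupOf X) = 1 := ham
      exact htf x hx m hm ((QuotientGroup.eq_one_iff ((⟨x, hx⟩ : X) ^ m)).1 h2)
    · intro a
      obtain ⟨⟨x, hx⟩, rfl⟩ := QuotientGroup.mk_surjective a
      obtain ⟨z, hz, h2⟩ := hcon x hx
      refine ⟨QuotientGroup.mk ⟨z, hz⟩, ?_⟩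
      exact (QuotientGroup.eq.2 (show (⟨x, hx⟩ : X)⁻¹ * (⟨z, hz⟩ : X) ^ 2 ∈ X1.subgroupOf X
        from h2)).symm
  exact (QuotientGroup.eq_one_iff (⟨x, hx⟩ : X)).1 h1

/-- maximal elements -/
lemma Noeth.max {W V : Subgroup P} (hN : Noeth W V) (s : Set (Subgroup P))
    (hs : ∀ Y ∈ s, W ≤ Y ∧ Y ≤ V) (hne : s.Nonempty) : ∃ Y, Maximal (· ∈ s) Y := by
  obtain ⟨Y0, hY0⟩ := hne
  obtain ⟨Y, _, hY⟩ := zorn_le_nonempty₀ s (by
    intro c hcs hc Z hZ
    have hdir : DirectedOn (· ≤ ·) c := hc.directedOn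
    have hWU : W ≤ sSup c := (hs Z (hcs hZ)).1.trans (le_sSup hZ)
    have hUV : sSup c ≤ V := sSup_le (fun Y hY => (hs Y (hcs hY)).2)
    obtain ⟨S, hS, hU⟩ := hN (sSup c) hWU hUV
    have key : ∀ R : Set P, R.Finite → R ⊆ S → ∃ Y ∈ c, R ⊆ (Y : Set P) := by
      intro R hR
      induction R, hR using Set.Finite.induction_on with
      | empty =>
        intro _
        exact ⟨Z, hZ, Set.empty_subset _⟩
      | insert _ _ ih =>
        intro hRS
        rename_i r R _ _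
        obtain ⟨Y, hY, hRY⟩ := ih (fun x hx => hRS (Set.mem_insert_of_mem _ hx))
        have h1 : r ∈ sSup c := by
          rw [hU]
          exact Subgroup.mem_sup_right (Subgroup.subset_closure (hRS (Set.mem_insert _ _)))
        obtain ⟨Y', hY', hrY'⟩ := (Subgroup.mem_sSup_of_directedOn ⟨Z, hZ⟩ hdir).1 h1
        obtain ⟨Y'', hY'', h2, h3⟩ := hdir Y hY Y' hY'
        refine ⟨Y'', hY'', ?_⟩
        rintro x (rfl | hx)
        · exact h3 hrY'
        · exact h2 (hRY hx)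
    obtain ⟨Y, hY, hSY⟩ := key S hS (Set.Subset.refl _)
    have hUY : sSup c ≤ Y := by
      rw [hU]
      exact sup_le (hs Y (hcs hY)).1 ((Subgroup.closure_le _).2 hSY)
    exact ⟨Y, hcs hY, fun z hz => (le_sSup hz).trans hUY⟩) Y0 hY0
  exact ⟨Y, hY⟩

end Pool.Agent.H46.NE
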