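import Pool.Agent.H46.NE.KS

set_option autoImplicit false

/-!
# Folding is strongly confluent (MP_fabc18_al)

The vertices are the base point `none` and the two ends `some (e, true)`, `some (e, false)` of
every edge `e`. A fold joins two edges with the same label which are not yet joined and have a
known constraint at one end; it adds the same constraint at the other end.
-/

namespace Pool.Agent.H46.NE

variable {ε L P : Type*} [Group P]

/-- vertices -/
abbrev Vx (ε : Type*) := Option (ε × Bool)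

/-- join two classes -/
def joinS (J : Setoid ε) (e f : ε) : Setoid ε where
  r a b := J a b ∨ (J a e ∧ J f b) ∨ (J a f ∧ J e b)
  iseqv := by
    refine ⟨fun a => Or.inl (J.refl' a), ?_, ?_⟩
    · rintro a b (h | ⟨h1, h2⟩ | ⟨h1, h2⟩)
      · exact Or.inl (J.symm' h)
      · exact Or.inr (Or.inr ⟨J.symm' h2, J.symm' h1⟩)
      · exact Or.inr (Or.inl ⟨J.symm' h2, J.symm' h1⟩)
    · rintro a b c (h | ⟨h1, h2⟩ | ⟨h1, h2⟩) (k | ⟨k1, k2⟩ | ⟨k1, k2⟩)
      · exact Or.inl (J.trans' h k)
      · exact Or.inr (Or.inl ⟨J.trans' h k1, k2⟩)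
      · exact Or.inr (Or.inr ⟨J.trans' h k1, k2⟩)
      · exact Or.inr (Or.inl ⟨h1, J.trans' h2 k⟩)
      · have := J.trans' h2 k1
        exact Or.inl (J.trans' h1 (J.trans' (J.symm' this) k2))
      · exact Or.inl (J.trans' h1 k2)
      · exact Or.inr (Or.inr ⟨h1, J.trans' h2 k⟩)
      · exact Or.inl (J.trans' h1 k2)
      · have := J.trans' h2 k1
        exact Or.inl (J.trans' h1 (J.trans' (J.symm' this) k2))

lemma joinS_iff {J : Setoid ε} {e f a b : ε} :
    joinS J e f a b ↔ J a b ∨ (J a e ∧ J f b) ∨ (J a f ∧ J e b) := Iff.rfl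

lemma joinS_le {J K : Setoid ε} {e f : ε} : joinS J e f ≤ K ↔ J ≤ K ∧ K e f := by
  constructor
  · intro h
    exact ⟨fun a b hab => h (Or.inl hab), h (Or.inr (Or.inl ⟨J.refl' e, J.refl' f⟩))⟩
  · rintro ⟨h1, h2⟩ a b (h | ⟨h3, h4⟩ | ⟨h3, h4⟩)
    · exact h1 h
    · exact K.trans' (h1 h3) (K.trans' h2 (h1 h4))
    · exact K.trans' (h1 h3) (K.trans' (K.symm' h2) (h1 h4))

lemma le_joinS (J : Setoid ε) (e f : ε) : J ≤ joinS J e f := fun _ _ h => Or.inl h

lemma joinS_self (J : Setoid ε) (e f : ε) : joinS J e f e f :=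
  Or.inr (Or.inl ⟨J.refl' e, J.refl' f⟩)

lemma joinS_comm (J : Setoid ε) (a b c d : ε) :
    joinS (joinS J a b) c d = joinS (joinS J c d) a b := by
  apply le_antisymm
  · rw [joinS_le, joinS_le]
    exact ⟨⟨le_trans (le_joinS _ _ _) (le_joinS _ _ _), joinS_self _ _ _⟩,
      le_joinS _ _ _ (joinS_self _ _ _)⟩
  · rw [joinS_le, joinS_le]
    exact ⟨⟨le_trans (le_joinS _ _ _) (le_joinS _ _ _), joinS_self _ _ _⟩,
      le_joinS _ _ _ (joinS_self _ _ _)⟩

/-- a state of the folding process -/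
@[ext]
structure St (ε P : Type*) [Group P] where
  J : Setoid ε
  K : KS (Vx ε) P

/-- joined edges have the same label and are identified by one element at both ends -/
structure St.Valid (lab : ε → L) (X : St ε P) : Prop where
  K : X.K.Valid
  lab : ∀ e f, X.J e f → lab e = lab f
  J : ∀ e f, X.J e f → ∃ a, ∀ s, X.K.R (some (e, s)) a (some (f, s))

/-- one fold, with edges from the set `U` -/
def Stp (lab : ε → L) (U : Set ε) (X Y : St ε P) : Prop :=
  X.Valid lab ∧ ∃ e ∈ U, ∃ f ∈ U, lab e = lab f ∧ ¬ X.J e f ∧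
    ∃ s c, X.K.R (some (e, s)) c (some (f, s)) ∧
      Y = ⟨joinS X.J e f, X.K.add (some (e, !s)) c (some (f, !s))⟩

lemma Stp.valid {lab : ε → L} {U : Set ε} {X Y : St ε P} (h : Stp lab U X Y) : Y.Valid lab := by
  obtain ⟨hX, e, _, f, _, hl, _, s, c, hc, rfl⟩ := h
  have hKv := KS.valid_add hX.K (some (e, !s)) c (some (f, !s))
  have hef : ∀ t, (X.K.add (some (e, !s)) c (some (f, !s))).R (some (e, t)) c (some (f, t)) := by
    intro t
    by_cases ht : t = s
    · subst ht; exact KS.mono _ _ _ _ hc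
    · have : t = !s := by cases t <;> cases s <;> simp_all
      subst this
      exact KS.mem _ _ _ _
  refine ⟨hKv, ?_, ?_⟩
  · rintro a b (h | ⟨h1, h2⟩ | ⟨h1, h2⟩)
    · exact hX.lab a b h
    · rw [hX.lab a e h1, hl, hX.lab f b h2]
    · rw [hX.lab a f h1, ← hl, hX.lab e b h2]
  · rintro a b (h | ⟨h1, h2⟩ | ⟨h1, h2⟩)
    · obtain ⟨u, hu⟩ := hX.J a b h
      exact ⟨u, fun t => KS.mono _ _ _ _ (hu t)⟩
    · obtain ⟨u, hu⟩ := hX.J a e h1
      obtain ⟨v, hv⟩ := hX.J f b h2
      exact ⟨u * c * v, fun t => hKv.mul (hKv.mul (KS.mono _ _ _ _ (hu t)) (hef t))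
        (KS.mono _ _ _ _ (hv t))⟩
    · obtain ⟨u, hu⟩ := hX.J a f h1
      obtain ⟨v, hv⟩ := hX.J e b h2
      exact ⟨u * c⁻¹ * v, fun t => hKv.mul (hKv.mul (KS.mono _ _ _ _ (hu t)) (hKv.inv (hef t)))
        (KS.mono _ _ _ _ (hv t))⟩

/-- the same pair of classes: the same result -/
lemma fold_same {lab : ε → L} {X : St ε P} (hX : X.Valid lab) {e f e' f' : ε} {s s' : Bool}
    {c c' : P} (h1 : X.K.R (some (e, s)) c (some (f, s)))
    (h2 : X.K.R (some (e', s')) c' (some (f', s'))) (he : X.J e' e) (hf : X.J f f') :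
    X.K.add (some (e, !s)) c (some (f, !s)) = X.K.add (some (e', !s')) c' (some (f', !s')) := by
  obtain ⟨u, hu⟩ := hX.J e' e he
  obtain ⟨v, hv⟩ := hX.J f f' hf
  have hK := hX.K
  -- the second constraint moved to `e`, `f`
  have h3 : X.K.R (some (e, s')) (u⁻¹ * c' * v⁻¹) (some (f, s')) :=
    hK.mul (hK.mul (hK.inv (hu s')) h2) (hK.inv (hv s'))
  set d := u⁻¹ * c' * v⁻¹ with hd
  have h4 : X.K.add (some (e', !s')) c' (some (f', !s')) =
      X.K.add (some (e, !s')) d (some (f, !s')) := by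
    have h5 := KS.add_absorb hK (hu (!s')) (hv (!s')) d
    have h6 : u * d * v = c' := by rw [hd]; group
    rw [h6] at h5
    exact h5
  rw [h4]
  by_cases hss : s' = s
  · subst hss
    -- `c` and `d` differ by a loop
    have h7 : c * d⁻¹ ∈ X.K.lam.nc := hK.diff h1 h3
    have h8 := KS.add_absorb hK ((hK.loop (some (e, !s')) (c * d⁻¹)).2 h7)
      (hK.one (some (f, !s'))) d
    have h9 : c * d⁻¹ * d * 1 = c := by group
    rw [h9] at h8
    exact h8
  · have hs' : s' = !s := by cases s <;> cases s' <;> simp_all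
    subst hs'
    rw [Bool.not_not]
    -- both ends are connected
    apply KS.ext
    · funext a h b
      apply propext
      constructor
      · intro H
        refine Gen.le (S := (X.K.add (some (e, s)) d (some (f, s))).R) (fun h => Gen.base h) ?_
          (fun a => Gen.one a) (fun h => Gen.inv h) (fun h1 h2 => Gen.mul h1 h2)
          (fun b k h => Gen.conj b k h) H
        -- `c = (c d⁻¹) d`
        have h5 : (X.K.add (some (e, s)) d (some (f, s))).R (some (e, s)) (c * d⁻¹)
            (some (e, s)) :=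
          Gen.mul (Gen.base h1) (Gen.inv Gen.new)
        have h6 : (X.K.add (some (e, s)) d (some (f, s))).R (some (e, !s)) (1 * (c * d⁻¹) * 1⁻¹)
            (some (e, !s)) := Gen.conj _ _ h5
        have h7 := Gen.mul h6 (Gen.base h3)
        have h8 : 1 * (c * d⁻¹) * 1⁻¹ * d = c := by group
        rw [h8] at h7
        exact h7
      · intro H
        refine Gen.le (S := (X.K.add (some (e, !s)) c (some (f, !s))).R) (fun h => Gen.base h) ?_
          (fun a => Gen.one a) (fun h => Gen.inv h) (fun h1 h2 => Gen.mul h1 h2)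
          (fun b k h => Gen.conj b k h) H
        have h5 : (X.K.add (some (e, !s)) c (some (f, !s))).R (some (e, !s)) (d * c⁻¹)
            (some (e, !s)) :=
          Gen.mul (Gen.base h3) (Gen.inv Gen.new)
        have h6 : (X.K.add (some (e, !s)) c (some (f, !s))).R (some (e, s)) (1 * (d * c⁻¹) * 1⁻¹)
            (some (e, s)) := Gen.conj _ _ h5
        have h7 := Gen.mul h6 (Gen.base h1)
        have h8 : 1 * (d * c⁻¹) * 1⁻¹ * c = d := by group
        rw [h8] at h7
        exact h7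
    · rw [KS.lam_add_of_conn hK h3, KS.lam_add_of_conn hK h1, ← ACq.cons_inv]
      congr 1
      group

/-- reversing a fold -/
lemma fold_flip {X : St ε P} (hK : X.K.Valid) {e f : ε} {s : Bool} {c : P} :
    X.K.add (some (f, !s)) c⁻¹ (some (e, !s)) = X.K.add (some (e, !s)) c (some (f, !s)) :=
  KS.add_inv hK _ _ _

/-- strong confluence -/
theorem Stp.diamond {lab : ε → L} {U : Set ε} {X Y Z : St ε P} (hY : Stp lab U X Y)
    (hZ : Stp lab U X Z) : Y = Z ∨ ∃ W, Stp lab U Y W ∧ Stp lab U Z W := by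
  have hYv := hY.valid
  have hZv := hZ.valid
  obtain ⟨hX, e, he, f, hf, hl, hJ, s, c, hc, rfl⟩ := hY
  obtain ⟨_, e', he', f', hf', hl', hJ', s', c', hc', rfl⟩ := hZ
  by_cases h : joinS X.J e f e' f'
  · left
    rcases h with h | ⟨h1, h2⟩ | ⟨h1, h2⟩
    · exact absurd h hJ'
    · have hJJ : joinS X.J e f = joinS X.J e' f' := by
        apply le_antisymm
        · rw [joinS_le]
          exact ⟨le_joinS _ _ _, Or.inr (Or.inl ⟨X.J.symm' h1, X.J.symm' h2⟩)⟩
        · rw [joinS_le]
          exact ⟨le_joinS _ _ _, Or.inr (Or.inl ⟨h1, h2⟩)⟩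
      rw [hJJ, fold_same hX hc hc' h1 h2]
    · have hJJ : joinS X.J e f = joinS X.J e' f' := by
        apply le_antisymm
        · rw [joinS_le]
          exact ⟨le_joinS _ _ _, Or.inr (Or.inr ⟨h2, h1⟩)⟩
        · rw [joinS_le]
          exact ⟨le_joinS _ _ _, Or.inr (Or.inr ⟨h1, h2⟩)⟩
      rw [hJJ, ← fold_flip hX.K (e := e) (f := f),
        fold_same hX (hX.K.inv hc) hc' h1 h2]
  · right
    have h' : ¬ joinS X.J e' f' e f := by
      rintro (h1 | ⟨h1, h2⟩ | ⟨h1, h2⟩)
      · exact hJ h1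
      · exact h (Or.inr (Or.inl ⟨X.J.symm' h1, X.J.symm' h2⟩))
      · exact h (Or.inr (Or.inr ⟨h2, h1⟩))
    refine ⟨⟨joinS (joinS X.J e f) e' f', (X.K.add (some (e, !s)) c (some (f, !s))).add
      (some (e', !s')) c' (some (f', !s'))⟩, ?_, ?_⟩
    · exact ⟨hYv, e', he', f', hf', hl', h, s', c', KS.mono _ _ _ _ hc', rfl⟩
    · refine ⟨hZv, e, he, f, hf, hl, h', s, c, KS.mono _ _ _ _ hc, ?_⟩
      rw [joinS_comm, KS.add_comm' hX.K]

/-- a final state: every label occurs, edges with the same label are joined, and everything is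
connected to the base point -/
structure Fnl (lab : ε → L) (U : Set ε) (Y : St ε P) : Prop where
  valid : Y.Valid lab
  full : ∀ x, ∃ e ∈ U, lab e = x
  join : ∀ e ∈ U, ∀ f ∈ U, lab e = lab f → Y.J e f
  conn : ∀ e ∈ U, ∀ s, ∃ g, Y.K.R none g (some (e, s))

lemma Fnl.no_step {lab : ε → L} {U : Set ε} {Y Z : St ε P} (h : Fnl lab U Y)
    (hs : Stp lab U Y Z) : False := by
  obtain ⟨_, e, he, f, hf, hl, hJ, _⟩ := hs
  exact hJ (h.join e he f hf hl)

theorem Fnl.unique {lab : ε → L} {U : Set ε} {X Y Z : St ε P}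
    (h1 : Relation.ReflTransGen (Stp lab U) X Y) (h2 : Relation.ReflTransGen (Stp lab U) X Z)
    (hY : Fnl lab U Y) (hZ : Fnl lab U Z) : Y = Z := by
  have h3 : Relation.Join (Relation.ReflTransGen (Stp lab U)) Y Z := by
    refine Relation.church_rosser (r := Stp lab U) ?_ h1 h2
    intro a b c hab hac
    rcases hab.diamond hac with rfl | ⟨W, h4, h5⟩
    · exact ⟨b, Relation.ReflGen.refl, Relation.ReflTransGen.refl⟩
    · exact ⟨W, Relation.ReflGen.single h4, Relation.ReflTransGen.single h5⟩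
  obtain ⟨W, h4, h5⟩ := h3
  have h6 : ∀ {Y W : St ε P}, Fnl lab U Y → Relation.ReflTransGen (Stp lab U) Y W → Y = W := by
    intro Y W hY h
    rcases Relation.ReflTransGen.cases_head h with h | ⟨Z', h, _⟩
    · exact h
    · exact (hY.no_step h).elim
  rw [h6 hY h4, h6 hZ h5]

/-- the folding process leads from `X` to a final state with class `l` -/
def Good (lab : ε → L) (U : Set ε) (X : St ε P) (l : ACq P) : Prop :=
  ∃ Y, Relation.ReflTransGen (Stp lab U) X Y ∧ Fnl lab U Y ∧ Y.K.lam = l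

theorem Good.unique {lab : ε → L} {U : Set ε} {X : St ε P} {l l' : ACq P}
    (h : Good lab U X l) (h' : Good lab U X l') : l = l' := by
  obtain ⟨Y, h1, h2, rfl⟩ := h
  obtain ⟨Z, h3, h4, rfl⟩ := h'
  rw [Fnl.unique h1 h3 h2 h4]

end Pool.Agent.H46.NE
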