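import Pool.Agent.H46.NE.ACq

set_option autoImplicit false

/-!
# Andrews-Curtis moves on tuples and on multisets (MP_fabc18_al)
-/

namespace Pool.Agent.H46.NE

variable {κ P : Type*} [DecidableEq κ] [Group P]

/-- Andrews-Curtis moves without stabilization on a tuple of elements of a group: permutation of
the entries, inversion of an entry, right multiplication of an entry by another entry, conjugation
of an entry by an arbitrary element of the group -/
def ACMove {κ P : Type*} [DecidableEq κ] [Group P] (b c : κ → P) : Prop :=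
  (∃ σ : Equiv.Perm κ, c = b ∘ σ) ∨
    (∃ i : κ, c = Function.update b i (b i)⁻¹) ∨
    (∃ i j : κ, i ≠ j ∧ c = Function.update b i (b i * b j)) ∨
    (∃ (i : κ) (g : P), c = Function.update b i (g * b i * g⁻¹))

/-- Andrews-Curtis equivalence without stabilization -/
def AC {κ P : Type*} [DecidableEq κ] [Group P] (b c : κ → P) : Prop :=
  Relation.ReflTransGen ACMove b c

lemma AC.trans' {b c d : κ → P} (h1 : AC b c) (h2 : AC c d) : AC b d :=
  Relation.ReflTransGen.trans h1 h2

lemma AC.single' {b c : κ → P} (h : ACMove b c) : AC b c := Relation.ReflTransGen.single h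

variable [Fintype κ]

/-- the multiset of entries -/
def ms (b : κ → P) : Multiset P := Finset.univ.val.map b

lemma ms_update (b : κ → P) (i : κ) (z : P) :
    ms (Function.update b i z) = z ::ₘ (Finset.univ.erase i).val.map b := by
  unfold ms
  have h1 : (Finset.univ : Finset κ).val = i ::ₘ (Finset.univ.erase i).val := by
    rw [Finset.erase_val, Multiset.cons_erase]
    exact Finset.mem_univ i
  rw [h1, Multiset.map_cons, Function.update_self]
  congr 1
  apply Multiset.map_congr rfl
  intro x hx
  rw [Function.update_of_ne]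
  intro hh
  subst hh
  exact Finset.notMem_erase x Finset.univ hx

lemma ms_eq (b : κ → P) (i : κ) : ms b = b i ::ₘ (Finset.univ.erase i).val.map b := by
  have := ms_update b i (b i)
  rwa [Function.update_eq_self] at this

/-- decomposition of the multiset of entries -/
lemma ms_cons {b : κ → P} {a : P} {C : Multiset P} (h : ms b = a ::ₘ C) :
    ∃ i, b i = a ∧ C = (Finset.univ.erase i).val.map b := by
  have ha : a ∈ ms b := by rw [h]; exact Multiset.mem_cons_self _ _
  obtain ⟨i, _, hi⟩ := Multiset.mem_map.1 ha
  refine ⟨i, hi, ?_⟩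
  rw [ms_eq b i, hi] at h
  exact ((Multiset.cons_inj_right a).1 h).symm

lemma ac_lift {C C' : Multiset P} (h : ACs C C') {b : κ → P} (hb : ms b = C) :
    ∃ b', ms b' = C' ∧ AC b b' := by
  cases h with
  | inv a C =>
    obtain ⟨i, rfl, rfl⟩ := ms_cons hb
    exact ⟨_, ms_update b i _, AC.single' (Or.inr (Or.inl ⟨i, rfl⟩))⟩
  | mul a c C =>
    obtain ⟨i, rfl, h1⟩ := ms_cons hb
    have hc : c ∈ (Finset.univ.erase i).val.map b := by rw [← h1]; exact Multiset.mem_cons_self _ _
    obtain ⟨j, hj, rfl⟩ := Multiset.mem_map.1 hc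
    have hji : j ≠ i := by
      intro hh
      subst hh
      exact Finset.notMem_erase j Finset.univ hj
    refine ⟨_, ?_, AC.single' (Or.inr (Or.inr (Or.inl ⟨i, j, hji.symm, rfl⟩)))⟩
    rw [ms_update, ← h1]
  | conj a g C =>
    obtain ⟨i, rfl, rfl⟩ := ms_cons hb
    exact ⟨_, ms_update b i _, AC.single' (Or.inr (Or.inr (Or.inr ⟨i, g, rfl⟩)))⟩

lemma ac_lift' {C C' : Multiset P} (h : ACs C C') {b : κ → P} (hb : ms b = C') :
    ∃ b', ms b' = C ∧ AC b b' := by
  cases h with
  | inv a C =>
    obtain ⟨i, h1, rfl⟩ := ms_cons hb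
    refine ⟨_, ms_update b i a, AC.single' (Or.inr (Or.inl ⟨i, ?_⟩))⟩
    rw [h1, inv_inv]
  | mul a c C =>
    obtain ⟨i, h0, h1⟩ := ms_cons hb
    have hc : c ∈ (Finset.univ.erase i).val.map b := by rw [← h1]; exact Multiset.mem_cons_self _ _
    obtain ⟨j, hj, rfl⟩ := Multiset.mem_map.1 hc
    have hji : j ≠ i := by
      intro hh
      subst hh
      exact Finset.notMem_erase j Finset.univ hj
    refine ⟨Function.update b i a, by rw [ms_update, ← h1], ?_⟩
    -- invert `j`, multiply, invert `j`
    have s1 : AC b (Function.update b j (b j)⁻¹) := AC.single' (Or.inr (Or.inl ⟨j, rfl⟩))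
    set b1 := Function.update b j (b j)⁻¹ with hb1
    have s2 : AC b1 (Function.update b1 i (b1 i * b1 j)) :=
      AC.single' (Or.inr (Or.inr (Or.inl ⟨i, j, hji.symm, rfl⟩)))
    set b2 := Function.update b1 i (b1 i * b1 j) with hb2
    have s3 : AC b2 (Function.update b2 j (b2 j)⁻¹) := AC.single' (Or.inr (Or.inl ⟨j, rfl⟩))
    have h2 : Function.update b2 j (b2 j)⁻¹ = Function.update b i a := by
      funext k
      by_cases hkj : k = j
      · subst hkj
        rw [Function.update_self, Function.update_of_ne hji, hb2,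
          Function.update_of_ne hji, hb1, Function.update_self, inv_inv]
      · rw [Function.update_of_ne hkj]
        by_cases hki : k = i
        · subst hki
          rw [Function.update_self, hb2, Function.update_self, hb1,
            Function.update_self, Function.update_of_ne hkj, h0]
          group
        · rw [Function.update_of_ne hki, hb2, Function.update_of_ne hki, hb1,
            Function.update_of_ne hkj]
    rw [h2] at s3
    exact (s1.trans' s2).trans' s3
  | conj a g C =>
    obtain ⟨i, h1, rfl⟩ := ms_cons hb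
    refine ⟨_, ms_update b i a, AC.single' (Or.inr (Or.inr (Or.inr ⟨i, g⁻¹, ?_⟩)))⟩
    rw [h1]
    congr 1
    group

lemma AC.symm' {b c : κ → P} (h : AC b c) : AC c b := by
  induction h with
  | refl => exact Relation.ReflTransGen.refl
  | tail _ h2 ih =>
    refine AC.trans' ?_ ih
    rename_i c d _
    rcases h2 with ⟨σ, rfl⟩ | ⟨i, rfl⟩ | ⟨i, j, hij, rfl⟩ | ⟨i, g, rfl⟩
    · refine AC.single' (Or.inl ⟨σ⁻¹, ?_⟩)
      funext x
      simp
    · refine AC.single' (Or.inr (Or.inl ⟨i, ?_⟩))
      simp
    · set b2 := Function.update c i (c i * c j) with hb2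
      have s1 : AC b2 (Function.update b2 j (b2 j)⁻¹) := AC.single' (Or.inr (Or.inl ⟨j, rfl⟩))
      set b3 := Function.update b2 j (b2 j)⁻¹ with hb3
      have s2 : AC b3 (Function.update b3 i (b3 i * b3 j)) :=
        AC.single' (Or.inr (Or.inr (Or.inl ⟨i, j, hij, rfl⟩)))
      set b4 := Function.update b3 i (b3 i * b3 j) with hb4
      have s3 : AC b4 (Function.update b4 j (b4 j)⁻¹) := AC.single' (Or.inr (Or.inl ⟨j, rfl⟩))
      have h2 : Function.update b4 j (b4 j)⁻¹ = c := by
        funext k
        by_cases hkj : k = j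
        · subst hkj
          rw [Function.update_self, hb4, Function.update_of_ne hij.symm, hb3,
            Function.update_self, hb2, Function.update_of_ne hij.symm, inv_inv]
        · rw [Function.update_of_ne hkj]
          by_cases hki : k = i
          · subst hki
            rw [hb4, Function.update_self, hb3, Function.update_of_ne hkj,
              Function.update_self, hb2, Function.update_self,
              Function.update_of_ne (Ne.symm hkj)]
            group
          · rw [hb4, Function.update_of_ne hki, hb3, Function.update_of_ne hkj, hb2,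
              Function.update_of_ne hki]
      rw [h2] at s3
      exact (s1.trans' s2).trans' s3
    · refine AC.single' (Or.inr (Or.inr (Or.inr ⟨i, g⁻¹, ?_⟩)))
      simp only [Function.update_self, Function.update_idem, inv_inv]
      have h1 : g⁻¹ * (g * c i * g⁻¹) * g = c i := by group
      rw [h1, Function.update_eq_self]

/-- two tuples with the same entries differ by a permutation -/
lemma exists_perm_of_ms_eq {b c : κ → P} (h : ms b = ms c) : ∃ σ : Equiv.Perm κ, c = b ∘ σ := by
  classical
  have key : ∀ p : P, Fintype.card {i // c i = p} = Fintype.card {i // b i = p} := by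
    intro p
    have h1 : ∀ f : κ → P, Fintype.card {i // f i = p} = Multiset.count p (ms f) := by
      intro f
      rw [Fintype.card_subtype, ms, Multiset.count_map]
      have : (Finset.univ.filter (fun i => f i = p)) = Finset.univ.filter (fun i => p = f i) := by
        ext i
        simp [eq_comm]
      rw [this]
      rfl
    rw [h1, h1, h]
  let σ : κ ≃ κ := Equiv.ofFiberEquiv (f := c) (g := b)
    (fun p => Fintype.equivOfCardEq (key p))
  refine ⟨σ, ?_⟩
  funext i
  exact (Equiv.ofFiberEquiv_map _ i).symm

theorem ac_of_class {b c : κ → P} (h : ACq.mk (ms b) = ACq.mk (ms c)) : AC b c := by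
  have h1 := ACq.exact h
  have key : ∀ {C C' : Multiset P}, Relation.EqvGen ACs C C' →
      (∀ b : κ → P, ms b = C → ∃ b', ms b' = C' ∧ AC b b') ∧
      (∀ b : κ → P, ms b = C' → ∃ b', ms b' = C ∧ AC b b') := by
    intro C C' hh
    induction hh with
    | rel x y h => exact ⟨fun b hb => ac_lift h hb, fun b hb => ac_lift' h hb⟩
    | refl x => exact ⟨fun b hb => ⟨b, hb, Relation.ReflTransGen.refl⟩,
        fun b hb => ⟨b, hb, Relation.ReflTransGen.refl⟩⟩
    | symm x y _ ih => exact ⟨ih.2, ih.1⟩
    | trans x y z _ _ ih1 ih2 =>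
      refine ⟨?_, ?_⟩
      · intro b hb
        obtain ⟨b1, h2, h3⟩ := ih1.1 b hb
        obtain ⟨b2, h4, h5⟩ := ih2.1 b1 h2
        exact ⟨b2, h4, h3.trans' h5⟩
      · intro b hb
        obtain ⟨b1, h2, h3⟩ := ih2.2 b hb
        obtain ⟨b2, h4, h5⟩ := ih1.2 b1 h2
        exact ⟨b2, h4, h3.trans' h5⟩
  obtain ⟨b', h2, h3⟩ := (key h1).1 b rfl
  obtain ⟨σ, hσ⟩ := exists_perm_of_ms_eq h2
  exact h3.trans' (AC.single' (Or.inl ⟨σ, hσ⟩))

end Pool.Agent.H46.NE
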