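import Pool.Agent.H46.NE.Ab

set_option autoImplicit false

/-!
# Lifting generating tuples along chains (MP_fabc18_al)
-/

namespace Pool.Agent.H46.NE

open Pool.Agent.H81.Nls (Move Nielsen)
open FreeGroup (of)
open scoped commutatorElement

variable {P : Type*} [Group P] {n k : ℕ}

/-- a supplement of a central subgroup contained in the commutator subgroup -/
lemma sup_central {V B : Subgroup P} [V.Normal] (hV : V ≤ Subgroup.center P)
    (hV' : V ≤ commutator P) (hB : B ⊔ V = ⊤) : B = ⊤ := by
  have hdec : ∀ q : P, ∃ β ∈ B, ∃ z ∈ V, q = β * z := by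
    intro q
    have h3 : q ∈ ((B ⊔ V : Subgroup P) : Set P) := by rw [hB]; trivial
    rw [Subgroup.mul_normal] at h3
    obtain ⟨β, hβ, z, hz, rfl⟩ := h3
    exact ⟨β, hβ, z, hz, rfl⟩
  have h1 : commutator P ≤ B := by
    rw [commutator_def, Subgroup.commutator_le]
    intro g _ h _
    obtain ⟨β, hβ, z, hz, rfl⟩ := hdec g
    obtain ⟨β', hβ', z', hz', rfl⟩ := hdec h
    have hzc : ∀ g, g * z = z * g := Subgroup.mem_center_iff.1 (hV hz)
    have hzc' : ∀ g, g * z' = z' * g := Subgroup.mem_center_iff.1 (hV hz')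
    have h2 : ⁅β * z, β' * z'⁆ = ⁅β, β'⁆ := by
      rw [commutatorElement_def, commutatorElement_def]
      have e1 : β * z * (β' * z') = z * z' * (β * β') := by
        rw [hzc β, hzc' β', mul_assoc z β, ← mul_assoc β z', hzc' β]
        simp only [mul_assoc]
      have e2 : (β' * z') * (β * z) = z * z' * (β' * β) := by
        rw [hzc β, hzc' β', mul_assoc z' β', ← mul_assoc β' z, hzc β']
        rw [← hzc z']
        simp only [mul_assoc]
      calc β * z * (β' * z') * (β * z)⁻¹ * (β' * z')⁻¹
          = (β * z * (β' * z')) * ((β' * z') * (β * z))⁻¹ := by group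
        _ = (z * z' * (β * β')) * (z * z' * (β' * β))⁻¹ := by rw [e1, e2]
        _ = (z * z') * (β * β' * (β' * β)⁻¹) * (z * z')⁻¹ := by group
        _ = (β * β' * (β' * β)⁻¹) * (z * z') * (z * z')⁻¹ := by
          rw [← (Subgroup.mem_center_iff.1 (mul_mem (hV hz) (hV hz'))) (β * β' * (β' * β)⁻¹)]
        _ = β * β' * β⁻¹ * β'⁻¹ := by group
    rw [h2, commutatorElement_def]
    exact mul_mem (mul_mem (mul_mem hβ hβ') (inv_mem hβ)) (inv_mem hβ')
  rw [← hB, eq_comm, sup_eq_left]
  exact hV'.trans h1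

/-- a proper supplement of an abelian minimal normal subgroup is a complement -/
lemma compl_of_sup {V H : Subgroup P} [hVn : V.Normal] (hVc : ∀ x ∈ V, ∀ z ∈ V, x * z = z * x)
    (hmin : ∀ W : Subgroup P, W.Normal → W ≤ V → W = ⊥ ∨ W = V)
    (hH : H ⊔ V = ⊤) (hH' : H ≠ ⊤) : H ⊓ V = ⊥ := by
  have hn : (H ⊓ V).Normal := by
    refine ⟨fun x hx g => ?_⟩
    have h3 : g ∈ ((H ⊔ V : Subgroup P) : Set P) := by rw [hH]; trivial
    rw [Subgroup.mul_normal] at h3
    obtain ⟨β, hβ, z, hz, rfl⟩ := h3
    have h4 : β * z * x * (β * z)⁻¹ = β * x * β⁻¹ := by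
      rw [mul_assoc β z, hVc z hz _ hx.2]
      group
    change β * z * x * (β * z)⁻¹ ∈ H ⊓ V
    rw [h4]
    have hβ1 : β ∈ H := hβ
    have hx1 := Subgroup.mem_inf.1 hx
    exact Subgroup.mem_inf.2 ⟨mul_mem (mul_mem hβ1 hx1.1) (inv_mem hβ1), hVn.conj_mem _ hx1.2 _⟩
  rcases hmin _ hn inf_le_right with h | h
  · exact h
  · exfalso
    apply hH'
    rw [← hH, eq_comm, sup_eq_left]
    exact inf_eq_right.1 h

/-- generating tuples modulo a finite abelian minimal normal subgroup lift -/
lemma lift_chief {V : Subgroup P} [hVn : V.Normal] (hVc : ∀ x ∈ V, ∀ z ∈ V, x * z = z * x)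
    (hmin : ∀ W : Subgroup P, W.Normal → W ≤ V → W = ⊥ ∨ W = V) [Finite V]
    {y b : Fin k → P} (hy : Subgroup.closure (Set.range y) = ⊤)
    (hb : Subgroup.closure (Set.range b) ⊔ V = ⊤) :
    ∃ v : Fin k → P, (∀ j, v j ∈ V) ∧
      Subgroup.closure (Set.range (fun j => b j * v j)) = ⊤ := by
  by_contra hcon
  push Not at hcon
  let H : (Fin k → V) → Subgroup P := fun v =>
    Subgroup.closure (Set.range (fun j => b j * (v j : P)))
  have hsup : ∀ (c : Fin k → P), Subgroup.closure (Set.range c) ⊔ V = ⊤ → ∀ v : Fin k → V,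
      Subgroup.closure (Set.range (fun j => c j * (v j : P))) ⊔ V = ⊤ := by
    intro c hc v
    rw [eq_top_iff, ← hc]
    refine sup_le ?_ le_sup_right
    rw [Subgroup.closure_le]
    rintro _ ⟨j, rfl⟩
    have h1 : c j = c j * (v j : P) * (v j : P)⁻¹ := by group
    change c j ∈ Subgroup.closure (Set.range (fun j => c j * (v j : P))) ⊔ V
    rw [h1]
    exact mul_mem (Subgroup.mem_sup_left (Subgroup.subset_closure ⟨j, rfl⟩))
      (Subgroup.mem_sup_right (inv_mem (v j).2))
  have hHs : ∀ v, H v ⊔ V = ⊤ := hsup b hb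
  have hHt : ∀ v, H v ≠ ⊤ := fun v => hcon (fun j => (v j : P)) (fun j => (v j).2)
  have hHV : ∀ v, H v ⊓ V = ⊥ := fun v => compl_of_sup hVc hmin (hHs v) (hHt v)
  have hF : ∀ v : Fin k → V, ∃ w : Fin k → V, ∀ j, y j * (w j : P) ∈ H v := by
    intro v
    have h1 : ∀ j, ∃ w : V, y j * (w : P) ∈ H v := by
      intro j
      have h3 : y j ∈ ((H v ⊔ V : Subgroup P) : Set P) := by rw [hHs v]; trivial
      rw [Subgroup.mul_normal] at h3
      obtain ⟨β, hβ, z, hz, hyj⟩ := h3
      refine ⟨⟨z⁻¹, inv_mem hz⟩, ?_⟩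
      have h4 : y j = β * z := hyj.symm
      change y j * z⁻¹ ∈ H v
      rw [h4, mul_inv_cancel_right]
      exact hβ
    choose w hw using h1
    exact ⟨w, hw⟩
  choose F hF using hF
  have hy1 : Subgroup.closure (Set.range y) ⊔ V = ⊤ := by rw [hy]; simp
  have hHeq : ∀ v, H v = Subgroup.closure (Set.range (fun j => y j * (F v j : P))) := by
    intro v
    have hle : Subgroup.closure (Set.range (fun j => y j * (F v j : P))) ≤ H v := by
      rw [Subgroup.closure_le]
      rintro _ ⟨j, rfl⟩
      exact hF v j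
    refine le_antisymm ?_ hle
    intro x hx
    have h3 : x ∈ ((Subgroup.closure (Set.range (fun j => y j * (F v j : P))) ⊔ V :
        Subgroup P) : Set P) := by rw [hsup y hy1 (F v)]; trivial
    rw [Subgroup.mul_normal] at h3
    obtain ⟨κ, hκ, z, hz, rfl⟩ := h3
    have h4 : z ∈ H v ⊓ V := by
      refine Subgroup.mem_inf.2 ⟨?_, hz⟩
      have hκ1 : κ ∈ H v := hle hκ
      have hx1 : κ * z ∈ H v := hx
      have h5 := mul_mem (inv_mem hκ1) hx1
      rwa [inv_mul_cancel_left] at h5
    rw [hHV v, Subgroup.mem_bot] at h4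
    change κ * z ∈ _
    rw [h4, mul_one]
    exact hκ
  have hinj : Function.Injective F := by
    intro v v' hvv
    have h1 : H v = H v' := by rw [hHeq v, hHeq v', hvv]
    funext j
    have h2 : b j * (v j : P) ∈ H v := Subgroup.subset_closure ⟨j, rfl⟩
    have h3 : b j * (v' j : P) ∈ H v := by
      rw [h1]
      exact Subgroup.subset_closure ⟨j, rfl⟩
    have h4 : (v j : P)⁻¹ * (v' j : P) ∈ H v ⊓ V := by
      refine Subgroup.mem_inf.2 ⟨?_, mul_mem (inv_mem (v j).2) (v' j).2⟩
      have h5 := mul_mem (inv_mem h2) h3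
      have h6 : (b j * (v j : P))⁻¹ * (b j * (v' j : P)) = (v j : P)⁻¹ * (v' j : P) := by group
      rwa [h6] at h5
    rw [hHV v, Subgroup.mem_bot] at h4
    exact Subtype.ext (inv_mul_eq_one.1 h4)
  obtain ⟨v, hv⟩ := Finite.surjective_of_injective hinj (fun _ => 1)
  apply hHt v
  rw [hHeq v, hv]
  simpa using hy

/-- finite factors -/
lemma finite_map {V W : Subgroup P} [W.Normal] (h : W.relIndex V ≠ 0) :
    Finite (V.map (QuotientGroup.mk' W)) := by
  set φ := (QuotientGroup.mk' W).subgroupMap V with hφ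
  have h1 : W.subgroupOf V ≤ φ.ker := by
    intro x hx
    rw [MonoidHom.mem_ker]
    apply Subtype.ext
    exact (QuotientGroup.eq_one_iff (x : P)).2 (Subgroup.mem_subgroupOf.1 hx)
  have h2 : φ.ker.index ≠ 0 := by
    intro h0
    have h3 := Subgroup.index_dvd_of_le h1
    rw [h0, zero_dvd_iff] at h3
    exact h h3
  rw [Subgroup.index_ker] at h2
  have h4 : Finite φ.range := Nat.finite_of_card_ne_zero h2
  have h5 : φ.range = ⊤ := MonoidHom.range_eq_top.2 ((QuotientGroup.mk' W).subgroupMap_surjective V)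
  rw [h5] at h4
  exact Finite.of_injective (fun x => (⟨x, trivial⟩ : (⊤ : Subgroup (V.map (QuotientGroup.mk' W)))))
    (fun x y hxy => congrArg Subtype.val hxy)

/-- the factor of a chain in the quotient -/
lemma map_min {V W : Subgroup P} [hW : W.Normal] (hWV : W ≤ V)
    (hX : ∀ X : Subgroup P, X.Normal → W ≤ X → X ≤ V → X = W ∨ X = V) :
    ∀ X : Subgroup (P ⧸ W), X.Normal → X ≤ V.map (QuotientGroup.mk' W) →
      X = ⊥ ∨ X = V.map (QuotientGroup.mk' W) := by
  set π := QuotientGroup.mk' W with hπ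
  have hπs : Function.Surjective π := QuotientGroup.mk'_surjective W
  have hW1 : W.map π = ⊥ := by
    rw [Subgroup.map_eq_bot_iff, hπ, QuotientGroup.ker_mk']
  intro X hXn hXV
  have h3 : W ≤ X.comap π := by
    intro w hw
    have : π w = 1 := (QuotientGroup.eq_one_iff w).2 hw
    rw [Subgroup.mem_comap, this]
    exact one_mem _
  have h4 : X.comap π ≤ V := by
    intro x hx
    obtain ⟨v, hv, hvx⟩ := Subgroup.mem_map.1 (hXV (Subgroup.mem_comap.1 hx))
    have h5 : v⁻¹ * x ∈ W := QuotientGroup.eq.1 hvx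
    have h6 : x = v * (v⁻¹ * x) := by group
    rw [h6]
    exact mul_mem hv (hWV h5)
  rcases hX _ (hXn.comap π) h3 h4 with h7 | h7
  · left
    rw [← Subgroup.map_comap_eq_self_of_surjective hπs X, h7, hW1]
  · right
    rw [← Subgroup.map_comap_eq_self_of_surjective hπs X, h7]

lemma map_comm {A B W : Subgroup P} [W.Normal] (hAB : ⁅A, B⁆ ≤ W) :
    ⁅A.map (QuotientGroup.mk' W), B.map (QuotientGroup.mk' W)⁆ = ⊥ := by
  have hW1 : W.map (QuotientGroup.mk' W) = ⊥ := by
    rw [Subgroup.map_eq_bot_iff, QuotientGroup.ker_mk']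
  rw [← Subgroup.map_commutator, eq_bot_iff, ← hW1]
  exact Subgroup.map_mono hAB

lemma map_sup_top {W V : Subgroup P} [W.Normal] {b : Fin k → P}
    (h : Subgroup.closure (Set.range b) ⊔ V = ⊤) :
    Subgroup.closure (Set.range (fun j => QuotientGroup.mk' W (b j))) ⊔
      V.map (QuotientGroup.mk' W) = ⊤ := by
  have h1 : Subgroup.closure (Set.range (fun j => QuotientGroup.mk' W (b j))) =
      (Subgroup.closure (Set.range b)).map (QuotientGroup.mk' W) := by
    rw [MonoidHom.map_closure]
    congr 1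
    rw [← Set.range_comp]
    rfl
  rw [h1, ← Subgroup.map_sup, h]
  exact Subgroup.map_top_of_surjective _ (QuotientGroup.mk'_surjective W)

lemma sup_of_map {W : Subgroup P} [W.Normal] {b : Fin k → P}
    (h : Subgroup.closure (Set.range (fun j => QuotientGroup.mk' W (b j))) = ⊤) :
    Subgroup.closure (Set.range b) ⊔ W = ⊤ := by
  have h1 : Subgroup.closure (Set.range (fun j => QuotientGroup.mk' W (b j))) =
      (Subgroup.closure (Set.range b)).map (QuotientGroup.mk' W) := by
    rw [MonoidHom.map_closure]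
    congr 1
    rw [← Set.range_comp]
    rfl
  rw [h1] at h
  have h2 := congrArg (Subgroup.comap (QuotientGroup.mk' W)) h
  rw [Subgroup.comap_map_eq, QuotientGroup.ker_mk', Subgroup.comap_top] at h2
  exact h2

/-- generating tuples modulo commutators lift -/
theorem exists_lift {y : Fin k → P} (hy : Subgroup.closure (Set.range y) = ⊤) {b : Fin k → P}
    (hb : Subgroup.closure (Set.range b) ⊔ commutator P = ⊤) {V : Subgroup P} (hV : Chain P V) :
    ∃ b' : Fin k → P, (∀ j, (b j)⁻¹ * b' j ∈ commutator P) ∧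
      Subgroup.closure (Set.range b') ⊔ V = ⊤ := by
  induction hV with
  | start => exact ⟨b, fun j => by simp [one_mem], hb⟩
  | @step V W hV hW hWV h ih =>
    obtain ⟨b', h1, h2⟩ := ih
    have hVn := hV.normal
    set π := QuotientGroup.mk' W with hπ
    have hπs : Function.Surjective π := QuotientGroup.mk'_surjective W
    have hV1 : (V.map π).Normal := hVn.map π hπs
    have hV2 : V.map π ≤ commutator (P ⧸ W) := by
      have h1 : (commutator P).map π = commutator (P ⧸ W) := by
        rw [commutator_def, Subgroup.map_commutator, Subgroup.map_top_of_surjective _ hπs]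
        rfl
      rw [← h1]
      exact Subgroup.map_mono hV.le
    have h3 := map_sup_top (W := W) h2
    rcases h with h | ⟨h, h0, hX⟩
    · have h4 := map_comm h
      rw [Subgroup.map_top_of_surjective _ hπs,
        Subgroup.commutator_top_right_eq_bot_iff_le_center] at h4
      exact ⟨b', h1, sup_of_map (sup_central h4 hV2 h3)⟩
    · have h4 := map_comm h
      have h5 : ∀ x ∈ V.map π, ∀ z ∈ V.map π, x * z = z * x := by
        intro x hx z hz
        have h6 := Subgroup.commutator_mem_commutator hx hz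
        rw [h4, Subgroup.mem_bot] at h6
        exact commutatorElement_eq_one_iff_mul_comm.1 h6
      have hfin : Finite (V.map π) := finite_map h0
      obtain ⟨v, hv, hv'⟩ := lift_chief h5 (map_min hWV hX) (gen_map π hπs hy) h3
      choose u hu huv using fun j => Subgroup.mem_map.1 (hv j)
      refine ⟨fun j => b' j * u j, fun j => ?_, sup_of_map ?_⟩
      · rw [← mul_assoc]
        exact mul_mem (h1 j) (hV.le (hu j))
      · have h6 : (fun j => QuotientGroup.mk' W (b' j * u j)) = fun j => π (b' j) * v j := by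
          funext j
          rw [map_mul, ← huv j]
        rw [h6]
        exact hv'

/-- Andrews-Curtis equivalence and abelian groups -/
lemma nielsen_of_ac_ab {b b' : Fin k → P} (h : AC b b') :
    Nielsen (fun j => (QuotientGroup.mk (b j) : P ⧸ commutator P))
      (fun j => (QuotientGroup.mk (b' j) : P ⧸ commutator P)) := by
  have hcm : ∀ x y : P, (QuotientGroup.mk (x * y) : P ⧸ commutator P) =
      QuotientGroup.mk (y * x) := by
    intro x y
    refine QuotientGroup.eq.2 ?_
    have h1 : (x * y)⁻¹ * (y * x) = ⁅y⁻¹, x⁻¹⁆ := by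
      rw [commutatorElement_def]
      group
    rw [h1, commutator_def]
    exact Subgroup.commutator_mem_commutator trivial trivial
  induction h with
  | refl => exact Relation.ReflTransGen.refl
  | @tail c d _ h2 ih =>
    refine nl_trans ih ?_
    rcases h2 with ⟨σ, rfl⟩ | ⟨j, rfl⟩ | ⟨i, j, hij, rfl⟩ | ⟨j, g, rfl⟩
    · exact nl_map (QuotientGroup.mk' (commutator P))
        (Relation.ReflTransGen.single (Or.inl ⟨σ, rfl⟩))
    · exact nl_map (QuotientGroup.mk' (commutator P))
        (Relation.ReflTransGen.single (Or.inr (Or.inl ⟨j, rfl⟩)))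
    · exact nl_map (QuotientGroup.mk' (commutator P))
        (Relation.ReflTransGen.single (Or.inr (Or.inr ⟨i, j, hij, rfl⟩)))
    · have h3 : (fun l => (QuotientGroup.mk (Function.update c j (g * c j * g⁻¹) l) :
          P ⧸ commutator P)) = fun l => QuotientGroup.mk (c l) := by
        funext l
        by_cases hl : l = j
        · subst hl
          rw [Function.update_self, hcm, inv_mul_cancel_left]
        · rw [Function.update_of_ne hl]
      rw [h3]
      exact Relation.ReflTransGen.refl

/-- standard form of a generating tuple -/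
lemma std_form (i0 : Fin n) (hP : Chain P ⊥) {y : Fin k → P}
    (hy : Subgroup.closure (Set.range y) = ⊤) {a : Fin n → P} {b : Fin k → P}
    (hg : Subgroup.closure (Set.range (T a b)) = ⊤) :
    ∃ z : Fin k → P, Subgroup.closure (Set.range z) = ⊤ ∧
      (∀ j, (QuotientGroup.mk (z j) : P ⧸ commutator P) = QuotientGroup.mk (b j)) ∧
      Nielsen (T a b) (T (fun _ => 1) z) := by
  have h1 : Subgroup.closure (Set.range b) ⊔ commutator P = ⊤ := by
    have h2 : (Subgroup.closure (Set.range b) ⊔ commutator P).Normal := by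
      refine ⟨fun x hx g => ?_⟩
      have h3 : g * x * g⁻¹ = ⁅g, x⁆ * x := by
        rw [commutatorElement_def]
        group
      rw [h3]
      refine mul_mem (Subgroup.mem_sup_right ?_) hx
      rw [commutator_def]
      exact Subgroup.commutator_mem_commutator trivial trivial
    rw [eq_top_iff, ← normal_of_gen' hg]
    refine Subgroup.normalClosure_le_normal ?_
    exact fun x hx => Subgroup.mem_sup_left (Subgroup.subset_closure hx)
  obtain ⟨z, hz1, hz2⟩ := exists_lift hy h1 hP
  rw [sup_bot_eq] at hz2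
  have hz3 : ∀ j, (QuotientGroup.mk (z j) : P ⧸ commutator P) = QuotientGroup.mk (b j) :=
    fun j => (QuotientGroup.eq.2 (hz1 j)).symm
  refine ⟨z, hz2, hz3, ?_⟩
  rw [nielsen_iff_ab i0 hP hz2 hg, qt_T, qt_T]
  simp only [hz3]
  refine nl_full ?_ _ _
  have h4 := gen_map (QuotientGroup.mk' (commutator P)) (QuotientGroup.mk'_surjective _) hz2
  have h5 : (fun j => (QuotientGroup.mk' (commutator P)) (z j)) =
      fun j => (QuotientGroup.mk (b j) : P ⧸ commutator P) := funext hz3
  rw [h5] at h4
  exact h4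

/-- **Classification.** -/
theorem classification (i0 : Fin n) (hP : Chain P ⊥) {y : Fin k → P}
    (hy : Subgroup.closure (Set.range y) = ⊤) {a a' : Fin n → P} {b b' : Fin k → P}
    (hg : Subgroup.closure (Set.range (T a b)) = ⊤)
    (hg' : Subgroup.closure (Set.range (T a' b')) = ⊤)
    (h : Nielsen (fun j => (QuotientGroup.mk (b j) : P ⧸ commutator P))
      (fun j => (QuotientGroup.mk (b' j) : P ⧸ commutator P))) :
    Nielsen (T a b) (T a' b') := by
  obtain ⟨z, hz1, hz2, hz3⟩ := std_form i0 hP hy hg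
  obtain ⟨z', hz1', hz2', hz3'⟩ := std_form i0 hP hy hg'
  refine nl_trans hz3 (nl_trans ?_ (nl_symm hz3'))
  rw [nielsen_iff_ab i0 hP hz1' (nl_gen hz3 hg), qt_T, qt_T]
  simp only [hz2, hz2']
  exact nl_inr _ h

/-- generating tuples of the abelianization lift -/
lemma lift_ab (hP : Chain P ⊥) {y : Fin k → P} (hy : Subgroup.closure (Set.range y) = ⊤)
    {c : Fin k → Abelianization P} (hc : Subgroup.closure (Set.range c) = ⊤) :
    ∃ z : Fin k → P, Subgroup.closure (Set.range z) = ⊤ ∧
      ∀ j, Abelianization.of (z j) = c j := by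
  choose b hb using fun j => QuotientGroup.mk'_surjective (commutator P) (c j)
  have h1 : Subgroup.closure (Set.range b) ⊔ commutator P = ⊤ := by
    refine sup_of_map (W := commutator P) ?_
    have h2 : (fun j => QuotientGroup.mk' (commutator P) (b j)) = c := funext hb
    rw [h2]
    exact hc
  obtain ⟨z, hz1, hz2⟩ := exists_lift hy h1 hP
  rw [sup_bot_eq] at hz2
  refine ⟨z, hz2, fun j => ?_⟩
  rw [← hb j]
  exact (QuotientGroup.eq.2 (hz1 j)).symm

end Pool.Agent.H46.NE
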