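import Pool.Agent.H46.NE.Gas

set_option autoImplicit false

/-!
# Normal generators of finite abelian normal subgroups (MP_fabc18_al)
-/

namespace Pool.Agent.H46.NE

universe u

/-- one normal generator, modulo a finite minimal normal subgroup -/
lemma lift_nc {Q : Type u} [Group Q] {V S : Subgroup Q} [hVn : V.Normal] [hSn : S.Normal]
    (hSV : S ≤ V) [Finite S]
    (hmin : ∀ W : Subgroup Q, W.Normal → W ≤ S → W = ⊥ ∨ W = S)
    {u x : Q} (hu : Subgroup.normalClosure {u} = V) (hx : Subgroup.normalClosure {x} ⊔ S = V) :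
    ∃ s ∈ S, Subgroup.normalClosure {x * s} = V := by
  by_contra hcon
  push Not at hcon
  let H : S → Subgroup Q := fun s => Subgroup.normalClosure {x * (s : Q)}
  have hsup : ∀ c : Q, Subgroup.normalClosure {c} ⊔ S = V → ∀ s : S,
      Subgroup.normalClosure {c * (s : Q)} ⊔ S = V := by
    intro c hc s
    have hcV : c ∈ V := by
      rw [← hc]
      exact Subgroup.mem_sup_left (Subgroup.subset_normalClosure rfl)
    apply le_antisymm
    · refine sup_le (Subgroup.normalClosure_le_normal ?_) hSV
      rintro _ rfl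
      exact mul_mem hcV (hSV s.2)
    · rw [← hc]
      refine sup_le ?_ le_sup_right
      refine Subgroup.normalClosure_le_normal ?_
      intro y hy
      have h1 : y = c * (s : Q) * (s : Q)⁻¹ := by
        rw [Set.mem_singleton_iff.1 hy]
        group
      rw [h1]
      exact mul_mem (Subgroup.mem_sup_left (Subgroup.subset_normalClosure rfl))
        (Subgroup.mem_sup_right (inv_mem s.2))
  have hHs : ∀ s, H s ⊔ S = V := hsup x hx
  have hHV : ∀ s, H s ≤ V := fun s => by
    have h1 : H s ≤ H s ⊔ S := le_sup_left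
    rwa [hHs s] at h1
  have hmeet : ∀ s, H s ⊓ S = ⊥ := by
    intro s
    have hn : (H s ⊓ S).Normal := Subgroup.normal_inf_normal _ _
    rcases hmin _ hn inf_le_right with h | h
    · exact h
    · exfalso
      apply hcon s s.2
      have h1 : S ≤ H s := inf_eq_right.1 h
      have h2 := hHs s
      rwa [sup_eq_left.2 h1] at h2
  have hF : ∀ s : S, ∃ w : S, u * (w : Q) ∈ H s := by
    intro s
    have huV : u ∈ V := by
      rw [← hu]
      exact Subgroup.subset_normalClosure rfl
    have h3 : u ∈ ((H s ⊔ S : Subgroup Q) : Set Q) := by rw [hHs s]; exact huV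
    rw [Subgroup.mul_normal] at h3
    obtain ⟨β, hβ, z, hz, hyj⟩ := h3
    refine ⟨⟨z⁻¹, inv_mem hz⟩, ?_⟩
    have h4 : u = β * z := hyj.symm
    change u * z⁻¹ ∈ H s
    rw [h4, mul_inv_cancel_right]
    exact hβ
  choose F hF using hF
  have hu1 : Subgroup.normalClosure {u} ⊔ S = V := by rw [hu]; exact sup_eq_left.2 hSV
  have hHeq : ∀ s, H s = Subgroup.normalClosure {u * (F s : Q)} := by
    intro s
    have hle : Subgroup.normalClosure {u * (F s : Q)} ≤ H s := by
      refine Subgroup.normalClosure_le_normal ?_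
      rintro _ rfl
      exact hF s
    refine le_antisymm ?_ hle
    intro y hy
    have h3 : y ∈ ((Subgroup.normalClosure {u * (F s : Q)} ⊔ S : Subgroup Q) : Set Q) := by
      rw [hsup u hu1 (F s)]
      exact hHV s hy
    rw [Subgroup.mul_normal] at h3
    obtain ⟨κ, hκ, z, hz, rfl⟩ := h3
    have hκ1 : κ ∈ H s := hle hκ
    have h4 : z ∈ H s ⊓ S := by
      refine Subgroup.mem_inf.2 ⟨?_, hz⟩
      have hy1 : κ * z ∈ H s := hy
      have h5 := mul_mem (inv_mem hκ1) hy1
      rwa [inv_mul_cancel_left] at h5
    rw [hmeet s, Subgroup.mem_bot] at h4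
    change κ * z ∈ _
    rw [h4, mul_one]
    exact hκ
  have hinj : Function.Injective F := by
    intro s t hst
    have h1 : H s = H t := by rw [hHeq s, hHeq t, hst]
    have h2 : x * (s : Q) ∈ H s := Subgroup.subset_normalClosure rfl
    have h3 : x * (t : Q) ∈ H s := by
      rw [h1]
      exact Subgroup.subset_normalClosure rfl
    have h4 : (s : Q)⁻¹ * (t : Q) ∈ H s ⊓ S := by
      refine Subgroup.mem_inf.2 ⟨?_, mul_mem (inv_mem s.2) t.2⟩
      have h5 := mul_mem (inv_mem h2) h3
      have h6 : (x * (s : Q))⁻¹ * (x * (t : Q)) = (s : Q)⁻¹ * (t : Q) := by group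
      rwa [h6] at h5
    rw [hmeet s, Subgroup.mem_bot] at h4
    exact Subtype.ext (inv_mul_eq_one.1 h4)
  obtain ⟨s, hs⟩ := Finite.surjective_of_injective hinj 1
  apply hcon s s.2
  have h1 := hHeq s
  rw [hs] at h1
  have h2 : H s = V := by
    rw [h1, ← hu]
    simp
  exact h2

/-- **Lemma B.** A coset of a submodule of a finite cyclic module which, together with the
submodule, generates, contains a generator. -/
theorem lem_cyc : ∀ N₀ : ℕ, ∀ (Q : Type u) [Group Q] (V N : Subgroup Q), V.Normal → N.Normal →
    N ≤ V → Finite V → ∀ x v : Q, Subgroup.normalClosure {x} = V →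
    N ⊔ Subgroup.normalClosure {v} = V → Nat.card N ≤ N₀ →
    ∃ l ∈ N, Subgroup.normalClosure {v * l} = V := by
  intro N₀
  induction N₀ with
  | zero =>
    intro Q _ V N _ _ hNV hf x v _ _ hc
    have : Finite N := Finite.of_injective _ (Subgroup.inclusion_injective hNV)
    have := Nat.card_pos (α := N)
    omega
  | succ N₀ ih =>
    intro Q _ V N hVn hNn hNV hf x v hx hv hc
    by_cases hN : N = ⊥
    · refine ⟨1, one_mem _, ?_⟩
      rw [hN, bot_sup_eq] at hv
      rw [mul_one]
      exact hv
    have hNf : Finite N := Finite.of_injective _ (Subgroup.inclusion_injective hNV)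
    -- a minimal normal subgroup in `N`
    have hex : ∃ d : ℕ, ∃ S : Subgroup Q, S.Normal ∧ S ≤ N ∧ S ≠ ⊥ ∧ Nat.card S = d :=
      ⟨_, N, hNn, le_refl _, hN, rfl⟩
    classical
    obtain ⟨S, hSn, hSN, hSb, hSd⟩ := Nat.find_spec hex
    have hSf : Finite S := Finite.of_injective _ (Subgroup.inclusion_injective hSN)
    have hmin : ∀ W : Subgroup Q, W.Normal → W ≤ S → W = ⊥ ∨ W = S := by
      intro W hW hWS
      by_cases hWb : W = ⊥
      · exact Or.inl hWb
      · right
        have h1 : Nat.find hex ≤ Nat.card W := Nat.find_min' hex ⟨W, hW, hWS.trans hSN, hWb, rfl⟩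
        rw [← hSd] at h1
        exact Subgroup.eq_of_le_of_card_ge hWS h1
    set π := QuotientGroup.mk' S with hπ
    have hπs : Function.Surjective π := QuotientGroup.mk'_surjective S
    have hnc : ∀ y : Q, (Subgroup.normalClosure {y}).map π = Subgroup.normalClosure {π y} := by
      intro y
      rw [Subgroup.map_normalClosure _ _ hπs, Set.image_singleton]
    have hfV : Finite (V.map π) :=
      Finite.of_surjective _ (π.subgroupMap_surjective V)
    have hcard : Nat.card (N.map π) ≤ N₀ := by
      have h1 : Nat.card (N.map π) < Nat.card N := by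
        have hfN : Finite (N.map π) := Finite.of_surjective _ (π.subgroupMap_surjective N)
        have := Fintype.ofFinite N
        have := Fintype.ofFinite (N.map π)
        rw [Nat.card_eq_fintype_card, Nat.card_eq_fintype_card]
        refine Fintype.card_lt_of_surjective_not_injective _ (π.subgroupMap_surjective N) ?_
        intro hinj
        apply hSb
        rw [eq_bot_iff]
        intro s hs
        have h2 : (π.subgroupMap N) ⟨s, hSN hs⟩ = (π.subgroupMap N) 1 := by
          rw [map_one]
          apply Subtype.ext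
          exact (QuotientGroup.eq_one_iff s).2 hs
        have h3 := congrArg Subtype.val (hinj h2)
        exact Subgroup.mem_bot.2 h3
      omega
    obtain ⟨l', hl', hl2⟩ := ih (Q ⧸ S) (V.map π) (N.map π) (hVn.map π hπs) (hNn.map π hπs)
      (Subgroup.map_mono hNV) hfV (π x) (π v) (by rw [← hnc, hx])
      (by rw [← hnc, ← Subgroup.map_sup, hv]) hcard
    obtain ⟨l, hl, rfl⟩ := Subgroup.mem_map.1 hl'
    rw [← map_mul, ← hnc] at hl2
    have hSV : S ≤ V := hSN.trans hNV
    have h4 : Subgroup.normalClosure {v * l} ⊔ S = V := by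
      have h5 := congrArg (Subgroup.comap π) hl2
      rw [Subgroup.comap_map_eq, Subgroup.comap_map_eq, QuotientGroup.ker_mk',
        sup_eq_left.2 hSV] at h5
      exact h5
    obtain ⟨s, hs, h6⟩ := lift_nc hSV hmin hx h4
    refine ⟨l * s, mul_mem hl (hSN hs), ?_⟩
    rw [← mul_assoc]
    exact h6

end Pool.Agent.H46.NE
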