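import Pool.Agent.H46.NE.Ji

set_option autoImplicit false

/-!
# Torsion-free abelian normal subgroups in which all nontrivial submodules have finite index
(MP_fabc18_al)
-/

namespace Pool.Agent.H46.NE

open Pool.Agent.H81.Nls (Move Nielsen)
open FreeGroup (of)
open scoped commutatorElement

universe u

section pw

variable {Q : Type u} [Group Q]

/-- the `m`-th powers in an abelian normal subgroup -/
def pw (V : Subgroup Q) (hVc : ∀ x ∈ V, ∀ z ∈ V, x * z = z * x) (m : ℕ) : Subgroup Q where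
  carrier := {x | ∃ z ∈ V, z ^ m = x}
  one_mem' := ⟨1, one_mem V, one_pow m⟩
  mul_mem' := by
    rintro _ _ ⟨x, hx, rfl⟩ ⟨y, hy, rfl⟩
    exact ⟨x * y, mul_mem hx hy, (show Commute x y from hVc x hx y hy).mul_pow m⟩
  inv_mem' := by
    rintro _ ⟨x, hx, rfl⟩
    exact ⟨x⁻¹, inv_mem hx, inv_pow x m⟩

variable {V : Subgroup Q} {hVc : ∀ x ∈ V, ∀ z ∈ V, x * z = z * x}

lemma mem_pw {m : ℕ} {x : Q} : x ∈ pw V hVc m ↔ ∃ z ∈ V, z ^ m = x := Iff.rfl

lemma pw_le (m : ℕ) : pw V hVc m ≤ V := by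
  rintro _ ⟨z, hz, rfl⟩
  exact pow_mem hz m

lemma pw_normal (hVn : V.Normal) (m : ℕ) : (pw V hVc m).Normal := by
  refine ⟨?_⟩
  rintro _ ⟨z, hz, rfl⟩ g
  exact ⟨g * z * g⁻¹, hVn.conj_mem z hz g, by rw [conj_pow]⟩

lemma pw_anti {m r : ℕ} (h : m ∣ r) : pw V hVc r ≤ pw V hVc m := by
  rintro _ ⟨z, hz, rfl⟩
  obtain ⟨s, rfl⟩ := h
  exact ⟨z ^ s, pow_mem hz s, by rw [← pow_mul, mul_comm]⟩

lemma pw_mono {V' : Subgroup Q} {hVc' : ∀ x ∈ V', ∀ z ∈ V', x * z = z * x} (h : V ≤ V')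
    (m : ℕ) : pw V hVc m ≤ pw V' hVc' m := by
  rintro _ ⟨z, hz, rfl⟩
  exact ⟨z, h hz, rfl⟩

/-- subgroups of finite index contain powers -/
lemma pw_of_index {W : Subgroup Q} (h : W.relIndex V ≠ 0) :
    ∃ t : ℕ, 0 < t ∧ pw V hVc t ≤ W := by
  refine ⟨(W.relIndex V).factorial, Nat.factorial_pos _, ?_⟩
  rintro _ ⟨z, hz, rfl⟩
  exact (Subgroup.mem_inf.1 (Subgroup.pow_mem_of_relIndex_ne_zero_of_dvd h hz
    (fun m hm hm' => Nat.dvd_factorial hm hm'))).1

/-- powers of commutators with an abelian normal subgroup -/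
lemma pw_comm {V' : Subgroup Q} [hVn : V.Normal] {t : ℕ} (h : pw V hVc t ≤ V') :
    ∀ z ∈ ⁅V, (⊤ : Subgroup Q)⁆, z ^ t ∈ ⁅V', (⊤ : Subgroup Q)⁆ := by
  have hle : ⁅V, (⊤ : Subgroup Q)⁆ ≤ V := Subgroup.commutator_le_left _ _
  let E : Subgroup Q :=
    { carrier := {z | z ∈ V ∧ z ^ t ∈ ⁅V', (⊤ : Subgroup Q)⁆}
      one_mem' := ⟨one_mem V, by rw [one_pow]; exact one_mem _⟩
      mul_mem' := by
        rintro x y ⟨hx, hx'⟩ ⟨hy, hy'⟩
        refine ⟨mul_mem hx hy, ?_⟩
        rw [(show Commute x y from hVc x hx y hy).mul_pow t]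
        exact mul_mem hx' hy'
      inv_mem' := by
        rintro x ⟨hx, hx'⟩
        refine ⟨inv_mem hx, ?_⟩
        rw [inv_pow]
        exact inv_mem hx' }
  have h1 : ⁅V, (⊤ : Subgroup Q)⁆ ≤ E := by
    rw [Subgroup.commutator_le]
    intro v hv g _
    refine ⟨hle (Subgroup.commutator_mem_commutator hv trivial), ?_⟩
    have h2 : ⁅v, g⁆ ^ t = ⁅v ^ t, g⁆ := by
      have h3 : g * v⁻¹ * g⁻¹ ∈ V := hVn.conj_mem _ (inv_mem hv) g
      rw [commutatorElement_def, commutatorElement_def]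
      have h4 : v * g * v⁻¹ * g⁻¹ = v * (g * v⁻¹ * g⁻¹) := by group
      rw [h4, (show Commute v (g * v⁻¹ * g⁻¹) from hVc _ hv _ h3).mul_pow t, conj_pow]
      group
    rw [h2]
    exact Subgroup.commutator_mem_commutator (h ⟨v, hv, rfl⟩) trivial
  exact fun z hz => (h1 hz).2

end pw

variable {P : Type u} [Group P] {n k : ℕ}

/-- the elements which may be multiplied to the entries of the second block -/
lemma comm_good {V : Subgroup P} [hVn : V.Normal] (hVc : ∀ x ∈ V, ∀ z ∈ V, x * z = z * x)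
    {y : Fin k → P} (hy : Subgroup.closure (Set.range y) = ⊤)
    {v : Fin n → P} (hv : ∀ i, v i ∈ V) :
    ∀ d ∈ ⁅Subgroup.normalClosure (Set.range v), (⊤ : Subgroup P)⁆, d ∈ V ∧
      ∀ b : Fin k → P, (∀ j, (y j)⁻¹ * b j ∈ V) → ∀ i,
        Nielsen (T v b) (T v (Function.update b i (b i * d))) := by
  let E : Subgroup P :=
    { carrier := {d | d ∈ V ∧ ∀ b : Fin k → P, (∀ j, (y j)⁻¹ * b j ∈ V) → ∀ i,
        Nielsen (T v b) (T v (Function.update b i (b i * d)))}
      one_mem' := by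
        refine ⟨one_mem V, fun b _ i => ?_⟩
        rw [mul_one, Function.update_eq_self]
        exact Relation.ReflTransGen.refl
      mul_mem' := by
        rintro d e ⟨hd, hd'⟩ ⟨he, he'⟩
        refine ⟨mul_mem hd he, fun b hb i => ?_⟩
        have h2 := he' _ (upd_mem hb i hd) i
        rw [Function.update_self, Function.update_idem, mul_assoc] at h2
        exact nl_trans (hd' b hb i) h2
      inv_mem' := by
        rintro d ⟨hd, hd'⟩
        refine ⟨inv_mem hd, fun b hb i => ?_⟩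
        have h2 := hd' _ (upd_mem hb i (inv_mem hd)) i
        rw [Function.update_self, Function.update_idem, inv_mul_cancel_right,
          Function.update_eq_self] at h2
        exact nl_symm h2 }
  have hVW : Subgroup.normalClosure (Set.range v) ≤ V := by
    refine Subgroup.normalClosure_le_normal ?_
    rintro _ ⟨i, rfl⟩
    exact hv i
  -- the elements `x` with `⁅x, q⁆ ∈ E`
  let F : Subgroup P :=
    { carrier := {x | x ∈ V ∧ ∀ q, ⁅x, q⁆ ∈ E}
      one_mem' := by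
        refine ⟨one_mem V, fun q => ?_⟩
        rw [commutatorElement_one_left]
        exact one_mem E
      mul_mem' := by
        rintro x z ⟨hx, hx'⟩ ⟨hz, hz'⟩
        refine ⟨mul_mem hx hz, fun q => ?_⟩
        have h1 : ⁅x * z, q⁆ = ⁅x, q⁆ * ⁅z, q⁆ := by
          have e1 : z * (q * z⁻¹ * q⁻¹) * (q * x⁻¹ * q⁻¹) =
              (q * x⁻¹ * q⁻¹) * (z * (q * z⁻¹ * q⁻¹)) :=
            hVc _ (mul_mem hz (hVn.conj_mem _ (inv_mem hz) q)) _
              (hVn.conj_mem _ (inv_mem hx) q)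
          rw [commutatorElement_def, commutatorElement_def, commutatorElement_def]
          calc x * z * q * (x * z)⁻¹ * q⁻¹
              = x * (z * (q * z⁻¹ * q⁻¹) * (q * x⁻¹ * q⁻¹)) := by group
            _ = x * ((q * x⁻¹ * q⁻¹) * (z * (q * z⁻¹ * q⁻¹))) := by rw [e1]
            _ = x * q * x⁻¹ * q⁻¹ * (z * q * z⁻¹ * q⁻¹) := by group
        rw [h1]
        exact mul_mem (hx' q) (hz' q)
      inv_mem' := by
        rintro x ⟨hx, hx'⟩
        refine ⟨inv_mem hx, fun q => ?_⟩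
        have h1 : ⁅x⁻¹, q⁆ = ⁅x, q⁆⁻¹ := by
          have e1 : x⁻¹ * (q * x * q⁻¹) = (q * x * q⁻¹) * x⁻¹ :=
            hVc _ (inv_mem hx) _ (hVn.conj_mem _ hx q)
          rw [commutatorElement_def, commutatorElement_def]
          calc x⁻¹ * q * x⁻¹⁻¹ * q⁻¹ = x⁻¹ * (q * x * q⁻¹) := by group
            _ = (q * x * q⁻¹) * x⁻¹ := e1
            _ = (x * q * x⁻¹ * q⁻¹)⁻¹ := by group
        rw [h1]
        exact inv_mem (hx' q) }
  have hF : Subgroup.normalClosure (Set.range v) ≤ F := by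
    rw [Subgroup.normalClosure, Subgroup.closure_le]
    intro x hx
    obtain ⟨a, ⟨i, rfl⟩, hax⟩ := Group.mem_conjugatesOfSet_iff.1 hx
    obtain ⟨g, rfl⟩ := isConj_iff.1 hax
    refine ⟨hVn.conj_mem _ (hv i) g, fun q => ?_⟩
    have h1 : ⁅g * v i * g⁻¹, q⁆ =
        ((q⁻¹)⁻¹ * (g * v i * g⁻¹) * q⁻¹ * (g * v i * g⁻¹)⁻¹)⁻¹ := by
      rw [commutatorElement_def]
      group
    rw [h1]
    refine inv_mem ⟨?_, fun b hb i' => nl_elem hVc hy (hv i) q⁻¹ g b hb i'⟩
    have h2 := hVn.conj_mem _ (hVn.conj_mem _ (hv i) g) (q⁻¹)⁻¹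
    rw [inv_inv (q⁻¹)] at h2
    exact mul_mem h2 (inv_mem (hVn.conj_mem _ (hv i) g))
  have hE : ⁅Subgroup.normalClosure (Set.range v), (⊤ : Subgroup P)⁆ ≤ E := by
    rw [Subgroup.commutator_le]
    intro x hx q _
    exact (hF hx).2 q
  exact fun d hd => hE hd

/-- if the differences lie in the commutators, the tuple is standard -/
lemma std_of_comm {V : Subgroup P} [hVn : V.Normal] (hVc : ∀ x ∈ V, ∀ z ∈ V, x * z = z * x)
    {y b : Fin k → P} (hy : Subgroup.closure (Set.range y) = ⊤)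
    {v : Fin n → P} (hv : ∀ i, v i ∈ V)
    (hb : ∀ j, (y j)⁻¹ * b j ∈ ⁅Subgroup.normalClosure (Set.range v), (⊤ : Subgroup P)⁆) :
    Nielsen (T v b) (T (fun _ => 1) y) := by
  refine nl_trans ?_ (nl_full hy v _)
  refine nl_entries hb ?_
  intro b hb i z hz
  exact (comm_good hVc hy hv z hz).2 b (fun j => (comm_good hVc hy hv _ (hb j)).1) i

/-- an entry of the first block is multiplied by an element generated by the second block -/
lemma nl_inl_mul {v : Fin n → P} {b : Fin k → P} {l : P}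
    (hl : l ∈ Subgroup.closure (Set.range b)) (i : Fin n) :
    Nielsen (T v b) (T (Function.update v i (v i * l)) b) := by
  have h1 : ((1, l) : FreeGroup (Fin n) × P) ∈
      Subgroup.closure (T v b '' {x | x ≠ Sum.inl i}) := by
    have h2 : Subgroup.closure (Set.range b) ≤
        (Subgroup.closure (T v b '' {x | x ≠ Sum.inl i})).comap
          (MonoidHom.inr (FreeGroup (Fin n)) P) := by
      rw [Subgroup.closure_le]
      rintro _ ⟨j, rfl⟩
      exact Subgroup.subset_closure ⟨Sum.inr j, by simp, rfl⟩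
    exact h2 hl
  have h2 := nl_mul h1
  have h3 : T v b (Sum.inl i) * (1, l) = (of i, v i * l) := by simp [T]
  rw [h3, ← T_update_inl] at h2
  exact h2

/-- both blocks together generate -/
lemma gen_both {v : Fin n → P} {b : Fin k → P}
    (hg : Subgroup.closure (Set.range (T v b)) = ⊤) :
    Subgroup.closure (Set.range v ∪ Set.range b) = ⊤ := by
  have h1 : Subgroup.closure (Set.range (T v b)) ≤
      (Subgroup.closure (Set.range v ∪ Set.range b)).comap
        (MonoidHom.snd (FreeGroup (Fin n)) P) := by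
    rw [Subgroup.closure_le]
    rintro _ ⟨x, rfl⟩
    rcases x with i | j
    · exact Subgroup.subset_closure (Or.inl ⟨i, rfl⟩)
    · exact Subgroup.subset_closure (Or.inr ⟨j, rfl⟩)
  rw [eq_top_iff]
  intro x _
  have : ((1, x) : FreeGroup (Fin n) × P) ∈ Subgroup.closure (Set.range (T v b)) := by
    rw [hg]; trivial
  exact h1 this

end Pool.Agent.H46.NE
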