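import Pool.Agent.H46.NE.Ji2

set_option autoImplicit false

/-!
# The step for torsion-free factors (MP_fabc18_al)
-/

namespace Pool.Agent.H46.NE

open Pool.Agent.H81.Nls (Move Nielsen)
open FreeGroup (of)
open scoped commutatorElement

universe u

variable {P : Type u} [Group P] {n k : ℕ}

/-- a finite abelian factor -/
lemma fin_factor (i0 : Fin n) {W : Subgroup P} (hW : W.Normal) {y : Fin k → P}
    (hy : Subgroup.closure (Set.range y) = ⊤) : ∀ N : ℕ, ∀ V : Subgroup P, V.Normal →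
    V ≤ commutator P → W ≤ V → ⁅V, V⁆ ≤ W → W.relIndex V ≠ 0 → W.relIndex V ≤ N →
    ∀ (a : Fin n → P) (b : Fin k → P), (∀ i, a i ∈ V) → (∀ j, (y j)⁻¹ * b j ∈ V) →
      Subgroup.closure (Set.range (T a b)) = ⊤ →
      ∃ (a' : Fin n → P) (b' : Fin k → P), Nielsen (T a b) (T a' b') ∧ (∀ i, a' i ∈ W) ∧
        ∀ j, (y j)⁻¹ * b' j ∈ W := by
  intro N
  induction N with
  | zero =>
    intro V _ _ _ _ h0 h1
    exact absurd (Nat.le_zero.1 h1) h0
  | succ N ih =>
    intro V hVn hVP hWV hc h0 h1 a b ha hb hg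
    by_cases hVW : V ≤ W
    · exact ⟨a, b, Relation.ReflTransGen.refl, fun i => hVW (ha i), fun j => hVW (hb j)⟩
    have hex : ∃ d : ℕ, ∃ X : Subgroup P, X.Normal ∧ W ≤ X ∧ X ≤ V ∧ ¬ V ≤ X ∧
        X.relIndex V = d := ⟨_, W, hW, le_refl _, hWV, hVW, rfl⟩
    classical
    obtain ⟨X, hXn, hWX, hXV, hVX, hXd⟩ := Nat.find_spec hex
    have hmul := Subgroup.relIndex_mul_relIndex W X V hWX hXV
    have hX0 : X.relIndex V ≠ 0 := by
      intro h
      rw [h, mul_zero] at hmul
      exact h0 hmul.symm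
    have hX1 : X.relIndex V ≠ 1 := fun h => hVX (Subgroup.relIndex_eq_one.1 h)
    have hW0 : W.relIndex X ≠ 0 := by
      intro h
      rw [h, zero_mul] at hmul
      exact h0 hmul.symm
    obtain ⟨a1, b1, h2, h3, h4⟩ := chain_step i0 hVn hVP hXn hXV
      (Or.inr ⟨hc.trans hWX, hX0, by
        intro Y hY hXY hYV
        by_cases hVY : V ≤ Y
        · exact Or.inr (le_antisymm hYV hVY)
        · left
          have h2 : Nat.find hex ≤ Y.relIndex V :=
            Nat.find_min' hex ⟨Y, hY, hWX.trans hXY, hYV, hVY, rfl⟩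
          have h3 := Subgroup.relIndex_mul_relIndex X Y V hXY hYV
          rw [← hXd] at h2
          have hY0 : Y.relIndex V ≠ 0 := by
            intro h
            rw [h, mul_zero] at h3
            exact hX0 h3.symm
          have h4 : X.relIndex Y = 1 := by
            have h5 : X.relIndex Y ≠ 0 := by
              intro h
              rw [h, zero_mul] at h3
              exact hX0 h3.symm
            rw [← h3] at h2
            have h6 : X.relIndex Y * Y.relIndex V ≤ 1 * Y.relIndex V := by rw [one_mul]; exact h2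
            have h7 := Nat.le_of_mul_le_mul_right h6 (Nat.pos_of_ne_zero hY0)
            omega
          exact le_antisymm (Subgroup.relIndex_eq_one.1 h4) hXY⟩) hy hb ha hg
    obtain ⟨a2, b2, h5, h6, h7⟩ := ih X hXn (hXV.trans hVP) hWX
      ((Subgroup.commutator_mono hXV hXV).trans hc) hW0 (by
        have h2 : 2 ≤ X.relIndex V := by omega
        have h3 : W.relIndex X * 2 ≤ W.relIndex V := by
          rw [← hmul]
          exact Nat.mul_le_mul_left _ h2
        omega) a1 b1 h3 h4 (nl_gen h2 hg)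
    exact ⟨a2, b2, nl_trans h2 h5, h6, h7⟩

/-- the core of the step -/
lemma ji_core {i1 i2 : Fin n} (hi : i1 ≠ i2) {V : Subgroup P} [hVn : V.Normal]
    (hVc : ∀ x ∈ V, ∀ z ∈ V, x * z = z * x)
    (hji : ∀ W : Subgroup P, W.Normal → W ≤ V → W ≠ ⊥ → W.relIndex V ≠ 0)
    {u : P} {q : ℕ} (hu2 : ∀ z ∈ V, z ^ q ≠ u) (huV : u ∈ V)
    {t c m : ℕ} (hm : m = q * t * (t * c)) (htu : pw V hVc t ≤ Subgroup.normalClosure {u})
    (hc : pw V hVc c ≤ ⁅V, (⊤ : Subgroup P)⁆)
    {y b : Fin k → P} (hy : Subgroup.closure (Set.range y) = ⊤)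
    (hb : ∀ j, (y j)⁻¹ * b j ∈ pw V hVc m)
    {v : Fin n → P} (hv : ∀ i, v i ∈ V)
    (hg : Subgroup.closure (Set.range (T v b)) = ⊤) :
    Nielsen (T v b) (T (fun _ => 1) y) := by
  have hpn : (pw V hVc m).Normal := pw_normal hVn m
  set A := Subgroup.closure (Set.range b) with hA
  have hdec := decomp hy hb
  let L : Subgroup P := A ⊓ V
  have hLV : L ≤ V := inf_le_right
  have hLA : L ≤ A := inf_le_left
  have hLn : L.Normal := by
    refine ⟨fun x hx g => ?_⟩
    have hx1 := Subgroup.mem_inf.1 hx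
    obtain ⟨β, hβ, z, hz, rfl⟩ := hdec g
    have h1 : β * z * x * (β * z)⁻¹ = β * x * β⁻¹ := by
      rw [mul_assoc β z, hVc z (pw_le m hz) _ hx1.2]
      group
    rw [h1]
    exact Subgroup.mem_inf.2 ⟨mul_mem (mul_mem hβ hx1.1) (inv_mem hβ), hVn.conj_mem _ hx1.2 _⟩
  -- the first entry
  obtain ⟨l1, hl1, z1, hz1, h1⟩ : ∃ l ∈ L, ∃ z ∈ pw V hVc m, (v i1)⁻¹ * u = l * z := by
    obtain ⟨β, hβ, z, hz, h⟩ := hdec ((v i1)⁻¹ * u)
    refine ⟨β, Subgroup.mem_inf.2 ⟨hβ, ?_⟩, z, hz, h⟩
    have h2 : β = (v i1)⁻¹ * u * z⁻¹ := by rw [h, mul_inv_cancel_right]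
    rw [h2]
    exact mul_mem (mul_mem (inv_mem (hv i1)) huV) (inv_mem (pw_le m hz))
  set va : Fin n → P := Function.update v i1 (v i1 * l1) with hva
  have hN1 : Nielsen (T v b) (T va b) := nl_inl_mul (hLA hl1) i1
  have hvaV : ∀ i, va i ∈ V := by
    intro i
    by_cases h : i = i1
    · subst h
      rw [hva, Function.update_self]
      exact mul_mem (hv i) (hLV hl1)
    · rw [hva, Function.update_of_ne h]
      exact hv i
  have hva1 : u = va i1 * z1 := by
    rw [hva, Function.update_self, mul_assoc, ← h1]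
    group
  have hva1' : va i1 ≠ 1 := by
    intro h
    rw [h, one_mul] at hva1
    obtain ⟨s, hs, hs'⟩ := hz1
    refine hu2 (s ^ (t * (t * c))) (pow_mem hs _) ?_
    rw [hva1, ← hs', ← pow_mul, hm]
    congr 1
    ring
  set K := Subgroup.normalClosure (va '' {i | i ≠ i2}) with hK
  have hKV : K ≤ V := by
    refine Subgroup.normalClosure_le_normal ?_
    rintro _ ⟨i, _, rfl⟩
    exact hvaV i
  have hmemK : ∀ i, i ≠ i2 → va i ∈ K := fun i h =>
    Subgroup.subset_normalClosure ⟨i, h, rfl⟩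
  have hKb : K ≠ ⊥ := by
    intro h
    have h2 := hmemK i1 hi
    rw [h, Subgroup.mem_bot] at h2
    exact hva1' h2
  have hK0 : K.relIndex V ≠ 0 := hji K Subgroup.normalClosure_normal hKV hKb
  -- the isolator
  let V1 : Subgroup P :=
    { carrier := {x | x ∈ V ∧ ∃ j : ℕ, x ^ (m ^ j) ∈ K}
      one_mem' := ⟨one_mem V, 0, by rw [one_pow]; exact one_mem K⟩
      mul_mem' := by
        rintro x z ⟨hx, i, hx'⟩ ⟨hz, j, hz'⟩
        refine ⟨mul_mem hx hz, i + j, ?_⟩
        rw [(show Commute x z from hVc x hx z hz).mul_pow, pow_add, pow_mul x, mul_comm (m ^ i),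
          pow_mul z]
        exact mul_mem (pow_mem hx' _) (pow_mem hz' _)
      inv_mem' := by
        rintro x ⟨hx, i, hx'⟩
        refine ⟨inv_mem hx, i, ?_⟩
        rw [inv_pow]
        exact inv_mem hx' }
  have hV1n : V1.Normal := by
    refine ⟨?_⟩
    rintro x ⟨hx, i, hx'⟩ g
    refine ⟨hVn.conj_mem x hx g, i, ?_⟩
    rw [conj_pow]
    exact Subgroup.normalClosure_normal.conj_mem _ hx' g
  have hV1V : V1 ≤ V := fun x hx => hx.1
  have hKV1 : K ≤ V1 := fun x hx => ⟨hKV hx, 0, by rw [pow_zero, pow_one]; exact hx⟩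
  have hV10 : V1.relIndex V ≠ 0 := by
    intro h
    have h2 := Subgroup.relIndex_dvd_of_le_left V hKV1
    rw [h, zero_dvd_iff] at h2
    exact hK0 h2
  have hroot : ∀ x ∈ V, x ^ t ∈ V1 → x ∈ V1 := by
    rintro x hx ⟨_, j, hj⟩
    refine ⟨hx, j + 1, ?_⟩
    have h2 : x ^ (m ^ (j + 1)) = ((x ^ t) ^ (m ^ j)) ^ (q * (t * c)) := by
      rw [← pow_mul, ← pow_mul, pow_succ]
      congr 1
      rw [hm]
      ring
    rw [h2]
    exact pow_mem hj _
  set π := QuotientGroup.mk' V1 with hπ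
  have hπs : Function.Surjective π := QuotientGroup.mk'_surjective V1
  have hπ1 : ∀ x, π x = 1 ↔ x ∈ V1 := fun x => QuotientGroup.eq_one_iff x
  have hfin : Finite (V.map π) := finite_map hV10
  have hncm : ∀ y : P, (Subgroup.normalClosure {y}).map π = Subgroup.normalClosure {π y} := by
    intro y
    rw [Subgroup.map_normalClosure _ _ hπs, Set.image_singleton]
  -- powers in the quotient
  have hpow : ∀ x ∈ V, ∃ z ∈ V, (z ^ t)⁻¹ * x ∈ V1 := by
    have hinj : Function.Injective (fun z : V.map π => z ^ t) := by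
      intro z w hzw
      obtain ⟨_, ⟨x, hx, rfl⟩⟩ := z
      obtain ⟨_, ⟨x', hx', rfl⟩⟩ := w
      have h2 : (π x) ^ t = (π x') ^ t := congrArg Subtype.val hzw
      apply Subtype.ext
      change π x = π x'
      have hcomm : Commute x'⁻¹ x := hVc _ (inv_mem hx') _ hx
      have h3 : (x'⁻¹ * x) ^ t ∈ V1 := by
        rw [hcomm.mul_pow, ← hπ1, map_mul, map_pow, map_pow, map_inv, inv_pow, h2,
          inv_mul_cancel]
      have h4 := hroot _ (mul_mem (inv_mem hx') hx) h3
      have h5 := (hπ1 _).2 h4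
      rw [map_mul, map_inv, inv_mul_eq_one] at h5
      exact h5.symm
    intro x hx
    obtain ⟨⟨_, ⟨z, hz, rfl⟩⟩, h2⟩ := Finite.surjective_of_injective hinj ⟨π x, ⟨x, hx, rfl⟩⟩
    refine ⟨z, hz, ?_⟩
    have h3 : (π z) ^ t = π x := congrArg Subtype.val h2
    rw [← hπ1, map_mul, map_inv, map_pow, h3, inv_mul_cancel]
  have hcyc : Subgroup.normalClosure {π u} = V.map π := by
    rw [← hncm]
    apply le_antisymm
    · refine Subgroup.map_mono (Subgroup.normalClosure_le_normal ?_)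
      rintro _ rfl
      exact huV
    · rintro _ ⟨x, hx, rfl⟩
      obtain ⟨z, hz, h2⟩ := hpow x hx
      have h3 : π x = π (z ^ t) := by
        have h4 := (hπ1 _).2 h2
        rw [map_mul, map_inv, inv_mul_eq_one] at h4
        exact h4.symm
      rw [h3]
      exact Subgroup.mem_map_of_mem π (htu ⟨z, hz, rfl⟩)
  have hgen : L.map π ⊔ Subgroup.normalClosure {π (va i2)} = V.map π := by
    rw [← hncm, ← Subgroup.map_sup]
    have hle : L ⊔ Subgroup.normalClosure {va i2} ≤ V := by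
      refine sup_le hLV (Subgroup.normalClosure_le_normal ?_)
      rintro _ rfl
      exact hvaV i2
    apply le_antisymm (Subgroup.map_mono hle)
    set X := L ⊔ Subgroup.normalClosure {va i2} ⊔ V1 with hX
    have hXV : X ≤ V := sup_le hle hV1V
    have h2 : A ⊔ X = ⊤ := by
      rw [eq_top_iff, ← gen_both (nl_gen hN1 hg), Subgroup.closure_le]
      rintro _ (⟨i, rfl⟩ | ⟨j, rfl⟩)
      · apply Subgroup.mem_sup_right
        by_cases h : i = i2
        · subst h
          exact Subgroup.mem_sup_left (Subgroup.mem_sup_right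
            (Subgroup.subset_normalClosure rfl))
        · exact Subgroup.mem_sup_right (hKV1 (hmemK i h))
      · exact Subgroup.mem_sup_left (Subgroup.subset_closure ⟨j, rfl⟩)
    have h3 : V ≤ X := by
      intro x hx
      have h4 : x ∈ ((A ⊔ X : Subgroup P) : Set P) := by rw [h2]; trivial
      rw [Subgroup.mul_normal] at h4
      obtain ⟨β, hβ, z, hz, rfl⟩ := h4
      have hz1 : z ∈ X := hz
      have hβV : β ∈ V := by
        have h5 : β = β * z * z⁻¹ := by group
        rw [h5]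
        exact mul_mem hx (inv_mem (hXV hz1))
      have hβX : β ∈ X := Subgroup.mem_sup_left (Subgroup.mem_sup_left
        (Subgroup.mem_inf.2 ⟨hβ, hβV⟩))
      exact mul_mem hβX hz1
    have h4 : V.map π ≤ X.map π := Subgroup.map_mono h3
    refine h4.trans ?_
    rw [hX, Subgroup.map_sup _ V1]
    refine sup_le (le_refl _) ?_
    rintro _ ⟨x, hx, rfl⟩
    rw [(hπ1 x).2 hx]
    exact one_mem _
  obtain ⟨l', hl', hl2⟩ := lem_cyc _ (P ⧸ V1) (V.map π) (L.map π) (hVn.map π hπs)
    (hLn.map π hπs) (Subgroup.map_mono hLV) hfin (π u) (π (va i2)) hcyc hgen (le_refl _)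
  obtain ⟨l2, hl2L, rfl⟩ := Subgroup.mem_map.1 hl'
  rw [← map_mul, ← hncm] at hl2
  set vb : Fin n → P := Function.update va i2 (va i2 * l2) with hvb
  have hN2 : Nielsen (T va b) (T vb b) := nl_inl_mul (hLA hl2L) i2
  have hvbV : ∀ i, vb i ∈ V := by
    intro i
    by_cases h : i = i2
    · subst h
      rw [hvb, Function.update_self]
      exact mul_mem (hvaV i) (hLV hl2L)
    · rw [hvb, Function.update_of_ne h]
      exact hvaV i
  set V' := Subgroup.normalClosure (Set.range vb) with hV'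
  have hV'V : V' ≤ V := by
    refine Subgroup.normalClosure_le_normal ?_
    rintro _ ⟨i, rfl⟩
    exact hvbV i
  have hKV' : K ≤ V' := by
    refine Subgroup.normalClosure_le_normal ?_
    rintro _ ⟨i, hi', rfl⟩
    refine Subgroup.subset_normalClosure ⟨i, ?_⟩
    rw [hvb, Function.update_of_ne hi']
  have hv2V' : Subgroup.normalClosure {va i2 * l2} ≤ V' := by
    refine Subgroup.normalClosure_le_normal ?_
    rintro _ rfl
    refine Subgroup.subset_normalClosure ⟨i2, ?_⟩
    rw [hvb, Function.update_self]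
  have hV'0 : V'.relIndex V ≠ 0 := by
    intro h
    have h2 := Subgroup.relIndex_dvd_of_le_left V hKV'
    rw [h, zero_dvd_iff] at h2
    exact hK0 h2
  -- every element of `V` has a power in `V'`
  have htor : ∀ x ∈ V, ∃ j : ℕ, x ^ (m ^ j) ∈ V' := by
    intro x hx
    have h2 : π x ∈ (Subgroup.normalClosure {va i2 * l2}).map π := by
      rw [hl2]
      exact Subgroup.mem_map_of_mem π hx
    obtain ⟨a, ha, hax⟩ := Subgroup.mem_map.1 h2
    have h3 : a⁻¹ * x ∈ V1 := by
      rw [← hπ1, map_mul, map_inv, hax, inv_mul_cancel]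
    obtain ⟨h4, j, hj⟩ := h3
    refine ⟨j, ?_⟩
    have haV : a ∈ V := hV'V (hv2V' ha)
    have h5 : x = a * (a⁻¹ * x) := by group
    rw [h5, (show Commute a (a⁻¹ * x) from hVc _ haV _ h4).mul_pow]
    exact mul_mem (pow_mem (hv2V' ha) _) (hKV' hj)
  have hpt : pw V hVc t ≤ V' := by
    have hV'n : V'.Normal := Subgroup.normalClosure_normal
    set ρ := QuotientGroup.mk' V' with hρ
    have hρ1 : ∀ x, ρ x = 1 ↔ x ∈ V' := fun x => QuotientGroup.eq_one_iff x
    have hfin' : Finite (V.map ρ) := finite_map hV'0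
    have hfB : Finite ((pw V hVc t).map ρ) :=
      Finite.of_injective _ (Subgroup.inclusion_injective (Subgroup.map_mono (pw_le t)))
    have hunc : Subgroup.normalClosure {u} ≤ V' ⊔ pw V hVc m := by
      refine Subgroup.normalClosure_le_normal ?_
      intro w hw
      rw [Set.mem_singleton_iff.1 hw, hva1]
      exact mul_mem (Subgroup.mem_sup_left (hKV' (hmemK i1 hi))) (Subgroup.mem_sup_right hz1)
    let φ : (pw V hVc t).map ρ → (pw V hVc t).map ρ := fun z => z ^ (q * (t * c))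
    have hsurj : Function.Surjective φ := by
      rintro ⟨_, ⟨x, hx, rfl⟩⟩
      have h2 : x ∈ ((V' ⊔ pw V hVc m : Subgroup P) : Set P) := hunc (htu hx)
      rw [Subgroup.mul_normal] at h2
      obtain ⟨a, ha, z, ⟨s, hs, rfl⟩, rfl⟩ := h2
      refine ⟨⟨ρ (s ^ t), ⟨s ^ t, ⟨s, hs, rfl⟩, rfl⟩⟩, ?_⟩
      apply Subtype.ext
      change (ρ (s ^ t)) ^ (q * (t * c)) = ρ (a * s ^ m)
      rw [map_mul, (hρ1 a).2 ha, one_mul, ← map_pow, ← pow_mul, hm]
      congr 2
      ring
    have hinj : Function.Injective φ := Finite.injective_iff_surjective.2 hsurj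
    have hφ1 : ∀ z : (pw V hVc t).map ρ, z ^ (q * (t * c)) = 1 → z = 1 := by
      intro z hz
      apply hinj
      change z ^ (q * (t * c)) = 1 ^ (q * (t * c))
      rw [hz, one_pow]
    have hφj : ∀ (j : ℕ) (z : (pw V hVc t).map ρ), z ^ ((q * (t * c)) ^ j) = 1 → z = 1 := by
      intro j
      induction j with
      | zero =>
        intro z hz
        rwa [pow_zero, pow_one] at hz
      | succ j ih =>
        intro z hz
        rw [pow_succ, pow_mul] at hz
        exact ih z (hφ1 _ hz)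
    rintro _ ⟨x, hx, rfl⟩
    obtain ⟨j, hj⟩ := htor x hx
    have h2 := hφj (2 * j) ⟨ρ (x ^ t), ⟨x ^ t, ⟨x, hx, rfl⟩, rfl⟩⟩ (by
      apply Subtype.ext
      change (ρ (x ^ t)) ^ ((q * (t * c)) ^ (2 * j)) = 1
      have h3 : (x ^ t) ^ ((q * (t * c)) ^ (2 * j)) = (x ^ (m ^ j)) ^ (t * (q * c) ^ j) := by
        rw [← pow_mul, ← pow_mul]
        congr 1
        rw [pow_mul, ← mul_assoc (m ^ j), mul_comm (m ^ j) t, mul_assoc t, ← mul_pow]
        congr 2
        rw [hm]
        ring
      rw [← map_pow, h3, hρ1]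
      exact pow_mem hj _)
    exact (hρ1 _).1 (congrArg Subtype.val h2)
  refine nl_trans hN1 (nl_trans hN2 (std_of_comm hVc hy hvbV ?_))
  intro j
  obtain ⟨s, hs, hs'⟩ := hb j
  rw [← hs']
  have h2 : s ^ m = ((s ^ c) ^ t) ^ (q * t) := by
    rw [← pow_mul, ← pow_mul, hm]
    congr 1
    ring
  rw [h2]
  exact pow_mem (pw_comm (hVc := hVc) hpt _ (hc ⟨s, hs, rfl⟩)) _

/-- **The step for torsion-free factors** (two entries in the first block). -/
theorem step_ji {i1 i2 : Fin n} (hi : i1 ≠ i2) {V : Subgroup P} [hVn : V.Normal]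
    (hVP : V ≤ commutator P)
    (hVc : ∀ x ∈ V, ∀ z ∈ V, x * z = z * x)
    (htf : ∀ z ∈ V, ∀ m : ℕ, 0 < m → z ^ m = 1 → z = 1)
    (hji : ∀ W : Subgroup P, W.Normal → W ≤ V → W ≠ ⊥ → W.relIndex V ≠ 0)
    {u : P} (huV : u ∈ V) {q : ℕ} (hq : 0 < q) (hu2 : ∀ z ∈ V, z ^ q ≠ u)
    {y b : Fin k → P} (hy : Subgroup.closure (Set.range y) = ⊤)
    (hb : ∀ j, (y j)⁻¹ * b j ∈ V)
    {v : Fin n → P} (hv : ∀ i, v i ∈ V)
    (hg : Subgroup.closure (Set.range (T v b)) = ⊤) :
    Nielsen (T v b) (T (fun _ => 1) y) := by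
  by_cases hVz : V ≤ Subgroup.center P
  · exact step_central i1 hVz hVP hy hb v
  have hu1 : u ≠ 1 := fun h => hu2 1 (one_mem V) (by rw [h, one_pow])
  have huc : Subgroup.normalClosure {u} ≤ V := by
    refine Subgroup.normalClosure_le_normal ?_
    rintro _ rfl
    exact huV
  obtain ⟨t, ht, htu⟩ := pw_of_index (hVc := hVc) (hji _ Subgroup.normalClosure_normal huc (by
    intro h
    have h1 : u ∈ Subgroup.normalClosure {u} := Subgroup.subset_normalClosure rfl
    rw [h, Subgroup.mem_bot] at h1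
    exact hu1 h1))
  have hcn : (⁅V, (⊤ : Subgroup P)⁆).Normal := Subgroup.commutator_normal _ _
  obtain ⟨c, hc, hcV⟩ := pw_of_index (hVc := hVc) (hji _ hcn (Subgroup.commutator_le_left _ _) (by
    intro h
    exact hVz (Subgroup.commutator_top_right_eq_bot_iff_le_center.1 h)))
  set m := q * t * (t * c) with hm
  have hm0 : 0 < m := by positivity
  have hpn : (pw V hVc m).Normal := pw_normal hVn m
  have hp0 : (pw V hVc m).relIndex V ≠ 0 := by
    refine hji _ hpn (pw_le m) ?_
    intro h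
    have h1 : u ^ m ∈ pw V hVc m := ⟨u, huV, rfl⟩
    rw [h, Subgroup.mem_bot] at h1
    exact hu1 (htf u huV m hm0 h1)
  have hVV : ⁅V, V⁆ ≤ pw V hVc m := by
    rw [Subgroup.commutator_le]
    intro x hx z hz
    rw [commutatorElement_eq_one_iff_mul_comm.2 (hVc x hx z hz)]
    exact one_mem _
  obtain ⟨v', b', h1, h2, h3⟩ := fin_factor i1 hpn hy _ V hVn hVP (pw_le m) hVV hp0 (le_refl _)
    v b hv hb hg
  refine nl_trans h1 (ji_core hi hVc hji hu2 huV hm htu hcV hy h3 (fun i => pw_le m (h2 i))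
    (nl_gen h1 hg))

end Pool.Agent.H46.NE
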