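import Pool.Agent.H46.NE.ACq

set_option autoImplicit false

/-!
# Knowledge states: a groupoid of constraints with a class of relators (MP_fabc18_al)

`R a g b` says that the vertex `a` is identified with the vertex `b` with voltage `g`. Adding a
constraint between connected vertices gives a new relator, between vertices which are not
connected it only enlarges the groupoid.
-/

namespace Pool.Agent.H46.NE

variable {V P : Type*} [Group P]

/-- the groupoid generated by `R` and one constraint, closed under conjugation of loops -/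
inductive Gen (R : V → P → V → Prop) (v : V) (g : P) (w : V) : V → P → V → Prop
  | base {a h b} : R a h b → Gen R v g w a h b
  | new : Gen R v g w v g w
  | one (a) : Gen R v g w a 1 a
  | inv {a h b} : Gen R v g w a h b → Gen R v g w b h⁻¹ a
  | mul {a h b k c} : Gen R v g w a h b → Gen R v g w b k c → Gen R v g w a (h * k) c
  | conj {a h} (b k) : Gen R v g w a h a → Gen R v g w b (k * h * k⁻¹) b

variable (V P) in
/-- knowledge: known constraints and the class of the relators -/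
@[ext]
structure KS where
  R : V → P → V → Prop
  lam : ACq P

/-- `R` is a groupoid all of whose loops are the normal closure of the relators -/
structure KS.Valid (x : KS V P) : Prop where
  one : ∀ a, x.R a 1 a
  inv : ∀ {a g b}, x.R a g b → x.R b g⁻¹ a
  mul : ∀ {a g b h c}, x.R a g b → x.R b h c → x.R a (g * h) c
  loop : ∀ a g, x.R a g a ↔ g ∈ x.lam.nc

open Classical in
/-- add a constraint -/
noncomputable def KS.add (x : KS V P) (a : V) (g : P) (b : V) : KS V P :=
  ⟨Gen x.R a g b, if h : ∃ g0, x.R a g0 b then x.lam.cons (g * h.choose⁻¹) else x.lam⟩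

lemma KS.add_R (x : KS V P) (a : V) (g : P) (b : V) : (x.add a g b).R = Gen x.R a g b := rfl

lemma KS.mono (x : KS V P) (v : V) (g : P) (w : V) {a : V} {h : P} {b : V} (H : x.R a h b) :
    (x.add v g w).R a h b := Gen.base H

lemma KS.mem (x : KS V P) (v : V) (g : P) (w : V) : (x.add v g w).R v g w := Gen.new

section gen

variable {x : KS V P}

/-- a generated groupoid is contained in every closed relation -/
lemma Gen.le {R S : V → P → V → Prop} {v : V} {g : P} {w : V}
    (hR : ∀ {a h b}, R a h b → S a h b) (hnew : S v g w) (h1 : ∀ a, S a 1 a)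
    (hinv : ∀ {a h b}, S a h b → S b h⁻¹ a)
    (hmul : ∀ {a h b k c}, S a h b → S b k c → S a (h * k) c)
    (hconj : ∀ {a h} (b : V) (k : P), S a h a → S b (k * h * k⁻¹) b)
    {a : V} {h : P} {b : V} (H : Gen R v g w a h b) : S a h b := by
  induction H with
  | base h => exact hR h
  | new => exact hnew
  | one a => exact h1 a
  | inv _ ih => exact hinv ih
  | mul _ _ ih1 ih2 => exact hmul ih1 ih2
  | conj b k _ ih => exact hconj b k ih

lemma KS.Valid.conj (hx : x.Valid) {a : V} {h : P} (b : V) (k : P) (H : x.R a h a) :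
    x.R b (k * h * k⁻¹) b :=
  (hx.loop b _).2 ((ACq.nc_normal _).conj_mem _ ((hx.loop a h).1 H) k)

/-- two elements between the same vertices differ by a loop -/
lemma KS.Valid.diff (hx : x.Valid) {a b : V} {g h : P} (hg : x.R a g b) (hh : x.R a h b) :
    g * h⁻¹ ∈ x.lam.nc := (hx.loop a _).1 (hx.mul hg (hx.inv hh))

lemma KS.Valid.shift (hx : x.Valid) {a b : V} {g k : P} (hg : x.R a g b)
    (hk : k ∈ x.lam.nc) : x.R a (k * g) b := hx.mul ((hx.loop a k).2 hk) hg

lemma KS.lam_add_of_conn (hx : x.Valid) {a b : V} {g0 : P} (h0 : x.R a g0 b) (g : P) :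
    (x.add a g b).lam = x.lam.cons (g * g0⁻¹) := by
  have h : ∃ g0, x.R a g0 b := ⟨g0, h0⟩
  have h1 : (x.add a g b).lam = x.lam.cons (g * h.choose⁻¹) := by
    simp only [KS.add]
    rw [dif_pos h]
  rw [h1]
  have h2 := hx.diff h0 h.choose_spec
  have h3 : g * h.choose⁻¹ = (g * g0⁻¹) * (g0 * h.choose⁻¹) := by group
  rw [h3]
  exact ACq.cons_mul h2 _

lemma KS.lam_add_of_not {a b : V} (h0 : ¬ ∃ g0, x.R a g0 b) (g : P) :
    (x.add a g b).lam = x.lam := by
  simp only [KS.add]
  rw [dif_neg h0]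

/-- the explicit form of the groupoid, connected case -/
lemma KS.R_add_of_conn (hx : x.Valid) {v w : V} {g0 : P} (h0 : x.R v g0 w) (g : P)
    (a : V) (h : P) (b : V) :
    (x.add v g w).R a h b ↔
      ∃ h0, x.R a h0 b ∧ h * h0⁻¹ ∈ (x.lam.cons (g * g0⁻¹)).nc := by
  set N := (x.lam.cons (g * g0⁻¹)).nc with hN
  have hle : x.lam.nc ≤ N := ACq.nc_le_cons _ _
  have hNn : N.Normal := ACq.nc_normal _
  constructor
  · intro H
    refine Gen.le (S := fun a h b => ∃ h0, x.R a h0 b ∧ h * h0⁻¹ ∈ N) ?_ ?_ ?_ ?_ ?_ ?_ H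
    · intro a h b hh
      exact ⟨h, hh, by simp [N.one_mem]⟩
    · exact ⟨g0, h0, ACq.mem_nc_cons _ _⟩
    · intro a
      exact ⟨1, hx.one a, by simp [N.one_mem]⟩
    · rintro a h b ⟨h0, h1, h2⟩
      refine ⟨h0⁻¹, hx.inv h1, ?_⟩
      have h3 := hNn.conj_mem _ (inv_mem h2) h⁻¹
      have h4 : h⁻¹ * (h * h0⁻¹)⁻¹ * h⁻¹⁻¹ = h⁻¹ * h0⁻¹⁻¹ := by group
      rw [h4] at h3
      exact h3
    · rintro a h b k c ⟨h0, h1, h2⟩ ⟨k0, k1, k2⟩
      refine ⟨h0 * k0, hx.mul h1 k1, ?_⟩
      have h3 := mul_mem (hNn.conj_mem _ k2 h) h2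
      have h4 : h * (k * k0⁻¹) * h⁻¹ * (h * h0⁻¹) = h * k * (h0 * k0)⁻¹ := by group
      rw [h4] at h3
      exact h3
    · rintro a h b k ⟨h0, h1, h2⟩
      have h3 : h ∈ N := by
        have := mul_mem h2 (hle ((hx.loop a h0).1 h1))
        simpa using this
      refine ⟨1, hx.one b, ?_⟩
      have := hNn.conj_mem _ h3 k
      simpa using this
  · rintro ⟨h0', h1, h2⟩
    -- the loops of `Gen` contain `N`
    have hker : ∀ k ∈ N, ∀ c, Gen x.R v g w c k c := by
      let K : Subgroup P :=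
        { carrier := {k | ∀ c, Gen x.R v g w c k c}
          mul_mem' := fun {a b} ha hb c => Gen.mul (ha c) (hb c)
          one_mem' := fun c => Gen.one c
          inv_mem' := fun {a} ha c => Gen.inv (ha c) }
      have hK : K.Normal := ⟨fun n hn k c => Gen.conj c k (hn c)⟩
      have hle' : N ≤ K := by
        apply ACq.nc_cons_le
        · intro c
          have h3 : Gen x.R v g w v (g * g0⁻¹) v := Gen.mul Gen.new (Gen.inv (Gen.base h0))
          have := Gen.conj c 1 h3
          simpa using this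
        · intro k hk c
          exact Gen.base ((hx.loop c k).2 hk)
      intro k hk
      exact hle' hk
    have h3 := Gen.mul (hker _ h2 a) (Gen.base h1)
    have h4 : h * h0'⁻¹ * h0' = h := by group
    rw [h4] at h3
    exact h3

/-- the explicit form of the groupoid, vertices not connected -/
lemma KS.R_add_of_not (hx : x.Valid) {v w : V} (h0 : ¬ ∃ g0, x.R v g0 w) (g : P)
    (a : V) (h : P) (b : V) :
    (x.add v g w).R a h b ↔ x.R a h b ∨
      (∃ s t, x.R a s v ∧ x.R w t b ∧ h = s * g * t) ∨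
      (∃ s t, x.R a s w ∧ x.R v t b ∧ h = s * g⁻¹ * t) := by
  constructor
  · intro H
    refine Gen.le (S := fun a h b => x.R a h b ∨
      (∃ s t, x.R a s v ∧ x.R w t b ∧ h = s * g * t) ∨
      (∃ s t, x.R a s w ∧ x.R v t b ∧ h = s * g⁻¹ * t)) ?_ ?_ ?_ ?_ ?_ ?_ H
    · intro a h b hh
      exact Or.inl hh
    · exact Or.inr (Or.inl ⟨1, 1, hx.one v, hx.one w, by simp⟩)
    · intro a
      exact Or.inl (hx.one a)
    · rintro a h b (h1 | ⟨s, t, h1, h2, rfl⟩ | ⟨s, t, h1, h2, rfl⟩)
      · exact Or.inl (hx.inv h1)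
      · exact Or.inr (Or.inr ⟨t⁻¹, s⁻¹, hx.inv h2, hx.inv h1, by group⟩)
      · exact Or.inr (Or.inl ⟨t⁻¹, s⁻¹, hx.inv h2, hx.inv h1, by group⟩)
    · rintro a h b k c (h1 | ⟨s, t, h1, h2, rfl⟩ | ⟨s, t, h1, h2, rfl⟩)
        (k1 | ⟨s', t', k1, k2, rfl⟩ | ⟨s', t', k1, k2, rfl⟩)
      · exact Or.inl (hx.mul h1 k1)
      · exact Or.inr (Or.inl ⟨h * s', t', hx.mul h1 k1, k2, by group⟩)
      · exact Or.inr (Or.inr ⟨h * s', t', hx.mul h1 k1, k2, by group⟩)
      · exact Or.inr (Or.inl ⟨s, t * k, h1, hx.mul h2 k1, by group⟩)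
      · exact absurd ⟨_, hx.inv (hx.mul h2 k1)⟩ h0
      · -- `w t b`, `b s' w` : a loop at `w`
        refine Or.inl ?_
        have h3 : x.R w (t * s') w := hx.mul h2 k1
        have h4 := hx.conj v g h3
        have h5 := hx.mul (hx.mul h1 h4) k2
        have h6 : s * (g * (t * s') * g⁻¹) * t' = s * g * t * (s' * g⁻¹ * t') := by group
        rw [h6] at h5
        exact h5
      · exact Or.inr (Or.inr ⟨s, t * k, h1, hx.mul h2 k1, by group⟩)
      · refine Or.inl ?_
        have h3 : x.R v (t * s') v := hx.mul h2 k1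
        have h4 := hx.conj w g⁻¹ h3
        have h5 := hx.mul (hx.mul h1 h4) k2
        have h6 : s * (g⁻¹ * (t * s') * g⁻¹⁻¹) * t' = s * g⁻¹ * t * (s' * g * t') := by group
        rw [h6] at h5
        exact h5
      · exact absurd ⟨_, hx.mul h2 k1⟩ h0
    · rintro a h b k (h1 | ⟨s, t, h1, h2, rfl⟩ | ⟨s, t, h1, h2, rfl⟩)
      · exact Or.inl (hx.conj b k h1)
      · exact absurd ⟨_, hx.inv (hx.mul h2 h1)⟩ h0
      · exact absurd ⟨_, hx.mul h2 h1⟩ h0
  · rintro (h1 | ⟨s, t, h1, h2, rfl⟩ | ⟨s, t, h1, h2, rfl⟩)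
    · exact Gen.base h1
    · exact Gen.mul (Gen.mul (Gen.base h1) Gen.new) (Gen.base h2)
    · exact Gen.mul (Gen.mul (Gen.base h1) (Gen.inv Gen.new)) (Gen.base h2)

theorem KS.valid_add (hx : x.Valid) (v : V) (g : P) (w : V) : (x.add v g w).Valid := by
  refine ⟨fun a => Gen.one a, fun h => Gen.inv h, fun h1 h2 => Gen.mul h1 h2, ?_⟩
  intro a h
  by_cases hc : ∃ g0, x.R v g0 w
  · obtain ⟨g0, h0⟩ := hc
    rw [KS.R_add_of_conn hx h0, KS.lam_add_of_conn hx h0]
    constructor
    · rintro ⟨h0', h1, h2⟩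
      have := mul_mem h2 (ACq.nc_le_cons _ _ ((hx.loop a h0').1 h1))
      simpa using this
    · intro hh
      exact ⟨1, hx.one a, by simpa using hh⟩
  · rw [KS.R_add_of_not hx hc, KS.lam_add_of_not hc]
    constructor
    · rintro (h1 | ⟨s, t, h1, h2, rfl⟩ | ⟨s, t, h1, h2, rfl⟩)
      · exact (hx.loop a h).1 h1
      · exact absurd ⟨_, hx.inv (hx.mul h2 h1)⟩ hc
      · exact absurd ⟨_, hx.mul h2 h1⟩ hc
    · intro hh
      exact Or.inl ((hx.loop a h).2 hh)

/-- the same connectivity and an absorbed constraint -/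
theorem KS.add_absorb (hx : x.Valid) {a a' b b' : V} {u v : P} (hu : x.R a' u a)
    (hv : x.R b v b') (g : P) : x.add a' (u * g * v) b' = x.add a g b := by
  apply KS.ext
  · funext c h d
    apply propext
    constructor
    · intro H
      refine Gen.le (S := Gen x.R a g b) (fun h => Gen.base h) ?_ (fun a => Gen.one a)
        (fun h => Gen.inv h) (fun h1 h2 => Gen.mul h1 h2) (fun b k h => Gen.conj b k h) H
      exact Gen.mul (Gen.mul (Gen.base hu) Gen.new) (Gen.base hv)
    · intro H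
      refine Gen.le (S := Gen x.R a' (u * g * v) b') (fun h => Gen.base h) ?_
        (fun a => Gen.one a)
        (fun h => Gen.inv h) (fun h1 h2 => Gen.mul h1 h2) (fun b k h => Gen.conj b k h) H
      have := Gen.mul (Gen.mul (Gen.base (R := x.R) (v := a') (g := u * g * v) (w := b')
        (hx.inv hu)) Gen.new) (Gen.base (hx.inv hv))
      have h2 : u⁻¹ * (u * g * v) * v⁻¹ = g := by group
      rw [h2] at this
      exact this
  · by_cases hc : ∃ g0, x.R a g0 b
    · obtain ⟨g0, h0⟩ := hc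
      have h1 : x.R a' (u * g0 * v) b' := hx.mul (hx.mul hu h0) hv
      rw [KS.lam_add_of_conn hx h0, KS.lam_add_of_conn hx h1]
      have h2 : u * g * v * (u * g0 * v)⁻¹ = u * (g * g0⁻¹) * u⁻¹ := by group
      rw [h2]
      exact ACq.cons_conj _ _ _
    · have hc' : ¬ ∃ g0, x.R a' g0 b' := by
        rintro ⟨g0, h0⟩
        exact hc ⟨_, hx.mul (hx.mul (hx.inv hu) h0) (hx.inv hv)⟩
      rw [KS.lam_add_of_not hc, KS.lam_add_of_not hc']

theorem KS.add_inv (hx : x.Valid) (a : V) (g : P) (b : V) : x.add b g⁻¹ a = x.add a g b := by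
  apply KS.ext
  · funext c h d
    apply propext
    constructor
    · intro H
      exact Gen.le (S := Gen x.R a g b) (fun h => Gen.base h) (Gen.inv Gen.new)
        (fun a => Gen.one a)
        (fun h => Gen.inv h) (fun h1 h2 => Gen.mul h1 h2) (fun b k h => Gen.conj b k h) H
    · intro H
      refine Gen.le (S := Gen x.R b g⁻¹ a) (fun h => Gen.base h) ?_
        (fun a => Gen.one a)
        (fun h => Gen.inv h) (fun h1 h2 => Gen.mul h1 h2) (fun b k h => Gen.conj b k h) H
      have := Gen.inv (Gen.new (R := x.R) (v := b) (g := g⁻¹) (w := a))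
      rw [inv_inv] at this
      exact this
  · by_cases hc : ∃ g0, x.R a g0 b
    · obtain ⟨g0, h0⟩ := hc
      rw [KS.lam_add_of_conn hx h0, KS.lam_add_of_conn hx (hx.inv h0)]
      have h2 : g⁻¹ * g0⁻¹⁻¹ = g⁻¹ * (g * g0⁻¹)⁻¹ * g⁻¹⁻¹ := by group
      rw [h2, ACq.cons_conj, ACq.cons_inv]
    · have hc' : ¬ ∃ g0, x.R b g0 a := by
        rintro ⟨g0, h0⟩
        exact hc ⟨_, hx.inv h0⟩
      rw [KS.lam_add_of_not hc, KS.lam_add_of_not hc']

lemma KS.add_add_R_le (x : KS V P) (v : V) (g : P) (w : V) (v' : V) (g' : P) (w' : V)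
    {c : V} {h : P} {d : V} (H : ((x.add v g w).add v' g' w').R c h d) :
    ((x.add v' g' w').add v g w).R c h d := by
  refine Gen.le (S := ((x.add v' g' w').add v g w).R) ?_ ?_ (fun a => Gen.one a)
        (fun h => Gen.inv h) (fun h1 h2 => Gen.mul h1 h2) (fun b k h => Gen.conj b k h) H
  · intro a h b h1
    exact Gen.le (S := ((x.add v' g' w').add v g w).R) (fun h => Gen.base (Gen.base h)) Gen.new
      (fun a => Gen.one a)
      (fun h => Gen.inv h) (fun h1 h2 => Gen.mul h1 h2) (fun b k h => Gen.conj b k h) h1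
  · exact Gen.base Gen.new

/-- adding constraints commutes -/
theorem KS.add_comm' (hx : x.Valid) (v : V) (g : P) (w : V) (v' : V) (g' : P) (w' : V) :
    (x.add v g w).add v' g' w' = (x.add v' g' w').add v g w := by
  apply KS.ext
  · funext c h d
    exact propext ⟨KS.add_add_R_le x v g w v' g' w', KS.add_add_R_le x v' g' w' v g w⟩
  have key : ∀ (v : V) (g : P) (w : V) (v' : V) (g' : P) (w' : V),
      (∃ g0, x.R v g0 w) → ((x.add v g w).add v' g' w').lam = ((x.add v' g' w').add v g w).lam := by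
    rintro v g w v' g' w' ⟨g0, h0⟩
    have h1 : (x.add v' g' w').R v g0 w := Gen.base h0
    rw [KS.lam_add_of_conn (KS.valid_add hx v' g' w') h1]
    by_cases hc : ∃ k0, x.R v' k0 w'
    · obtain ⟨k0, k1⟩ := hc
      have h2 : (x.add v g w).R v' k0 w' := Gen.base k1
      rw [KS.lam_add_of_conn (KS.valid_add hx v g w) h2, KS.lam_add_of_conn hx h0,
        KS.lam_add_of_conn hx k1, ACq.cons_comm]
    · have hc' : ¬ ∃ k0, (x.add v g w).R v' k0 w' := by
        rintro ⟨k0, h2⟩
        rw [KS.R_add_of_conn hx h0] at h2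
        obtain ⟨k1, h3, _⟩ := h2
        exact hc ⟨k1, h3⟩
      rw [KS.lam_add_of_not hc', KS.lam_add_of_conn hx h0, KS.lam_add_of_not hc]
  by_cases hc : ∃ g0, x.R v g0 w
  · exact key v g w v' g' w' hc
  by_cases hc' : ∃ g0, x.R v' g0 w'
  · exact (key v' g' w' v g w hc').symm
  by_cases hd : ∃ k0, (x.add v g w).R v' k0 w'
  · obtain ⟨k0, hk⟩ := hd
    rw [KS.lam_add_of_conn (KS.valid_add hx v g w) hk, KS.lam_add_of_not hc]
    rw [KS.R_add_of_not hx hc] at hk
    rcases hk with h1 | ⟨s, t, h1, h2, rfl⟩ | ⟨s, t, h1, h2, rfl⟩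
    · exact absurd ⟨_, h1⟩ hc'
    · -- `v' s v`, `w t w'`
      have h3 : (x.add v' g' w').R v (s⁻¹ * g' * t⁻¹) w :=
        Gen.mul (Gen.mul (Gen.base (hx.inv h1)) Gen.new) (Gen.base (hx.inv h2))
      rw [KS.lam_add_of_conn (KS.valid_add hx v' g' w') h3, KS.lam_add_of_not hc']
      rw [← ACq.cons_inv, ← ACq.cons_conj s⁻¹]
      congr 1
      group
    · -- `v' s w`, `v t w'`
      have h3 : (x.add v' g' w').R v (t * g'⁻¹ * s) w :=
        Gen.mul (Gen.mul (Gen.base h2) (Gen.inv Gen.new)) (Gen.base h1)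
      rw [KS.lam_add_of_conn (KS.valid_add hx v' g' w') h3, KS.lam_add_of_not hc']
      rw [← ACq.cons_conj (g * s⁻¹)]
      congr 1
      group
  · have hd' : ¬ ∃ k0, (x.add v' g' w').R v k0 w := by
      rintro ⟨k0, hk⟩
      rw [KS.R_add_of_not hx hc'] at hk
      rcases hk with h1 | ⟨s, t, h1, h2, rfl⟩ | ⟨s, t, h1, h2, rfl⟩
      · exact hc ⟨_, h1⟩
      · exact hd ⟨_, Gen.mul (Gen.mul (Gen.base (hx.inv h1)) Gen.new) (Gen.base (hx.inv h2))⟩
      · exact hd ⟨_, Gen.mul (Gen.mul (Gen.base h2) (Gen.inv Gen.new)) (Gen.base h1)⟩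
    rw [KS.lam_add_of_not hd, KS.lam_add_of_not hd', KS.lam_add_of_not hc,
      KS.lam_add_of_not hc']

end gen

end Pool.Agent.H46.NE
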