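import Pool.Agent.H46.NE.Base
import Pool.Agent.H46.NE.Fun
import Pool.Agent.H81.Nls.Main

set_option autoImplicit false

/-!
# Nielsen equivalence in `F_n × P` and Andrews-Curtis moves in `P` (MP_fabc18_al)
-/

namespace Pool.Agent.H46.NE

open Pool.Agent.H81.Nls (Move Nielsen)

variable {P : Type*} [Group P]

/-- the tuple `(x_i, a_i)`, `(1, b_j)` in `F_n × P` -/
def T {P : Type*} [Group P] {n k : ℕ} (a : Fin n → P) (b : Fin k → P) :
    Fin n ⊕ Fin k → FreeGroup (Fin n) × P :=
  Sum.elim (fun i => (FreeGroup.of i, a i)) (fun j => (1, b j))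

/-- the class of a tuple -/
def InvT {ι L : Type*} (s : List ι) (t : ι → FreeGroup L × P) (l : ACq P) : Prop :=
  ∃ w : ι → List (L × Bool), (∀ i, FreeGroup.mk (w i) = (t i).1) ∧
    GoodW (s.map (fun i => (w i, (t i).2))) l

/-- the class of a tuple is invariant under Nielsen moves -/
theorem InvT.move {ι L : Type*} [DecidableEq ι] {s : List ι} (hs : s.Nodup) (hc : ∀ i, i ∈ s)
    {t t' : ι → FreeGroup L × P} {l : ACq P} (h : Move t t') (ht : InvT s t l) :
    InvT s t' l := by
  obtain ⟨w, hw, hg⟩ := ht
  rcases h with ⟨σ, rfl⟩ | ⟨i, rfl⟩ | ⟨i, j, hij, rfl⟩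
  · refine ⟨w ∘ σ, fun i => hw (σ i), ?_⟩
    have h1 : s.map (fun i => ((w ∘ σ) i, ((t ∘ σ) i).2)) =
        (s.map σ).map (fun i => (w i, (t i).2)) := by
      rw [List.map_map]
      rfl
    rw [h1]
    refine hg.perm (List.Perm.map _ ?_)
    rw [List.perm_ext_iff_of_nodup hs (hs.map σ.injective)]
    intro x
    refine ⟨fun _ => List.mem_map.2 ⟨σ.symm x, hc _, by simp⟩, fun _ => hc x⟩
  · refine ⟨Function.update w i ((w i).map (fun x => (x.1, !x.2))).reverse, ?_, ?_⟩
    · intro k
      by_cases hk : k = i
      · subst hk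
        rw [Function.update_self, Function.update_self, Prod.fst_inv, ← hw k,
          FreeGroup.inv_mk]
        rfl
      · rw [Function.update_of_ne hk, Function.update_of_ne hk, hw]
    · have h1 : s.Perm (i :: s.erase i) := List.perm_cons_erase (hc i)
      have h2 := hg.perm (h1.map _)
      rw [List.map_cons] at h2
      have h3 := h2.inv
      refine GoodW.perm ?_ (h1.map _).symm
      rw [List.map_cons, Function.update_self, Function.update_self, Prod.snd_inv]
      have h4 : (s.erase i).map (fun k => (Function.update w i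
          ((w i).map (fun x => (x.1, !x.2))).reverse k,
          (Function.update t i (t i)⁻¹ k).2)) = (s.erase i).map (fun k => (w k, (t k).2)) := by
        apply List.map_congr_left
        intro k hk
        have hki : k ≠ i := by
          rintro rfl
          exact (hs.not_mem_erase hk)
        rw [Function.update_of_ne hki, Function.update_of_ne hki]
      rw [h4]
      exact h3
  · refine ⟨Function.update w i (w i ++ w j), ?_, ?_⟩
    · intro k
      by_cases hk : k = i
      · subst hk
        rw [Function.update_self, Function.update_self, Prod.fst_mul, ← hw k, ← hw j,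
          FreeGroup.mul_mk]
      · rw [Function.update_of_ne hk, Function.update_of_ne hk, hw]
    · have h1 : s.Perm (i :: s.erase i) := List.perm_cons_erase (hc i)
      have hj : j ∈ s.erase i := (List.mem_erase_of_ne (Ne.symm hij)).2 (hc j)
      have h1' : s.Perm (i :: j :: (s.erase i).erase j) :=
        h1.trans ((List.perm_cons_erase hj).cons i)
      have h2 := hg.perm (h1'.map _)
      rw [List.map_cons, List.map_cons] at h2
      have h3 := h2.mul
      refine GoodW.perm ?_ (h1'.map _).symm
      rw [List.map_cons, List.map_cons, Function.update_self, Function.update_self,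
        Prod.snd_mul, Function.update_of_ne (Ne.symm hij), Function.update_of_ne (Ne.symm hij)]
      have h4 : ((s.erase i).erase j).map (fun k => (Function.update w i (w i ++ w j) k,
          (Function.update t i (t i * t j) k).2)) =
          ((s.erase i).erase j).map (fun k => (w k, (t k).2)) := by
        apply List.map_congr_left
        intro k hk
        have hki : k ≠ i := by
          rintro rfl
          exact (hs.not_mem_erase (List.mem_of_mem_erase hk))
        rw [Function.update_of_ne hki, Function.update_of_ne hki]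
      rw [h4]
      exact h3

theorem InvT.nielsen {ι L : Type*} [DecidableEq ι] {s : List ι} (hs : s.Nodup)
    (hc : ∀ i, i ∈ s) {t t' : ι → FreeGroup L × P} {l : ACq P} (h : Nielsen t t')
    (ht : InvT s t l) : InvT s t' l := by
  induction h with
  | refl => exact ht
  | tail _ h2 ih => exact ih.move hs hc h2

/-- the indices of the normal form -/
def idx (n k : ℕ) : List (Fin n ⊕ Fin k) :=
  (List.finRange n).map Sum.inl ++ (List.finRange k).map Sum.inr

lemma idx_nodup (n k : ℕ) : (idx n k).Nodup := by
  rw [idx, List.nodup_append]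
  refine ⟨(List.nodup_finRange n).map Sum.inl_injective,
    (List.nodup_finRange k).map Sum.inr_injective, ?_⟩
  intro a ha b hb
  obtain ⟨i, _, rfl⟩ := List.mem_map.1 ha
  obtain ⟨j, _, rfl⟩ := List.mem_map.1 hb
  simp

lemma idx_mem {n k : ℕ} (i : Fin n ⊕ Fin k) : i ∈ idx n k := by
  rw [idx, List.mem_append]
  rcases i with i | j
  · exact Or.inl (List.mem_map_of_mem (List.mem_finRange i))
  · exact Or.inr (List.mem_map_of_mem (List.mem_finRange j))

/-- the words of the normal form -/
def cw {n k : ℕ} : Fin n ⊕ Fin k → List (Fin n × Bool) :=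
  Sum.elim (fun i => [(i, true)]) (fun _ => [])

lemma cw_mk {n k : ℕ} (a : Fin n → P) (b : Fin k → P) (i : Fin n ⊕ Fin k) :
    FreeGroup.mk (cw i) = (T a b i).1 := by
  rcases i with i | j <;> rfl

lemma TW_eq {n k : ℕ} (a : Fin n → P) (b : Fin k → P) :
    (idx n k).map (fun i => (cw i, (T a b i).2)) = TW a b := by
  rw [idx, List.map_append, List.map_map, List.map_map]
  rfl

lemma red_cw {n k : ℕ} (i : Fin n ⊕ Fin k) {w : List (Fin n × Bool)}
    (h : FreeGroup.mk w = FreeGroup.mk (cw i)) : FreeGroup.Red w (cw i) := by
  obtain ⟨c, h1, h2⟩ := FreeGroup.Red.exact.1 h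
  rcases i with i | j
  · have : c = cw (Sum.inl i : Fin n ⊕ Fin k) := FreeGroup.Red.singleton_iff.1 h2
    rw [← this]
    exact h1
  · have : c = cw (Sum.inr j : Fin n ⊕ Fin k) := FreeGroup.Red.nil_iff.1 h2
    rw [← this]
    exact h1

/-- **Theorem 1.** If `(x_i, a_i), (1, b_j)` and `(x_i, a'_i), (1, b'_j)` are Nielsen equivalent
in `F_n × P`, then `b` and `b'` are Andrews-Curtis equivalent in `P` without stabilization. -/
theorem ac_of_nielsen {n k : ℕ} {a a' : Fin n → P} {b b' : Fin k → P}
    (h : Nielsen (T a b) (T a' b')) : AC b b' := by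
  have h1 : InvT (idx n k) (T a b) (ACq.mk ((List.finRange k).map b : Multiset P)) := by
    refine ⟨cw, cw_mk a b, ?_⟩
    rw [TW_eq]
    exact goodW_T a b
  obtain ⟨w, hw, hg⟩ := h1.nielsen (idx_nodup n k) idx_mem h
  have h2 : GoodW ((idx n k).map (fun i => (w i, (T a' b' i).2)))
      (ACq.mk ((List.finRange k).map b' : Multiset P)) := by
    have h3 := goodW_T a' b'
    rw [← TW_eq, ← List.append_nil (List.map _ _)] at h3
    have h4 := GoodW.red_all (W := (idx n k).map (fun i => (w i, (T a' b' i).2))) (by
      rw [List.forall₂_map_left_iff, List.forall₂_map_right_iff]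
      rw [List.forall₂_same]
      intro i _
      refine ⟨red_cw i ?_, rfl⟩
      rw [hw, cw_mk a' b']) [] h3
    rw [List.append_nil] at h4
    exact h4
  have h5 := hg.unique h2
  refine ac_of_class ?_
  have h6 : ∀ c : Fin k → P, ms c = ((List.finRange k).map c : Multiset P) := by
    intro c
    rfl
  rw [h6, h6]
  exact h5

end Pool.Agent.H46.NE
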