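import Pool.Agent.H46.NE.Thm

set_option autoImplicit false

/-!
# One-sided stabilization

Adding the entries `(x_(n+1), 1), …, (x_(n+s), 1)` to a generating tuple of `F_n × P`.
-/

namespace Pool.Agent.H46.NE

open Pool.Agent.H81.Nls (Move Nielsen)
open FreeGroup (of)

section moves

variable {ι κ G H : Type*} [DecidableEq ι] [DecidableEq κ] [Group G] [Group H]

lemma update_inl (t : ι → H) (r : κ → H) (i : ι) (z : H) :
    Sum.elim (Function.update t i z) r = Function.update (Sum.elim t r) (Sum.inl i) z := by
  funext x
  rcases x with j | j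
  · by_cases hj : j = i
    · subst hj
      simp
    · rw [Function.update_of_ne (by simpa using hj)]
      simp [hj]
  · rw [Function.update_of_ne (by simp)]
    rfl

lemma comp_update (f : G →* H) (t : ι → G) (i : ι) (z : G) :
    (fun x => f (Function.update t i z x)) = Function.update (fun x => f (t x)) i (f z) := by
  funext x
  by_cases hx : x = i
  · subst hx
    simp
  · simp [hx]

/-- Nielsen moves after mapping the entries and adding further entries -/
lemma nl_extend (f : G →* H) (r : κ → H) {t t' : ι → G} (h : Nielsen t t') :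
    Nielsen (Sum.elim (fun x => f (t x)) r) (Sum.elim (fun x => f (t' x)) r) := by
  induction h with
  | refl => exact Relation.ReflTransGen.refl
  | tail _ h2 ih =>
    refine nl_trans ih (Relation.ReflTransGen.single ?_)
    rcases h2 with ⟨σ, rfl⟩ | ⟨i, rfl⟩ | ⟨i, j, hij, rfl⟩
    · left
      refine ⟨Equiv.sumCongr σ (Equiv.refl _), ?_⟩
      funext x
      rcases x with i | j <;> rfl
    · right; left
      refine ⟨Sum.inl i, ?_⟩
      rw [comp_update, update_inl, map_inv]
      rfl
    · right; right
      refine ⟨Sum.inl i, Sum.inl j, by simpa using hij, ?_⟩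
      rw [comp_update, update_inl, map_mul]
      rfl

/-- Nielsen moves after a change of the index set -/
lemma nl_reindex (e : κ ≃ ι) {t t' : ι → G} (h : Nielsen t t') :
    Nielsen (fun x => t (e x)) (fun x => t' (e x)) := by
  have hup : ∀ (u : ι → G) (i : ι) (z : G), (fun x => Function.update u i z (e x)) =
      Function.update (fun x => u (e x)) (e.symm i) z := by
    intro u i z
    funext x
    by_cases hx : x = e.symm i
    · subst hx
      simp
    · rw [Function.update_of_ne hx, Function.update_of_ne]
      intro hh
      exact hx (by rw [← hh, Equiv.symm_apply_apply])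
  induction h with
  | refl => exact Relation.ReflTransGen.refl
  | tail _ h2 ih =>
    refine nl_trans ih (Relation.ReflTransGen.single ?_)
    rcases h2 with ⟨σ, rfl⟩ | ⟨i, rfl⟩ | ⟨i, j, hij, rfl⟩
    · left
      refine ⟨(e.trans σ).trans e.symm, ?_⟩
      funext x
      simp
    · right; left
      refine ⟨e.symm i, ?_⟩
      rw [hup]
      simp
    · right; right
      refine ⟨e.symm i, e.symm j, by simpa using hij, ?_⟩
      rw [hup]
      simp

/-- Nielsen equivalence preserves the generated subgroup -/
lemma nl_closure {t t' : ι → G} (h : Nielsen t t') :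
    Subgroup.closure (Set.range t') ≤ Subgroup.closure (Set.range t) := by
  induction h with
  | refl => exact le_refl _
  | tail _ h2 ih =>
    refine le_trans ?_ ih
    rw [Subgroup.closure_le]
    rintro _ ⟨x, rfl⟩
    rcases h2 with ⟨σ, rfl⟩ | ⟨i, rfl⟩ | ⟨i, j, hij, rfl⟩
    · exact Subgroup.subset_closure ⟨σ x, rfl⟩
    · by_cases hx : x = i
      · subst hx
        rw [Function.update_self]
        exact inv_mem (Subgroup.subset_closure ⟨x, rfl⟩)
      · rw [Function.update_of_ne hx]
        exact Subgroup.subset_closure ⟨x, rfl⟩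
    · by_cases hx : x = i
      · subst hx
        rw [Function.update_self]
        exact mul_mem (Subgroup.subset_closure ⟨x, rfl⟩) (Subgroup.subset_closure ⟨j, rfl⟩)
      · rw [Function.update_of_ne hx]
        exact Subgroup.subset_closure ⟨x, rfl⟩

lemma nl_gen {t t' : ι → G} (h : Nielsen t t') (ht : Subgroup.closure (Set.range t) = ⊤) :
    Subgroup.closure (Set.range t') = ⊤ := by
  rw [eq_top_iff, ← ht]
  exact nl_closure (nl_symm h)

end moves

variable {P : Type*} [Group P] {n k : ℕ} (s : ℕ)

/-- the tuple `g` of `F_n × P`, seen in `F_(n+s) × P`, followed by the entries `(x_(n+l), 1)`,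
`l < s` -/
def oneSided (g : Fin n ⊕ Fin k → FreeGroup (Fin n) × P) :
    (Fin n ⊕ Fin k) ⊕ Fin s → FreeGroup (Fin (n + s)) × P :=
  Sum.elim (fun x => (up s (g x).1, (g x).2)) (fun l => (of (Fin.natAdd n l), 1))

lemma oneSided_nl {g g' : Fin n ⊕ Fin k → FreeGroup (Fin n) × P} (h : Nielsen g g') :
    Nielsen (oneSided s g) (oneSided s g') := by
  have h1 := nl_extend (MonoidHom.prodMap (up s) (MonoidHom.id P))
    (fun l : Fin s => ((of (Fin.natAdd n l), 1) : FreeGroup (Fin (n + s)) × P)) h
  exact h1

/-- the change of indices -/
def idxEquiv : Fin (n + s) ⊕ Fin k ≃ (Fin n ⊕ Fin k) ⊕ Fin s :=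
  ((Equiv.sumCongr finSumFinEquiv.symm (Equiv.refl (Fin k))).trans
    (Equiv.sumAssoc (Fin n) (Fin s) (Fin k))).trans
    ((Equiv.sumCongr (Equiv.refl (Fin n)) (Equiv.sumComm (Fin s) (Fin k))).trans
      (Equiv.sumAssoc (Fin n) (Fin k) (Fin s)).symm)

/-- `a`, followed by `s` trivial elements -/
def tailOne (a : Fin n → P) : Fin (n + s) → P := Fin.append a (fun _ => 1)

lemma oneSided_T (a : Fin n → P) (b : Fin k → P) :
    (fun x => oneSided s (T a b) (idxEquiv s x)) = T (tailOne s a) b := by
  funext x
  rcases x with i | j
  · refine Fin.addCases (fun l => ?_) (fun l => ?_) i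
    · have : idxEquiv (k := k) s (Sum.inl (Fin.castAdd s l)) = Sum.inl (Sum.inl l) := by
        simp [idxEquiv]
      rw [this]
      change (up s (of l), a l) = (of (Fin.castAdd s l), tailOne s a (Fin.castAdd s l))
      rw [up_of]
      simp [tailOne]
    · have : idxEquiv (k := k) s (Sum.inl (Fin.natAdd n l)) = Sum.inr l := by
        simp [idxEquiv]
      rw [this]
      change (of (Fin.natAdd n l), (1 : P)) =
        (of (Fin.natAdd n l), tailOne s a (Fin.natAdd n l))
      simp [tailOne]
  · have : idxEquiv (n := n) s (Sum.inr j) = Sum.inl (Sum.inr j) := by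
      simp [idxEquiv]
    rw [this]
    change (up s 1, b j) = (1, b j)
    rw [map_one]

lemma oneSided_iff_T (a a' : Fin n → P) (b b' : Fin k → P) :
    Nielsen (oneSided s (T a b)) (oneSided s (T a' b')) ↔
      Nielsen (T (tailOne s a) b) (T (tailOne s a') b') := by
  constructor
  · intro h
    have := nl_reindex (idxEquiv (n := n) (k := k) s) h
    rwa [oneSided_T, oneSided_T] at this
  · intro h
    have := nl_reindex (idxEquiv (n := n) (k := k) s).symm h
    rw [← oneSided_T, ← oneSided_T] at this
    simpa using this

/-- normal generation from a generating normal form, every group -/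
lemma normal_of_gen' {a : Fin n → P} {b : Fin k → P}
    (h : Subgroup.closure (Set.range (T a b)) = ⊤) :
    Subgroup.normalClosure (Set.range b) = ⊤ := by
  set N := Subgroup.normalClosure (Set.range b) with hN
  have hNn : N.Normal := Subgroup.normalClosure_normal
  let f : FreeGroup (Fin n) × P →* P ⧸ N := (QuotientGroup.mk' N).comp (MonoidHom.snd _ _)
  let g : FreeGroup (Fin n) × P →* P ⧸ N :=
    (FreeGroup.lift (fun i => (QuotientGroup.mk (a i) : P ⧸ N))).comp (MonoidHom.fst _ _)
  have hfg : ∀ x, f x = g x := by
    intro x
    have hx : x ∈ Subgroup.closure (Set.range (T a b)) := by rw [h]; trivial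
    have hle : Subgroup.closure (Set.range (T a b)) ≤ MonoidHom.eqLocus f g := by
      rw [Subgroup.closure_le]
      rintro _ ⟨y, rfl⟩
      rcases y with i | j
      · change (QuotientGroup.mk (a i) : P ⧸ N) =
          (FreeGroup.lift (fun i => (QuotientGroup.mk (a i) : P ⧸ N))) (of i)
        simp
      · change (QuotientGroup.mk (b j) : P ⧸ N) =
          (FreeGroup.lift (fun i => (QuotientGroup.mk (a i) : P ⧸ N))) 1
        rw [map_one, QuotientGroup.eq_one_iff]
        exact Subgroup.subset_normalClosure ⟨j, rfl⟩
    exact hle hx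
  rw [eq_top_iff]
  intro v _
  have h1 := hfg (1, v)
  have h2 : g (1, v) = 1 := by
    change (FreeGroup.lift (fun i => (QuotientGroup.mk (a i) : P ⧸ N))) 1 = 1
    rw [map_one]
  rw [h2] at h1
  exact (QuotientGroup.eq_one_iff _).1 h1

/-- the trivial second coordinates are redundant -/
lemma one_step {a : Fin n → P} {b : Fin k → P}
    (h : Subgroup.closure (Set.range (T a b)) = ⊤) (p : Fin s → P) :
    Nielsen (T (tailOne s a) b) (T (Fin.append a p) b) := by
  classical
  have h1 := nielsen_change b
    (Finset.univ.filter (fun x : Fin (n + s) => ∃ i : Fin s, x = Fin.natAdd n i))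
    (tailOne s a) (Fin.append a p) (by
      intro i hi c hc hci
      obtain ⟨i0, hi0⟩ := (Finset.mem_filter.1 hi).2
      set v := (c i)⁻¹ * Fin.append a p i with hv
      have h2 : ((1, v) : FreeGroup (Fin n) × P) ∈ Subgroup.closure (Set.range (T a b)) := by
        rw [h]; trivial
      let φ : FreeGroup (Fin n) × P →* FreeGroup (Fin (n + s)) × P :=
        MonoidHom.prodMap (up s) (MonoidHom.id P)
      have h3 : Subgroup.closure (Set.range (T a b)) ≤
          (Subgroup.closure (T c b '' {x | x ≠ Sum.inl i})).comap φ := by
        rw [Subgroup.closure_le]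
        rintro _ ⟨y, rfl⟩
        rcases y with l | l
        · refine Subgroup.subset_closure ⟨Sum.inl (Fin.castAdd s l), ?_, ?_⟩
          · intro hh
            rw [hi0] at hh
            have := congrArg Fin.val (Sum.inl.inj hh)
            simp only [Fin.val_castAdd, Fin.val_natAdd] at this
            omega
          · have h4 : c (Fin.castAdd s l) = a l := by
              rw [hc _ (by
                intro hh
                obtain ⟨l', hl'⟩ := (Finset.mem_filter.1 hh).2
                have := congrArg Fin.val hl'
                simp only [Fin.val_castAdd, Fin.val_natAdd] at this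
                omega)]
              simp [tailOne]
            change (of (Fin.castAdd s l), c (Fin.castAdd s l)) = (up s (of l), a l)
            rw [h4, up_of]
        · refine Subgroup.subset_closure ⟨Sum.inr l, by simp, ?_⟩
          change ((1 : FreeGroup (Fin (n + s))), b l) = (up s 1, b l)
          rw [map_one]
      have h5 : ((up s 1, v) : FreeGroup (Fin (n + s)) × P) ∈
          Subgroup.closure (T c b '' {x | x ≠ Sum.inl i}) := h3 h2
      rwa [map_one] at h5)
  have h2 : (fun i => if i ∈ Finset.univ.filter (fun x : Fin (n + s) =>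
      ∃ i : Fin s, x = Fin.natAdd n i) then Fin.append a p i else tailOne s a i) =
      Fin.append a p := by
    funext i
    refine Fin.addCases (fun j => ?_) (fun j => ?_) i
    · split_ifs
      · rfl
      · simp [tailOne]
    · rw [if_pos]
      rw [Finset.mem_filter]
      exact ⟨Finset.mem_univ _, j, rfl⟩
  rw [h2] at h1
  exact h1

/-- if the new elements generate `P`, the old second coordinates are redundant -/
lemma two_step {b : Fin k → P} (hb : Subgroup.normalClosure (Set.range b) = ⊤)
    {p : Fin s → P} (hp : Subgroup.closure (Set.range p) = ⊤) (a a' : Fin n → P) :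
    Nielsen (T (Fin.append a p) b) (T (Fin.append a' p) b) := by
  classical
  have h1 := nielsen_change b
    (Finset.univ.filter (fun x : Fin (n + s) => ∃ i : Fin n, x = Fin.castAdd s i))
    (Fin.append a p) (Fin.append a' p) (by
      intro i hi c hc hci
      obtain ⟨i0, hi0⟩ := (Finset.mem_filter.1 hi).2
      set H := Subgroup.closure (T c b '' {x | x ≠ Sum.inl i}) with hH
      have hcn : ∀ j : Fin s, c (Fin.natAdd n j) = p j := by
        intro j
        rw [hc _ (by
          intro hh
          obtain ⟨l', hl'⟩ := (Finset.mem_filter.1 hh).2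
          have := congrArg Fin.val hl'
          simp only [Fin.val_castAdd, Fin.val_natAdd] at this
          omega)]
        simp
      have hyw : ∀ w : P, ∃ u, ((u, w) : FreeGroup (Fin (n + s)) × P) ∈ H := by
        intro w
        have hw : w ∈ Subgroup.closure (Set.range p) := by rw [hp]; trivial
        induction hw using Subgroup.closure_induction with
        | mem x hx =>
          obtain ⟨l, rfl⟩ := hx
          refine ⟨of (Fin.natAdd n l), Subgroup.subset_closure ⟨Sum.inl (Fin.natAdd n l), ?_, ?_⟩⟩
          · intro hh
            rw [hi0] at hh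
            have := congrArg Fin.val (Sum.inl.inj hh)
            simp only [Fin.val_castAdd, Fin.val_natAdd] at this
            omega
          · change (of (Fin.natAdd n l), c (Fin.natAdd n l)) = _
            rw [hcn]
        | one => exact ⟨1, one_mem H⟩
        | mul x y _ _ hx hy =>
          obtain ⟨u, hu⟩ := hx
          obtain ⟨v, hv⟩ := hy
          exact ⟨u * v, mul_mem hu hv⟩
        | inv x _ hx =>
          obtain ⟨u, hu⟩ := hx
          exact ⟨u⁻¹, inv_mem hu⟩
      let M : Subgroup P := H.comap (MonoidHom.inr (FreeGroup (Fin (n + s))) P)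
      have hMn : M.Normal := by
        refine ⟨fun v hv g => ?_⟩
        obtain ⟨u, hu⟩ := hyw g
        have hv' : ((1, v) : FreeGroup (Fin (n + s)) × P) ∈ H := hv
        have h2 := mul_mem (mul_mem hu hv') (inv_mem hu)
        change ((1, g * v * g⁻¹) : FreeGroup (Fin (n + s)) × P) ∈ H
        have h3 : ((u, g) : FreeGroup (Fin (n + s)) × P) * (1, v) * (u, g)⁻¹ =
            (1, g * v * g⁻¹) := by
          simp
        rw [h3] at h2
        exact h2
      have hM : M = ⊤ := by
        rw [eq_top_iff, ← hb]
        apply Subgroup.normalClosure_le_normal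
        rintro _ ⟨l, rfl⟩
        change ((1, b l) : FreeGroup (Fin (n + s)) × P) ∈ H
        exact Subgroup.subset_closure ⟨Sum.inr l, by simp, rfl⟩
      have : (c i)⁻¹ * Fin.append a' p i ∈ M := by rw [hM]; trivial
      exact this)
  have h2 : (fun i => if i ∈ Finset.univ.filter (fun x : Fin (n + s) =>
      ∃ i : Fin n, x = Fin.castAdd s i) then Fin.append a' p i else Fin.append a p i) =
      Fin.append a' p := by
    funext i
    refine Fin.addCases (fun j => ?_) (fun j => ?_) i
    · rw [if_pos]
      rw [Finset.mem_filter]
      exact ⟨Finset.mem_univ _, j, rfl⟩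
    · split_ifs
      · rfl
      · simp
  rw [h2] at h1
  exact h1

/-- **One-sided stable classes are Andrews-Curtis classes.** -/
theorem oneSided_iff_ac {p : Fin s → P} (hp : Subgroup.closure (Set.range p) = ⊤)
    {g g' : Fin n ⊕ Fin k → FreeGroup (Fin n) × P}
    (hg : Subgroup.closure (Set.range g) = ⊤) (hg' : Subgroup.closure (Set.range g') = ⊤)
    {a a' : Fin n → P} {b b' : Fin k → P} (h : Nielsen g (T a b)) (h' : Nielsen g' (T a' b')) :
    Nielsen (oneSided s g) (oneSided s g') ↔ AC b b' := by
  have e1 := oneSided_nl s h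
  have e2 := oneSided_nl s h'
  constructor
  · intro hN
    have h1 := nl_trans (nl_trans (nl_symm e1) hN) e2
    rw [oneSided_iff_T] at h1
    exact ac_of_nielsen h1
  · intro hA
    refine nl_trans e1 (nl_trans ?_ (nl_symm e2))
    rw [oneSided_iff_T]
    have g1 := nl_gen h hg
    have g2 := nl_gen h' hg'
    have hpp : ∀ c : Fin n → P, Subgroup.closure (Set.range (Fin.append c p)) = ⊤ := by
      intro c
      rw [eq_top_iff, ← hp]
      apply Subgroup.closure_mono
      rintro _ ⟨l, rfl⟩
      exact ⟨Fin.natAdd n l, by simp⟩
    exact nl_trans (nl_trans (one_step s g1 p) (two_step s (normal_of_gen' g1) hp a a'))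
      (nl_trans (nielsen_of_ac (hpp a') hA) (nl_symm (one_step s g2 p)))

/-- the first coordinates of a generating tuple generate -/
lemma fst_gen {g : Fin n ⊕ Fin k → FreeGroup (Fin n) × P}
    (hg : Subgroup.closure (Set.range g) = ⊤) :
    Subgroup.closure (Set.range (fun x => (g x).1)) = ⊤ := by
  have h1 : Subgroup.closure (Set.range (fun x => (g x).1)) =
      (Subgroup.closure (Set.range g)).map (MonoidHom.fst (FreeGroup (Fin n)) P) := by
    rw [MonoidHom.map_closure]
    congr 1
    rw [← Set.range_comp]
    rfl
  rw [h1, hg]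
  exact Subgroup.map_top_of_surjective _ Prod.fst_surjective

/-- **Unstable Andrews-Curtis in rank `n` is the one-sided stabilization of Q1 for `n`.** -/
theorem ac_iff_oneSided {n s : ℕ} (hns : n ≤ s) :
    (∀ b : Fin n → FreeGroup (Fin n), Subgroup.normalClosure (Set.range b) = ⊤ → AC of b) ↔
    (∀ g : Fin n ⊕ Fin n → FreeGroup (Fin n) × FreeGroup (Fin n),
      Subgroup.closure (Set.range g) = ⊤ →
        Nielsen (oneSided s (std n)) (oneSided s g)) := by
  have hstd : Subgroup.closure (Set.range (T (fun _ : Fin n => (1 : FreeGroup (Fin n)))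
      (of : Fin n → FreeGroup (Fin n)))) = ⊤ := by
    rw [← std_eq]
    have h1 := (gen_iff (n := n) (of : Fin n → FreeGroup (Fin n))).2 (by
      rw [eq_top_iff, ← closure_of]
      exact Subgroup.closure_le_normalClosure)
    exact nl_gen (nielsen_of_basis (of : Fin n → FreeGroup (Fin n)) (fun _ => 1)) h1
  let p : Fin s → FreeGroup (Fin n) := fun i => if h : i.val < n then of ⟨i.val, h⟩ else 1
  have hp : Subgroup.closure (Set.range p) = ⊤ := by
    rw [eq_top_iff, ← closure_of]
    apply Subgroup.closure_mono
    rintro _ ⟨l, rfl⟩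
    refine ⟨⟨l.val, lt_of_lt_of_le l.2 hns⟩, ?_⟩
    simp [p]
  constructor
  · intro h g hg
    obtain ⟨a, b, hab⟩ := exists_T g (fst_gen hg)
    have hb : Subgroup.normalClosure (Set.range b) = ⊤ := normal_of_gen (nl_gen hab hg)
    rw [std_eq]
    exact (oneSided_iff_ac s hp hstd hg Relation.ReflTransGen.refl hab).2 (h b hb)
  · intro h b hb
    have h1 := h (T of b) ((gen_iff b).2 hb)
    rw [std_eq] at h1
    exact (oneSided_iff_ac s hp hstd ((gen_iff b).2 hb) Relation.ReflTransGen.refl
      Relation.ReflTransGen.refl).1 h1

end Pool.Agent.H46.NE
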