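import Pool.Agent.H46.NE.Red

set_option autoImplicit false

/-!
# Quotients of polycyclic type (MP_fabc18_al)
-/

namespace Pool.Agent.H46.NE

open Pool.Agent.H81.Nls (Move Nielsen)
open FreeGroup (of)
open scoped commutatorElement

universe u

/-- The factors: for normal subgroups `W ≤ V` of `P`, the factor `V / W` is central in `P / W`, or
it is a finitely generated abelian group, or it is a torsion-free abelian group, different from the
subgroup of its `q`-th powers for some `q ≥ 1`, in which every nontrivial subgroup `X / W` with `X`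
normal in `P` has finite index. -/
def Factor {P : Type u} [Group P] (V W : Subgroup P) : Prop :=
  ⁅V, (⊤ : Subgroup P)⁆ ≤ W ∨
  (⁅V, V⁆ ≤ W ∧ ∃ S : Set P, S.Finite ∧ V = W ⊔ Subgroup.closure S) ∨
  (⁅V, V⁆ ≤ W ∧ (∀ x ∈ V, ∀ m : ℕ, 0 < m → x ^ m ∈ W → x ∈ W) ∧
    (∃ q : ℕ, 0 < q ∧ ∃ u ∈ V, ∀ z ∈ V, u⁻¹ * z ^ q ∉ W) ∧
    ∀ X : Subgroup P, X.Normal → W ≤ X → X ≤ V → X ≠ W → X.relIndex V ≠ 0)

/-- `Series P N V`: the normal subgroup `V` of `P` is reached from `N` in finitely many steps
`V ⊇ W`, where `W` is a normal subgroup of `P` and `V / W` is one of the factors above. -/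
inductive Series (P : Type u) [Group P] (N : Subgroup P) : Subgroup P → Prop
  | start : Series P N N
  | step {V W : Subgroup P} (hV : Series P N V) (hW : W.Normal) (hWV : W ≤ V)
      (h : Factor V W) : Series P N W

variable {P : Type u} [Group P] {n k : ℕ}

lemma Series.normal {N V : Subgroup P} (hN : N.Normal) (h : Series P N V) : V.Normal := by
  cases h with
  | start => exact hN
  | step _ hW _ _ => exact hW

lemma Series.le {N V : Subgroup P} (h : Series P N V) : V ≤ N := by
  induction h with
  | start => exact le_refl _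
  | step _ _ hWV _ ih => exact hWV.trans ih

lemma Series.red {i1 i2 : Fin n} (hi : i1 ≠ i2) {N : Subgroup P} (hNn : N.Normal)
    (hNP : N ≤ commutator P) {y : Fin k → P} (hy : Subgroup.closure (Set.range y) = ⊤)
    {V : Subgroup P} (h : Series P N V) : Red n y N V := by
  induction h with
  | start => exact Red.refl y N
  | @step V W hV hW hWV h ih =>
    have hVn := hV.normal hNn
    have hVP := hV.le.trans hNP
    refine ih.trans ?_
    rcases h with h | ⟨hc, S, hS, hVS⟩ | ⟨hc, htf, ⟨q, hq, u, hu, hu2⟩, hji⟩
    · intro a b ha hb hg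
      exact chain_step i1 hVn hVP hW hWV (Or.inl h) hy hb ha hg
    · exact red_fg hi hVP hW hc (noeth_of_fg hW hWV hc hS hVS) hy _ V hVn hWV (le_refl _)
        (le_refl _)
    · exact red_ji hi hVn hVP hW hWV hc htf hji hu hq hu2 hy

/-- **Part A.** -/
theorem series_iff {i1 i2 : Fin n} (hi : i1 ≠ i2) {N : Subgroup P} [hNn : N.Normal]
    (hNP : N ≤ commutator P) (hS : Series P N ⊥) {y : Fin k → P}
    (hy : Subgroup.closure (Set.range y) = ⊤) {t : Fin n ⊕ Fin k → FreeGroup (Fin n) × P}
    (ht : Subgroup.closure (Set.range t) = ⊤) :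
    Nielsen t (T (fun _ => 1) y) ↔
      Nielsen (fun x => qt N (t x)) (fun x => qt N (T (fun _ => 1) y x)) := by
  refine ⟨fun h => nl_map _ h, fun h => ?_⟩
  obtain ⟨t', h1, h2⟩ := nl_lift (qt N) h
  rw [qt_T] at h2
  obtain ⟨a, b, rfl, h3, h4⟩ := eq_T_of_qt (W := N) (t := t') (y := y) h2
  obtain ⟨a', b', h5, h6, h7⟩ := hS.red hi hNn hNP hy a b h3 h4 (nl_gen h1 ht)
  have h8 : a' = fun _ => 1 := by
    funext i
    exact Subgroup.mem_bot.1 (h6 i)
  have h9 : b' = y := by
    funext j
    have := Subgroup.mem_bot.1 (h7 j)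
    exact (inv_mul_eq_one.1 this).symm
  subst h8 h9
  exact nl_trans h1 h5

/-- the second block of a generating tuple generates the abelianization -/
lemma gen_ab {a : Fin n → P} {b : Fin k → P}
    (hg : Subgroup.closure (Set.range (T a b)) = ⊤) :
    Subgroup.closure (Set.range (fun j => (QuotientGroup.mk (b j) : P ⧸ commutator P))) = ⊤ := by
  have h1 : Subgroup.closure (Set.range b) ⊔ commutator P = ⊤ := by
    have h2 : (Subgroup.closure (Set.range b) ⊔ commutator P).Normal := by
      refine ⟨fun x hx g => ?_⟩
      have h3 : g * x * g⁻¹ = ⁅g, x⁆ * x := by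
        rw [commutatorElement_def]
        group
      rw [h3]
      refine mul_mem (Subgroup.mem_sup_right ?_) hx
      rw [commutator_def]
      exact Subgroup.commutator_mem_commutator trivial trivial
    rw [eq_top_iff, ← normal_of_gen' hg]
    refine Subgroup.normalClosure_le_normal ?_
    exact fun x hx => Subgroup.mem_sup_left (Subgroup.subset_closure hx)
  have h2 := map_sup_top (W := commutator P) h1
  have h3 : (commutator P).map (QuotientGroup.mk' (commutator P)) = ⊥ := by
    rw [Subgroup.map_eq_bot_iff, QuotientGroup.ker_mk']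
  rw [h3, sup_bot_eq] at h2
  exact h2

/-- **Part B.** The normal form against a generating tuple of `P`. -/
theorem series_T {i1 i2 : Fin n} (hi : i1 ≠ i2) (hS : Series P (commutator P) ⊥) {y : Fin k → P}
    (hy : Subgroup.closure (Set.range y) = ⊤) {a : Fin n → P} {b : Fin k → P}
    (hg : Subgroup.closure (Set.range (T a b)) = ⊤)
    (h : Nielsen (fun j => (QuotientGroup.mk (b j) : P ⧸ commutator P))
      (fun j => (QuotientGroup.mk (y j) : P ⧸ commutator P))) :
    Nielsen (T a b) (T (fun _ => 1) y) := by
  rw [series_iff hi (le_refl _) hS hy hg, qt_T, qt_T]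
  exact nl_trans (nl_full (gen_ab hg) _ _) (nl_inr _ h)

/-- **Part C**, for quotients of the second factor. -/
theorem series_quotient {i1 i2 : Fin n} (hi : i1 ≠ i2) (hS : Series P (commutator P) ⊥)
    {π : FreeGroup (Fin k) →* P}
    (hπ : Function.Surjective π) {g : Fin n ⊕ Fin k → FreeGroup (Fin n) × FreeGroup (Fin k)}
    (hg : Subgroup.closure (Set.range g) = ⊤) :
    Nielsen (fun x => MonoidHom.prodMap (MonoidHom.id (FreeGroup (Fin n))) π (g x))
      (T (fun _ => 1) (fun j => π (of j))) := by
  set pr : FreeGroup (Fin n) × FreeGroup (Fin k) →* FreeGroup (Fin n) × P :=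
    MonoidHom.prodMap (MonoidHom.id (FreeGroup (Fin n))) π with hpp
  have hps : Function.Surjective pr := Function.Surjective.prodMap Function.surjective_id hπ
  obtain ⟨a, b, h1⟩ := exists_T g (fst_gen hg)
  obtain ⟨b', h2, h3⟩ := nl_ab_basis (normal_of_gen' (nl_gen h1 hg))
  have h4 : Nielsen g (T a b') := nl_trans h1 (nl_inr a h2)
  have h5 : (fun x => pr (T a b' x)) = T (fun i => π (a i)) (fun j => π (b' j)) := by
    funext x
    rcases x with i | j <;> rfl
  have h6 := nl_map pr h4
  rw [h5] at h6
  refine nl_trans h6 ?_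
  have hgT : Subgroup.closure (Set.range (T (fun i => π (a i)) (fun j => π (b' j)))) = ⊤ :=
    nl_gen h6 (gen_map pr hps hg)
  have hy : Subgroup.closure (Set.range (fun j => π (of j))) = ⊤ :=
    gen_map π hπ (closure_of k)
  refine series_T hi hS hy hgT ?_
  have h7 : (fun j => (QuotientGroup.mk (π (b' j)) : P ⧸ commutator P)) =
      fun j => (QuotientGroup.mk (π (of j)) : P ⧸ commutator P) := by
    funext j
    refine (QuotientGroup.eq.2 ?_).symm
    have h8 : (commutator (FreeGroup (Fin k))).map π ≤ commutator P := by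
      rw [commutator_def, Subgroup.map_commutator, commutator_def]
      exact Subgroup.commutator_mono le_top le_top
    have h9 := h8 (Subgroup.mem_map_of_mem π (h3 j))
    rwa [map_mul, map_inv] at h9
  rw [h7]
  exact Relation.ReflTransGen.refl

/-- **Part C.** -/
theorem series_hom {i1 i2 : Fin n} (hi : i1 ≠ i2) {Γ : Type u} [Group Γ]
    (f : FreeGroup (Fin n) × FreeGroup (Fin k) →* Γ)
    (hS : Series (f.comp (MonoidHom.inr (FreeGroup (Fin n)) (FreeGroup (Fin k)))).range
      (commutator _) ⊥)
    {g : Fin n ⊕ Fin k → FreeGroup (Fin n) × FreeGroup (Fin k)}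
    (hg : Subgroup.closure (Set.range g) = ⊤) :
    Nielsen (fun x => f (g x)) (fun x => f (T (fun _ => 1) of x)) := by
  set π := (f.comp (MonoidHom.inr (FreeGroup (Fin n)) (FreeGroup (Fin k)))).rangeRestrict with hπ
  have hπs : Function.Surjective π := MonoidHom.rangeRestrict_surjective _
  let h : FreeGroup (Fin n) × (f.comp (MonoidHom.inr (FreeGroup (Fin n))
      (FreeGroup (Fin k)))).range →* Γ :=
    (f.comp (MonoidHom.inl (FreeGroup (Fin n)) (FreeGroup (Fin k)))).noncommCoprod
      (Subgroup.subtype _) (by
        rintro u ⟨_, v, rfl⟩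
        change f (u, 1) * f (1, v) = f (1, v) * f (u, 1)
        rw [← map_mul, ← map_mul]
        simp)
  have hf : ∀ x : FreeGroup (Fin n) × FreeGroup (Fin k),
      h (MonoidHom.prodMap (MonoidHom.id (FreeGroup (Fin n))) π x) = f x := by
    rintro ⟨u, v⟩
    change f (u, 1) * f (1, v) = f (u, v)
    rw [← map_mul]
    simp
  have h1 := nl_map h (series_quotient hi hS hπs hg)
  have h2 : (fun x => h (T (fun _ => 1) (fun j => π (of j)) x)) =
      fun x => f (T (fun _ => 1) of x) := by
    funext x
    rw [← hf]
    rcases x with i | j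
    · change h (of i, 1) = h (of i, π 1)
      rw [map_one]
    · rfl
  simp only [hf, h2] at h1
  exact h1

/-! ### examples -/

/-- nilpotent groups -/
theorem series_of_nilpotent (hP : Group.IsNilpotent P) : Series P (commutator P) ⊥ := by
  obtain ⟨r, hr⟩ := Subgroup.nilpotent_iff_lowerCentralSeries.1 hP
  have h1 : ∀ i, Series P (commutator P)
      (Subgroup.lowerCentralSeries (⊤ : Subgroup P) (i + 1)) := by
    intro i
    induction i with
    | zero =>
      rw [zero_add, Subgroup.top_lowerCentralSeries_one]
      exact Series.start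
    | succ i ih =>
      refine Series.step ih inferInstance (Subgroup.lowerCentralSeries_antitone _ (Nat.le_succ _))
        (Or.inl ?_)
      exact le_of_eq (Subgroup.lowerCentralSeries_succ _ _).symm
  have h2 : Subgroup.lowerCentralSeries (⊤ : Subgroup P) (r + 1) = ⊥ := by
    rw [eq_bot_iff, ← hr]
    exact Subgroup.lowerCentralSeries_antitone _ (Nat.le_succ _)
  rw [← h2]
  exact h1 r

/-- solvable groups in which every subgroup of the commutator subgroup is finitely generated -/
theorem series_of_solvable (hP : Group.IsSolvable P)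
    (hf : ∀ H : Subgroup P, H ≤ commutator P → H.FG) : Series P (commutator P) ⊥ := by
  have h2 : ∀ j, derivedSeries P (j + 1) ≤ commutator P := by
    intro j
    rw [derivedSeries_succ]
    exact Subgroup.commutator_mono le_top le_top
  have key : ∀ i : ℕ, Series P (commutator P) (derivedSeries P (i + 1)) := by
    intro i
    induction i with
    | zero =>
      have h1 : derivedSeries P (0 + 1) = commutator P := by
        rw [derivedSeries_succ, derivedSeries_zero]
        rfl
      rw [h1]
      exact Series.start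
    | succ i ih =>
      have hle : derivedSeries P (i + 1 + 1) ≤ derivedSeries P (i + 1) := by
        rw [derivedSeries_succ]
        exact Subgroup.commutator_le_left _ _
      obtain ⟨S, hS, hS'⟩ := (Subgroup.fg_iff _).1 (hf _ (h2 i))
      refine Series.step ih inferInstance hle (Or.inr (Or.inl ⟨le_refl _, S, hS', ?_⟩))
      rw [hS]
      exact (sup_eq_right.2 hle).symm
  obtain ⟨r, hr⟩ := (Group.isSolvable_def P).1 hP
  have h3 : derivedSeries P (r + 1) = ⊥ := by
    rw [derivedSeries_succ, hr]
    simp
  rw [← h3]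
  exact key r

/-- finite generation and injective homomorphisms -/
lemma fg_of_map {G H : Type*} [Group G] [Group H] {f : G →* H} (hf : Function.Injective f)
    {K : Subgroup G} (h : (K.map f).FG) : K.FG := by
  have h1 : Group.FG (K.map f) := (Group.fg_iff_subgroup_fg _).2 h
  let e : K ≃* K.map f := K.equivMapOfInjective f hf
  have h2 : Group.FG K := Group.fg_of_surjective (f := e.symm.toMonoidHom) e.symm.surjective
  exact (Group.fg_iff_subgroup_fg _).1 h2

end Pool.Agent.H46.NE
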