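import Pool.Agent.H46.NE.Fg

set_option autoImplicit false

/-!
# Descent along finitely generated abelian factors (MP_fabc18_al)
-/

namespace Pool.Agent.H46.NE

open Pool.Agent.H81.Nls (Move Nielsen)
open FreeGroup (of)
open scoped commutatorElement

universe u

variable {P : Type u} [Group P] {n k : ℕ}

/-- the tuples which are standard modulo `V` can be moved to tuples which are standard modulo
`W` -/
def Red (n : ℕ) (y : Fin k → P) (V W : Subgroup P) : Prop :=
  ∀ (a : Fin n → P) (b : Fin k → P), (∀ i, a i ∈ V) → (∀ j, (y j)⁻¹ * b j ∈ V) →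
    Subgroup.closure (Set.range (T a b)) = ⊤ →
    ∃ (a' : Fin n → P) (b' : Fin k → P), Nielsen (T a b) (T a' b') ∧ (∀ i, a' i ∈ W) ∧
      ∀ j, (y j)⁻¹ * b' j ∈ W

lemma Red.trans {y : Fin k → P} {V X W : Subgroup P} (h1 : Red n y V X) (h2 : Red n y X W) :
    Red n y V W := by
  intro a b ha hb hg
  obtain ⟨a1, b1, h3, h4, h5⟩ := h1 a b ha hb hg
  obtain ⟨a2, b2, h6, h7, h8⟩ := h2 a1 b1 h4 h5 (nl_gen h3 hg)
  exact ⟨a2, b2, nl_trans h3 h6, h7, h8⟩

lemma Red.refl (y : Fin k → P) (V : Subgroup P) : Red n y V V :=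
  fun a b ha hb _ => ⟨a, b, Relation.ReflTransGen.refl, ha, hb⟩

/-- the factors in which every nontrivial submodule has finite index -/
lemma red_ji {i1 i2 : Fin n} (hi : i1 ≠ i2) {V W : Subgroup P} (hVn : V.Normal)
    (hVP : V ≤ commutator P) (hW : W.Normal) (hWV : W ≤ V) (hc : ⁅V, V⁆ ≤ W)
    (htf : ∀ x ∈ V, ∀ m : ℕ, 0 < m → x ^ m ∈ W → x ∈ W)
    (hji : ∀ X : Subgroup P, X.Normal → W ≤ X → X ≤ V → X ≠ W → X.relIndex V ≠ 0)
    {u : P} (hu : u ∈ V) {q : ℕ} (hq : 0 < q) (hu2 : ∀ z ∈ V, u⁻¹ * z ^ q ∉ W)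
    {y : Fin k → P} (hy : Subgroup.closure (Set.range y) = ⊤) : Red n y V W := by
  intro a b ha hb hg
  set π := QuotientGroup.mk' W with hπ
  have hπs : Function.Surjective π := QuotientGroup.mk'_surjective W
  have hπ1 : ∀ x, π x = 1 ↔ x ∈ W := fun x => QuotientGroup.eq_one_iff x
  have hV1 : (V.map π).Normal := hVn.map π hπs
  have hW1 : W.map π = ⊥ := by
    rw [Subgroup.map_eq_bot_iff, hπ, QuotientGroup.ker_mk']
  have hV2 : V.map π ≤ commutator (P ⧸ W) := by
    have h1 : (commutator P).map π = commutator (P ⧸ W) := by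
      rw [commutator_def, Subgroup.map_commutator, Subgroup.map_top_of_surjective _ hπs]
      rfl
    rw [← h1]
    exact Subgroup.map_mono hVP
  have hVc : ∀ x ∈ V.map π, ∀ z ∈ V.map π, x * z = z * x := by
    intro x hx z hz
    have h6 := Subgroup.commutator_mem_commutator hx hz
    rw [map_comm hc, Subgroup.mem_bot] at h6
    exact commutatorElement_eq_one_iff_mul_comm.1 h6
  have hstep : Nielsen (T (fun i => (QuotientGroup.mk (a i) : P ⧸ W))
      (fun j => (QuotientGroup.mk (b j) : P ⧸ W)))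
      (T (fun _ => 1) (fun j => (QuotientGroup.mk (y j) : P ⧸ W))) := by
    refine step_ji hi (V := V.map π) hV2 hVc ?_ ?_ (u := π u) ⟨u, hu, rfl⟩ hq ?_
      (gen_map π hπs hy) ?_ ?_ ?_
    · rintro _ ⟨x, hx, rfl⟩ m hm hxm
      rw [← map_pow, hπ1] at hxm
      exact (hπ1 x).2 (htf x hx m hm hxm)
    · intro X hXn hXV hXb
      have h3 : W ≤ X.comap π := by
        intro w hw
        rw [Subgroup.mem_comap, (hπ1 w).2 hw]
        exact one_mem _
      have h4 : X.comap π ≤ V := by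
        intro x hx
        obtain ⟨v, hv, hvx⟩ := Subgroup.mem_map.1 (hXV (Subgroup.mem_comap.1 hx))
        have h5 : v⁻¹ * x ∈ W := QuotientGroup.eq.1 hvx
        have h6 : x = v * (v⁻¹ * x) := by group
        rw [h6]
        exact mul_mem hv (hWV h5)
      rw [← Subgroup.relIndex_comap]
      refine hji _ (hXn.comap π) h3 h4 ?_
      intro h
      apply hXb
      rw [← Subgroup.map_comap_eq_self_of_surjective hπs X, h, hW1]
    · rintro _ ⟨z, hz, rfl⟩ h
      refine hu2 z hz ?_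
      rw [← hπ1, map_mul, map_inv, map_pow, h, inv_mul_cancel]
    · intro j
      exact ⟨(y j)⁻¹ * b j, hb j, rfl⟩
    · intro i
      exact ⟨a i, ha i, rfl⟩
    · rw [← qt_T]
      exact gen_map _ (Function.Surjective.prodMap Function.surjective_id hπs) hg
  rw [← qt_T] at hstep
  obtain ⟨t', h1, h2⟩ := nl_lift (qt W) hstep
  obtain ⟨a', b', rfl, h3, h4⟩ := eq_T_of_qt h2
  exact ⟨a', b', h1, h3, h4⟩

/-- the subgroup generated by the squares -/
def sqs (X : Subgroup P) : Subgroup P := Subgroup.closure {z | ∃ x ∈ X, x ^ 2 = z}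

lemma sqs_le (X : Subgroup P) : sqs X ≤ X := by
  rw [sqs, Subgroup.closure_le]
  rintro _ ⟨x, hx, rfl⟩
  exact pow_mem hx 2

lemma sqs_normal {X : Subgroup P} (hX : X.Normal) : (sqs X).Normal := by
  refine ⟨fun z hz g => ?_⟩
  have h1 : sqs X ≤ (sqs X).comap (MulAut.conj g).toMonoidHom := by
    rw [sqs, Subgroup.closure_le]
    rintro _ ⟨x, hx, rfl⟩
    change g * x ^ 2 * g⁻¹ ∈ sqs X
    exact Subgroup.subset_closure ⟨g * x * g⁻¹, hX.conj_mem x hx g, by rw [conj_pow]⟩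
  exact h1 hz

lemma mem_sqs {X W : Subgroup P} [hW : W.Normal] (hc : ⁅X, X⁆ ≤ W) {z : P} (hz : z ∈ sqs X) :
    ∃ x ∈ X, ∃ w ∈ W, z = x ^ 2 * w := by
  rw [sqs] at hz
  induction hz using Subgroup.closure_induction with
  | mem z hz =>
    obtain ⟨x, hx, rfl⟩ := hz
    exact ⟨x, hx, 1, one_mem W, by rw [mul_one]⟩
  | one => exact ⟨1, one_mem X, 1, one_mem W, by simp⟩
  | mul z z' _ _ h h' =>
    obtain ⟨x, hx, w, hw, rfl⟩ := h
    obtain ⟨x', hx', w', hw', rfl⟩ := h'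
    refine ⟨x * x', mul_mem hx hx', ((x * x') ^ 2)⁻¹ * (x ^ 2 * w * (x' ^ 2 * w')), ?_, by group⟩
    have h1 : ((x * x') ^ 2)⁻¹ * (x ^ 2 * w * (x' ^ 2 * w')) =
        (x'⁻¹ * ⁅x⁻¹, x'⁻¹⁆ * x'⁻¹⁻¹) * ((x' ^ 2)⁻¹ * w * (x' ^ 2)⁻¹⁻¹) * w' := by
      simp only [commutatorElement_def, pow_two, mul_inv_rev, inv_inv, mul_assoc,
        inv_mul_cancel_left, mul_inv_cancel_left]
    rw [h1]
    have h2 : ⁅x⁻¹, x'⁻¹⁆ ∈ W :=
      hc (Subgroup.commutator_mem_commutator (inv_mem hx) (inv_mem hx'))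
    exact mul_mem (mul_mem (hW.conj_mem _ h2 _) (hW.conj_mem _ hw _)) hw'
  | inv z _ h =>
    obtain ⟨x, hx, w, hw, rfl⟩ := h
    refine ⟨x⁻¹, inv_mem hx, x ^ 2 * w⁻¹ * (x ^ 2)⁻¹, hW.conj_mem _ (inv_mem hw) _, ?_⟩
    rw [pow_two]
    group

/-- **Finitely generated abelian factors.** -/
theorem red_fg {i1 i2 : Fin n} (hi : i1 ≠ i2) {V W : Subgroup P} (hVP : V ≤ commutator P)
    (hW : W.Normal) (hc : ⁅V, V⁆ ≤ W) (hN : Noeth W V)
    {y : Fin k → P} (hy : Subgroup.closure (Set.range y) = ⊤) :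
    ∀ N : ℕ, ∀ X : Subgroup P, X.Normal → W ≤ X → X ≤ V → (W ⊔ sqs X).relIndex X ≤ N →
      Red n y X W := by
  intro N
  induction N with
  | zero =>
    intro X hXn hWX hXV h0
    exfalso
    refine hN.finite (X := X) (X1 := W ⊔ sqs X) ?_ hc le_sup_left (sup_le hWX (sqs_le X)) hXV ?_
      (Nat.le_zero.1 h0)
    · have := sqs_normal hXn
      exact Subgroup.sup_normal W (sqs X)
    · intro x hx
      exact ⟨2, by norm_num, Subgroup.mem_sup_right (Subgroup.subset_closure ⟨x, hx, rfl⟩)⟩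
  | succ N ih =>
    intro X hXn hWX hXV h0
    have hcX : ⁅X, X⁆ ≤ W := (Subgroup.commutator_mono hXV hXV).trans hc
    by_cases hfin : W.relIndex X ≠ 0
    · intro a b ha hb hg
      exact fin_factor i1 hW hy _ X hXn (hXV.trans hVP) hWX hcX hfin (le_refl _) a b ha hb hg
    push Not at hfin
    obtain ⟨X1, hX1⟩ := hN.max {Y | Y.Normal ∧ W ≤ Y ∧ Y ≤ X ∧ Y.relIndex X = 0}
      (fun Y hY => ⟨hY.2.1, hY.2.2.1.trans hXV⟩) ⟨W, hW, le_refl _, hWX, hfin⟩
    obtain ⟨hX1n, hWX1, hX1X, hX10⟩ := hX1.prop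
    have hne : ¬ X ≤ X1 := by
      intro h
      rw [le_antisymm hX1X h, Subgroup.relIndex_self] at hX10
      exact one_ne_zero hX10
    have hcX1 : ⁅X, X⁆ ≤ X1 := hcX.trans hWX1
    -- torsion-free
    have htf : ∀ x ∈ X, ∀ m : ℕ, 0 < m → x ^ m ∈ X1 → x ∈ X1 := by
      have hpow : ∀ x ∈ X, ∀ z ∈ X, ∀ m : ℕ, x ^ m ∈ X1 → z ^ m ∈ X1 → (x * z) ^ m ∈ X1 := by
        intro x hx z hz m hxm hzm
        have h1 : (QuotientGroup.mk' X1) ((x * z) ^ m) = 1 := by
          have h2 : Commute ((QuotientGroup.mk' X1) x) ((QuotientGroup.mk' X1) z) := by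
            rw [commute_iff_eq, ← map_mul, ← map_mul]
            refine QuotientGroup.eq.2 ?_
            have h3 : (x * z)⁻¹ * (z * x) = ⁅z⁻¹, x⁻¹⁆ := by
              rw [commutatorElement_def]
              group
            rw [h3]
            exact hcX1 (Subgroup.commutator_mem_commutator (inv_mem hz) (inv_mem hx))
          have h4 : (QuotientGroup.mk' X1) (x ^ m) = 1 := (QuotientGroup.eq_one_iff _).2 hxm
          have h5 : (QuotientGroup.mk' X1) (z ^ m) = 1 := (QuotientGroup.eq_one_iff _).2 hzm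
          rw [map_pow, map_mul, h2.mul_pow, ← map_pow, ← map_pow, h4, h5, one_mul]
        exact (QuotientGroup.eq_one_iff _).1 h1
      let Y : Subgroup P :=
        { carrier := {x | x ∈ X ∧ ∃ m : ℕ, 0 < m ∧ x ^ m ∈ X1}
          one_mem' := ⟨one_mem X, 1, one_pos, by rw [one_pow]; exact one_mem X1⟩
          mul_mem' := by
            rintro x z ⟨hx, m, hm, hxm⟩ ⟨hz, r, hr, hzr⟩
            refine ⟨mul_mem hx hz, m * r, Nat.mul_pos hm hr, hpow x hx z hz _ ?_ ?_⟩
            · rw [pow_mul]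
              exact pow_mem hxm r
            · rw [mul_comm, pow_mul]
              exact pow_mem hzr m
          inv_mem' := by
            rintro x ⟨hx, m, hm, hxm⟩
            refine ⟨inv_mem hx, m, hm, ?_⟩
            rw [inv_pow]
            exact inv_mem hxm }
      have hYn : Y.Normal := by
        refine ⟨?_⟩
        rintro x ⟨hx, m, hm, hxm⟩ g
        refine ⟨hXn.conj_mem x hx g, m, hm, ?_⟩
        rw [conj_pow]
        exact hX1n.conj_mem _ hxm g
      have hX1Y : X1 ≤ Y := fun x hx => ⟨hX1X hx, 1, one_pos, by rw [pow_one]; exact hx⟩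
      have hYX : Y ≤ X := fun x hx => hx.1
      have h1 : X1.relIndex Y ≠ 0 :=
        hN.finite hX1n hc hWX1 hX1Y (hYX.trans hXV) (fun x hx => hx.2)
      have h2 : Y.relIndex X = 0 := by
        by_contra h
        have h3 := Subgroup.relIndex_mul_relIndex X1 Y X hX1Y hYX
        rw [hX10] at h3
        exact (mul_ne_zero h1 h) h3
      have h4 : Y ≤ X1 := hX1.le_of_ge ⟨hYn, hWX1.trans hX1Y, hYX, h2⟩ hX1Y
      intro x hx m hm hxm
      exact h4 ⟨hx, m, hm, hxm⟩
    have hji : ∀ Y : Subgroup P, Y.Normal → X1 ≤ Y → Y ≤ X → Y ≠ X1 → Y.relIndex X ≠ 0 := by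
      intro Y hY hX1Y hYX hYX1 h
      exact hYX1 (le_antisymm (hX1.le_of_ge ⟨hY, hWX1.trans hX1Y, hYX, h⟩ hX1Y) hX1Y)
    obtain ⟨u, hu, hu2⟩ := hN.nonsq hX1n hc hWX1 hX1X hXV htf hne
    have h1 : Red n y X X1 := red_ji hi hXn (hXV.trans hVP) hX1n hX1X hcX1 htf hji hu
      (by norm_num : 0 < 2) hu2 hy
    refine h1.trans (ih X1 hX1n hWX1 (hX1X.trans hXV) ?_)
    -- the measure
    have hsn : (W ⊔ sqs X).Normal := by
      have := sqs_normal hXn
      exact Subgroup.sup_normal W (sqs X)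
    have hle : W ⊔ sqs X ≤ X := sup_le hWX (sqs_le X)
    have e1 : (W ⊔ sqs X1).relIndex X1 = (W ⊔ sqs X).relIndex X1 := by
      have h2 : (W ⊔ sqs X) ⊓ X1 = W ⊔ sqs X1 := by
        apply le_antisymm
        · intro z hz
          obtain ⟨hz1, hz2⟩ := Subgroup.mem_inf.1 hz
          have hz3 : z ∈ ((sqs X ⊔ W : Subgroup P) : Set P) := by
            rw [sup_comm]
            exact hz1
          rw [Subgroup.mul_normal] at hz3
          obtain ⟨s, hs, w, hw, rfl⟩ := hz3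
          obtain ⟨x, hx, w', hw', rfl⟩ := mem_sqs hcX hs
          have hw1 : w ∈ X1 := hWX1 hw
          have h3 : x ^ 2 ∈ X1 := by
            have h4 : x ^ 2 = x ^ 2 * w' * w * (w⁻¹ * w'⁻¹) := by group
            rw [h4]
            exact mul_mem hz2 (mul_mem (inv_mem hw1) (inv_mem (hWX1 hw')))
          have h4 : x ∈ X1 := htf x hx 2 (by norm_num) h3
          refine mul_mem (mul_mem ?_ (Subgroup.mem_sup_left hw')) (Subgroup.mem_sup_left hw)
          exact Subgroup.mem_sup_right (Subgroup.subset_closure ⟨x, h4, rfl⟩)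
        · refine sup_le (le_inf le_sup_left hWX1) (le_inf ?_ (sqs_le X1))
          refine le_trans ?_ le_sup_right
          rw [sqs, Subgroup.closure_le]
          rintro _ ⟨x, hx, rfl⟩
          exact Subgroup.subset_closure ⟨x, hX1X hx, rfl⟩
      rw [← h2, Subgroup.inf_relIndex_right]
    have hX0 : (W ⊔ sqs X).relIndex X ≠ 0 := by
      refine hN.finite hsn hc le_sup_left hle hXV ?_
      intro x hx
      exact ⟨2, by norm_num, Subgroup.mem_sup_right (Subgroup.subset_closure ⟨x, hx, rfl⟩)⟩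
    have hle2 : W ⊔ sqs X ≤ X1 ⊔ (W ⊔ sqs X) := le_sup_right
    have hle3 : X1 ⊔ (W ⊔ sqs X) ≤ X := sup_le hX1X hle
    have e2 := Subgroup.relIndex_mul_relIndex _ _ _ hle2 hle3
    have e3 : (W ⊔ sqs X).relIndex (X1 ⊔ (W ⊔ sqs X)) = (W ⊔ sqs X).relIndex X1 :=
      Subgroup.relIndex_sup_right _ _
    rw [e3] at e2
    have h2 : (X1 ⊔ (W ⊔ sqs X)).relIndex X ≠ 1 := by
      intro h
      have h3 := Subgroup.relIndex_eq_one.1 h
      have h4 := h3 hu
      have h5 : u ∈ ((sqs X ⊔ X1 : Subgroup P) : Set P) := by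
        have h6 : X1 ⊔ (W ⊔ sqs X) ≤ sqs X ⊔ X1 :=
          sup_le le_sup_right (sup_le (hWX1.trans le_sup_right) le_sup_left)
        exact h6 h4
      rw [Subgroup.mul_normal] at h5
      obtain ⟨s, hs, w, hw, hsw⟩ := h5
      obtain ⟨x, hx, w', hw', rfl⟩ := mem_sqs hcX hs
      refine hu2 x hx ?_
      have hw1 : w ∈ X1 := hw
      have h7 : u = x ^ 2 * w' * w := hsw.symm
      rw [h7]
      have h8 : (x ^ 2 * w' * w)⁻¹ * x ^ 2 = w⁻¹ * w'⁻¹ := by group
      rw [h8]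
      exact mul_mem (inv_mem hw1) (inv_mem (hWX1 hw'))
    have h3 : (X1 ⊔ (W ⊔ sqs X)).relIndex X ≠ 0 := by
      intro h
      rw [h, mul_zero] at e2
      exact hX0 e2.symm
    have h4 : (W ⊔ sqs X).relIndex X1 * 2 ≤ (W ⊔ sqs X).relIndex X := by
      rw [← e2]
      exact Nat.mul_le_mul_left _ (by omega)
    have h5 : (W ⊔ sqs X).relIndex X1 ≠ 0 := by
      intro h
      rw [h, zero_mul] at e2
      exact hX0 e2.symm
    rw [e1]
    omega

end Pool.Agent.H46.NE
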