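import Pool.Agent.H46.NE.Adds

set_option autoImplicit false

/-!
# Extension of a state by redundant edges (MP_fabc18_al)
-/

namespace Pool.Agent.H46.NE

variable {ε L P : Type*} [Group P]

/-- the vertices of the edges in `U` and the base point -/
def VU (U : Set ε) : Set (Vx ε) := {v | v = none ∨ ∃ e ∈ U, ∃ s, v = some (e, s)}

lemma none_mem_VU (U : Set ε) : (none : Vx ε) ∈ VU U := Or.inl rfl

lemma some_mem_VU {U : Set ε} {e : ε} (he : e ∈ U) (s : Bool) : (some (e, s) : Vx ε) ∈ VU U :=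
  Or.inr ⟨e, he, s, rfl⟩

lemma some_mem_VU_iff {U : Set ε} {e : ε} {s : Bool} :
    (some (e, s) : Vx ε) ∈ VU U ↔ e ∈ U := by
  constructor
  · rintro (h | ⟨f, hf, t, h⟩)
    · cases h
    · simp only [Option.some.injEq, Prod.mk.injEq] at h
      rw [h.1]; exact hf
  · exact fun h => some_mem_VU h s

/-- `X'` is `X` (on the edges in `U`) with redundant edges -/
structure Ext (U : Set ε) (Z : Set (Vx ε)) (X X' : St ε P) : Prop where
  agree : Agree (VU U) X.K X'.K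
  J : ∀ e ∈ U, ∀ f ∈ U, (X.J e f ↔ X'.J e f)
  apart : ∀ z ∈ Z, Apart (VU U) X'.K z

/-- everything known stays known -/
def Mono (X Y : St ε P) : Prop := X.J ≤ Y.J ∧ ∀ a g b, X.K.R a g b → Y.K.R a g b

lemma Mono.refl (X : St ε P) : Mono X X := ⟨le_rfl, fun _ _ _ h => h⟩

lemma Mono.trans {X Y Z : St ε P} (h1 : Mono X Y) (h2 : Mono Y Z) : Mono X Z :=
  ⟨le_trans h1.1 h2.1, fun a g b h => h2.2 a g b (h1.2 a g b h)⟩

lemma Stp.mono {lab : ε → L} {U : Set ε} {X Y : St ε P} (h : Stp lab U X Y) : Mono X Y := by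
  obtain ⟨_, e, _, f, _, _, _, s, c, _, rfl⟩ := h
  exact ⟨le_joinS _ _ _, fun a g b h => KS.mono _ _ _ _ h⟩

lemma Ext.step {lab : ε → L} {U U' : Set ε} {Z : Set (Vx ε)} {X X' Y : St ε P} (hU : U ⊆ U')
    (hX' : X'.Valid lab) (h : Ext U Z X X') (hs : Stp lab U X Y) :
    ∃ Y', Stp lab U' X' Y' ∧ Ext U Z Y Y' := by
  obtain ⟨hX, e, he, f, hf, hl, hJ, s, c, hc, rfl⟩ := hs
  have hc' : X'.K.R (some (e, s)) c (some (f, s)) :=
    (h.agree.R _ (some_mem_VU he s) _ (some_mem_VU hf s) c).1 hc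
  have hJ' : ¬ X'.J e f := fun hh => hJ ((h.J e he f hf).2 hh)
  refine ⟨_, ⟨hX', e, hU he, f, hU hf, hl, hJ', s, c, hc', rfl⟩, ?_, ?_, ?_⟩
  · exact h.agree.add hX.K hX'.K (some_mem_VU he _) c (some_mem_VU hf _)
  · intro a ha b hb
    have h1 := h.J a ha b hb
    have h2 := h.J a ha e he
    have h3 := h.J f hf b hb
    have h4 := h.J a ha f hf
    have h5 := h.J e he b hb
    rw [joinS_iff, joinS_iff, h1, h2, h3, h4, h5]
  · intro z hz
    exact (h.apart z hz).add hX'.K (some_mem_VU he _) c (some_mem_VU hf _)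

lemma Ext.steps {lab : ε → L} {U U' : Set ε} {Z : Set (Vx ε)} {X X' Y : St ε P} (hU : U ⊆ U')
    (hX' : X'.Valid lab) (h : Ext U Z X X') (hs : Relation.ReflTransGen (Stp lab U) X Y) :
    ∃ Y', Relation.ReflTransGen (Stp lab U') X' Y' ∧ Ext U Z Y Y' ∧ Y'.Valid lab ∧
      Mono X' Y' := by
  induction hs with
  | refl => exact ⟨X', Relation.ReflTransGen.refl, h, hX', Mono.refl X'⟩
  | tail _ hstep ih =>
    obtain ⟨Y', h1, h2, h3, h4⟩ := ih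
    obtain ⟨Z', h5, h6⟩ := h2.step hU h3 hstep
    exact ⟨Z', h1.tail h5, h6, h5.valid, h4.trans h5.mono⟩

/-- a final state stays final when all new edges are joined to old ones -/
lemma Fnl.up {lab : ε → L} {U U' : Set ε} (hU : U ⊆ U') {Y Y' : St ε P} (hY : Fnl lab U Y)
    (hv : Y'.Valid lab) (hJ : ∀ e ∈ U, ∀ f ∈ U, Y.J e f → Y'.J e f)
    (hR : ∀ a ∈ VU U, ∀ b ∈ VU U, ∀ g, Y.K.R a g b → Y'.K.R a g b)
    (hn : ∀ e' ∈ U', ∃ e ∈ U, Y'.J e' e) : Fnl lab U' Y' := by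
  refine ⟨hv, ?_, ?_, ?_⟩
  · intro x
    obtain ⟨e, he, hl⟩ := hY.full x
    exact ⟨e, hU he, hl⟩
  · intro e he f hf hl
    obtain ⟨e1, he1, h1⟩ := hn e he
    obtain ⟨f1, hf1, h2⟩ := hn f hf
    have h3 : lab e1 = lab f1 := by rw [← hv.lab _ _ h1, ← hv.lab _ _ h2, hl]
    exact Y'.J.trans' h1 (Y'.J.trans' (hJ e1 he1 f1 hf1 (hY.join e1 he1 f1 hf1 h3))
      (Y'.J.symm' h2))
  · intro e he s
    obtain ⟨e1, he1, h1⟩ := hn e he
    obtain ⟨u, hu⟩ := hv.J _ _ h1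
    obtain ⟨g, hg⟩ := hY.conn e1 he1 s
    have h2 := hR _ (none_mem_VU U) _ (some_mem_VU he1 s) g hg
    exact ⟨_, hv.K.mul h2 (hv.K.inv (hu s))⟩

theorem Good.extend {lab : ε → L} {U U' : Set ε} {X X' : St ε P} {l : ACq P} (hU : U ⊆ U')
    (hX' : X'.Valid lab) (h : Ext U ∅ X X') (hn : ∀ e' ∈ U', ∃ e ∈ U, X'.J e' e)
    (hg : Good lab U X l) : Good lab U' X' l := by
  obtain ⟨Y, h1, h2, rfl⟩ := hg
  obtain ⟨Y', h3, h4, h5, h6⟩ := h.steps hU hX' h1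
  refine ⟨Y', h3, Fnl.up hU h2 h5 (fun e he f hf hh => (h4.J e he f hf).1 hh)
    (fun a ha b hb g hh => (h4.agree.R a ha b hb g).1 hh) ?_, h4.agree.lam.symm⟩
  intro e' he'
  obtain ⟨e, he, hh⟩ := hn e' he'
  exact ⟨e, he, h6.1 hh⟩

theorem Good.extend_dangling {lab : ε → L} {U U' : Set ε} {X X' : St ε P} {l : ACq P}
    (hU : U ⊆ U') (hX' : X'.Valid lab) (f : ε) (s : Bool) (hf : f ∈ U')
    (h : Ext U {some (f, s)} X X')
    (hn : ∀ e' ∈ U', (∃ e ∈ U, X'.J e' e) ∨ X'.J e' f)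
    (hp : ∃ p ∈ VU U, ∃ g, X'.K.R p g (some (f, !s)))
    (hg : Good lab U X l) : Good lab U' X' l := by
  obtain ⟨Y, h1, h2, rfl⟩ := hg
  obtain ⟨Y', h3, h4, h5, h6⟩ := h.steps hU hX' h1
  obtain ⟨e, he, hl⟩ := h2.full (lab f)
  obtain ⟨p, hp, g, hpg⟩ := hp
  -- `e` and `f` have a known constraint at the end `!s`
  have hnp : ∃ k, Y.K.R none k p := by
    rcases hp with rfl | ⟨e1, he1, t, rfl⟩
    · exact ⟨1, h2.valid.K.one _⟩
    · exact h2.conn e1 he1 t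
  obtain ⟨k, hk⟩ := hnp
  obtain ⟨k', hk'⟩ := h2.conn e he (!s)
  have h7 : Y'.K.R (some (e, !s)) (k'⁻¹ * k) p :=
    (h4.agree.R _ (some_mem_VU he _) _ hp _).1 (h2.valid.K.mul (h2.valid.K.inv hk') hk)
  have h8 : Y'.K.R (some (e, !s)) (k'⁻¹ * k * g) (some (f, !s)) :=
    h5.K.mul h7 (h6.2 _ _ _ hpg)
  have hap := h4.apart (some (f, s)) rfl
  have hJ : ¬ Y'.J e f := by
    intro hh
    obtain ⟨a, ha⟩ := h5.J e f hh
    exact hap _ (some_mem_VU he s) _ (ha s)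
  have hst : Stp lab U' Y' ⟨joinS Y'.J e f, Y'.K.add (some (e, !!s)) (k'⁻¹ * k * g)
      (some (f, !!s))⟩ := ⟨h5, e, hU he, f, hf, hl, hJ, !s, _, h8, rfl⟩
  refine ⟨_, h3.tail hst, Fnl.up hU h2 hst.valid ?_ ?_ ?_, ?_⟩
  · intro a ha b hb hh
    exact Or.inl ((h4.J a ha b hb).1 hh)
  · intro a ha b hb c hh
    exact KS.mono _ _ _ _ ((h4.agree.R a ha b hb c).1 hh)
  · intro e' he'
    rcases hn e' he' with ⟨e1, he1, hh⟩ | hh
    · exact ⟨e1, he1, Or.inl (h6.1 hh)⟩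
    · exact ⟨e, he, Or.inr (Or.inr ⟨h6.1 hh, Y'.J.refl' e⟩)⟩
  · change (Y'.K.add (some (e, !!s)) (k'⁻¹ * k * g) (some (f, !!s))).lam = _
    rw [Bool.not_not, KS.lam_add_of_not, h4.agree.lam]
    rintro ⟨g0, h0⟩
    exact hap _ (some_mem_VU he s) _ h0

end Pool.Agent.H46.NE
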