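import Pool.Agent.H46.NE.One

set_option autoImplicit false

/-!
# Quotients of the second factor (MP_fabc18_al)

Generating tuples of `F_n × P` when the commutator subgroup of `P` is filtered by central factors
and abelian chief factors of `P`.
-/

namespace Pool.Agent.H46.NE

open Pool.Agent.H81.Nls (Move Nielsen)
open FreeGroup (of)
open scoped commutatorElement

section lift

variable {ι G H : Type*} [DecidableEq ι] [Group G] [Group H]

/-- Nielsen moves lift along homomorphisms -/
lemma nl_lift (f : G →* H) {t : ι → G} {u : ι → H} (h : Nielsen (fun x => f (t x)) u) :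
    ∃ t' : ι → G, Nielsen t t' ∧ (fun x => f (t' x)) = u := by
  induction h with
  | refl => exact ⟨t, Relation.ReflTransGen.refl, rfl⟩
  | tail _ h2 ih =>
    obtain ⟨t1, h3, h4⟩ := ih
    rcases h2 with ⟨σ, rfl⟩ | ⟨i, rfl⟩ | ⟨i, j, hij, rfl⟩
    · refine ⟨t1 ∘ σ, Relation.ReflTransGen.tail h3 (Or.inl ⟨σ, rfl⟩), ?_⟩
      rw [← h4]
      rfl
    · refine ⟨Function.update t1 i (t1 i)⁻¹,
        Relation.ReflTransGen.tail h3 (Or.inr (Or.inl ⟨i, rfl⟩)), ?_⟩
      rw [comp_update, map_inv, ← h4]
    · refine ⟨Function.update t1 i (t1 i * t1 j),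
        Relation.ReflTransGen.tail h3 (Or.inr (Or.inr ⟨i, j, hij, rfl⟩)), ?_⟩
      rw [comp_update, map_mul, ← h4]

/-- Nielsen moves and homomorphisms -/
lemma nl_map (f : G →* H) {t t' : ι → G} (h : Nielsen t t') :
    Nielsen (fun x => f (t x)) (fun x => f (t' x)) := by
  induction h with
  | refl => exact Relation.ReflTransGen.refl
  | tail _ h2 ih =>
    refine nl_trans ih (Relation.ReflTransGen.single ?_)
    rcases h2 with ⟨σ, rfl⟩ | ⟨i, rfl⟩ | ⟨i, j, hij, rfl⟩
    · exact Or.inl ⟨σ, rfl⟩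
    · refine Or.inr (Or.inl ⟨i, ?_⟩)
      rw [comp_update, map_inv]
    · refine Or.inr (Or.inr ⟨i, j, hij, ?_⟩)
      rw [comp_update, map_mul]

end lift

variable {P : Type*} [Group P] {n k : ℕ}

/-- Nielsen moves of the second block -/
lemma nl_inr (a : Fin n → P) {b b' : Fin k → P} (h : Nielsen b b') :
    Nielsen (T a b) (T a b') := by
  induction h with
  | refl => exact Relation.ReflTransGen.refl
  | tail _ h2 ih =>
    refine nl_trans ih (Relation.ReflTransGen.single ?_)
    rcases h2 with ⟨σ, rfl⟩ | ⟨j, rfl⟩ | ⟨i, j, hij, rfl⟩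
    · refine Or.inl ⟨Equiv.sumCongr (Equiv.refl _) σ, ?_⟩
      funext x
      rcases x with i | j <;> rfl
    · refine Or.inr (Or.inl ⟨Sum.inr j, ?_⟩)
      rw [T_update_inr]
      congr 1
    · refine Or.inr (Or.inr ⟨Sum.inr i, Sum.inr j, by simpa using hij, ?_⟩)
      rw [T_update_inr]
      congr 1

/-- if the second block generates, the second coordinates of the first block are arbitrary -/
lemma nl_full {b : Fin k → P} (hb : Subgroup.closure (Set.range b) = ⊤) (a a' : Fin n → P) :
    Nielsen (T a b) (T a' b) := by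
  have h1 := nielsen_change b Finset.univ a a' (by
    intro i _ c _ _
    have h2 : Subgroup.closure (Set.range b) ≤
        (Subgroup.closure (T c b '' {x | x ≠ Sum.inl i})).comap
          (MonoidHom.inr (FreeGroup (Fin n)) P) := by
      rw [Subgroup.closure_le]
      rintro _ ⟨j, rfl⟩
      exact Subgroup.subset_closure ⟨Sum.inr j, by simp, rfl⟩
    rw [hb] at h2
    exact h2 (Subgroup.mem_top _))
  simpa using h1

/-- a normal subgroup whose quotient is generated by one element contains the commutators -/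
lemma comm_le {M : Subgroup P} [M.Normal] {z : P}
    (h : ∀ S : Subgroup P, M ≤ S → z ∈ S → S = ⊤) : commutator P ≤ M := by
  rw [← Subgroup.Normal.quotient_commutative_iff_commutator_le]
  have h1 : ∀ q : P, (QuotientGroup.mk q : P ⧸ M) ∈
      Subgroup.zpowers (QuotientGroup.mk z : P ⧸ M) := by
    intro q
    have h2 := h ((Subgroup.zpowers (QuotientGroup.mk z : P ⧸ M)).comap (QuotientGroup.mk' M))
      (by
        intro m hm
        have : (QuotientGroup.mk' M) m = 1 := (QuotientGroup.eq_one_iff m).2 hm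
        rw [Subgroup.mem_comap, this]
        exact one_mem _) (Subgroup.mem_zpowers _)
    have : q ∈ (⊤ : Subgroup P) := trivial
    rw [← h2] at this
    exact this
  refine ⟨⟨fun x y => ?_⟩⟩
  obtain ⟨x, rfl⟩ := QuotientGroup.mk_surjective x
  obtain ⟨y, rfl⟩ := QuotientGroup.mk_surjective y
  obtain ⟨s, hs⟩ := h1 x
  obtain ⟨t, ht⟩ := h1 y
  rw [← hs, ← ht]
  simp only [← zpow_add, add_comm]

/-- **Lemma X.** Both blocks generate and differ by a commutator at one place. -/
lemma nl_commMul (i0 : Fin n) {b : Fin k → P} {i : Fin k} {c : P} (hc : c ∈ commutator P)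
    (hb : Subgroup.closure (Set.range b) = ⊤)
    (hb' : Subgroup.closure (Set.range (Function.update b i (b i * c))) = ⊤)
    (a a' : Fin n → P) : Nielsen (T a b) (T a' (Function.update b i (b i * c))) := by
  set A : Fin n → P := fun _ => b i with hA
  refine nl_trans (nl_full hb a A) (nl_trans ?_ (nl_full hb' A a'))
  set H := Subgroup.closure (T A b '' {x | x ≠ Sum.inr i}) with hH
  let M : Subgroup P := H.comap (MonoidHom.inr (FreeGroup (Fin n)) P)
  have hx : ∀ l, ∃ u, ((u, b l) : FreeGroup (Fin n) × P) ∈ H := by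
    intro l
    by_cases hl : l = i
    · subst hl
      exact ⟨of i0, Subgroup.subset_closure ⟨Sum.inl i0, by simp, rfl⟩⟩
    · exact ⟨1, Subgroup.subset_closure ⟨Sum.inr l, by simpa using hl, rfl⟩⟩
  have hyw : ∀ w : P, ∃ u, ((u, w) : FreeGroup (Fin n) × P) ∈ H := by
    intro w
    have hw : w ∈ Subgroup.closure (Set.range b) := by rw [hb]; trivial
    induction hw using Subgroup.closure_induction with
    | mem x hx' =>
      obtain ⟨l, rfl⟩ := hx'
      exact hx l
    | one => exact ⟨1, one_mem H⟩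
    | mul x y _ _ hx hy =>
      obtain ⟨u, hu⟩ := hx
      obtain ⟨v, hv⟩ := hy
      exact ⟨u * v, mul_mem hu hv⟩
    | inv x _ hx =>
      obtain ⟨u, hu⟩ := hx
      exact ⟨u⁻¹, inv_mem hu⟩
  have hMn : M.Normal := by
    refine ⟨fun v hv g => ?_⟩
    obtain ⟨u, hu⟩ := hyw g
    have hv' : ((1, v) : FreeGroup (Fin n) × P) ∈ H := hv
    have h2 := mul_mem (mul_mem hu hv') (inv_mem hu)
    change ((1, g * v * g⁻¹) : FreeGroup (Fin n) × P) ∈ H
    have h3 : ((u, g) : FreeGroup (Fin n) × P) * (1, v) * (u, g)⁻¹ =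
        (1, g * v * g⁻¹) := by
      simp
    rw [h3] at h2
    exact h2
  have h1 : commutator P ≤ M := comm_le (z := b i) (by
    intro S hS hz
    rw [eq_top_iff, ← hb, Subgroup.closure_le]
    rintro _ ⟨l, rfl⟩
    by_cases hl : l = i
    · subst hl
      exact hz
    · exact hS (Subgroup.subset_closure ⟨Sum.inr l, by simpa using hl, rfl⟩))
  have h2 : ((1, c) : FreeGroup (Fin n) × P) ∈ H := h1 hc
  have h3 := nl_mul (g := T A b) (i := Sum.inr i) h2
  have h4 : T A b (Sum.inr i) * (1, c) = (1, b i * c) := by simp [T]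
  rw [h4, ← T_update_inr] at h3
  exact h3

/-- the entries of the second block, changed one after the other -/
lemma nl_entries {a : Fin n → P} {y b : Fin k → P} {V : Subgroup P}
    (hb : ∀ j, (y j)⁻¹ * b j ∈ V)
    (h : ∀ b : Fin k → P, (∀ j, (y j)⁻¹ * b j ∈ V) → ∀ i, ∀ v ∈ V,
      Nielsen (T a b) (T a (Function.update b i (b i * v)))) :
    Nielsen (T a b) (T a y) := by
  have key : ∀ R : Finset (Fin k),
      Nielsen (T a b) (T a (fun j => if j ∈ R then y j else b j)) := by
    intro R
    induction R using Finset.induction_on with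
    | empty =>
      simp only [Finset.notMem_empty, if_false]
      exact Relation.ReflTransGen.refl
    | insert i R hi ih =>
      refine nl_trans ih ?_
      set c : Fin k → P := fun j => if j ∈ R then y j else b j with hc
      have hci : c i = b i := by simp [hc, hi]
      have h1 := h c (by
        intro j
        by_cases hj : j ∈ R
        · simp [hc, hj, one_mem]
        · simpa [hc, hj] using hb j) i ((b i)⁻¹ * y i) (by
          have := inv_mem (hb i)
          simpa using this)
      have h4 : Function.update c i (c i * ((b i)⁻¹ * y i)) =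
          fun j => if j ∈ insert i R then y j else b j := by
        funext l
        by_cases hl : l = i
        · subst hl
          simp [hci]
        · simp [hc, hl]
      rw [h4] at h1
      exact h1
  simpa using key Finset.univ

/-- the subgroup generated by `b` and `V` is everything -/
lemma decomp {V : Subgroup P} [V.Normal] {y b : Fin k → P}
    (hy : Subgroup.closure (Set.range y) = ⊤) (hb : ∀ j, (y j)⁻¹ * b j ∈ V) (q : P) :
    ∃ β ∈ Subgroup.closure (Set.range b), ∃ z ∈ V, q = β * z := by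
  have h1 : Subgroup.closure (Set.range b) ⊔ V = ⊤ := by
    rw [eq_top_iff, ← hy, Subgroup.closure_le]
    rintro _ ⟨j, rfl⟩
    have h2 : y j = b j * ((y j)⁻¹ * b j)⁻¹ := by group
    change y j ∈ _
    rw [h2]
    exact mul_mem (Subgroup.mem_sup_left (Subgroup.subset_closure ⟨j, rfl⟩))
      (Subgroup.mem_sup_right (inv_mem (hb j)))
  have h3 : q ∈ ((Subgroup.closure (Set.range b) ⊔ V : Subgroup P) : Set P) := by
    rw [h1]; trivial
  rw [Subgroup.mul_normal] at h3
  obtain ⟨β, hβ, z, hz, rfl⟩ := h3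
  exact ⟨β, hβ, z, hz, rfl⟩

/-- central perturbations of generating tuples generate -/
lemma gen_central {V : Subgroup P} [V.Normal] (hV : V ≤ Subgroup.center P)
    (hV' : V ≤ commutator P) {y b : Fin k → P} (hy : Subgroup.closure (Set.range y) = ⊤)
    (hb : ∀ j, (y j)⁻¹ * b j ∈ V) : Subgroup.closure (Set.range b) = ⊤ := by
  have h1 : commutator P ≤ Subgroup.closure (Set.range b) := by
    rw [commutator_def, Subgroup.commutator_le]
    intro g _ h _
    obtain ⟨β, hβ, z, hz, rfl⟩ := decomp hy hb g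
    obtain ⟨β', hβ', z', hz', rfl⟩ := decomp hy hb h
    have hzc : ∀ g, g * z = z * g := Subgroup.mem_center_iff.1 (hV hz)
    have hzc' : ∀ g, g * z' = z' * g := Subgroup.mem_center_iff.1 (hV hz')
    have h2 : ⁅β * z, β' * z'⁆ = ⁅β, β'⁆ := by
      rw [commutatorElement_def, commutatorElement_def]
      have e1 : β * z * (β' * z') = z * z' * (β * β') := by
        rw [hzc β, hzc' β', mul_assoc z β, ← mul_assoc β z', hzc' β]
        simp only [mul_assoc]
      have e2 : (β' * z') * (β * z) = z * z' * (β' * β) := by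
        rw [hzc β, hzc' β', mul_assoc z' β', ← mul_assoc β' z, hzc β']
        rw [← hzc z']
        simp only [mul_assoc]
      calc β * z * (β' * z') * (β * z)⁻¹ * (β' * z')⁻¹
          = (β * z * (β' * z')) * ((β' * z') * (β * z))⁻¹ := by group
        _ = (z * z' * (β * β')) * (z * z' * (β' * β))⁻¹ := by rw [e1, e2]
        _ = (z * z') * (β * β' * (β' * β)⁻¹) * (z * z')⁻¹ := by group
        _ = (β * β' * (β' * β)⁻¹) * (z * z') * (z * z')⁻¹ := by
          rw [← (Subgroup.mem_center_iff.1 (mul_mem (hV hz) (hV hz'))) (β * β' * (β' * β)⁻¹)]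
        _ = β * β' * β⁻¹ * β'⁻¹ := by group
    rw [h2, commutatorElement_def]
    exact mul_mem (mul_mem (mul_mem hβ hβ') (inv_mem hβ)) (inv_mem hβ')
  rw [eq_top_iff, ← hy, Subgroup.closure_le]
  rintro _ ⟨j, rfl⟩
  have h2 : y j = b j * ((y j)⁻¹ * b j)⁻¹ := by group
  change y j ∈ _
  rw [h2]
  exact mul_mem (Subgroup.subset_closure ⟨j, rfl⟩) (h1 (hV' (inv_mem (hb j))))

/-- the central case -/
lemma step_central (i0 : Fin n) {V : Subgroup P} [V.Normal] (hV : V ≤ Subgroup.center P)
    (hV' : V ≤ commutator P) {y b : Fin k → P} (hy : Subgroup.closure (Set.range y) = ⊤)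
    (hb : ∀ j, (y j)⁻¹ * b j ∈ V) (v : Fin n → P) :
    Nielsen (T v b) (T (fun _ => 1) y) := by
  refine nl_trans (nl_full (gen_central hV hV' hy hb) v (fun _ => 1)) ?_
  refine nl_entries hb ?_
  intro b hb i z hz
  refine nl_commMul i0 (hV' hz) (gen_central hV hV' hy hb) (gen_central hV hV' hy ?_) _ _
  intro j
  by_cases hj : j = i
  · subst hj
    rw [Function.update_self, ← mul_assoc]
    exact mul_mem (hb j) hz
  · rw [Function.update_of_ne hj]
    exact hb j

/-- conjugation of the second coordinate of an entry of the first block -/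
lemma nl_conj_inl {V : Subgroup P} [V.Normal] (hVc : ∀ x ∈ V, ∀ z ∈ V, x * z = z * x)
    {y b : Fin k → P} (hy : Subgroup.closure (Set.range y) = ⊤) (hb : ∀ j, (y j)⁻¹ * b j ∈ V)
    {v : Fin n → P} {i0 : Fin n} (hv : v i0 ∈ V) (g : P) :
    Nielsen (T v b) (T (Function.update v i0 (g * v i0 * g⁻¹)) b) := by
  obtain ⟨β, hβ, z, hz, rfl⟩ := decomp hy hb g
  have h1 : ((1, β) : FreeGroup (Fin n) × P) ∈
      Subgroup.closure (T v b '' {x | x ≠ Sum.inl i0}) := by
    have h2 : Subgroup.closure (Set.range b) ≤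
        (Subgroup.closure (T v b '' {x | x ≠ Sum.inl i0})).comap
          (MonoidHom.inr (FreeGroup (Fin n)) P) := by
      rw [Subgroup.closure_le]
      rintro _ ⟨j, rfl⟩
      exact Subgroup.subset_closure ⟨Sum.inr j, by simp, rfl⟩
    exact h2 hβ
  have h2 := nl_conj h1
  have h3 : ((1, β) : FreeGroup (Fin n) × P) * T v b (Sum.inl i0) * (1, β)⁻¹ =
      (of i0, β * z * v i0 * (β * z)⁻¹) := by
    have h4 : β * z * v i0 * (β * z)⁻¹ = β * v i0 * β⁻¹ := by
      rw [mul_assoc β z, hVc z hz _ hv]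
      group
    rw [h4]
    simp [T]
  rw [h3, ← T_update_inl] at h2
  exact h2

/-- the entries of `y V` -/
lemma upd_mem {V : Subgroup P} {y b : Fin k → P} (hb : ∀ j, (y j)⁻¹ * b j ∈ V) (i : Fin k)
    {e : P} (he : e ∈ V) : ∀ j, (y j)⁻¹ * Function.update b i (b i * e) j ∈ V := by
  intro j
  by_cases hj : j = i
  · subst hj
    rw [Function.update_self, ← mul_assoc]
    exact mul_mem (hb j) he
  · rw [Function.update_of_ne hj]
    exact hb j

/-- the elements `q⁻¹ w q w⁻¹` -/
lemma nl_elem {V : Subgroup P} [hVn : V.Normal] (hVc : ∀ x ∈ V, ∀ z ∈ V, x * z = z * x)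
    {y : Fin k → P} (hy : Subgroup.closure (Set.range y) = ⊤)
    {v : Fin n → P} {i0 : Fin n} (hv : v i0 ∈ V) (q : P) :
    ∀ g : P, ∀ b : Fin k → P, (∀ j, (y j)⁻¹ * b j ∈ V) → ∀ i,
      Nielsen (T v b) (T v (Function.update b i (b i *
        (q⁻¹ * (g * v i0 * g⁻¹) * q * (g * v i0 * g⁻¹)⁻¹)))) := by
  have hq : q ∈ Subgroup.closure (Set.range y) := by rw [hy]; trivial
  have hw : ∀ g, g * v i0 * g⁻¹ ∈ V := fun g => hVn.conj_mem _ hv g
  have he : ∀ q g, q⁻¹ * (g * v i0 * g⁻¹) * q * (g * v i0 * g⁻¹)⁻¹ ∈ V := by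
    intro q g
    have h1 := hVn.conj_mem _ (hw g) q⁻¹
    rw [inv_inv] at h1
    exact mul_mem h1 (inv_mem (hw g))
  induction hq using Subgroup.closure_induction with
  | mem q hq =>
    obtain ⟨j, rfl⟩ := hq
    intro g b hb i
    set w := g * v i0 * g⁻¹ with hwd
    set e := (y j)⁻¹ * w * y j * w⁻¹ with hed
    have heV : e ∈ V := he (y j) g
    have h1 : Nielsen (T v b) (T (Function.update v i0 w) b) := nl_conj_inl hVc hy hb hv g
    have h3 : Nielsen (T v (Function.update b i (b i * e)))
        (T (Function.update v i0 w) (Function.update b i (b i * e))) :=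
      nl_conj_inl hVc hy (upd_mem hb i heV) hv g
    refine nl_trans h1 (nl_trans ?_ (nl_symm h3))
    -- the elements `e`
    have heq : e = (b j)⁻¹ * w * b j * w⁻¹ := by
      have h4 : (y j)⁻¹ * w * y j ∈ V := by
        have := hVn.conj_mem _ (hw g) (y j)⁻¹
        rwa [inv_inv] at this
      have h5 := hVc _ h4 _ (hb j)
      rw [hed]
      congr 1
      calc (y j)⁻¹ * w * y j = ((y j)⁻¹ * b j)⁻¹ * (((y j)⁻¹ * b j) * ((y j)⁻¹ * w * y j)) := by
            group
        _ = ((y j)⁻¹ * b j)⁻¹ * (((y j)⁻¹ * w * y j) * ((y j)⁻¹ * b j)) := by rw [h5]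
        _ = (b j)⁻¹ * w * b j := by group
    set v' := Function.update v i0 w with hv'
    have hx : ((of i0, w) : FreeGroup (Fin n) × P) ∈
        Subgroup.closure (T v' b '' {x | x ≠ Sum.inr i}) := by
      refine Subgroup.subset_closure ⟨Sum.inl i0, by simp, ?_⟩
      simp [T, hv']
    by_cases hji : j = i
    · subst hji
      have h6 := nl_conj hx
      have h7 : ((of i0, w) : FreeGroup (Fin n) × P) * T v' b (Sum.inr j) * (of i0, w)⁻¹ =
          (1, b j * e) := by
        rw [heq]
        refine Prod.ext ?_ ?_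
        · simp [T]
        · change w * b j * w⁻¹ = _
          group
      rw [h7, ← T_update_inr] at h6
      exact h6
    · have hy' : ((1, b j) : FreeGroup (Fin n) × P) ∈
          Subgroup.closure (T v' b '' {x | x ≠ Sum.inr i}) :=
        Subgroup.subset_closure ⟨Sum.inr j, by simpa using hji, rfl⟩
      have h6 : ((1, e) : FreeGroup (Fin n) × P) ∈
          Subgroup.closure (T v' b '' {x | x ≠ Sum.inr i}) := by
        have h7 := mul_mem (mul_mem (mul_mem (inv_mem hy') hx) hy') (inv_mem hx)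
        have h8 : ((1, b j) : FreeGroup (Fin n) × P)⁻¹ * (of i0, w) * (1, b j) * (of i0, w)⁻¹ =
            (1, e) := by
          rw [heq]
          refine Prod.ext ?_ ?_
          · simp
          · rfl
        rwa [h8] at h7
      have h9 := nl_mul h6
      have h10 : T v' b (Sum.inr i) * (1, e) = (1, b i * e) := by simp [T]
      rw [h10, ← T_update_inr] at h9
      exact h9
  | one =>
    intro g b _ i
    simp only [inv_one, one_mul, mul_one, mul_inv_cancel, Function.update_eq_self]
    exact Relation.ReflTransGen.refl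
  | mul q r _ _ hq hr =>
    intro g b hb i
    have h1 := hr (q⁻¹ * g) b hb i
    have h2 := hq g _ (upd_mem hb i (he r (q⁻¹ * g))) i
    refine nl_trans h1 ?_
    rw [Function.update_self, Function.update_idem] at h2
    have h3 : b i * (r⁻¹ * (q⁻¹ * g * v i0 * (q⁻¹ * g)⁻¹) * r *
        (q⁻¹ * g * v i0 * (q⁻¹ * g)⁻¹)⁻¹) *
        (q⁻¹ * (g * v i0 * g⁻¹) * q * (g * v i0 * g⁻¹)⁻¹) =
        b i * ((q * r)⁻¹ * (g * v i0 * g⁻¹) * (q * r) * (g * v i0 * g⁻¹)⁻¹) := by
      group
    rw [h3] at h2
    exact h2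
  | inv q _ hq =>
    intro g b hb i
    have h1 : ∀ j, (y j)⁻¹ * Function.update b i
        (b i * ((q⁻¹)⁻¹ * (g * v i0 * g⁻¹) * q⁻¹ * (g * v i0 * g⁻¹)⁻¹)) j ∈ V :=
      upd_mem hb i (he q⁻¹ g)
    have h2 := hq (q * g) _ h1 i
    rw [Function.update_self, Function.update_idem] at h2
    have h3 : b i * ((q⁻¹)⁻¹ * (g * v i0 * g⁻¹) * q⁻¹ * (g * v i0 * g⁻¹)⁻¹) *
        (q⁻¹ * (q * g * v i0 * (q * g)⁻¹) * q * (q * g * v i0 * (q * g)⁻¹)⁻¹) = b i := by
      group
    rw [h3, Function.update_eq_self] at h2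
    exact nl_symm h2

/-- the noncentral case -/
lemma step_chief {V : Subgroup P} [hVn : V.Normal] (hVz : ¬ V ≤ Subgroup.center P)
    (hVc : ∀ x ∈ V, ∀ z ∈ V, x * z = z * x)
    (hmin : ∀ W : Subgroup P, W.Normal → W ≤ V → W = ⊥ ∨ W = V)
    {y b : Fin k → P} (hy : Subgroup.closure (Set.range y) = ⊤) (hb : ∀ j, (y j)⁻¹ * b j ∈ V)
    {v : Fin n → P} {i0 : Fin n} (hv : v i0 ∈ V) (hv1 : v i0 ≠ 1) :
    Nielsen (T v b) (T (fun _ => 1) y) := by
  refine nl_trans ?_ (nl_full hy v _)
  refine nl_entries hb ?_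
  -- the subgroup of the good elements
  let E : Subgroup P :=
    { carrier := {d | d ∈ V ∧ ∀ b : Fin k → P, (∀ j, (y j)⁻¹ * b j ∈ V) → ∀ i,
        Nielsen (T v b) (T v (Function.update b i (b i * d)))}
      one_mem' := by
        refine ⟨one_mem V, fun b _ i => ?_⟩
        rw [mul_one, Function.update_eq_self]
        exact Relation.ReflTransGen.refl
      mul_mem' := by
        rintro d e ⟨hd, hd'⟩ ⟨he, he'⟩
        refine ⟨mul_mem hd he, fun b hb i => ?_⟩
        have h2 := he' _ (upd_mem hb i hd) i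
        rw [Function.update_self, Function.update_idem, mul_assoc] at h2
        exact nl_trans (hd' b hb i) h2
      inv_mem' := by
        rintro d ⟨hd, hd'⟩
        refine ⟨inv_mem hd, fun b hb i => ?_⟩
        have h2 := hd' _ (upd_mem hb i (inv_mem hd)) i
        rw [Function.update_self, Function.update_idem, inv_mul_cancel_right,
          Function.update_eq_self] at h2
        exact nl_symm h2 }
  let S : Set P := {d | ∃ q g, d = q⁻¹ * (g * v i0 * g⁻¹) * q * (g * v i0 * g⁻¹)⁻¹}
  have hSV : S ⊆ V := by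
    rintro _ ⟨q, g, rfl⟩
    have h1 := hVn.conj_mem _ (hVn.conj_mem _ hv g) q⁻¹
    rw [inv_inv] at h1
    exact mul_mem h1 (inv_mem (hVn.conj_mem _ hv g))
  have hSE : S ⊆ E := by
    intro d hd
    refine ⟨hSV hd, ?_⟩
    obtain ⟨q, g, rfl⟩ := hd
    intro b hb i
    exact nl_elem hVc hy hv q g b hb i
  have hWE : Subgroup.normalClosure S ≤ E := by
    rw [Subgroup.normalClosure, Subgroup.closure_le]
    intro x hx
    obtain ⟨a, ha, hax⟩ := Group.mem_conjugatesOfSet_iff.1 hx
    obtain ⟨c, rfl⟩ := isConj_iff.1 hax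
    refine hSE ?_
    obtain ⟨q, g, rfl⟩ := ha
    exact ⟨c * q * c⁻¹, c * g, by group⟩
  have hWV : Subgroup.normalClosure S ≤ V := Subgroup.normalClosure_le_normal hSV
  have hW : Subgroup.normalClosure S = V := by
    rcases hmin _ Subgroup.normalClosure_normal hWV with h | h
    · exfalso
      have hc : v i0 ∈ Subgroup.center P := by
        rw [Subgroup.mem_center_iff]
        intro q
        have h1 : q⁻¹ * (1 * v i0 * 1⁻¹) * q * (1 * v i0 * 1⁻¹)⁻¹ ∈
            Subgroup.normalClosure S := Subgroup.subset_normalClosure ⟨q, 1, rfl⟩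
        rw [h, Subgroup.mem_bot] at h1
        have h2 : q * (q⁻¹ * (1 * v i0 * 1⁻¹) * q * (1 * v i0 * 1⁻¹)⁻¹) * v i0 = q * 1 * v i0 := by
          rw [h1]
        have h3 : q * (q⁻¹ * (1 * v i0 * 1⁻¹) * q * (1 * v i0 * 1⁻¹)⁻¹) * v i0 = v i0 * q := by
          group
        rw [h3, mul_one] at h2
        exact h2.symm
      rcases hmin (Subgroup.center P ⊓ V) inferInstance inf_le_right with h4 | h4
      · have : v i0 ∈ Subgroup.center P ⊓ V := ⟨hc, hv⟩
        rw [h4, Subgroup.mem_bot] at this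
        exact hv1 this
      · exact hVz (h4 ▸ inf_le_left)
    · exact h
  intro b hb i z hz
  rw [← hW] at hz
  exact (hWE hz).2 b hb i

/-- the second block of a generating tuple with trivial second coordinates generates -/
lemma gen_of_one {b : Fin k → P} {v : Fin n → P} (hv : ∀ i, v i = 1)
    (hg : Subgroup.closure (Set.range (T v b)) = ⊤) : Subgroup.closure (Set.range b) = ⊤ := by
  have h1 : Subgroup.closure (Set.range (T v b)) ≤
      (Subgroup.closure (Set.range b)).comap (MonoidHom.snd (FreeGroup (Fin n)) P) := by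
    rw [Subgroup.closure_le]
    rintro _ ⟨x, rfl⟩
    rcases x with i | j
    · change v i ∈ Subgroup.closure (Set.range b)
      rw [hv i]
      exact one_mem _
    · exact Subgroup.subset_closure ⟨j, rfl⟩
  rw [eq_top_iff]
  intro x _
  have : ((1, x) : FreeGroup (Fin n) × P) ∈ Subgroup.closure (Set.range (T v b)) := by
    rw [hg]; trivial
  exact h1 this

/-- **The step.** -/
theorem step_lemma (i0 : Fin n) {V : Subgroup P} [hVn : V.Normal] (hV' : V ≤ commutator P)
    (hV : V ≤ Subgroup.center P ∨ ((∀ x ∈ V, ∀ z ∈ V, x * z = z * x) ∧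
      ∀ W : Subgroup P, W.Normal → W ≤ V → W = ⊥ ∨ W = V))
    {y b : Fin k → P} (hy : Subgroup.closure (Set.range y) = ⊤) (hb : ∀ j, (y j)⁻¹ * b j ∈ V)
    {v : Fin n → P} (hv : ∀ i, v i ∈ V) (hg : Subgroup.closure (Set.range (T v b)) = ⊤) :
    Nielsen (T v b) (T (fun _ => 1) y) := by
  by_cases hVz : V ≤ Subgroup.center P
  · exact step_central i0 hVz hV' hy hb v
  rcases hV with h | ⟨hVc, hmin⟩
  · exact absurd h hVz
  by_cases h1 : ∀ i, v i = 1
  · -- an element of `V`
    have h2 : ∃ u ∈ V, u ≠ 1 := by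
      by_contra h
      push Not at h
      refine hVz (fun x hx => ?_)
      rw [h x hx]
      exact one_mem _
    obtain ⟨u, hu, hu1⟩ := h2
    refine nl_trans (nl_full (gen_of_one h1 hg) v (fun _ => u)) ?_
    exact step_chief (i0 := i0) hVz hVc hmin hy hb hu hu1
  · push Not at h1
    obtain ⟨i, hi⟩ := h1
    exact step_chief (i0 := i) hVz hVc hmin hy hb (hv i) hi

end Pool.Agent.H46.NE
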