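import Pool.Agent.H46.NE.Easy

set_option autoImplicit false

/-!
# The consequences for `F_n × F_n` (MP_fabc18_al)
-/

namespace Pool.Agent.H46.NE

open Pool.Agent.H81.Nls (Move Nielsen)
open FreeGroup (of)

/-- the standard tuple `(x_i, 1), (1, y_j)` -/
def std (n : ℕ) : Fin n ⊕ Fin n → FreeGroup (Fin n) × FreeGroup (Fin n) :=
  Sum.elim (fun i => (of i, 1)) (fun j => (1, of j))

lemma std_eq (n : ℕ) : std n = T (fun _ => 1) of := rfl

lemma closure_of (n : ℕ) :
    Subgroup.closure (Set.range (of : Fin n → FreeGroup (Fin n))) = ⊤ :=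
  FreeGroup.closure_range_of _

/-- `{1} × F` lies in a subgroup if the letters do -/
lemma one_prod_mem {G : Type*} [Group G] {n : ℕ} {H : Subgroup (G × FreeGroup (Fin n))}
    (h : ∀ i, ((1, of i) : G × FreeGroup (Fin n)) ∈ H) (w : FreeGroup (Fin n)) :
    ((1, w) : G × FreeGroup (Fin n)) ∈ H := by
  have hw : w ∈ Subgroup.closure (Set.range (of : Fin n → FreeGroup (Fin n))) := by
    rw [closure_of]; trivial
  induction hw using Subgroup.closure_induction with
  | mem x hx => obtain ⟨i, rfl⟩ := hx; exact h i
  | one => exact one_mem H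
  | mul x y _ _ hx hy =>
    have := mul_mem hx hy
    simpa using this
  | inv x _ hx =>
    have := inv_mem hx
    simpa using this

/-- with the letters as relators, all normal forms are equivalent -/
lemma nielsen_of_basis {n : ℕ} (a a' : Fin n → FreeGroup (Fin n)) :
    Nielsen (T a of) (T a' of) := by
  have h := nielsen_change (of : Fin n → FreeGroup (Fin n)) Finset.univ a a' (by
    intro i _ c _ _
    apply one_prod_mem
    intro j
    exact Subgroup.subset_closure ⟨Sum.inr j, by simp, rfl⟩)
  simpa using h

/-- **The unstable criterion.** -/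
theorem std_iff_ac {n : ℕ} (a b : Fin n → FreeGroup (Fin n))
    (ha : Subgroup.closure (Set.range a) = ⊤) : Nielsen (std n) (T a b) ↔ AC of b := by
  constructor
  · intro h
    rw [std_eq] at h
    exact ac_of_nielsen h
  · intro h
    rw [std_eq]
    exact nl_trans (nielsen_of_basis _ a) (nielsen_of_ac ha h)

/-- `T(y; b)` generates if and only if `b` normally generates -/
theorem gen_iff {n k : ℕ} (b : Fin k → FreeGroup (Fin n)) :
    Subgroup.closure (Set.range (T (of : Fin n → FreeGroup (Fin n)) b)) = ⊤ ↔
      Subgroup.normalClosure (Set.range b) = ⊤ := by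
  constructor
  · intro h
    set N := Subgroup.normalClosure (Set.range b) with hN
    have hNn : N.Normal := Subgroup.normalClosure_normal
    let S : Subgroup (FreeGroup (Fin n) × FreeGroup (Fin n)) :=
      { carrier := {p | p.1⁻¹ * p.2 ∈ N}
        mul_mem' := by
          intro p q hp hq
          change (p.1 * q.1)⁻¹ * (p.2 * q.2) ∈ N
          have h1 := mul_mem (hNn.conj_mem _ hp q.1⁻¹) hq
          have h2 : q.1⁻¹ * (p.1⁻¹ * p.2) * q.1⁻¹⁻¹ * (q.1⁻¹ * q.2) =
              (p.1 * q.1)⁻¹ * (p.2 * q.2) := by group
          rw [h2] at h1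
          exact h1
        one_mem' := by
          change (1 : FreeGroup (Fin n))⁻¹ * 1 ∈ N
          simp [N.one_mem]
        inv_mem' := by
          intro p hp
          change (p.1⁻¹)⁻¹ * p.2⁻¹ ∈ N
          have h1 := hNn.conj_mem _ (inv_mem hp) p.1
          have h2 : p.1 * (p.1⁻¹ * p.2)⁻¹ * p.1⁻¹ = (p.1⁻¹)⁻¹ * p.2⁻¹ := by group
          rw [h2] at h1
          exact h1 }
    have hS : S = ⊤ := by
      rw [eq_top_iff, ← h, Subgroup.closure_le]
      rintro _ ⟨x, rfl⟩
      rcases x with i | j
      · change (of i)⁻¹ * of i ∈ N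
        simp [N.one_mem]
      · change (1 : FreeGroup (Fin n))⁻¹ * b j ∈ N
        rw [inv_one, one_mul]
        exact Subgroup.subset_normalClosure ⟨j, rfl⟩
    rw [eq_top_iff]
    intro v _
    have h1 : ((1, v) : FreeGroup (Fin n) × FreeGroup (Fin n)) ∈ S := by rw [hS]; trivial
    change (1 : FreeGroup (Fin n))⁻¹ * v ∈ N at h1
    rwa [inv_one, one_mul] at h1
  · intro h
    set H := Subgroup.closure (Set.range (T (of : Fin n → FreeGroup (Fin n)) b)) with hH
    have hdiag : ∀ w : FreeGroup (Fin n), (w, w) ∈ H := by
      intro w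
      have hw : w ∈ Subgroup.closure (Set.range (of : Fin n → FreeGroup (Fin n))) := by
        rw [closure_of]; trivial
      induction hw using Subgroup.closure_induction with
      | mem x hx =>
        obtain ⟨i, rfl⟩ := hx
        exact Subgroup.subset_closure ⟨Sum.inl i, rfl⟩
      | one => exact one_mem H
      | mul x y _ _ hx hy => exact mul_mem hx hy
      | inv x _ hx => exact inv_mem hx
    let M : Subgroup (FreeGroup (Fin n)) :=
      H.comap (MonoidHom.inr (FreeGroup (Fin n)) (FreeGroup (Fin n)))
    have hM : M.Normal := by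
      refine ⟨fun v hv g => ?_⟩
      have h1 := mul_mem (mul_mem (hdiag g) hv) (inv_mem (hdiag g))
      change ((1, g * v * g⁻¹) : FreeGroup (Fin n) × FreeGroup (Fin n)) ∈ H
      have h2 : (g, g) * (MonoidHom.inr (FreeGroup (Fin n)) (FreeGroup (Fin n))) v * (g, g)⁻¹ =
          (1, g * v * g⁻¹) := by
        simp
      rw [h2] at h1
      exact h1
    have hMtop : M = ⊤ := by
      rw [eq_top_iff, ← h]
      apply Subgroup.normalClosure_le_normal
      rintro _ ⟨j, rfl⟩
      exact Subgroup.subset_closure ⟨Sum.inr j, rfl⟩
    rw [eq_top_iff]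
    rintro ⟨u, v⟩ _
    have h1 : ((1, u⁻¹ * v) : FreeGroup (Fin n) × FreeGroup (Fin n)) ∈ H := by
      have : u⁻¹ * v ∈ M := by rw [hMtop]; trivial
      exact this
    have h2 := mul_mem (hdiag u) h1
    simpa using h2

/-- Q1 for `n` implies the Andrews-Curtis conjecture without stabilization in rank `n` -/
theorem ac_of_Q1 {n : ℕ}
    (hQ : ∀ t : Fin n ⊕ Fin n → FreeGroup (Fin n) × FreeGroup (Fin n),
      Subgroup.closure (Set.range t) = ⊤ → Nielsen (std n) t)
    (b : Fin n → FreeGroup (Fin n)) (hb : Subgroup.normalClosure (Set.range b) = ⊤) :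
    AC of b :=
  (std_iff_ac of b (closure_of n)).1 (hQ _ ((gen_iff b).2 hb))

/-- the restriction of Q1 to the tuples `T(y; b)` is the unstable Andrews-Curtis conjecture -/
theorem restricted_iff (n : ℕ) :
    (∀ b : Fin n → FreeGroup (Fin n), Subgroup.closure (Set.range (T of b)) = ⊤ →
      Nielsen (std n) (T of b)) ↔
    (∀ b : Fin n → FreeGroup (Fin n), Subgroup.normalClosure (Set.range b) = ⊤ → AC of b) := by
  constructor
  · intro h b hb
    exact (std_iff_ac of b (closure_of n)).1 (h b ((gen_iff b).2 hb))
  · intro h b hb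
    exact (std_iff_ac of b (closure_of n)).2 (h b ((gen_iff b).1 hb))

section stable

variable {n : ℕ} (s : ℕ)

/-- inclusion of `F_n` in `F_(n+s)` -/
def up : FreeGroup (Fin n) →* FreeGroup (Fin (n + s)) := FreeGroup.map (Fin.castAdd s)

/-- `a`, followed by `s` trivial elements -/
def stA (a : Fin n → FreeGroup (Fin n)) : Fin (n + s) → FreeGroup (Fin (n + s)) :=
  Fin.append (fun i => up s (a i)) (fun _ => 1)

/-- `b`, followed by the `s` new letters -/
def stB (b : Fin n → FreeGroup (Fin n)) : Fin (n + s) → FreeGroup (Fin (n + s)) :=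
  Fin.append (fun i => up s (b i)) (fun i => of (Fin.natAdd n i))

lemma up_of (i : Fin n) : up s (of i) = of (Fin.castAdd s i) := by simp [up]

/-- the letters lie in a subgroup if the old letters do -/
lemma letters_mem {G : Type*} [Group G] {H : Subgroup (G × FreeGroup (Fin (n + s)))}
    (h1 : ∀ v : FreeGroup (Fin n), ((1, up s v) : G × FreeGroup (Fin (n + s))) ∈ H)
    (h2 : ∀ i : Fin s, ((1, of (Fin.natAdd n i)) : G × FreeGroup (Fin (n + s))) ∈ H)
    (w : FreeGroup (Fin (n + s))) : ((1, w) : G × FreeGroup (Fin (n + s))) ∈ H := by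
  apply one_prod_mem
  intro i
  refine Fin.addCases (fun j => ?_) (fun j => ?_) i
  · have := h1 (of j)
    rwa [up_of] at this
  · exact h2 j

/-- normal generation from a generating normal form -/
lemma normal_of_gen {a b : Fin n → FreeGroup (Fin n)}
    (h : Subgroup.closure (Set.range (T a b)) = ⊤) :
    Subgroup.normalClosure (Set.range b) = ⊤ := by
  set N := Subgroup.normalClosure (Set.range b) with hN
  have hNn : N.Normal := Subgroup.normalClosure_normal
  let f : FreeGroup (Fin n) × FreeGroup (Fin n) →* FreeGroup (Fin n) ⧸ N :=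
    (QuotientGroup.mk' N).comp (MonoidHom.snd _ _)
  let g : FreeGroup (Fin n) × FreeGroup (Fin n) →* FreeGroup (Fin n) ⧸ N :=
    (FreeGroup.lift (fun i => (QuotientGroup.mk (a i) : FreeGroup (Fin n) ⧸ N))).comp
      (MonoidHom.fst _ _)
  have hfg : ∀ x, f x = g x := by
    intro x
    have hx : x ∈ Subgroup.closure (Set.range (T a b)) := by rw [h]; trivial
    have hle : Subgroup.closure (Set.range (T a b)) ≤ MonoidHom.eqLocus f g := by
      rw [Subgroup.closure_le]
      rintro _ ⟨y, rfl⟩
      rcases y with i | j
      · change (QuotientGroup.mk (a i) : FreeGroup (Fin n) ⧸ N) =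
          (FreeGroup.lift (fun i => (QuotientGroup.mk (a i) : FreeGroup (Fin n) ⧸ N))) (of i)
        simp
      · change (QuotientGroup.mk (b j) : FreeGroup (Fin n) ⧸ N) =
          (FreeGroup.lift (fun i => (QuotientGroup.mk (a i) : FreeGroup (Fin n) ⧸ N))) 1
        rw [map_one, QuotientGroup.eq_one_iff]
        exact Subgroup.subset_normalClosure ⟨j, rfl⟩
    exact hle hx
  rw [eq_top_iff]
  intro v _
  have h1 := hfg (1, v)
  have h2 : g (1, v) = 1 := by
    change (FreeGroup.lift (fun i => (QuotientGroup.mk (a i) : FreeGroup (Fin n) ⧸ N))) 1 = 1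
    rw [map_one]
  rw [h2] at h1
  exact (QuotientGroup.eq_one_iff _).1 h1

/-- the new second coordinates of step one -/
def mid (c : Fin n → FreeGroup (Fin (n + s))) : Fin (n + s) → FreeGroup (Fin (n + s)) :=
  Fin.append c (fun i : Fin s => if h : i.val < n then of (Fin.castAdd s ⟨i.val, h⟩)
    else of (Fin.natAdd n i))

lemma mid_left (c : Fin n → FreeGroup (Fin (n + s))) (i : Fin n) :
    mid s c (Fin.castAdd s i) = c i := Fin.append_left _ _ _

lemma mid_right (c : Fin n → FreeGroup (Fin (n + s))) (i : Fin s) (h : i.val < n) :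
    mid s c (Fin.natAdd n i) = of (Fin.castAdd s ⟨i.val, h⟩) := by
  unfold mid
  rw [Fin.append_right, dif_pos h]

lemma mid_right' (c : Fin n → FreeGroup (Fin (n + s))) (i : Fin s) (h : ¬ i.val < n) :
    mid s c (Fin.natAdd n i) = of (Fin.natAdd n i) := by
  unfold mid
  rw [Fin.append_right, dif_neg h]

/-- step one: the trivial second coordinates become letters -/
lemma step_one {a b : Fin n → FreeGroup (Fin n)}
    (h : Subgroup.closure (Set.range (T a b)) = ⊤) :
    Nielsen (T (stA s a) (stB s b)) (T (mid s (fun i => up s (a i))) (stB s b)) := by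
  classical
  have h1 := nielsen_change (stB s b) (Finset.univ.filter (fun x => ∃ i : Fin s, x = Fin.natAdd n i))
    (stA s a) (mid s (fun i => up s (a i))) (by
      intro i hi c hc hci
      obtain ⟨i0, hi0⟩ := (Finset.mem_filter.1 hi).2
      apply letters_mem
      · intro v
        -- the image of `F_n × F_n`
        have h2 : ((1, v) : FreeGroup (Fin n) × FreeGroup (Fin n)) ∈
            Subgroup.closure (Set.range (T a b)) := by rw [h]; trivial
        let φ : FreeGroup (Fin n) × FreeGroup (Fin n) →*
            FreeGroup (Fin (n + s)) × FreeGroup (Fin (n + s)) := MonoidHom.prodMap (up s) (up s)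
        have h3 : Subgroup.closure (Set.range (T a b)) ≤
            (Subgroup.closure (T c (stB s b) '' {x | x ≠ Sum.inl i})).comap φ := by
          rw [Subgroup.closure_le]
          rintro _ ⟨y, rfl⟩
          rcases y with l | l
          · refine Subgroup.subset_closure ⟨Sum.inl (Fin.castAdd s l), ?_, ?_⟩
            · intro hh
              rw [hi0] at hh
              have := congrArg Fin.val (Sum.inl.inj hh)
              simp only [Fin.val_castAdd, Fin.val_natAdd] at this
              omega
            · have h4 : c (Fin.castAdd s l) = up s (a l) := by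
                rw [hc _ (by
                  intro hh
                  obtain ⟨l', hl'⟩ := (Finset.mem_filter.1 hh).2
                  have := congrArg Fin.val hl'
                  simp only [Fin.val_castAdd, Fin.val_natAdd] at this
                  omega)]
                simp [stA]
              change (of (Fin.castAdd s l), c (Fin.castAdd s l)) = (up s (of l), up s (a l))
              rw [h4, up_of]
          · refine Subgroup.subset_closure ⟨Sum.inr (Fin.castAdd s l), by simp, ?_⟩
            change ((1 : FreeGroup (Fin (n + s))), stB s b (Fin.castAdd s l)) =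
              (up s 1, up s (b l))
            rw [map_one]
            simp [stB]
        have h5 : ((up s 1, up s v) : FreeGroup (Fin (n + s)) × FreeGroup (Fin (n + s))) ∈
            Subgroup.closure (T c (stB s b) '' {x | x ≠ Sum.inl i}) := h3 h2
        rwa [map_one] at h5
      · intro j
        refine Subgroup.subset_closure ⟨Sum.inr (Fin.natAdd n j), by simp, ?_⟩
        change ((1 : FreeGroup (Fin (n + s))), stB s b (Fin.natAdd n j)) = _
        simp [stB])
  have h2 : (fun i => if i ∈ Finset.univ.filter (fun x : Fin (n + s) =>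
      ∃ i : Fin s, x = Fin.natAdd n i) then mid s (fun i => up s (a i)) i else stA s a i) =
      mid s (fun i => up s (a i)) := by
    funext i
    refine Fin.addCases (fun j => ?_) (fun j => ?_) i
    · split_ifs
      · rfl
      · simp [stA, mid]
    · rw [if_pos]
      rw [Finset.mem_filter]
      exact ⟨Finset.mem_univ _, j, rfl⟩
  rw [h2] at h1
  exact h1

/-- step two: the old second coordinates may be changed -/
lemma step_two (hns : n ≤ s) {a b : Fin n → FreeGroup (Fin n)}
    (hb : Subgroup.normalClosure (Set.range b) = ⊤) (c' : Fin n → FreeGroup (Fin (n + s))) :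
    Nielsen (T (mid s (fun i => up s (a i))) (stB s b)) (T (mid s c') (stB s b)) := by
  classical
  have h1 := nielsen_change (stB s b) (Finset.univ.filter (fun x => ∃ i : Fin n, x = Fin.castAdd s i))
    (mid s (fun i => up s (a i))) (mid s c') (by
      intro i hi c hc hci
      obtain ⟨i0, hi0⟩ := (Finset.mem_filter.1 hi).2
      set H := Subgroup.closure (T c (stB s b) '' {x | x ≠ Sum.inl i}) with hH
      have hcn : ∀ j : Fin s, c (Fin.natAdd n j) = mid s (fun i => up s (a i)) (Fin.natAdd n j) := by
        intro j
        apply hc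
        intro hh
        obtain ⟨l', hl'⟩ := (Finset.mem_filter.1 hh).2
        have := congrArg Fin.val hl'
        simp only [Fin.val_castAdd, Fin.val_natAdd] at this
        omega
      -- some element `(u, y_l)` of `H`
      have hy : ∀ l : Fin n, ∃ u, ((u, up s (of l)) : FreeGroup (Fin (n + s)) ×
          FreeGroup (Fin (n + s))) ∈ H := by
        intro l
        refine ⟨of (Fin.natAdd n ⟨l.val, lt_of_lt_of_le l.2 hns⟩),
          Subgroup.subset_closure ⟨Sum.inl (Fin.natAdd n ⟨l.val, lt_of_lt_of_le l.2 hns⟩), ?_, ?_⟩⟩
        · intro hh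
          rw [hi0] at hh
          have := congrArg Fin.val (Sum.inl.inj hh)
          simp only [Fin.val_castAdd, Fin.val_natAdd] at this
          omega
        · change (of _, c _) = _
          rw [hcn, up_of, mid_right s _ _ l.2]
      have hyw : ∀ w : FreeGroup (Fin n), ∃ u, ((u, up s w) : FreeGroup (Fin (n + s)) ×
          FreeGroup (Fin (n + s))) ∈ H := by
        intro w
        have hw : w ∈ Subgroup.closure (Set.range (of : Fin n → FreeGroup (Fin n))) := by
          rw [closure_of]; trivial
        induction hw using Subgroup.closure_induction with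
        | mem x hx => obtain ⟨l, rfl⟩ := hx; exact hy l
        | one => exact ⟨1, by rw [map_one]; exact one_mem H⟩
        | mul x y _ _ hx hy =>
          obtain ⟨u, hu⟩ := hx
          obtain ⟨v, hv⟩ := hy
          exact ⟨u * v, by rw [map_mul]; exact mul_mem hu hv⟩
        | inv x _ hx =>
          obtain ⟨u, hu⟩ := hx
          exact ⟨u⁻¹, by rw [map_inv]; exact inv_mem hu⟩
      let M : Subgroup (FreeGroup (Fin n)) := (H.comap (MonoidHom.inr (FreeGroup (Fin (n + s)))
        (FreeGroup (Fin (n + s))))).comap (up s)
      have hMn : M.Normal := by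
        refine ⟨fun v hv g => ?_⟩
        obtain ⟨u, hu⟩ := hyw g
        have hv' : ((1, up s v) : FreeGroup (Fin (n + s)) × FreeGroup (Fin (n + s))) ∈ H := hv
        have h2 := mul_mem (mul_mem hu hv') (inv_mem hu)
        change ((1, up s (g * v * g⁻¹)) : FreeGroup (Fin (n + s)) × FreeGroup (Fin (n + s))) ∈ H
        have h3 : ((u, up s g) : FreeGroup (Fin (n + s)) × FreeGroup (Fin (n + s))) *
            (1, up s v) * (u, up s g)⁻¹ = (1, up s (g * v * g⁻¹)) := by
          simp
        rw [h3] at h2
        exact h2
      have hM : M = ⊤ := by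
        rw [eq_top_iff, ← hb]
        apply Subgroup.normalClosure_le_normal
        rintro _ ⟨l, rfl⟩
        change ((1, up s (b l)) : FreeGroup (Fin (n + s)) × FreeGroup (Fin (n + s))) ∈ H
        refine Subgroup.subset_closure ⟨Sum.inr (Fin.castAdd s l), by simp, ?_⟩
        change ((1 : FreeGroup (Fin (n + s))), stB s b (Fin.castAdd s l)) = _
        simp [stB]
      apply letters_mem
      · intro v
        have : v ∈ M := by rw [hM]; trivial
        exact this
      · intro j
        refine Subgroup.subset_closure ⟨Sum.inr (Fin.natAdd n j), by simp, ?_⟩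
        change ((1 : FreeGroup (Fin (n + s))), stB s b (Fin.natAdd n j)) = _
        simp [stB])
  have h2 : (fun i => if i ∈ Finset.univ.filter (fun x : Fin (n + s) =>
      ∃ i : Fin n, x = Fin.castAdd s i) then mid s c' i else mid s (fun i => up s (a i)) i) =
      mid s c' := by
    funext i
    refine Fin.addCases (fun j => ?_) (fun j => ?_) i
    · rw [if_pos]
      rw [Finset.mem_filter]
      exact ⟨Finset.mem_univ _, j, rfl⟩
    · split_ifs
      · rfl
      · simp [mid]
  rw [h2] at h1
  exact h1

/-- **The stable criterion**, for every generating normal form and `s ≥ n`. -/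
theorem stable_iff (hns : n ≤ s) {a b : Fin n → FreeGroup (Fin n)}
    (h : Subgroup.closure (Set.range (T a b)) = ⊤) :
    Nielsen (std (n + s)) (T (stA s a) (stB s b)) ↔ AC of (stB s b) := by
  constructor
  · intro hN
    rw [std_eq] at hN
    exact ac_of_nielsen hN
  · intro hA
    set c' : Fin n → FreeGroup (Fin (n + s)) :=
      fun l => of (Fin.natAdd n ⟨l.val, lt_of_lt_of_le l.2 hns⟩) with hc'
    have h1 := nl_trans (step_one s h) (step_two s hns (normal_of_gen h) c')
    have hgen : Subgroup.closure (Set.range (mid s c')) = ⊤ := by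
      rw [eq_top_iff, ← closure_of, Subgroup.closure_le]
      rintro _ ⟨i, rfl⟩
      refine Fin.addCases (fun j => ?_) (fun j => ?_) i
      · refine Subgroup.subset_closure ⟨Fin.natAdd n ⟨j.val, lt_of_lt_of_le j.2 hns⟩, ?_⟩
        exact mid_right s _ _ j.2
      · by_cases hj : j.val < n
        · refine Subgroup.subset_closure ⟨Fin.castAdd s ⟨j.val, hj⟩, ?_⟩
          rw [mid_left]
        · refine Subgroup.subset_closure ⟨Fin.natAdd n j, ?_⟩
          exact mid_right' s _ _ hj
    rw [std_eq]
    exact nl_trans (nl_trans (nielsen_of_basis _ (mid s c')) (nielsen_of_ac hgen hA)) (nl_symm h1)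

/-- the case of the tuples `T(y; b)`: every number of stabilizations -/
theorem stable_iff_of (b : Fin n → FreeGroup (Fin n)) :
    Nielsen (std (n + s)) (T (stA s of) (stB s b)) ↔ AC of (stB s b) := by
  constructor
  · intro hN
    rw [std_eq] at hN
    exact ac_of_nielsen hN
  · intro hA
    rw [std_eq]
    refine nl_trans (nl_trans (nielsen_of_basis _ of) (nielsen_of_ac (closure_of _) hA)) ?_
    classical
    have h1 := nielsen_change (stB s b)
      (Finset.univ.filter (fun x => ∃ i : Fin s, x = Fin.natAdd n i)) of (stA s of) (by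
        intro i hi c hc hci
        obtain ⟨i0, rfl⟩ := (Finset.mem_filter.1 hi).2
        have h2 : ((1 : FreeGroup (Fin (n + s))), (c (Fin.natAdd n i0))⁻¹ *
            stA s (of : Fin n → FreeGroup (Fin n)) (Fin.natAdd n i0)) =
            ((1, of (Fin.natAdd n i0)) : FreeGroup (Fin (n + s)) × FreeGroup (Fin (n + s)))⁻¹ := by
          rw [hci]
          simp [stA]
        rw [h2]
        refine inv_mem (Subgroup.subset_closure ⟨Sum.inr (Fin.natAdd n i0), by simp, ?_⟩)
        change ((1 : FreeGroup (Fin (n + s))), stB s b (Fin.natAdd n i0)) = _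
        simp [stB])
    have h2 : (fun i => if i ∈ Finset.univ.filter (fun x : Fin (n + s) =>
        ∃ i : Fin s, x = Fin.natAdd n i) then stA s (of : Fin n → FreeGroup (Fin n)) i
        else of i) = stA s of := by
      funext i
      refine Fin.addCases (fun j => ?_) (fun j => ?_) i
      · split_ifs
        · rfl
        · simp [stA, up_of]
      · rw [if_pos]
        rw [Finset.mem_filter]
        exact ⟨Finset.mem_univ _, j, rfl⟩
    rw [h2] at h1
    exact h1

end stable

end Pool.Agent.H46.NE
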