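import Pool.Agent.H46.NE.Sim

set_option autoImplicit false

/-!
# Tuples of `F(L) × P` as states (MP_fabc18_al)

A block is a list of named letters (an edge and a sign) with an element of `P`.
-/

namespace Pool.Agent.H46.NE

variable {ε L P : Type*} [Group P]

/-- a named word with an element of `P` -/
abbrev Blk (ε P : Type*) := List (ε × Bool) × P

/-- the constraints of a path from `v` to `w`; the last one carries `g` -/
def chn : Vx ε → List (ε × Bool) → P → Vx ε → List (Vx ε × P × Vx ε)
  | v, [], g, w => [(v, g, w)]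
  | v, x :: p, g, w => (v, 1, some (x.1, !x.2)) :: chn (some (x.1, x.2)) p g w

/-- the constraints of a path without the last one -/
def seg : Vx ε → List (ε × Bool) → List (Vx ε × P × Vx ε)
  | _, [] => []
  | v, x :: p => (v, 1, some (x.1, !x.2)) :: seg (some (x.1, x.2)) p

/-- the last vertex of a path -/
def endv : Vx ε → List (ε × Bool) → Vx ε
  | v, [] => v
  | _, x :: p => endv (some (x.1, x.2)) p

lemma chn_append (v : Vx ε) (p q : List (ε × Bool)) (g : P) (w : Vx ε) :
    chn v (p ++ q) g w = seg v p ++ chn (endv v p) q g w := by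
  induction p generalizing v with
  | nil => rfl
  | cons x p ih => simp only [List.cons_append, chn, seg, endv, ih]

lemma chn_eq (v : Vx ε) (p : List (ε × Bool)) (g : P) (w : Vx ε) :
    chn v p g w = seg v p ++ [(endv v p, g, w)] := by
  have := chn_append v p [] g w
  rw [List.append_nil] at this
  exact this

lemma endv_cases (v : Vx ε) (p : List (ε × Bool)) :
    endv v p = v ∨ ∃ x ∈ p, endv v p = some (x.1, x.2) := by
  induction p generalizing v with
  | nil => exact Or.inl rfl
  | cons x p ih =>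
    simp only [endv]
    rcases ih (some (x.1, x.2)) with h | ⟨y, hy, h⟩
    · exact Or.inr ⟨x, List.mem_cons_self, h⟩
    · exact Or.inr ⟨y, List.mem_cons_of_mem _ hy, h⟩

/-- the first constraint depends on the start, the others do not -/
lemma chn_head (p : List (ε × Bool)) (g : P) (w : Vx ε) :
    ∃ (c : P) (b : Vx ε) (rest : List (Vx ε × P × Vx ε)), ∀ v, chn v p g w = (v, c, b) :: rest := by
  cases p with
  | nil => exact ⟨g, w, [], fun v => rfl⟩
  | cons x p => exact ⟨1, some (x.1, !x.2), chn (some (x.1, x.2)) p g w, fun v => rfl⟩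

lemma mem_chn {v : Vx ε} {p : List (ε × Bool)} {g : P} {w : Vx ε} {c : Vx ε × P × Vx ε}
    (h : c ∈ chn v p g w) :
    (c.1 = v ∨ ∃ x ∈ p, ∃ s, c.1 = some (x.1, s)) ∧
      (c.2.2 = w ∨ ∃ x ∈ p, ∃ s, c.2.2 = some (x.1, s)) := by
  induction p generalizing v with
  | nil =>
    simp only [chn, List.mem_singleton] at h
    subst h
    exact ⟨Or.inl rfl, Or.inl rfl⟩
  | cons x p ih =>
    simp only [chn, List.mem_cons] at h
    rcases h with rfl | h
    · exact ⟨Or.inl rfl, Or.inr ⟨x, List.mem_cons_self, _, rfl⟩⟩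
    · obtain ⟨h1, h2⟩ := ih h
      refine ⟨Or.inr ?_, ?_⟩
      · rcases h1 with h1 | ⟨y, hy, s, h1⟩
        · exact ⟨x, List.mem_cons_self, _, h1⟩
        · exact ⟨y, List.mem_cons_of_mem _ hy, s, h1⟩
      · rcases h2 with h2 | ⟨y, hy, s, h2⟩
        · exact Or.inl h2
        · exact Or.inr ⟨y, List.mem_cons_of_mem _ hy, s, h2⟩

/-- a vertex of another edge does not occur in a path -/
lemma chn_ne {v : Vx ε} {p : List (ε × Bool)} {g : P} {w : Vx ε} {e : ε} {t : Bool}
    (he : e ∉ p.map Prod.fst) (hv : v ≠ some (e, t)) (hw : w ≠ some (e, t)) :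
    ∀ c ∈ chn v p g w, c.1 ≠ some (e, t) ∧ c.2.2 ≠ some (e, t) := by
  intro c hc
  obtain ⟨h1, h2⟩ := mem_chn hc
  constructor
  · rcases h1 with h1 | ⟨y, hy, s, h1⟩
    · rw [h1]; exact hv
    · rw [h1]
      intro hh
      simp only [Option.some.injEq, Prod.mk.injEq] at hh
      exact he (hh.1 ▸ List.mem_map_of_mem hy)
  · rcases h2 with h2 | ⟨y, hy, s, h2⟩
    · rw [h2]; exact hw
    · rw [h2]
      intro hh
      simp only [Option.some.injEq, Prod.mk.injEq] at hh
      exact he (hh.1 ▸ List.mem_map_of_mem hy)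

lemma seg_sub_chn (v : Vx ε) (p : List (ε × Bool)) (g : P) (w : Vx ε) :
    ∀ c ∈ seg v p, c ∈ chn v p g w := by
  intro c hc
  rw [chn_eq]
  exact List.mem_append_left _ hc

/-- the constraints of a block -/
def cst (b : Blk ε P) : List (Vx ε × P × Vx ε) := chn none b.1 b.2 none

/-- the constraints of a list of blocks -/
def csts (B : List (Blk ε P)) : List (Vx ε × P × Vx ε) := B.flatMap cst

/-- the names used in a list of blocks -/
def nms (B : List (Blk ε P)) : List ε := B.flatMap (fun b => b.1.map Prod.fst)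

/-- the set of used names -/
def Us (B : List (Blk ε P)) : Set ε := {e | e ∈ nms B}

/-- the initial state of a list of blocks -/
noncomputable def ini (B : List (Blk ε P)) : St ε P := ⟨⊥, (KS0 _ _).adds (csts B)⟩

/-- the word of a block -/
def wd (lab : ε → L) (b : Blk ε P) : List (L × Bool) × P :=
  (b.1.map (fun x => (lab x.1, x.2)), b.2)

lemma csts_cons (b : Blk ε P) (B : List (Blk ε P)) : csts (b :: B) = cst b ++ csts B := rfl

lemma nms_cons (b : Blk ε P) (B : List (Blk ε P)) : nms (b :: B) = b.1.map Prod.fst ++ nms B := rfl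

lemma csts_append (B C : List (Blk ε P)) : csts (B ++ C) = csts B ++ csts C := by
  simp [csts]

lemma nms_append (B C : List (Blk ε P)) : nms (B ++ C) = nms B ++ nms C := by
  simp [nms]

lemma csts_ne {B : List (Blk ε P)} {e : ε} (he : e ∉ nms B) (t : Bool) :
    ∀ c ∈ csts B, c.1 ≠ some (e, t) ∧ c.2.2 ≠ some (e, t) := by
  intro c hc
  obtain ⟨b, hb, hcb⟩ := List.mem_flatMap.1 hc
  refine chn_ne ?_ (by simp) (by simp) c hcb
  intro hh
  exact he (List.mem_flatMap.2 ⟨b, hb, hh⟩)

lemma bot_iff {e f : ε} : (⊥ : Setoid ε) e f ↔ e = f := Iff.rfl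

lemma mk_valid {lab : ε → L} {K : KS (Vx ε) P} (hK : K.Valid) :
    (⟨⊥, K⟩ : St ε P).Valid lab := by
  refine ⟨hK, ?_, ?_⟩
  · intro e f h
    rw [bot_iff.1 h]
  · intro e f h
    rw [bot_iff.1 h]
    exact ⟨1, fun s => hK.one _⟩

lemma ini_valid (lab : ε → L) (B : List (Blk ε P)) : (ini B).Valid lab :=
  mk_valid (KS.valid_adds KS0_valid _)

/-- for every naming of the list of words `W`, the process ends with the class `l` -/
def GoodW (W : List (List (L × Bool) × P)) (l : ACq P) : Prop :=
  ∀ (ε : Type) (lab : ε → L) (B : List (Blk ε P)), (nms B).Nodup → B.map (wd lab) = W →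
    Good lab (Us B) (ini B) l

lemma ini_perm {B C : List (Blk ε P)} (h : B.Perm C) : ini B = ini C := by
  have h1 : (csts B).Perm (csts C) := h.flatMap_right _
  unfold ini
  rw [KS.adds_perm KS0_valid h1]

lemma Us_perm {B C : List (Blk ε P)} (h : B.Perm C) : Us B = Us C := by
  have h1 : (nms B).Perm (nms C) := h.flatMap_right _
  ext e
  exact h1.mem_iff

lemma perm_lift {α β : Type*} (f : α → β) {W W' : List β} (h : W.Perm W') :
    ∀ B' : List α, B'.map f = W' → ∃ B : List α, B.Perm B' ∧ B.map f = W := by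
  induction h with
  | nil =>
    intro B' hB'
    exact ⟨B', List.Perm.refl _, hB'⟩
  | cons x _ ih =>
    intro B' hB'
    cases B' with
    | nil => simp at hB'
    | cons b B' =>
      rw [List.map_cons, List.cons.injEq] at hB'
      obtain ⟨B, h1, h2⟩ := ih B' hB'.2
      exact ⟨b :: B, h1.cons b, by rw [List.map_cons, h2, hB'.1]⟩
  | swap x y l =>
    intro B' hB'
    cases B' with
    | nil => simp at hB'
    | cons b B' =>
      cases B' with
      | nil => simp at hB'
      | cons c B' =>
        rw [List.map_cons, List.map_cons, List.cons.injEq, List.cons.injEq] at hB'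
        exact ⟨c :: b :: B', List.Perm.swap _ _ _,
          by rw [List.map_cons, List.map_cons, hB'.1, hB'.2.1, hB'.2.2]⟩
  | trans _ _ ih1 ih2 =>
    intro B' hB'
    obtain ⟨B1, h1, h2⟩ := ih2 B' hB'
    obtain ⟨B2, h3, h4⟩ := ih1 B1 h2
    exact ⟨B2, h3.trans h1, h4⟩

theorem GoodW.perm {W W' : List (List (L × Bool) × P)} {l : ACq P} (h : GoodW W l)
    (hp : W.Perm W') : GoodW W' l := by
  intro ε lab B' hnd hB'
  obtain ⟨B, h1, h2⟩ := perm_lift (wd lab) hp B' hB'
  have h3 : (nms B).Nodup := (List.Perm.nodup_iff (h1.flatMap_right _)).2 hnd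
  have := h ε lab B h3 h2
  rw [← ini_perm h1, ← Us_perm h1]
  exact this

end Pool.Agent.H46.NE
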